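import Mathlib

/-!
A self-filling family of closed subsets of the Baire space which is not resolvable.

A point is good if all its values are nonzero.  The coordinates are split into rows by the pairing
function.  A row of a good point is top if its first entry is `1`.  The family consists of the basic
clopen sets without good points and of the sets `V v n`.
-/

set_option autoImplicit false

namespace Pool.Agent.H351Z.Fill

open Set

abbrev X : Type := ℕ → ℕ

def Good (a : X) : Prop := ∀ s, a s ≠ 0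

def Alive (a : X) (s : ℕ) : Prop := ∀ t ≤ s, a t ≠ 0

def row (s : ℕ) : ℕ := (Nat.unpair s).1

def hd (n : ℕ) : ℕ := Nat.pair n 0

theorem row_hd (n : ℕ) : row (hd n) = n := by simp [row, hd]

theorem row_le (s : ℕ) : row s ≤ s := Nat.unpair_left_le s

theorem le_hd (n : ℕ) : n ≤ hd n := Nat.left_le_pair n 0

def Agree (n : ℕ) (a b : X) : Prop := ∀ s, row s < n → a s = b s

def Irr (y : X) : Prop := ∀ n, ∃ m, n < m ∧ y (hd m) = 1

def cyl (z : X) (n : ℕ) : Set X :=
  {a | (∀ j < n, Alive a (hd j)) ∧ ∀ s, row s < n → Alive a s → a s = z s}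

def Top (z : X) (n : ℕ) : Set X := {a | a ∈ cyl z n ∧ Alive a (hd n) ∧ a (hd n) = 1}

def S (y : X) : Set X := {a | Irr y ∧ ∃ s, a s = 0 ∧ ∀ t < s, a t = y t}

def pt (v : X) (n : ℕ) : X := fun s =>
  if row s < n then v s else if s = hd n then 1 else v (Nat.pair n (s + 1))

def enc (y : X) (n : ℕ) : X := fun s =>
  if row s = n then (if (Nat.unpair s).2 = 0 then 2 else y ((Nat.unpair s).2 - 1)) else y s

def V (v : X) (n : ℕ) : Set X := cyl v (n + 1) ∪ (Top v n \ S (pt v n))

def B (a : X) (k : ℕ) : Set X := {b | ∀ t < k, b t = a t}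

def F : Set (Set X) :=
  {U | (∃ v n, Good v ∧ v (hd n) ≠ 1 ∧ U = V v n) ∨ (∃ a k s, s < k ∧ a s = 0 ∧ U = B a k)}

theorem isClosed_of {A : Set X} (h : ∀ a, a ∉ A → ∃ k, ∀ b, (∀ t < k, b t = a t) → b ∉ A) :
    IsClosed A := by
  rw [← isOpen_compl_iff, isOpen_iff_forall_mem_open]
  intro a ha
  obtain ⟨k, hk⟩ := h a ha
  exact ⟨PiNat.cylinder a k, fun b hb => hk b hb, PiNat.isOpen_cylinder _ a k,
    PiNat.self_mem_cylinder a k⟩

theorem alive_congr {a b : X} {s k : ℕ} (hs : s < k) (h : ∀ t < k, b t = a t) :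
    Alive b s ↔ Alive a s := by
  unfold Alive
  constructor
  · intro H t ht; rw [← h t (by omega)]; exact H t ht
  · intro H t ht; rw [h t (by omega)]; exact H t ht

theorem isClosed_cyl (z : X) (n : ℕ) : IsClosed (cyl z n) := by
  apply isClosed_of
  intro a ha
  by_cases h1 : ∀ j < n, Alive a (hd j)
  · have h2 : ¬ ∀ s, row s < n → Alive a s → a s = z s := fun h => ha ⟨h1, h⟩
    push Not at h2
    obtain ⟨s, hs, hal, hne⟩ := h2
    refine ⟨s + 1, fun b hb hb' => hne ?_⟩
    rw [← hb s (by omega)]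
    exact hb'.2 s hs ((alive_congr (Nat.lt_succ_self s) hb).2 hal)
  · push Not at h1
    obtain ⟨j, hj, hal⟩ := h1
    exact ⟨hd j + 1, fun b hb hb' =>
      hal ((alive_congr (Nat.lt_succ_self _) hb).1 (hb'.1 j hj))⟩

theorem isClosed_top (z : X) (n : ℕ) : IsClosed (Top z n) := by
  have : Top z n = cyl z n ∩ {a | Alive a (hd n) ∧ a (hd n) = 1} := rfl
  rw [this]
  refine (isClosed_cyl z n).inter (isClosed_of ?_)
  intro a ha
  refine ⟨hd n + 1, fun b hb hb' => ha ⟨(alive_congr (Nat.lt_succ_self _) hb).1 hb'.1, ?_⟩⟩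
  rw [← hb _ (Nat.lt_succ_self _)]
  exact hb'.2

theorem isOpen_S (y : X) : IsOpen (S y) := by
  rw [← isClosed_compl_iff]
  apply isClosed_of
  intro a ha
  simp only [mem_compl_iff, not_not] at ha ⊢
  obtain ⟨hi, s, hs, ht⟩ := ha
  refine ⟨s + 1, fun b hb => ⟨hi, s, ?_, fun t ht' => ?_⟩⟩
  · rw [hb s (by omega), hs]
  · rw [hb t (by omega), ht t ht']

theorem isClosed_V (v : X) (n : ℕ) : IsClosed (V v n) :=
  (isClosed_cyl _ _).union ((isClosed_top _ _).sdiff (isOpen_S _))

theorem isClosed_B (a : X) (k : ℕ) : IsClosed (B a k) := by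
  apply isClosed_of
  intro b hb
  refine ⟨k, fun c hc hc' => hb fun t ht => ?_⟩
  rw [← hc t ht]
  exact hc' t ht

theorem isClosed_F : ∀ U ∈ F, IsClosed U := by
  rintro U (⟨v, n, -, -, rfl⟩ | ⟨a, k, s, -, -, rfl⟩)
  · exact isClosed_V v n
  · exact isClosed_B a k

theorem Good.alive {a : X} (h : Good a) (s : ℕ) : Alive a s := fun t _ => h t

theorem mem_cyl_good {a z : X} {n : ℕ} (h : Good a) : a ∈ cyl z n ↔ Agree n a z :=
  ⟨fun H s hs => H.2 s hs (h.alive s), fun H => ⟨fun _ _ => h.alive _, fun s hs _ => H s hs⟩⟩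

theorem not_mem_S {a y : X} (h : Good a) : a ∉ S y := fun ⟨_, s, hs, _⟩ => h s hs

theorem cyl_congr {z w : X} {n : ℕ} (h : Agree n z w) : cyl z n = cyl w n := by
  ext a
  simp only [cyl, mem_setOf_eq]
  refine and_congr Iff.rfl (forall_congr' fun s => forall_congr' fun hs => ?_)
  rw [h s hs]

theorem cyl_mono (z : X) {m n : ℕ} (h : m ≤ n) : cyl z n ⊆ cyl z m :=
  fun _ ha => ⟨fun j hj => ha.1 j (by omega), fun s hs => ha.2 s (by omega)⟩

theorem Agree.mono {a b : X} {m n : ℕ} (H : Agree n a b) (h : m ≤ n) : Agree m a b :=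
  fun s hs => H s (by omega)

theorem Agree.symm {a b : X} {n : ℕ} (H : Agree n a b) : Agree n b a :=
  fun s hs => (H s hs).symm

theorem Agree.trans {a b c : X} {n : ℕ} (H : Agree n a b) (H' : Agree n b c) : Agree n a c :=
  fun s hs => (H s hs).trans (H' s hs)

theorem V_sub (v : X) (n : ℕ) : V v n ⊆ cyl v n := by
  rintro a (h | h)
  · exact cyl_mono v (Nat.le_succ n) h
  · exact h.1.1

theorem pt_congr {v w : X} {n : ℕ} (h : Agree (n + 1) v w) : pt v n = pt w n := by
  funext s
  unfold pt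
  split_ifs with h1 h2
  · exact h s (by omega)
  · rfl
  · exact h _ (by simp [row])

theorem V_congr {v w : X} {n : ℕ} (h : Agree (n + 1) v w) : V v n = V w n := by
  unfold V Top
  rw [cyl_congr h, pt_congr h, cyl_congr (h.mono (Nat.le_succ n))]

theorem pt_good {v : X} (h : Good v) (n : ℕ) : Good (pt v n) := by
  intro s
  unfold pt
  split_ifs
  · exact h _
  · exact one_ne_zero
  · exact h _

theorem pt_agree (v : X) (n : ℕ) : Agree n (pt v n) v := by
  intro s hs
  simp [pt, hs]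

theorem pt_hd (v : X) (n : ℕ) : pt v n (hd n) = 1 := by
  simp [pt, row_hd]

theorem enc_good {y : X} (h : Good y) (n : ℕ) : Good (enc y n) := by
  intro s
  unfold enc
  split_ifs
  · exact two_ne_zero
  · exact h _
  · exact h _

theorem enc_agree (y : X) (n : ℕ) : Agree n (enc y n) y := by
  intro s hs
  have : row s ≠ n := by omega
  simp [enc, this]

theorem enc_hd (y : X) (n : ℕ) : enc y n (hd n) = 2 := by
  simp [enc, row, hd]

theorem pt_enc {y : X} {n : ℕ} (h : y (hd n) = 1) : pt (enc y n) n = y := by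
  funext s
  unfold pt
  split_ifs with h1 h2
  · exact enc_agree y n s h1
  · rw [h2, h]
  · simp [enc, row]

theorem self_mem_V {v : X} (h : Good v) (n : ℕ) : v ∈ V v n :=
  Or.inl ((mem_cyl_good h).2 fun _ _ => rfl)

theorem top_mem_V {a v : X} {n : ℕ} (ha : Good a) (h : Agree n a v) (h1 : a (hd n) = 1) :
    a ∈ V v n :=
  Or.inr ⟨⟨(mem_cyl_good ha).2 h, ha.alive _, h1⟩, not_mem_S ha⟩

theorem mem_V_good {a v : X} {n : ℕ} (ha : Good a) (h : a ∈ V v n) :
    Agree (n + 1) a v ∨ (Agree n a v ∧ a (hd n) = 1) := by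
  rcases h with h | h
  · exact Or.inl ((mem_cyl_good ha).1 h)
  · exact Or.inr ⟨(mem_cyl_good ha).1 h.1.1, h.1.2.2⟩

/-- a member of the family around a good point, inside a given cylinder -/
theorem exists_small {a : X} (ha : Good a) (m : ℕ) :
    ∃ W ∈ F, a ∈ W ∧ W ⊆ cyl a m ∧ (a (hd m) = 1 → Disjoint W (S a)) := by
  by_cases h : a (hd m) = 1
  · refine ⟨V (enc a m) m, Or.inl ⟨_, m, enc_good ha m, by rw [enc_hd]; norm_num, rfl⟩,
      top_mem_V ha (enc_agree a m).symm h, ?_, fun _ => ?_⟩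
    · rw [← cyl_congr (enc_agree a m)]
      exact V_sub _ _
    · rw [Set.disjoint_left]
      rintro b (hb | hb) hS
      · obtain ⟨-, s, hs, ht⟩ := hS
        have hal := hb.1 m (Nat.lt_succ_self m)
        have h2 := hb.2 (hd m) (by rw [row_hd]; omega) hal
        have h3 : hd m < s := by
          by_contra hc
          exact hal s (by omega) hs
        rw [enc_hd, ht _ h3, h] at h2
        omega
      · rw [pt_enc h] at hb
        exact hb.2 hS
  · exact ⟨V a m, Or.inl ⟨a, m, ha, h, rfl⟩, self_mem_V ha m, V_sub _ _, fun h' => absurd h' h⟩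

theorem cyl_sub_top {a v : X} {n : ℕ} (h : Agree n a v) (h1 : a (hd n) = 1) :
    cyl a (n + 1) ⊆ Top v n := by
  intro b hb
  have hal := hb.1 n (Nat.lt_succ_self n)
  refine ⟨?_, hal, ?_⟩
  · rw [← cyl_congr h]
    exact cyl_mono a (Nat.le_succ n) hb
  · rw [hb.2 (hd n) (by rw [row_hd]; omega) hal, h1]

theorem mem_V_congr {a b v : X} {n k s : ℕ} (hs : s < k) (h0 : a s = 0) (hv : Good v)
    (h : ∀ t < k, b t = a t) (ha : a ∈ V v n) : b ∈ V v n := by
  have hal : ∀ t, Alive b t → t < k := by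
    intro t ht
    by_contra hc
    exact ht s (by omega) (by rw [h s hs, h0])
  have hal' : ∀ t, Alive a t → t < k := by
    intro t ht
    by_contra hc
    exact ht s (by omega) h0
  have hc : ∀ z m, a ∈ cyl z m → b ∈ cyl z m := by
    intro z m hz
    refine ⟨fun j hj => (alive_congr (hal' _ (hz.1 j hj)) h).2 (hz.1 j hj), fun t ht hb => ?_⟩
    rw [h t (hal t hb)]
    exact hz.2 t ht ((alive_congr (hal t hb) h).1 hb)
  rcases ha with ha | ha
  · exact Or.inl (hc _ _ ha)
  · refine Or.inr ⟨⟨hc _ _ ha.1.1, (alive_congr (hal' _ ha.1.2.1) h).2 ha.1.2.1, ?_⟩, ?_⟩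
    · rw [h _ (hal' _ ha.1.2.1)]
      exact ha.1.2.2
    · rintro ⟨hi, u, hu, ht⟩
      have huk : u < k := by
        by_contra hc'
        have h1 := ht s (by omega)
        rw [h s hs, h0] at h1
        exact pt_good hv n s h1.symm
      refine ha.2 ⟨hi, u, by rw [← h u huk, hu], fun t ht' => ?_⟩
      rw [← h t (by omega), ht t ht']

theorem selfFilling : ∀ U ∈ F, ∀ a ∈ U, ∃ W ∈ F, W ≠ U ∧ a ∈ W ∧ W ⊆ U := by
  rintro U (⟨v, n, hv, hv1, rfl⟩ | ⟨c, k, s, hs, h0, rfl⟩) a ha
  · by_cases hg : Good a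
    · have key : ∀ W : Set X, W ⊆ cyl a (n + 1) → W ≠ V v n := by
        rintro W hW rfl
        have h1 := (mem_cyl_good hv).1 (hW (self_mem_V hv n)) (hd n) (by rw [row_hd]; omega)
        have h2 := (mem_cyl_good (pt_good hv n)).1
          (hW (top_mem_V (pt_good hv n) (pt_agree v n) (pt_hd v n))) (hd n)
          (by rw [row_hd]; omega)
        rw [pt_hd] at h2
        exact hv1 (h1.trans h2.symm)
      rcases mem_V_good hg ha with h | ⟨h, h1⟩
      · obtain ⟨W, hWF, haW, hW, -⟩ := exists_small hg (n + 1)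
        refine ⟨W, hWF, key W hW, haW, fun b hb => Or.inl ?_⟩
        rw [← cyl_congr h]
        exact hW hb
      · by_cases hi : Irr (pt v n)
        · by_cases he : a = pt v n
          · obtain ⟨m, hm, hm1⟩ := hi n
            rw [← he] at hm1
            obtain ⟨W, hWF, haW, hW, hd'⟩ := exists_small hg m
            have hW' : W ⊆ cyl a (n + 1) := hW.trans (cyl_mono a hm)
            refine ⟨W, hWF, key W hW', haW, fun b hb => Or.inr ⟨cyl_sub_top h h1 (hW' hb), ?_⟩⟩
            rw [← he]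
            exact Set.disjoint_left.1 (hd' hm1) hb
          · obtain ⟨s, hs⟩ := Function.ne_iff.1 he
            obtain ⟨W, hWF, haW, hW, -⟩ := exists_small hg (n + s + 1)
            have hW' : W ⊆ cyl a (n + 1) := hW.trans (cyl_mono a (by omega))
            refine ⟨W, hWF, key W hW', haW, fun b hb => Or.inr ⟨cyl_sub_top h h1 (hW' hb), ?_⟩⟩
            rintro ⟨-, u, hu, ht⟩
            have hal : Alive b s := fun t ht' =>
              (hW hb).1 s (by omega) t (ht'.trans (le_hd s))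
            have h2 := (hW hb).2 s (by have := row_le s; omega) hal
            have h3 : s < u := by
              by_contra hc
              exact hal u (by omega) hu
            exact hs (h2.symm.trans (ht s h3))
        · obtain ⟨W, hWF, haW, hW, -⟩ := exists_small hg (n + 1)
          exact ⟨W, hWF, key W hW, haW,
            fun b hb => Or.inr ⟨cyl_sub_top h h1 (hW hb), fun hS => hi hS.1⟩⟩
    · unfold Good at hg
      push Not at hg
      obtain ⟨s, hs⟩ := hg
      refine ⟨B a (s + 1), Or.inr ⟨a, s + 1, s, by omega, hs, rfl⟩, ?_, fun _ _ => rfl,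
        fun b hb => mem_V_congr (Nat.lt_succ_self s) hs hv hb ha⟩
      intro he
      have h1 : v ∈ B a (s + 1) := he ▸ self_mem_V hv n
      exact hv s ((h1 s (by omega)).trans hs)
  · refine ⟨B a (k + 1), Or.inr ⟨a, k + 1, s, by omega, (ha s hs).trans h0, rfl⟩, ?_,
      fun _ _ => rfl, fun b hb t ht => (hb t (by omega)).trans (ha t ht)⟩
    intro he
    have h1 : Function.update a k (a k + 1) ∈ B c k := by
      intro t ht
      rw [Function.update_of_ne (by omega)]
      exact ha t ht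
    rw [← he] at h1
    have h2 := h1 k (by omega)
    simp at h2

/-- one step of the recursion -/
theorem exists_step (F0 : Set (Set X)) (z : X) (hz : Good z) (m : ℕ) :
    ∃ w : X, Good w ∧ Agree m w z ∧
      ((w (hd m) = 1 ∧ ∀ v, Good v → Agree m v z → v (hd m) ≠ 1 → V v m ∈ F0) ∨
        (w (hd m) ≠ 1 ∧ V w m ∉ F0)) := by
  by_cases h : ∀ v, Good v → Agree m v z → v (hd m) ≠ 1 → V v m ∈ F0
  · exact ⟨pt z m, pt_good hz m, pt_agree z m, Or.inl ⟨pt_hd z m, h⟩⟩
  · push Not at h
    obtain ⟨v, h1, h2, h3, h4⟩ := h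
    exact ⟨v, h1, h2, Or.inr ⟨h3, h4⟩⟩

theorem exists_point (F0 : Set (Set X)) : ∃ z : X, Good z ∧ ∀ m,
    (z (hd m) = 1 ∧ ∀ v, Good v → Agree m v z → v (hd m) ≠ 1 → V v m ∈ F0) ∨
      (z (hd m) ≠ 1 ∧ V z m ∉ F0) := by
  choose f hf1 hf2 hf3 using exists_step F0
  let Z : ℕ → {z : X // Good z} := fun m =>
    Nat.rec ⟨fun _ => 1, fun _ => one_ne_zero⟩ (fun m p => ⟨f p.1 p.2 m, hf1 p.1 p.2 m⟩) m
  have hZ : ∀ m, (Z (m + 1)).1 = f (Z m).1 (Z m).2 m := fun m => rfl
  have hag : ∀ m k, Agree m (Z (m + k)).1 (Z m).1 := by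
    intro m k
    induction k with
    | zero => exact fun _ _ => rfl
    | succ k ih =>
      refine Agree.trans ?_ ih
      rw [← add_assoc, hZ]
      exact (hf2 _ _ _).mono (by omega)
  let z : X := fun s => (Z (row s + 1)).1 s
  have hz : ∀ m, Agree m z (Z m).1 := by
    intro m s hs
    obtain ⟨k, rfl⟩ := Nat.exists_eq_add_of_le (Nat.succ_le_of_lt hs)
    exact (hag (row s + 1) k s (Nat.lt_succ_self _)).symm
  refine ⟨z, fun s => (Z (row s + 1)).2 s, fun m => ?_⟩
  have h1 : z (hd m) = (Z (m + 1)).1 (hd m) := hz (m + 1) _ (by rw [row_hd]; omega)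
  rw [h1, V_congr (hz (m + 1)), hZ]
  rcases hf3 (Z m).1 (Z m).2 m with h | h
  · exact Or.inl ⟨h.1, fun v hv ha => h.2 v hv (ha.trans (hz m))⟩
  · exact Or.inr h

theorem eq_V {W : Set X} (hW : W ∈ F) {z : X} (hz : Good z) (h : z ∈ W) :
    ∃ v n, Good v ∧ v (hd n) ≠ 1 ∧ W = V v n := by
  rcases hW with hW | ⟨a, k, s, hs, h0, rfl⟩
  · exact hW
  · exact absurd ((h s hs).trans h0) (hz s)

theorem not_resolvable (F0 F1 : Set (Set X)) (hU : F0 ∪ F1 = F) (hd' : Disjoint F0 F1)
    (h0 : ∀ U ∈ F, ∀ a ∈ U, ∃ W ∈ F0, a ∈ W ∧ W ⊆ U)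
    (h1 : ∀ U ∈ F, ∀ a ∈ U, ∃ W ∈ F1, a ∈ W ∧ W ⊆ U) : False := by
  obtain ⟨z, hz, hm⟩ := exists_point F0
  by_cases hi : Irr z
  · obtain ⟨n, -, hn⟩ := hi 0
    have hF : V (enc z n) n ∈ F := Or.inl ⟨_, n, enc_good hz n, by rw [enc_hd]; norm_num, rfl⟩
    obtain ⟨W, hW, hzW, hWU⟩ := h1 _ hF z (top_mem_V hz (enc_agree z n).symm hn)
    obtain ⟨v, m, hv, hv1, rfl⟩ := eq_V (hU ▸ Or.inr hW) hz hzW
    rcases mem_V_good hz hzW with h | ⟨h, h2⟩
    · let N := hd n + (Finset.range (m + 1)).sup hd + 1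
      let a : X := fun t => if t < N then z t else 0
      have haS : a ∈ S z := ⟨hi, N, by simp [a], fun t ht => by simp [a, ht]⟩
      have haV : a ∈ V v m := by
        refine Or.inl ?_
        rw [← cyl_congr h]
        refine ⟨fun j hj t ht => ?_, fun s _ hal => ?_⟩
        · have h3 : hd j ≤ (Finset.range (m + 1)).sup hd :=
            Finset.le_sup (f := hd) (Finset.mem_range.2 hj)
          have h4 : t < N := by omega
          simp only [a, h4, if_true]
          exact hz t
        · have h3 := hal s le_rfl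
          by_cases h4 : s < N
          · simp [a, h4]
          · simp [a, h4] at h3
      rcases hWU haV with h3 | h3
      · have h4 := h3.2 (hd n) (by rw [row_hd]; omega) (h3.1 n (Nat.lt_succ_self n))
        have h5 : hd n < N := by omega
        simp only [a, h5, if_true, enc_hd, hn] at h4
        omega
      · rw [pt_enc hn] at h3
        exact h3.2 haS
    · rcases hm m with h3 | h3
      · exact Set.disjoint_left.1 hd' (h3.2 v hv h.symm hv1) hW
      · exact h3.1 h2
  · unfold Irr at hi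
    push Not at hi
    obtain ⟨M, hM⟩ := hi
    have hF : V z (M + 1) ∈ F := Or.inl ⟨z, M + 1, hz, hM _ (by omega), rfl⟩
    obtain ⟨W, hW, hzW, hWU⟩ := h0 _ hF z (self_mem_V hz _)
    obtain ⟨v, m, hv, hv1, rfl⟩ := eq_V (hU ▸ Or.inl hW) hz hzW
    rcases mem_V_good hz hzW with h | ⟨h, h2⟩
    · rcases hm m with h3 | h3
      · exact hv1 ((h (hd m) (by rw [row_hd]; omega)).symm.trans h3.1)
      · exact h3.2 (V_congr h ▸ hW)
    · have h3 : m < M + 1 := by
        by_contra hc
        exact hM m (by omega) h2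
      have h4 := (mem_cyl_good hv).1 (V_sub _ _ (hWU (self_mem_V hv m))) (hd m)
        (by rw [row_hd]; exact h3)
      exact hv1 (h4.trans h2)

end Pool.Agent.H351Z.Fill
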