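import Pool.Agent.H351Z.KCav

/-! Real analysis of the Karp-Sipser function. -/

set_option autoImplicit false

namespace Pool.Agent.H351Z.RG

open Filter Topology Real

noncomputable def Phi (c y : ℝ) : ℝ := po y + exp (-(c * exp (-y))) - 1

noncomputable def ts (c : ℝ) : ℕ → ℝ
  | 0 => 0
  | j + 1 => exp (-(c * ts c j))

noncomputable def hh (c y : ℝ) : ℝ := c * exp (-(c * exp (-y)))

theorem ts_nonneg (c : ℝ) (j : ℕ) : 0 ≤ ts c j := by
  cases j with
  | zero => exact le_rfl
  | succ j => exact (exp_pos _).le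

theorem hh_cont (c : ℝ) : Continuous (hh c) := by unfold hh; fun_prop

theorem hh_lt {c : ℝ} (hc : 0 < c) (y : ℝ) : hh c y < c :=
  mul_lt_of_lt_one_right hc (exp_lt_one_iff.2 (neg_neg_of_pos (by positivity)))

theorem exists_root {c : ℝ} (hc : 0 < c) : ∃ γ, γ = hh c γ ∧ (∀ x, x = hh c x → γ ≤ x) ∧
    Tendsto (fun k => c * ts c (2 * k)) atTop (𝓝 γ) := by
  have h1 : ∀ k, c * ts c (2 * (k + 1)) = hh c (c * ts c (2 * k)) := fun k => rfl
  have h2 : Monotone (hh c) := fun a b h => by unfold hh; gcongr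
  have h3 : Monotone fun k => c * ts c (2 * k) := by
    refine monotone_nat_of_le_succ fun k => ?_
    induction k with
    | zero => rw [h1]; simp only [ts, mul_zero]; unfold hh; positivity
    | succ k ih => rw [h1 (k + 1)]; exact (h1 k).le.trans (h2 ih)
  have h4 : BddAbove (Set.range fun k => c * ts c (2 * k)) := by
    refine ⟨c, ?_⟩
    rintro _ ⟨k, rfl⟩
    cases k with
    | zero => simp [ts, hc.le]
    | succ k => exact (h1 k).le.trans (hh_lt hc _).le
  have h5 := tendsto_atTop_ciSup h3 h4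
  refine ⟨_, ?_, fun x hx => le_of_tendsto' h5 fun k => ?_, h5⟩
  · exact tendsto_nhds_unique (h5.comp (tendsto_add_atTop_nat 1))
      (((hh_cont c).tendsto _).comp h5)
  · induction k with
    | zero => rw [hx]; simp only [ts, mul_zero]; unfold hh; positivity
    | succ k ih => rw [h1, hx]; exact h2 ih

theorem Phi_deriv (c y : ℝ) : HasDerivAt (Phi c) (exp (-y) * (hh c y - y)) y := by
  have h1 : HasDerivAt (fun y => exp (-y)) (exp (-y) * -1) y := (hasDerivAt_neg y).exp
  have h2 := ((((hasDerivAt_id y).const_add 1).mul h1).add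
    ((h1.const_mul c).neg.exp)).sub_const 1
  refine HasDerivAt.congr_deriv (f' := _) h2 ?_
  simp only [hh, id, Pi.neg_apply]
  ring

theorem Phi_mono {c a b : ℝ} (hab : a ≤ b) (h : ∀ x ∈ Set.Icc a b, x ≤ hh c x) :
    Phi c a ≤ Phi c b := by
  refine monotoneOn_of_deriv_nonneg (convex_Icc a b)
    (fun x _ => (Phi_deriv c x).continuousAt.continuousWithinAt)
    (fun x _ => (Phi_deriv c x).differentiableAt.differentiableWithinAt) (fun x hx => ?_)
    (Set.left_mem_Icc.2 hab) (Set.right_mem_Icc.2 hab) hab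
  rw [(Phi_deriv c x).deriv]
  exact mul_nonneg (exp_pos _).le (sub_nonneg.2 (h x (interior_subset hx)))

theorem Phi_anti {c a b : ℝ} (hab : a ≤ b) (h : ∀ x ∈ Set.Icc a b, hh c x ≤ x) :
    Phi c b ≤ Phi c a := by
  refine antitoneOn_of_deriv_nonpos (convex_Icc a b)
    (fun x _ => (Phi_deriv c x).continuousAt.continuousWithinAt)
    (fun x _ => (Phi_deriv c x).differentiableAt.differentiableWithinAt) (fun x hx => ?_)
    (Set.left_mem_Icc.2 hab) (Set.right_mem_Icc.2 hab) hab
  rw [(Phi_deriv c x).deriv]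
  exact mul_nonpos_of_nonneg_of_nonpos (exp_pos _).le (sub_nonpos.2 (h x (interior_subset hx)))

theorem Phi_root {c γ : ℝ} (hc : 0 < c) (h : γ = hh c γ) :
    Phi c γ = (γ + c * exp (-γ) + γ * (c * exp (-γ))) / c - 1 := by
  have : exp (-(c * exp (-γ))) = γ / c := by
    rw [eq_div_iff hc.ne', mul_comm]; exact h.symm
  unfold Phi po
  rw [this]
  field_simp
  ring

theorem Phi_max {c γ : ℝ} (hc : 0 < c) (h : γ = hh c γ) (hmin : ∀ x, x = hh c x → γ ≤ x)
    {y : ℝ} (hy : 0 ≤ y) : Phi c y ≤ Phi c γ := by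
  have hstar : ∀ x, x = hh c x → c * exp (-x) = hh c (c * exp (-x)) := by
    intro x hx
    unfold hh at hx ⊢
    rw [← hx]
  have hγ : 0 < γ := by rw [h]; unfold hh; positivity
  set s := c * exp (-γ) with hs
  have h1 : s = hh c s := hstar γ h
  have hmax : ∀ x, x = hh c x → x ≤ s := by
    intro x hx
    have := hmin _ (hstar x hx)
    rw [hx, hs]
    unfold hh
    gcongr
  have h2 : Phi c s = Phi c γ := by
    rw [Phi_root hc h, Phi_root hc h1, show c * exp (-s) = γ from h.symm, ← hs]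
    ring
  have hcont : Continuous fun x => hh c x - x := (hh_cont c).sub continuous_id
  rcases le_total y γ with h3 | h3
  · refine Phi_mono h3 fun x hx => ?_
    by_contra h4
    obtain ⟨r, hr, hr2⟩ := intermediate_value_Icc' (hy.trans hx.1) hcont.continuousOn
      (show (0 : ℝ) ∈ Set.Icc (hh c x - x) (hh c 0 - 0) from
        ⟨by linarith, by unfold hh; rw [sub_zero]; positivity⟩)
    have h5 := hmin r (by simp only at hr2; linarith)
    have : r = x := le_antisymm hr.2 (hx.2.trans h5)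
    simp only [this] at hr2
    linarith
  rcases le_total s y with h4 | h4
  · rw [← h2]
    refine Phi_anti h4 fun x hx => ?_
    by_contra h5
    have h6 := hh_lt hc x
    obtain ⟨r, hr, hr2⟩ := intermediate_value_Icc' (show x ≤ c by linarith) hcont.continuousOn
      (show (0 : ℝ) ∈ Set.Icc (hh c c - c) (hh c x - x) from
        ⟨by linarith [hh_lt hc c], by linarith⟩)
    have h7 := hmax r (by simp only at hr2; linarith)
    have : r = x := le_antisymm (h7.trans hx.1) hr.1
    simp only [this] at hr2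
    linarith
  by_cases h5 : ∀ x ∈ Set.Icc γ y, hh c x ≤ x
  · exact Phi_anti h3 h5
  by_cases h6 : ∀ x ∈ Set.Icc y s, x ≤ hh c x
  · exact h2 ▸ Phi_mono h4 h6
  exfalso
  push Not at h5 h6
  obtain ⟨x1, hx1, e1⟩ := h5
  obtain ⟨x2, hx2, e2⟩ := h6
  let g : ℝ → ℝ := fun x => log c - c * exp (-x) - log x
  have hg : ∀ x, 0 < x → HasDerivAt g (c * exp (-x) - x⁻¹) x := by
    intro x hx
    have e3 : HasDerivAt (fun y => exp (-y)) (exp (-x) * -1) x := (hasDerivAt_neg x).exp
    refine HasDerivAt.congr_deriv (f' := _)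
      (((e3.const_mul c).const_sub (log c)).sub (hasDerivAt_log hx.ne')) ?_
    ring
  have hg2 : ∀ x, g x = log (hh c x) - log x := by
    intro x
    unfold hh
    rw [log_mul hc.ne' (exp_pos _).ne', log_exp]
    ring
  have hpos : ∀ x, 0 < hh c x := fun x => by unfold hh; positivity
  have mvt : ∀ a b, 0 < a → a < b → ∃ t ∈ Set.Ioo a b, c * exp (-t) - t⁻¹ = (g b - g a) / (b - a) :=
    fun a b ha hab => exists_hasDerivAt_eq_slope g _ hab
      (fun x hx => (hg x (ha.trans_le hx.1)).continuousAt.continuousWithinAt)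
      fun x hx => hg x (ha.trans hx.1)
  have g0 : g γ = 0 := by rw [hg2, ← h, sub_self]
  have g3 : g s = 0 := by rw [hg2, ← h1, sub_self]
  have p1 : 0 < x1 := hγ.trans_le hx1.1
  have g1 : 0 < g x1 := by rw [hg2]; exact sub_pos.2 (log_lt_log p1 e1)
  have g2 : g x2 < 0 := by rw [hg2]; exact sub_neg.2 (log_lt_log (hpos _) e2)
  have l1 : γ < x1 := lt_of_le_of_ne hx1.1 fun h => by rw [← h, g0] at g1; exact lt_irrefl _ g1
  have l2 : x1 < x2 := lt_of_le_of_ne (hx1.2.trans hx2.1) fun h => by rw [← h] at g2; linarith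
  have l3 : x2 < s := lt_of_le_of_ne hx2.2 fun h => by rw [h, g3] at g2; exact lt_irrefl _ g2
  obtain ⟨a1, ha1, f1⟩ := mvt _ _ hγ l1
  obtain ⟨a2, ha2, f2⟩ := mvt _ _ p1 l2
  obtain ⟨a3, ha3, f3⟩ := mvt _ _ (p1.trans l2) l3
  have q1 : 0 < a1 := hγ.trans ha1.1
  have q2 : a1 < a2 := ha1.2.trans ha2.1
  have q3 : a2 < a3 := ha2.2.trans ha3.1
  have r1 : 1 < c * (a1 * exp (-a1)) := by
    have : 0 < (g x1 - g γ) / (x1 - γ) := div_pos (by linarith) (by linarith)
    rw [← f1, sub_pos, inv_lt_iff_one_lt_mul₀ q1] at this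
    linarith
  have r2 : c * (a2 * exp (-a2)) < 1 := by
    have : (g x2 - g x1) / (x2 - x1) < 0 := div_neg_of_neg_of_pos (by linarith) (by linarith)
    rw [← f2, sub_neg, ← one_div, lt_div_iff₀ (q1.trans q2)] at this
    linarith
  have r3 : 1 < c * (a3 * exp (-a3)) := by
    have : 0 < (g s - g x2) / (s - x2) := div_pos (by linarith) (by linarith)
    rw [← f3, sub_pos, inv_lt_iff_one_lt_mul₀ (q1.trans (q2.trans q3))] at this
    linarith
  rcases le_total a2 1 with h7 | h7
  · have t1 : exp (-a2) = exp (-a1) * exp (a1 - a2) := by rw [← exp_add]; congr 1; ring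
    have t2 := add_one_le_exp (a1 - a2)
    have t3 : a1 ≤ a2 * exp (a1 - a2) := by nlinarith
    have t4 : a1 * exp (-a1) ≤ a2 * exp (-a2) := by
      rw [t1]; nlinarith [exp_pos (-a1)]
    nlinarith
  · have t1 : exp (-a2) = exp (-a3) * exp (a3 - a2) := by rw [← exp_add]; congr 1; ring
    have t2 := add_one_le_exp (a3 - a2)
    have t3 : a3 ≤ a2 * exp (a3 - a2) := by nlinarith
    have t4 : a3 * exp (-a3) ≤ a2 * exp (-a2) := by
      rw [t1]; nlinarith [exp_pos (-a3)]
    nlinarith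

theorem exists_C {β : ℝ} (h0 : 0 < β) (h1 : β < 1) : ∃ c : ℝ, 0 < c ∧ ∃ γ, γ = hh c γ ∧
    (∀ x, x = hh c x → γ ≤ x) ∧ Phi c γ = β ∧
    (∀ c', c < c' → ∃ M < β, ∀ y, 0 ≤ y → Phi c' y ≤ M) ∧
    ∀ c', 0 < c' → c' < c → ∃ k, β < ts c' (2 * k + 2) + po (c' * ts c' (2 * k + 2)) - 1 := by
  choose! γ hγ' using fun (c : ℝ) (hc : 0 < c) => exists_root hc
  have hγ : ∀ {c : ℝ}, 0 < c → _ := fun {c} hc => hγ' c hc
  have hγ0 : ∀ c, 0 < c → 0 ≤ γ c := fun c hc => by rw [(hγ hc).1]; unfold hh; positivity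
  have hM : ∀ c, 0 < c → ∀ y, 0 ≤ y → Phi c y ≤ Phi c (γ c) := fun c hc y hy =>
    Phi_max hc (hγ hc).1 (hγ hc).2.1 hy
  have hlip : ∀ c c', 0 < c → 0 < c' → Phi c (γ c) - Phi c' (γ c') ≤ |c - c'| := by
    intro c c' hc hc'
    have e1 := hM c' hc' _ (hγ0 c hc)
    have e2 := exp_lip (a := c * exp (-γ c)) (b := c' * exp (-γ c)) (by positivity) (by positivity)
    rw [← sub_mul, abs_mul, abs_of_pos (exp_pos _)] at e2
    have e3 : |c - c'| * exp (-γ c) ≤ |c - c'| :=
      mul_le_of_le_one_right (abs_nonneg _) (exp_le_one_iff.2 (by linarith [hγ0 c hc]))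
    have e4 := le_abs_self (exp (-(c * exp (-γ c))) - exp (-(c' * exp (-γ c))))
    unfold Phi at e1 ⊢
    linarith
  have hanti : ∀ c c', 0 < c → c < c' → Phi c' (γ c') < Phi c (γ c) := by
    intro c c' hc hc'
    refine lt_of_lt_of_le ?_ (hM c hc _ (hγ0 c' (hc.trans hc')))
    unfold Phi
    gcongr
  obtain ⟨c1, hc1, e1⟩ : ∃ c1 : ℝ, 0 < c1 ∧ β ≤ Phi c1 (γ c1) := by
    refine ⟨1 - β, by linarith, le_trans ?_ (hM _ (by linarith) 0 le_rfl)⟩
    have := add_one_le_exp (-(1 - β))
    simp only [Phi, po, neg_zero, exp_zero, mul_one, add_zero]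
    linarith
  obtain ⟨c2, hc2, e2⟩ : ∃ c2 : ℝ, c1 ≤ c2 ∧ Phi c2 (γ c2) ≤ β := by
    refine ⟨max c1 (exp (2 / β) / β), le_max_left _ _, ?_⟩
    set c := max c1 (exp (2 / β) / β)
    have hc : 0 < c := hc1.trans_le (le_max_left _ _)
    have hy := hγ0 c hc
    set y := γ c
    unfold Phi
    rcases le_total y (2 / β) with h | h
    · have f1 : 1 / β ≤ c * exp (-y) := by
        calc 1 / β = exp (2 / β) / β * exp (-(2 / β)) := by rw [exp_neg]; field_simp
          _ ≤ _ := by gcongr; exact le_max_right _ _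
      have f2 : exp (-(c * exp (-y))) ≤ β := by
        rw [exp_neg, inv_le_comm₀ (exp_pos _) h0, ← one_div]
        linarith [add_one_le_exp (c * exp (-y))]
      linarith [(po_bounds hy).2]
    · have f1 : exp (-(c * exp (-y))) ≤ 1 := exp_le_one_iff.2 (neg_nonpos.2 (by positivity))
      have f2 : po y ≤ β := by
        unfold po
        rw [exp_neg, ← div_eq_mul_inv, div_le_iff₀ (exp_pos _)]
        rw [div_le_iff₀ h0] at h
        have := mul_le_mul_of_nonneg_left (quadratic_le_exp_of_nonneg hy) h0.le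
        nlinarith
      linarith
  have hcont : ContinuousOn (fun c => Phi c (γ c)) (Set.Icc c1 c2) := by
    refine (LipschitzOnWith.of_dist_le_mul (K := 1) fun a ha b hb => ?_).continuousOn
    have f1 := hlip a b (hc1.trans_le ha.1) (hc1.trans_le hb.1)
    have f2 := hlip b a (hc1.trans_le hb.1) (hc1.trans_le ha.1)
    rw [abs_sub_comm] at f2
    rw [Real.dist_eq, Real.dist_eq, NNReal.coe_one, one_mul, abs_le]
    constructor <;> linarith
  obtain ⟨c, hc, e3⟩ := intermediate_value_Icc' hc2 hcont ⟨e2, e1⟩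
  have hc0 : 0 < c := hc1.trans_le hc.1
  refine ⟨c, hc0, γ c, (hγ hc0).1, (hγ hc0).2.1, e3, fun c' h => ⟨_, e3 ▸ hanti c c' hc0 h,
    hM c' (hc0.trans h)⟩, fun c' h h' => ?_⟩
  have f1 : β < Phi c' (γ c') := e3 ▸ hanti c' c h h'
  have f2 := (hγ h).2.2
  have f3 : Tendsto (fun k => exp (-(c' * exp (-(c' * ts c' (2 * k))))) +
      po (c' * ts c' (2 * (k + 1))) - 1) atTop (𝓝 (Phi c' (γ c'))) := by
    have f4 : Continuous po := by unfold po; fun_prop
    have f5 : Continuous fun y => exp (-(c' * exp (-y))) := by fun_prop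
    unfold Phi
    rw [add_comm]
    exact (((f5.tendsto _).comp f2).add
      ((f4.tendsto _).comp (f2.comp (tendsto_add_atTop_nat 1)))).sub_const 1
  exact (f3.eventually (lt_mem_nhds f1)).exists

end Pool.Agent.H351Z.RG
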