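import Pool.Agent.H351Z.KMD

/-! The cavity calculus: conditioning on the graph with one vertex removed. -/

set_option autoImplicit false
set_option linter.unusedSectionVars false

namespace Pool.Agent.H351Z.RG

open Finset

section general
variable {ι : Type*} [DecidableEq ι]

theorem Ex_disj (p : ℝ) {s t : Finset ι} (h : Disjoint s t) (f : Finset ι → ℝ) :
    Ex p (s ∪ t) f = Ex p s fun A => Ex p t fun B => f (A ∪ B) := by
  induction s using Finset.induction_on generalizing f with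
  | empty => simp [Ex_empty]
  | insert a s ha ih =>
    rw [disjoint_insert_left] at h
    rw [insert_union, Ex_insert p (by simp [ha, h.1]), Ex_insert p ha, ih h.2, ih h.2]
    simp only [insert_union]

theorem Ex_palm (p : ℝ) (W : Finset ι) (F : ι → Finset ι → ℝ) :
    Ex p W (fun S => ∑ u ∈ S, F u (S.erase u)) = p * ∑ u ∈ W, Ex p (W.erase u) (F u) := by
  rw [Ex_congr p (g := fun S => ∑ u ∈ W, if u ∈ S then F u (S.erase u) else 0) (fun S hS => by
    rw [← sum_filter, filter_mem_eq_inter, inter_eq_right.2 hS]), Ex_sum, mul_sum]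
  refine sum_congr rfl fun u hu => ?_
  conv_lhs => rw [← insert_erase hu]
  rw [Ex_insert p (notMem_erase u W),
    Ex_congr p (g := fun _ => 0) (fun S hS => if_neg fun h => notMem_erase u W (hS h)), Ex_const,
    Ex_congr p (g := F u) (fun S hS => by
      rw [if_pos (mem_insert_self _ _), erase_insert fun h => notMem_erase u W (hS h)])]
  ring

theorem Ex_sum1 (p : ℝ) (W : Finset ι) (φ : ι → ℝ) :
    Ex p W (fun S => ∑ u ∈ S, φ u) = p * ∑ u ∈ W, φ u := by
  rw [Ex_palm p W fun u _ => φ u]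
  simp only [Ex_const]

theorem Ex_prod (p : ℝ) (W : Finset ι) (g : ι → ℝ) :
    Ex p W (fun S => ∏ u ∈ S, (1 - g u)) = ∏ u ∈ W, (1 - p * g u) := by
  induction W using Finset.induction_on with
  | empty => simp [Ex_empty]
  | insert a W ha ih =>
    rw [Ex_insert p ha, ih, prod_insert ha, Ex_congr p (g := fun S => (1 - g a) * ∏ u ∈ S, (1 - g u))
      (fun S hS => prod_insert fun h => ha (hS h)), Ex_mul, ih]
    ring

theorem Ex_abs_le {p : ℝ} (h0 : 0 ≤ p) (h1 : p ≤ 1) (s : Finset ι) (f : Finset ι → ℝ) :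
    |Ex p s f| ≤ Ex p s fun A => |f A| := by
  rw [abs_le]
  refine ⟨?_, Ex_mono h0 h1 fun A _ => le_abs_self _⟩
  have := Ex_mono h0 h1 (s := s) (f := fun A => (-1) * |f A|) (g := f)
    fun A _ => by linarith [neg_abs_le (f A)]
  rw [Ex_mul] at this
  linarith

theorem abs_prod_sub (s : Finset ι) {a b : ι → ℝ} (ha : ∀ i ∈ s, 0 ≤ a i ∧ a i ≤ 1)
    (hb : ∀ i ∈ s, 0 ≤ b i ∧ b i ≤ 1) : |∏ i ∈ s, a i - ∏ i ∈ s, b i| ≤ ∑ i ∈ s, |a i - b i| := by
  induction s using Finset.induction_on with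
  | empty => simp
  | insert j s hj ih =>
    rw [prod_insert hj, prod_insert hj, sum_insert hj]
    have h1 := ih (fun i hi => ha i (mem_insert_of_mem hi)) fun i hi => hb i (mem_insert_of_mem hi)
    have h2 : 0 ≤ ∏ i ∈ s, b i := prod_nonneg fun i hi => (hb i (mem_insert_of_mem hi)).1
    have h3 : ∏ i ∈ s, b i ≤ 1 := prod_le_one (fun i hi => (hb i (mem_insert_of_mem hi)).1)
      fun i hi => (hb i (mem_insert_of_mem hi)).2
    have h4 := ha j (mem_insert_self _ _)
    rw [show a j * ∏ i ∈ s, a i - b j * ∏ i ∈ s, b i =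
      (a j - b j) * ∏ i ∈ s, b i + a j * (∏ i ∈ s, a i - ∏ i ∈ s, b i) by ring]
    refine (abs_add_le _ _).trans (add_le_add ?_ ?_)
    · rw [abs_mul, abs_of_nonneg h2]; exact mul_le_of_le_one_right (abs_nonneg _) h3
    · rw [abs_mul, abs_of_nonneg h4.1]
      exact (mul_le_of_le_one_left (abs_nonneg _) h4.2).trans h1

/-- probability of at most one success -/
def one (g : ι → ℝ) (S : Finset ι) : ℝ :=
  ∏ u ∈ S, (1 - g u) + ∑ u ∈ S, g u * ∏ w ∈ S.erase u, (1 - g w)

theorem one_insert (g : ι → ℝ) {S : Finset ι} {a : ι} (ha : a ∉ S) :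
    one g (insert a S) = (1 - g a) * one g S + g a * ∏ u ∈ S, (1 - g u) := by
  unfold one
  rw [prod_insert ha, sum_insert ha, erase_insert ha, mul_add, mul_sum,
    sum_congr rfl (g := fun u => (1 - g a) * (g u * ∏ w ∈ S.erase u, (1 - g w))) fun u hu => by
      rw [erase_insert_of_ne (fun h : a = u => ha (h ▸ hu)),
        prod_insert fun h => ha (mem_of_mem_erase h)]
      ring]
  ring

theorem one_bounds {g : ι → ℝ} (hg : ∀ u, 0 ≤ g u ∧ g u ≤ 1) (S : Finset ι) :
    0 ≤ one g S ∧ one g S ≤ 1 := by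
  induction S using Finset.induction_on with
  | empty => simp [one]
  | insert a S ha ih =>
    rw [one_insert g ha]
    have h2 : 0 ≤ ∏ i ∈ S, (1 - g i) := prod_nonneg fun i _ => sub_nonneg.2 (hg i).2
    have h3 : ∏ i ∈ S, (1 - g i) ≤ 1 := prod_le_one (fun i _ => sub_nonneg.2 (hg i).2)
      fun i _ => by linarith [(hg i).1]
    have := hg a
    constructor <;> nlinarith

theorem one_eq_zero {g : ι → ℝ} {S : Finset ι} {a b : ι} (ha : a ∈ S) (hb : b ∈ S) (hab : a ≠ b)
    (h1 : g a = 1) (h2 : g b = 1) : one g S = 0 := by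
  unfold one
  rw [prod_eq_zero ha (by simp [h1]), zero_add]
  refine sum_eq_zero fun u _ => mul_eq_zero_of_right _ ?_
  by_cases h : a = u
  · exact prod_eq_zero (mem_erase.2 ⟨fun h' => hab (h.trans h'.symm), hb⟩) (by simp [h2])
  · exact prod_eq_zero (mem_erase.2 ⟨h, ha⟩) (by simp [h1])

theorem one_eq_one {g : ι → ℝ} {S : Finset ι} (a : ι) (h : ∀ u ∈ S, u ≠ a → g u = 0) :
    one g S = 1 := by
  have key : ∀ T : Finset ι, (∀ u ∈ T, g u = 0) → one g T = 1 ∧ ∏ u ∈ T, (1 - g u) = 1 := by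
    intro T hT
    have : ∏ u ∈ T, (1 - g u) = 1 := prod_eq_one fun u hu => by simp [hT u hu]
    exact ⟨by rw [one, this, sum_eq_zero fun u hu => by simp [hT u hu], add_zero], this⟩
  by_cases ha : a ∈ S
  · obtain ⟨h1, h2⟩ := key (S.erase a) fun u hu => h u (mem_of_mem_erase hu) (ne_of_mem_erase hu)
    rw [← insert_erase ha, one_insert g (notMem_erase _ _), h1, h2]
    ring
  · exact (key S fun u hu => h u hu fun h' => ha (h' ▸ hu)).1

theorem Ex_one (p : ℝ) (W : Finset ι) (g : ι → ℝ) :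
    Ex p W (one g) = one (fun u => p * g u) W := by
  unfold one
  rw [Ex_add, Ex_prod, Ex_palm p W fun u S => g u * ∏ w ∈ S, (1 - g w), mul_sum]
  simp only [Ex_mul, Ex_prod, mul_assoc]

end general

theorem exp_lip {a b : ℝ} (ha : 0 ≤ a) (hb : 0 ≤ b) :
    |Real.exp (-a) - Real.exp (-b)| ≤ |a - b| := by
  have key : ∀ a b : ℝ, 0 ≤ a → a ≤ b → |Real.exp (-a) - Real.exp (-b)| ≤ |a - b| := by
    intro a b ha hab
    have h1 : Real.exp (-b) ≤ Real.exp (-a) := Real.exp_le_exp.2 (by linarith)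
    have h2 : Real.exp (-a) ≤ 1 := Real.exp_le_one_iff.2 (by linarith)
    have h3 : Real.exp (-b) = Real.exp (-a) * Real.exp (a - b) := by
      rw [← Real.exp_add]; congr 1; ring
    have h4 := Real.add_one_le_exp (a - b)
    have h5 := Real.exp_pos (-a)
    rw [abs_of_nonneg (by linarith), abs_of_nonpos (by linarith)]
    nlinarith
  rcases le_total a b with h | h
  · exact key a b ha h
  · rw [abs_sub_comm, abs_sub_comm a]; exact key b a hb h

/-- probability that a Poisson variable with mean `y` is at most one -/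
noncomputable def po (y : ℝ) : ℝ := (1 + y) * Real.exp (-y)

theorem po_bounds {y : ℝ} (hy : 0 ≤ y) : 0 ≤ po y ∧ po y ≤ 1 := by
  unfold po
  refine ⟨by positivity, ?_⟩
  rw [Real.exp_neg, ← div_eq_mul_inv, div_le_one (Real.exp_pos y)]
  linarith [Real.add_one_le_exp y]

theorem po_lip {a b : ℝ} (ha : 0 ≤ a) (hb : 0 ≤ b) : |po a - po b| ≤ |a - b| := by
  have key : ∀ a b : ℝ, 0 ≤ a → a ≤ b → |po a - po b| ≤ |a - b| := by
    intro a b ha hab
    have h3 : Real.exp (-b) = Real.exp (-a) * Real.exp (-(b - a)) := by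
      rw [← Real.exp_add]; congr 1; ring
    have h4 := Real.add_one_le_exp (-(b - a))
    have h5 := Real.exp_pos (-a)
    have h6 := po_bounds ha
    have h7 := po_bounds (sub_nonneg.2 hab)
    have h8 := Real.exp_pos (-(b - a))
    unfold po at *
    have h9 : (1 + b) * Real.exp (-(b - a)) ≤ 1 + a := by
      have : Real.exp (-(b - a)) ≤ 1 := Real.exp_le_one_iff.2 (by linarith)
      nlinarith
    have h10 : (1 + a) * Real.exp (-a) * (1 - (b - a)) ≤ (1 + b) * Real.exp (-b) := by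
      rw [h3]
      calc (1 + a) * Real.exp (-a) * (1 - (b - a))
          ≤ (1 + a) * Real.exp (-a) * Real.exp (-(b - a)) := by gcongr; linarith
        _ ≤ (1 + b) * Real.exp (-a) * Real.exp (-(b - a)) := by gcongr
        _ = _ := by ring
    rw [abs_of_nonneg (by rw [h3]; nlinarith), abs_of_nonpos (by linarith)]
    nlinarith
  rcases le_total a b with h | h
  · exact key a b ha h
  · rw [abs_sub_comm, abs_sub_comm a]; exact key b a hb h

variable {V : Type*} [Fintype V] [DecidableEq V]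

theorem prod_approx {p : ℝ} (h0 : 0 ≤ p) (h1 : p ≤ 1) {g : V → ℝ} (hg : ∀ u, 0 ≤ g u ∧ g u ≤ 1)
    (W : Finset V) : |∏ u ∈ W, (1 - p * g u) - Real.exp (-(p * ∑ u, g u))| ≤
      Fintype.card V * p ^ 2 + p * Wᶜ.card := by
  have e0 : ∀ u, 0 ≤ p * g u ∧ p * g u ≤ p := fun u =>
    ⟨mul_nonneg h0 (hg u).1, mul_le_of_le_one_right h0 (hg u).2⟩
  have e1 : |∏ u ∈ W, (1 - p * g u) - ∏ u ∈ W, Real.exp (-(p * g u))| ≤ Fintype.card V * p ^ 2 := by
    refine (abs_prod_sub W (fun u _ => ⟨by linarith [e0 u], by linarith [e0 u]⟩) fun u _ =>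
      ⟨(Real.exp_pos _).le, Real.exp_le_one_iff.2 (by linarith [e0 u])⟩).trans ?_
    refine (sum_le_card_nsmul _ _ (p ^ 2) fun u _ => ?_).trans ?_
    · have h2 := Real.abs_exp_sub_one_sub_id_le (x := -(p * g u))
        (by rw [abs_neg, abs_of_nonneg (e0 u).1]; linarith [e0 u])
      rw [abs_sub_comm, show Real.exp (-(p * g u)) - (1 - p * g u) =
        Real.exp (-(p * g u)) - 1 - -(p * g u) by ring]
      refine h2.trans ?_
      rw [neg_sq]
      exact pow_le_pow_left₀ (e0 u).1 (e0 u).2 2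
    · rw [nsmul_eq_mul]
      gcongr
      exact card_le_univ W
  have e2 : |∏ u ∈ W, Real.exp (-(p * g u)) - Real.exp (-(p * ∑ u, g u))| ≤ p * Wᶜ.card := by
    rw [← Real.exp_sum, sum_neg_distrib, mul_sum]
    refine (exp_lip (sum_nonneg fun u _ => (e0 u).1) (sum_nonneg fun u _ => (e0 u).1)).trans ?_
    rw [← sum_add_sum_compl W, sub_add_cancel_left, abs_neg,
      abs_of_nonneg (sum_nonneg fun u _ => (e0 u).1), mul_comm]
    exact (sum_le_card_nsmul _ _ p fun u _ => (e0 u).2).trans (by rw [nsmul_eq_mul])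
  exact (abs_sub_le _ _ _).trans (add_le_add e1 e2)

theorem one_approx {p : ℝ} (h0 : 0 ≤ p) (h1 : p ≤ 1) {g : V → ℝ} (hg : ∀ u, 0 ≤ g u ∧ g u ≤ 1)
    (v : V) : |one (fun u => p * g u) (univ.erase v) - po (p * ∑ u, g u)| ≤
      (1 + p * Fintype.card V) * (Fintype.card V * p ^ 2 + 2 * p) := by
  have e0 : ∀ u, 0 ≤ p * g u ∧ p * g u ≤ p := fun u =>
    ⟨mul_nonneg h0 (hg u).1, mul_le_of_le_one_right h0 (hg u).2⟩
  set E := Real.exp (-(p * ∑ u, g u)) with hE
  have hE0 : 0 ≤ E := (Real.exp_pos _).le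
  have hE1 : E ≤ 1 := Real.exp_le_one_iff.2
    (neg_nonpos.2 (mul_nonneg h0 (sum_nonneg fun u _ => (hg u).1)))
  have e1 := prod_approx h0 h1 hg (univ.erase v)
  have e2 : ∀ u, |∏ w ∈ (univ.erase v).erase u, (1 - p * g w) - E| ≤
      Fintype.card V * p ^ 2 + 2 * p := by
    intro u
    refine (prod_approx h0 h1 hg _).trans ?_
    have : ((univ.erase v).erase u)ᶜ.card ≤ 2 :=
      le_trans (card_le_card (t := {u, v}) fun x hx => by
        simp only [mem_compl, mem_erase, mem_univ, and_true, not_and, not_not] at hx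
        simp only [mem_insert, mem_singleton]
        tauto) card_le_two
    have : (((univ.erase v).erase u)ᶜ.card : ℝ) ≤ 2 := by exact_mod_cast this
    nlinarith
  rw [show (univ.erase v)ᶜ = {v} by ext x; simp, card_singleton] at e1
  have e3 : one (fun u => p * g u) (univ.erase v) - po (p * ∑ u, g u) =
      (∏ u ∈ univ.erase v, (1 - p * g u) - E) + (∑ u ∈ univ.erase v, p * g u *
        (∏ w ∈ (univ.erase v).erase u, (1 - p * g w) - E) - p * g v * E) := by
    unfold one po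
    rw [← hE, ← add_sum_erase _ _ (mem_univ v)]
    simp only [mul_sub, sum_sub_distrib, ← sum_mul, ← mul_sum]
    ring
  have e4 : |∑ u ∈ univ.erase v, p * g u * (∏ w ∈ (univ.erase v).erase u, (1 - p * g w) - E)| ≤
      Fintype.card V * (p * (Fintype.card V * p ^ 2 + 2 * p)) := by
    refine (abs_sum_le_sum_abs _ _).trans ((sum_le_card_nsmul _ _
      (p * (Fintype.card V * p ^ 2 + 2 * p)) fun u _ => ?_).trans ?_)
    · rw [abs_mul, abs_of_nonneg (e0 u).1]
      exact mul_le_mul (e0 u).2 (e2 u) (abs_nonneg _) h0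
    · rw [nsmul_eq_mul]
      gcongr
      exact card_le_univ _
  have e5 : |p * g v * E| ≤ p := by
    rw [abs_of_nonneg (mul_nonneg (e0 v).1 hE0)]
    exact (mul_le_of_le_one_right (e0 v).1 hE1).trans (e0 v).2
  rw [e3]
  refine (abs_add_le _ _).trans ((add_le_add e1 ((abs_sub _ _).trans (add_le_add e4 e5))).trans ?_)
  push_cast
  exact le_of_eq (by ring)

theorem Ex_star (p : ℝ) (v : V) (F : Finset (Sym2 V) → Finset V → ℝ) :
    Ex p (EV V) (fun A => F (del A v) (nb A v)) =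
      Ex p (EV V) fun A => Ex p (univ.erase v) (F (del A v)) := by
  let e : V ↪ Sym2 V := ⟨fun u => s(v, u), fun a b h => Sym2.congr_right.1 h⟩
  have h1 : EV V = del (EV V) v ∪ (univ.erase v).map e := by
    ext x
    simp only [mem_union, mem_del, mem_map, mem_erase, mem_univ, and_true]
    constructor
    · intro h
      by_cases hv : v ∈ x
      · obtain ⟨u, rfl⟩ := Sym2.mem_iff_exists.1 hv
        exact Or.inr ⟨u, fun h' => mem_EV.1 h (by simp [h']), rfl⟩
      · exact Or.inl ⟨h, hv⟩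
    · rintro (h | ⟨u, hu, rfl⟩)
      · exact h.1
      · exact mem_EV.2 (by simpa [e] using hu.symm)
  have h2 : Disjoint (del (EV V) v) ((univ.erase v).map e) := by
    rw [disjoint_right]
    intro x hx hx'
    obtain ⟨u, -, rfl⟩ := mem_map.1 hx
    exact (mem_del.1 hx').2 (by simp [e])
  have h3 : Ex p (EV V) (fun A => Ex p (univ.erase v) (F (del A v))) =
      Ex p (del (EV V) v) fun B => Ex p (univ.erase v) (F B) := by
    rw [← Ex_restrict p (del_subset (EV V) v)]
    refine Ex_congr p fun A hA => ?_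
    congr 2
    ext x
    simp only [mem_del, mem_inter]
    exact ⟨fun h => ⟨h.1, hA h.1, h.2⟩, fun h => ⟨h.1, h.2.2⟩⟩
  rw [h3]
  conv_lhs => rw [h1]
  rw [Ex_disj p h2]
  refine Ex_congr p fun B hB => ?_
  rw [Ex_map]
  refine Ex_congr p fun S hS => ?_
  congr 1
  · ext x
    simp only [mem_del, mem_union, mem_map]
    constructor
    · rintro ⟨h | ⟨u, -, rfl⟩, h'⟩
      · exact h
      · exact absurd (by simp [e]) h'
    · exact fun h => ⟨Or.inl h, (mem_del.1 (hB h)).2⟩
  · ext u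
    simp only [mem_nb, mem_union]
    constructor
    · rintro ⟨h | h, -⟩
      · exact absurd (by simp) (mem_del.1 (hB h)).2
      · exact (mem_map' e).1 h
    · exact fun h => ⟨Or.inr ((mem_map' e).2 h), ne_of_mem_erase (hS h)⟩

variable {p κ : ℝ}

theorem Ex_del_le (h0 : 0 ≤ p) (h1 : p ≤ 1) (hκ : 1 ≤ κ * (1 - p) ^ Fintype.card V) (v : V)
    {φ : Finset (Sym2 V) → ℝ} (hφ : ∀ A, 0 ≤ φ A) :
    Ex p (EV V) (fun A => φ (del A v)) ≤ κ * Ex p (EV V) φ := by
  have e1 : Ex p (EV V) (fun A => φ (del A v) * 0 ^ (nb A v).card) ≤ Ex p (EV V) φ := by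
    refine Ex_mono h0 h1 fun A hA => ?_
    by_cases h : nb A v = ∅
    · rw [h, del_eq_of_nb hA h]; simp
    · rw [zero_pow (fun h' => h (card_eq_zero.1 h')), mul_zero]; exact hφ A
  rw [Ex_star p v fun B S => φ B * 0 ^ S.card] at e1
  simp only [Ex_mul, Ex_pow_card, mul_zero, add_zero] at e1
  simp only [mul_comm (φ _), Ex_mul] at e1
  have e2 : 0 ≤ Ex p (EV V) (fun A => φ (del A v)) := const_le_Ex h0 h1 fun A _ => hφ _
  have e3 : (1 - p) ^ Fintype.card V ≤ (1 - p) ^ (univ.erase v).card :=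
    pow_le_pow_of_le_one (by linarith) (by linarith) (card_le_univ _)
  have e4 : 0 ≤ (1 - p) ^ Fintype.card V := pow_nonneg (by linarith) _
  have e5 : 0 ≤ κ := by by_contra h; nlinarith
  calc Ex p (EV V) (fun A => φ (del A v))
      ≤ κ * (1 - p) ^ Fintype.card V * Ex p (EV V) (fun A => φ (del A v)) :=
        le_mul_of_one_le_left e2 hκ
    _ ≤ κ * ((1 - p) ^ (univ.erase v).card * Ex p (EV V) (fun A => φ (del A v))) := by
        rw [mul_assoc]; gcongr
    _ ≤ _ := by gcongr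

/-- functions with values in the unit interval -/
def Un (f : Finset (Sym2 V) → V → ℝ) : Prop := ∀ A u, 0 ≤ f A u ∧ f A u ≤ 1

def lift (f : Finset (Sym2 V) → V → ℝ) (A : Finset (Sym2 V)) (v : V) : ℝ :=
  ∏ u ∈ nb A v, (1 - f (del A v) u)

theorem Un.lift {f : Finset (Sym2 V) → V → ℝ} (hf : Un f) : Un (lift f) := fun A v =>
  ⟨prod_nonneg fun u _ => sub_nonneg.2 (hf _ u).2,
    prod_le_one (fun u _ => sub_nonneg.2 (hf _ u).2) fun u _ => by linarith [(hf (del A v) u).1]⟩

/-- total influence of vertex deletions -/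
def dd (f : Finset (Sym2 V) → V → ℝ) (A : Finset (Sym2 V)) : ℝ :=
  ∑ x, ∑ u, |f A u - f (del A x) u|

theorem dd_nonneg (f : Finset (Sym2 V) → V → ℝ) (A : Finset (Sym2 V)) : 0 ≤ dd f A :=
  sum_nonneg fun _ _ => sum_nonneg fun _ _ => abs_nonneg _

/-- influence between neighbours of `v` -/
def tt (f : Finset (Sym2 V) → V → ℝ) (A : Finset (Sym2 V)) (v : V) : ℝ :=
  ∑ u ∈ nb A v, ∑ w ∈ (nb A v).erase u, |f (del A v) u - f (del (del A v) w) u|

theorem tt_nonneg (f : Finset (Sym2 V) → V → ℝ) (A : Finset (Sym2 V)) (v : V) : 0 ≤ tt f A v :=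
  sum_nonneg fun _ _ => sum_nonneg fun _ _ => abs_nonneg _

theorem le_tt (f : Finset (Sym2 V) → V → ℝ) {A : Finset (Sym2 V)} {v u w : V} (hu : u ∈ nb A v)
    (hw : w ∈ nb A v) (h : w ≠ u) : |f (del A v) u - f (del (del A v) w) u| ≤ tt f A v :=
  (single_le_sum (f := fun w => |f (del A v) u - f (del (del A v) w) u|)
    (fun _ _ => abs_nonneg _) (mem_erase.2 ⟨h, hw⟩)).trans
    (single_le_sum (f := fun u => ∑ w ∈ (nb A v).erase u, |f (del A v) u - f (del (del A v) w) u|)
      (fun _ _ => sum_nonneg fun _ _ => abs_nonneg _) hu)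

theorem Ex_tt (h0 : 0 ≤ p) (h1 : p ≤ 1) (hκ : 1 ≤ κ * (1 - p) ^ Fintype.card V)
    (f : Finset (Sym2 V) → V → ℝ) (v : V) :
    Ex p (EV V) (fun A => tt f A v) ≤ p ^ 2 * (κ * Ex p (EV V) (dd f)) := by
  unfold tt
  rw [Ex_star p v fun B S => ∑ u ∈ S, ∑ w ∈ S.erase u, |f B u - f (del B w) u|]
  refine le_trans (Ex_mono (g := fun A => p ^ 2 * dd f (del A v)) h0 h1 fun A _ => ?_) ?_
  · rw [Ex_palm p _ fun u S => ∑ w ∈ S, |f (del A v) u - f (del (del A v) w) u|]
    simp only [Ex_sum1]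
    rw [← mul_sum, ← mul_assoc, ← sq, dd, sum_comm (s := univ)]
    refine mul_le_mul_of_nonneg_left ?_ (by positivity)
    refine le_trans (sum_le_sum fun u _ => sum_le_sum_of_subset_of_nonneg (subset_univ _)
      fun _ _ _ => abs_nonneg _) (sum_le_sum_of_subset_of_nonneg (subset_univ _)
      fun _ _ _ => sum_nonneg fun _ _ => abs_nonneg _)
  · rw [Ex_mul]
    gcongr
    exact Ex_del_le h0 h1 hκ v (dd_nonneg f)

theorem Ex_deg (h0 : 0 ≤ p) (v : V) :
    Ex p (EV V) (fun A => ((nb A v).card : ℝ)) ≤ p * Fintype.card V := by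
  rw [Ex_star p v fun _ S => (S.card : ℝ)]
  simp only [Ex_card, Ex_const]
  gcongr
  exact card_le_univ _

theorem Ex_deg_sq (h0 : 0 ≤ p) (h1 : p ≤ 1) (v : V) :
    Ex p (EV V) (fun A => ((nb A v).card : ℝ) ^ 2) ≤
      (p * Fintype.card V) ^ 2 + p * Fintype.card V := by
  rw [Ex_star p v fun _ S => (S.card : ℝ) ^ 2]
  refine Ex_le_const h0 h1 fun A _ => ?_
  refine (Ex_var h0 h1 _ (f := fun S => (S.card : ℝ)) fun a S => ?_).trans ?_
  · rw [card_insert_eq_ite]; split_ifs <;> simp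
  · rw [Ex_card]
    gcongr <;> exact card_le_univ _

theorem Ex_dd_lift (h0 : 0 ≤ p) (h1 : p ≤ 1) (hκ : 1 ≤ κ * (1 - p) ^ Fintype.card V)
    {f : Finset (Sym2 V) → V → ℝ} (hf : Un f) :
    Ex p (EV V) (dd (lift f)) ≤
      Fintype.card V * (1 + p * Fintype.card V + p * (κ * Ex p (EV V) (dd f))) := by
  rw [Ex_congr p (f := dd (lift f)) fun A _ => sum_comm, Ex_sum]
  refine (sum_le_card_nsmul _ _ _ fun v _ => ?_).trans (by rw [nsmul_eq_mul, card_univ])
  refine le_trans (Ex_mono (g := fun A => 1 + (nb A v).card +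
    ∑ u ∈ nb A v, ∑ x, |f (del A v) u - f (del (del A v) x) u|) h0 h1 fun A _ => ?_) ?_
  · have e1 : ∀ x, |lift f A v - lift f (del A x) v| ≤ (if x ∈ insert v (nb A v) then 1 else 0) +
        ∑ u ∈ nb A v, |f (del A v) u - f (del (del A v) x) u| := by
      intro x
      split_ifs with h
      · refine le_add_of_le_of_nonneg ?_ (sum_nonneg fun _ _ => abs_nonneg _)
        have := hf.lift A v
        have := hf.lift (del A x) v
        rw [abs_le]
        constructor <;> linarith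
      · rw [mem_insert, not_or] at h
        unfold lift
        rw [nb_del h.1, erase_eq_of_notMem h.2, del_comm A x v, zero_add]
        refine (abs_prod_sub _ (fun u _ => ⟨sub_nonneg.2 (hf _ u).2, by linarith [(hf (del A v) u).1]⟩)
          fun u _ => ⟨sub_nonneg.2 (hf _ u).2, by linarith [(hf (del (del A v) x) u).1]⟩).trans ?_
        exact le_of_eq (sum_congr rfl fun u _ => by rw [abs_sub_comm]; congr 1; ring)
    refine (sum_le_sum fun x _ => e1 x).trans ?_
    rw [sum_add_distrib, sum_comm, ← sum_filter, filter_mem_eq_inter, univ_inter, sum_const,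
      nsmul_eq_mul, mul_one]
    gcongr
    have := card_insert_le v (nb A v)
    rw [add_comm]
    exact_mod_cast this
  · rw [Ex_add, Ex_add, Ex_const]
    refine add_le_add (add_le_add le_rfl (Ex_deg h0 v)) ?_
    rw [Ex_star p v fun B S => ∑ u ∈ S, ∑ x, |f B u - f (del B x) u|]
    simp only [Ex_sum1]
    rw [Ex_mul]
    gcongr
    refine le_trans (Ex_mono h0 h1 fun A _ => ?_) (Ex_del_le h0 h1 hκ v (dd_nonneg f))
    rw [dd, sum_comm (s := univ)]
    exact sum_le_sum_of_subset_of_nonneg (subset_univ _) fun _ _ _ =>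
      sum_nonneg fun _ _ => abs_nonneg _

theorem cav (h0 : 0 ≤ p) (h1 : p ≤ 1) (H : V → Finset (Sym2 V) → Finset V → ℝ)
    (μ ψ : Finset (Sym2 V) → ℝ) {ε : ℝ} (hH : ∀ v B S, |H v B S - μ B| ≤ 1) (hψ : ∀ A, |ψ A| ≤ 1)
    (hε : ∀ v B, |Ex p (univ.erase v) (H v B) - μ B| ≤ ε) :
    |Ex p (EV V) fun A => (∑ v, H v (del A v) (nb A v) - Fintype.card V * μ A) * ψ A| ≤
      Fintype.card V * ε + Ex p (EV V) fun A =>
        ∑ v, (|μ A - μ (del A v)| + |ψ A - ψ (del A v)|) := by
  have e1 : ∀ v, |Ex p (EV V) fun A => (H v (del A v) (nb A v) - μ (del A v)) * ψ (del A v)| ≤ ε := by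
    intro v
    rw [Ex_star p v fun B S => (H v B S - μ B) * ψ B]
    refine (Ex_abs_le h0 h1 _ _).trans (Ex_le_const h0 h1 fun A _ => ?_)
    simp only [mul_comm _ (ψ _), Ex_mul, Ex_sub, Ex_const]
    rw [abs_mul]
    exact (mul_le_of_le_one_left (abs_nonneg _) (hψ _)).trans (hε v _)
  rw [Ex_congr p (g := fun A => ∑ v, (H v (del A v) (nb A v) - μ A) * ψ A) (fun A _ => by
    rw [← sum_mul, sum_sub_distrib, sum_const, card_univ, nsmul_eq_mul]), Ex_sum, Ex_sum,
    ← card_univ, ← nsmul_eq_mul, ← sum_const, ← sum_add_distrib]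
  refine (abs_sum_le_sum_abs _ _).trans (sum_le_sum fun v _ => ?_)
  rw [Ex_congr p (g := fun A => (H v (del A v) (nb A v) - μ (del A v)) * ψ (del A v) +
    ((μ (del A v) - μ A) * ψ A + (H v (del A v) (nb A v) - μ (del A v)) * (ψ A - ψ (del A v))))
    (fun A _ => by ring), Ex_add]
  refine (abs_add_le _ _).trans (add_le_add (e1 v) ((Ex_abs_le h0 h1 _ _).trans
    (Ex_mono h0 h1 fun A _ => (abs_add_le _ _).trans (add_le_add ?_ ?_))))
  · rw [abs_mul, abs_sub_comm]; exact mul_le_of_le_one_right (abs_nonneg _) (hψ _)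
  · rw [abs_mul]; exact mul_le_of_le_one_left (abs_nonneg _) (hH _ _ _)

theorem abs_sum_sub_le (f : Finset (Sym2 V) → V → ℝ) (A : Finset (Sym2 V)) :
    ∑ v, |∑ u, f A u - ∑ u, f (del A v) u| ≤ dd f A :=
  sum_le_sum fun v _ => by rw [← sum_sub_distrib]; exact abs_sum_le_sum_abs _ _

theorem two_mean (h0 : 0 ≤ p) (h1 : p ≤ 1) {f : Finset (Sym2 V) → V → ℝ} (hf : Un f) :
    |Ex p (EV V) fun A => ∑ v, one (f (del A v)) (nb A v) - Fintype.card V * po (p * ∑ u, f A u)| ≤
      Fintype.card V * ((1 + p * Fintype.card V) * (Fintype.card V * p ^ 2 + 2 * p)) +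
        p * Ex p (EV V) (dd f) := by
  have e0 : ∀ A, 0 ≤ p * ∑ u, f A u := fun A => mul_nonneg h0 (sum_nonneg fun u _ => (hf A u).1)
  have := cav h0 h1 (fun _ B S => one (f B) S) (fun A => po (p * ∑ u, f A u)) (fun _ => 1)
    (fun v B S => by
      have := one_bounds (hf B) S
      have := po_bounds (e0 B)
      rw [abs_le]; constructor <;> linarith) (by simp)
    (fun v B => by rw [Ex_one]; exact one_approx h0 h1 (hf B) v)
  simp only [mul_one, sub_self, abs_zero, add_zero] at this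
  refine this.trans (add_le_add le_rfl ?_)
  rw [← Ex_mul]
  refine Ex_mono h0 h1 fun A _ => le_trans ?_ (mul_le_mul_of_nonneg_left (abs_sum_sub_le f A) h0)
  rw [mul_sum _ (fun v => |∑ u, f A u - ∑ u, f (del A v) u|)]
  refine sum_le_sum fun v _ => (po_lip (e0 _) (e0 _)).trans ?_
  rw [← mul_sub, abs_mul, abs_of_nonneg h0]

theorem lln (h0 : 0 ≤ p) (h1 : p ≤ 1) (hn : 0 < Fintype.card V) {f : Finset (Sym2 V) → V → ℝ}
    (hf : Un f) :
    Ex p (EV V) (fun A => ((∑ v, lift f A v) / Fintype.card V -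
      Real.exp (-(p * ∑ u, f A u))) ^ 2) ≤ Fintype.card V * p ^ 2 + p +
        (2 * (p * Ex p (EV V) (dd f)) + Ex p (EV V) (dd (lift f)) / Fintype.card V) /
          Fintype.card V := by
  have hnr : (0 : ℝ) < Fintype.card V := by exact_mod_cast hn
  have e0 : ∀ A, 0 ≤ p * ∑ u, f A u := fun A => mul_nonneg h0 (sum_nonneg fun u _ => (hf A u).1)
  have e1 : ∀ A, 0 ≤ Real.exp (-(p * ∑ u, f A u)) ∧ Real.exp (-(p * ∑ u, f A u)) ≤ 1 := fun A =>
    ⟨(Real.exp_pos _).le, Real.exp_le_one_iff.2 (neg_nonpos.2 (e0 A))⟩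
  have e2 : ∀ A, ∑ v, |Real.exp (-(p * ∑ u, f A u)) - Real.exp (-(p * ∑ u, f (del A v) u))| ≤
      p * dd f A := by
    intro A
    refine le_trans ?_ (mul_le_mul_of_nonneg_left (abs_sum_sub_le f A) h0)
    rw [mul_sum _ (fun v => |∑ u, f A u - ∑ u, f (del A v) u|)]
    refine sum_le_sum fun v _ => (exp_lip (e0 _) (e0 _)).trans ?_
    rw [← mul_sub, abs_mul, abs_of_nonneg h0]
  have := cav h0 h1 (fun _ B S => ∏ u ∈ S, (1 - f B u)) (fun A => Real.exp (-(p * ∑ u, f A u)))
    (fun A => (∑ v, lift f A v) / Fintype.card V - Real.exp (-(p * ∑ u, f A u)))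
    (ε := Fintype.card V * p ^ 2 + p)
    (fun v B S => by
      have h2 : 0 ≤ ∏ i ∈ S, (1 - f B i) := prod_nonneg fun i _ => sub_nonneg.2 (hf B i).2
      have h3 : ∏ i ∈ S, (1 - f B i) ≤ 1 := prod_le_one (fun i _ => sub_nonneg.2 (hf B i).2)
        fun i _ => by linarith [(hf B i).1]
      have := e1 B
      rw [abs_le]; constructor <;> linarith)
    (fun A => by
      have h2 : 0 ≤ (∑ v, lift f A v) / Fintype.card V :=
        div_nonneg (sum_nonneg fun v _ => (hf.lift A v).1) hnr.le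
      have h3 : (∑ v, lift f A v) / Fintype.card V ≤ 1 := by
        rw [div_le_one hnr]
        simpa using sum_le_card_nsmul univ _ 1 fun v _ => (hf.lift A v).2
      have := e1 A
      rw [abs_le]; constructor <;> linarith)
    (fun v B => by
      rw [Ex_prod]
      simpa [show (univ.erase v)ᶜ = {v} by ext x; simp] using
        prod_approx h0 h1 (hf B) (univ.erase v))
  have e3 : Ex p (EV V) (fun A => ∑ v, (|Real.exp (-(p * ∑ u, f A u)) -
      Real.exp (-(p * ∑ u, f (del A v) u))| + |(∑ v, lift f A v) / Fintype.card V -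
      Real.exp (-(p * ∑ u, f A u)) - ((∑ u, lift f (del A v) u) / Fintype.card V -
      Real.exp (-(p * ∑ u, f (del A v) u)))|)) ≤
      2 * (p * Ex p (EV V) (dd f)) + Ex p (EV V) (dd (lift f)) / Fintype.card V := by
    rw [← Ex_mul, ← Ex_mul, div_eq_inv_mul, ← Ex_mul, ← Ex_add]
    refine Ex_mono h0 h1 fun A _ => ?_
    have h4 : ∑ v, |(∑ v, lift f A v) / Fintype.card V - (∑ u, lift f (del A v) u) / Fintype.card V|
        ≤ (Fintype.card V : ℝ)⁻¹ * dd (lift f) A := by
      refine le_trans (le_of_eq ?_)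
        (mul_le_mul_of_nonneg_left (abs_sum_sub_le (lift f) A) (by positivity))
      rw [mul_sum]
      exact sum_congr rfl fun v _ => by rw [← sub_div, abs_div, abs_of_pos hnr, div_eq_inv_mul]
    refine le_trans (sum_le_sum fun v _ => add_le_add le_rfl
      ((congrArg abs (sub_sub_sub_comm _ _ _ _)).le.trans (abs_sub _ _))) ?_
    rw [sum_add_distrib, sum_add_distrib]
    linarith [e2 A]
  rw [Ex_congr p (g := fun A => (Fintype.card V : ℝ) * ((∑ v, lift f A v) / Fintype.card V -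
      Real.exp (-(p * ∑ u, f A u))) ^ 2) (fun A _ => by unfold lift; field_simp), Ex_mul] at this
  have h5 := (le_abs_self _).trans (this.trans (add_le_add le_rfl e3))
  rw [← sub_le_iff_le_add', le_div_iff₀ hnr]
  linarith

end Pool.Agent.H351Z.RG
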