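import Mathlib

/-! Definitions for sharp thresholds of randomly perturbed graphs. -/

set_option autoImplicit false

namespace Pool.Agent.H351Z.RG

open Filter Topology

/-- `G` contains a linear forest with `m` edges: there are vertex-disjoint paths of `G`, each given
by its list of vertices, whose numbers of edges add up to `m`. -/
def HasLinearForest {V : Type} (G : SimpleGraph V) (m : ℕ) : Prop :=
  ∃ Ps : List (List V), Ps.flatten.Nodup ∧ (∀ P ∈ Ps, P.IsChain G.Adj) ∧
    (Ps.map fun P => P.length - 1).sum = m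

/-- The probability that the binomial random graph `G(N, p)` has the property `Q`. -/
noncomputable def prob (N : ℕ) (p : unitInterval) (Q : SimpleGraph (Fin N) → Prop) : ℝ :=
  (SimpleGraph.binomialRandom (Fin N) p).real {G | Q G}

open Classical in
/-- `ps` is a sharp `d`-threshold for the graph property `P`. -/
def IsSharpDThreshold (P : ∀ n, SimpleGraph (Fin n) → Prop) (d : ℕ → ℕ) (ps : ℕ → ℝ) : Prop :=
  ∀ ε : ℝ, 0 < ε →
    (∃ H : ∀ n, SimpleGraph (Fin n), (∀ᶠ n in atTop, d n ≤ (H n).minDegree) ∧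
      ∀ p : ℕ → unitInterval, (∀ᶠ n in atTop, (p n : ℝ) ≤ (1 - ε) * ps n) →
        Tendsto (fun n => prob n (p n) fun G => P n (H n ⊔ G)) atTop (𝓝 0)) ∧
    ∀ H : ∀ n, SimpleGraph (Fin n), (∀ᶠ n in atTop, d n ≤ (H n).minDegree) →
      ∀ p : ℕ → unitInterval, (∀ᶠ n in atTop, (1 + ε) * ps n ≤ p n) →
        Tendsto (fun n => prob n (p n) fun G => P n (H n ⊔ G)) atTop (𝓝 1)

/-- `ps` is a sharp threshold for the property `Q n` of `G(N n, p)`. -/
def IsSharpThreshold (N : ℕ → ℕ) (Q : ∀ n, SimpleGraph (Fin (N n)) → Prop) (ps : ℕ → ℝ) : Prop :=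
  ∀ ε : ℝ, 0 < ε → ∀ p : ℕ → unitInterval,
    ((∀ᶠ n in atTop, (p n : ℝ) ≤ (1 - ε) * ps n) →
      Tendsto (fun n => prob (N n) (p n) (Q n)) atTop (𝓝 0)) ∧
    ((∀ᶠ n in atTop, (1 + ε) * ps n ≤ p n) →
      Tendsto (fun n => prob (N n) (p n) (Q n)) atTop (𝓝 1))

end Pool.Agent.H351Z.RG
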