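import Pool.Agent.H351Z.RAsym
import Pool.Agent.H351Z.RDefs

/-! Translation to the binomial random graph of Mathlib and the final theorem. -/

set_option autoImplicit false
set_option linter.unusedSectionVars false

namespace Pool.Agent.H351Z.RG

open Finset Filter Topology

theorem gr_edgeSet {V : Type*} [Fintype V] [DecidableEq V] {A : Finset (Sym2 V)} (hA : A ⊆ EV V) :
    (gr A).edgeSet = A := by
  ext e
  simp only [gr, SimpleGraph.edgeSet_fromEdgeSet, Set.mem_sdiff, mem_coe, Sym2.mem_diagSet]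
  exact ⟨fun h => h.1, fun h => ⟨h, mem_EV.1 (hA h)⟩⟩

theorem prob_eq (N : ℕ) (p : unitInterval) (Q : SimpleGraph (Fin N) → Prop) :
    prob N p Q = Pr p (EV (Fin N)) fun A => Q (gr A) := by
  classical
  have h1 : {G | Q G} = ((univ.filter Q : Finset (SimpleGraph (Fin N))) : Set _) := by
    ext G; simp
  have : MeasurableSingletonClass (SimpleGraph (Fin N)) := ⟨fun G => by
    have := SimpleGraph.measurable_edgeSet (measurableSet_singleton G.edgeSet)
    rwa [← Set.image_singleton, SimpleGraph.edgeSet_injective.preimage_image] at this⟩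
  unfold prob Pr Ex
  rw [h1, ← MeasureTheory.sum_measureReal_singleton]
  simp only [mul_ite, mul_one, mul_zero]
  rw [← sum_filter]
  symm
  refine sum_bij (fun A _ => gr A) (fun A hA => ?_) (fun A hA B hB h => ?_) (fun G hG => ?_)
    fun A hA => ?_
  · simpa using (mem_filter.1 hA).2
  · have e1 := gr_edgeSet (mem_powerset.1 (mem_filter.1 hA).1)
    have e2 := gr_edgeSet (mem_powerset.1 (mem_filter.1 hB).1)
    exact coe_injective (by rw [← e1, ← e2, h])
  · have e1 : gr G.edgeFinset = G := by simp [gr]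
    refine ⟨G.edgeFinset, mem_filter.2 ⟨mem_powerset.2 fun e he => mem_EV.2 ?_, ?_⟩, e1⟩
    · exact G.not_isDiag_of_mem_edgeSet (by simpa using he)
    · rw [e1]; exact (mem_filter.1 hG).2
  · rw [MeasureTheory.measureReal_def, SimpleGraph.binomialRandom_singleton,
      gr_edgeSet (mem_powerset.1 (mem_filter.1 hA).1), card_EV]
    simp

theorem hasLinearForest_iff {V : Type} [Fintype V] [DecidableEq V] (G : SimpleGraph V) (m : ℕ) :
    HasLinearForest G m ↔ LF G.Adj univ m := by
  constructor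
  · rintro ⟨Ps, h1, h2, h3⟩
    refine ⟨Ps.flatten, h1, by simp, ?_⟩
    subst h3
    clear h1
    induction Ps with
    | nil => simp
    | cons P Ps ih =>
      rw [List.flatten_cons, List.map_cons, List.sum_cons]
      refine le_trans (add_le_add ?_ (ih fun Q hQ => h2 Q (List.mem_cons_of_mem _ hQ)))
        (cnt_append_ge _ _)
      cases P with
      | nil => simp
      | cons a l => rw [cnt_of_chain (h2 _ (by simp))]; simp
  · rintro ⟨L, h1, -, h3⟩
    have key : ∀ (t : List V) (a : V) (m : ℕ), m ≤ cnt G.Adj (a :: t) →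
        ∃ P Ps, ((a :: P) :: Ps).flatten = a :: t ∧ (∀ Q ∈ (a :: P) :: Ps, Q.IsChain G.Adj) ∧
          (((a :: P) :: Ps).map fun P => P.length - 1).sum = m := by
      intro t
      induction t with
      | nil => intro a m hm; exact ⟨[], [], by simp, by simp, by simpa [eq_comm] using hm⟩
      | cons b t ih =>
        intro a m hm
        by_cases h : G.Adj a b ∧ 0 < m
        · rw [cnt_pos h.1] at hm
          obtain ⟨P, Ps, e1, e2, e3⟩ := ih b (m - 1) (by omega)
          refine ⟨b :: P, Ps, by simpa using e1, fun Q hQ => ?_, ?_⟩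
          · rcases List.mem_cons.1 hQ with rfl | hQ
            · exact List.isChain_cons_cons.2 ⟨h.1, e2 _ (by simp)⟩
            · exact e2 _ (List.mem_cons_of_mem _ hQ)
          · simp only [List.map_cons, List.length_cons, List.sum_cons] at e3 ⊢
            omega
        · obtain ⟨P, Ps, e1, e2, e3⟩ := ih b m (by
            by_cases h' : G.Adj a b
            · have : m = 0 := by by_contra h0; exact h ⟨h', Nat.pos_of_ne_zero h0⟩
              omega
            · rwa [cnt_neg h'] at hm)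
          refine ⟨[], (b :: P) :: Ps, by simpa using e1, fun Q hQ => ?_, by simpa using e3⟩
          rcases List.mem_cons.1 hQ with rfl | hQ
          · simp
          · exact e2 _ hQ
    cases L with
    | nil => exact ⟨[], by simp, by simp, by simpa [eq_comm] using h3⟩
    | cons a t =>
      obtain ⟨P, Ps, e1, e2, e3⟩ := key t a m h3
      exact ⟨_, e1 ▸ h1, e2, e3⟩

open Classical in
theorem minDegree_iff {n : ℕ} (hn : 0 < n) (H : SimpleGraph (Fin n)) (d : ℕ) :
    d ≤ H.minDegree ↔ ∀ v, d ≤ dg H.Adj v univ := by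
  have : Nonempty (Fin n) := ⟨⟨0, hn⟩⟩
  have e : ∀ v, H.degree v = dg H.Adj v univ := by
    intro v
    unfold dg
    rw [← SimpleGraph.card_neighborFinset_eq_degree]
    congr 1
    ext y
    simp
  exact ⟨fun h v => e v ▸ h.trans (H.minDegree_le_degree v),
    fun h => H.le_minDegree_of_forall_le_degree d fun v => (e v).symm ▸ h v⟩

theorem final {α : ℝ} (h0 : 0 < α) (h1 : α < 1 / 2) {d : ℕ → ℕ}
    (hd : Tendsto (fun n => (d n : ℝ) / n) atTop (𝓝 α)) :
    ∃ ps : ℕ → ℝ, (∃ c C : ℝ, 0 < c ∧ ∀ᶠ n : ℕ in atTop, c / n ≤ ps n ∧ ps n ≤ C / n) ∧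
      IsSharpDThreshold (fun _ G => G.IsHamiltonian) d ps ∧
      IsSharpThreshold (fun n => n - d n) (fun n G => HasLinearForest G (n - 2 * d n)) ps := by
  obtain ⟨ps, hps, h⟩ := main_asym h0 h1 hd
  have hev : ∀ᶠ n : ℕ in atTop, 2 ≤ n ∧ 0 < d n ∧ 2 * d n ≤ n := by
    filter_upwards [hd.eventually (lt_mem_nhds h0), hd.eventually (gt_mem_nhds h1),
      eventually_ge_atTop 2] with n e1 e2 e3
    have hn : (0 : ℝ) < n := by exact_mod_cast (by omega : 0 < n)
    rw [lt_div_iff₀ hn, zero_mul] at e1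
    rw [div_lt_iff₀ hn] at e2
    have : (2 * d n : ℝ) ≤ n := by linarith
    exact ⟨e3, by exact_mod_cast e1, by exact_mod_cast this⟩
  have hB : ∀ n, ∃ H : SimpleGraph (Fin n), 2 * d n ≤ n → (∀ v, d n ≤ dg H.Adj v univ) ∧
      (2 ≤ n → 0 < d n → ∀ p : ℝ, 0 ≤ p → p ≤ 1 →
        Pr p (EV (Fin n)) (fun B => (H ⊔ gr B).IsHamiltonian) ≤ PL (n - d n) (n - 2 * d n) p) := by
    intro n
    by_cases h2 : 2 * d n ≤ n
    · obtain ⟨H, hH⟩ := exists_bip n (d n) h2
      exact ⟨H, fun _ => hH⟩
    · exact ⟨⊥, fun h => absurd h h2⟩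
  choose B hB using hB
  have hone : ∀ ε : ℝ, 0 < ε → ∀ H : ∀ n, SimpleGraph (Fin n),
      (∀ᶠ n in atTop, ∀ v, d n ≤ dg (H n).Adj v univ) → ∀ p : ℕ → unitInterval,
      (∀ᶠ n in atTop, (1 + ε) * ps n ≤ p n) →
      Tendsto (fun n => Pr (p n) (EV (Fin n)) fun A => (H n ⊔ gr A).IsHamiltonian)
        atTop (𝓝 1) := by
    intro ε hε H hH p hp
    have := ((h ε hε (fun n => p n) (fun n => (p n).2.1) fun n => (p n).2.2).2 hp H hH).const_sub 1
    simpa only [Pr_not, sub_sub_cancel, sub_zero] using this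
  have hPL : ∀ n (p : unitInterval), prob (n - d n) p (fun G => HasLinearForest G (n - 2 * d n)) =
      PL (n - d n) (n - 2 * d n) p := by
    intro n p
    rw [prob_eq, PL]
    exact Pr_congr _ fun A _ => hasLinearForest_iff _ _
  refine ⟨ps, hps, fun ε hε => ⟨⟨B, ?_, fun p hp => ?_⟩, fun H hH p hp => ?_⟩,
    fun ε hε p => ⟨fun hp => ?_, fun hp => ?_⟩⟩
  · filter_upwards [hev] with n hn
    exact (minDegree_iff (by omega) _ _).2 (hB n hn.2.2).1
  · simp only [prob_eq]
    refine squeeze_zero' (Eventually.of_forall fun n => Pr_nonneg (p n).2.1 (p n).2.2 _ _) ?_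
      ((h ε hε (fun n => p n) (fun n => (p n).2.1) fun n => (p n).2.2).1 hp)
    filter_upwards [hev] with n hn
    exact (hB n hn.2.2).2 hn.1 hn.2.1 _ (p n).2.1 (p n).2.2
  · simp only [prob_eq]
    refine hone ε hε H ?_ p hp
    filter_upwards [hev, hH] with n hn h2
    exact (minDegree_iff (by omega) _ _).1 h2
  · simp only [hPL]
    exact (h ε hε (fun n => p n) (fun n => (p n).2.1) fun n => (p n).2.2).1 hp
  · simp only [hPL]
    refine tendsto_of_tendsto_of_tendsto_of_le_of_le' (hone ε hε B ?_ p hp) tendsto_const_nhds ?_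
      (Eventually.of_forall fun n => Pr_le_one (p n).2.1 (p n).2.2 _ _)
    · filter_upwards [hev] with n hn
      exact (hB n hn.2.2).1
    · filter_upwards [hev] with n hn
      exact (hB n hn.2.2).2 hn.1 hn.2.1 _ (p n).2.1 (p n).2.2

end Pool.Agent.H351Z.RG
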