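import Pool.Agent.H351Z.KMD
import Pool.Agent.H351Z.RMain

/-! Reduction of perfect matchings in perturbed graphs to matchings of a random graph. -/

set_option autoImplicit false
set_option linter.unusedSectionVars false

namespace Pool.Agent.H351Z.RG

open Finset

variable {V : Type*} [Fintype V] [DecidableEq V]

theorem cheb {ι : Type*} [DecidableEq ι] {p : ℝ} (h0 : 0 ≤ p) (h1 : p ≤ 1) (s : Finset ι)
    {f : Finset ι → ℝ} (hf : ∀ a A, |f (insert a A) - f A| ≤ 1) {t : ℝ} (ht : 0 < t) :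
    Pr p s (fun A => t ≤ |f A - Ex p s f|) ≤ p * s.card / t ^ 2 := by
  have hv := Ex_var h0 h1 s hf
  set μ := Ex p s f with hμ
  refine le_trans (Pr_le_Ex (f := fun A => 1 / t ^ 2 * (f A - μ) ^ 2) h0 h1
    (fun A _ => by positivity) fun A _ hA => ?_) ?_
  · rw [one_div, ← div_eq_inv_mul, le_div_iff₀ (by positivity), one_mul, ← sq_abs (f A - μ)]
    gcongr
  · rw [Ex_mul, Ex_congr p (g := fun A => (f A ^ 2 + (-2 * μ) * f A) + μ ^ 2) (fun A _ => by ring),
      Ex_add, Ex_add, Ex_mul, Ex_const, one_div, ← div_eq_inv_mul]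
    gcongr
    linarith

theorem nu_cheb (N : ℕ) {p : ℝ} (h0 : 0 ≤ p) (h1 : p ≤ 1) {t : ℝ} (ht : 0 < t) :
    Pr p (EV (Fin N)) (fun A => t ≤ |(nu A : ℝ) - Ex p (EV (Fin N)) fun A => nu A|) ≤
      p * N ^ 2 / t ^ 2 := by
  refine (cheb h0 h1 _ (f := fun A => (nu A : ℝ)) (fun a A => ?_) ht).trans ?_
  · have h2 : (nu (insert a A) : ℝ) ≤ nu A + 1 := by exact_mod_cast nu_insert a A
    have h3 : (nu A : ℝ) ≤ nu (insert a A) := by exact_mod_cast nu_mono (subset_insert a A)
    rw [abs_le]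
    constructor <;> linarith
  · gcongr
    have := card_EV_le (V := Fin N)
    rw [Fintype.card_fin] at this
    exact_mod_cast this

/-- edges inside `W` -/
def res (A : Finset (Sym2 V)) (W : Finset V) : Finset (Sym2 V) := A.filter fun e => ∀ x ∈ e, x ∈ W

theorem mem_res {A : Finset (Sym2 V)} {W : Finset V} {a b : V} :
    s(a, b) ∈ res A W ↔ s(a, b) ∈ A ∧ a ∈ W ∧ b ∈ W := by simp [res]

theorem nu_map {U : Type*} [Fintype U] [DecidableEq U] (e : U ↪ V) (A : Finset (Sym2 U)) :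
    nu (A.map e.sym2Map) = nu A := by
  have key : ∀ M : Finset (Sym2 U), IsM (M.map e.sym2Map) ↔ IsM M := by
    intro M
    constructor
    · intro h x hx y hy v h1 h2
      exact e.sym2Map.injective (h _ (mem_map_of_mem _ hx) _ (mem_map_of_mem _ hy) (e v)
        (Sym2.mem_map.2 ⟨v, h1, rfl⟩) (Sym2.mem_map.2 ⟨v, h2, rfl⟩))
    · intro h x hx y hy v h1 h2
      obtain ⟨x, hx', rfl⟩ := mem_map.1 hx
      obtain ⟨y, hy', rfl⟩ := mem_map.1 hy
      obtain ⟨a, ha, rfl⟩ := Sym2.mem_map.1 h1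
      obtain ⟨b, hb, h3⟩ := Sym2.mem_map.1 h2
      rw [h x hx' y hy' a ha (e.injective h3 ▸ hb)]
  apply le_antisymm
  · obtain ⟨M, h1, h2⟩ := exists_nu (A.map e.sym2Map)
    obtain ⟨M', h3, rfl⟩ := subset_map_iff.1 (mem_Mt.1 h1).1
    rw [h2, card_map]
    exact le_nu (mem_Mt.2 ⟨h3, (key _).1 (mem_Mt.1 h1).2⟩)
  · obtain ⟨M, h1, h2⟩ := exists_nu A
    rw [h2, ← card_map e.sym2Map]
    exact le_nu (mem_Mt.2 ⟨map_subset_map.2 (mem_Mt.1 h1).1, (key _).2 (mem_Mt.1 h1).2⟩)

theorem nu_transfer (W : Finset V) (p : ℝ) (Q : ℕ → Prop) :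
    Pr p (EV V) (fun A => Q (nu (res A W))) = Pr p (EV (Fin W.card)) fun A => Q (nu A) := by
  classical
  let e : Fin W.card ↪ V := (W.equivFin.symm.toEmbedding).trans (Function.Embedding.subtype _)
  have h1 : ∀ x, x ∈ W ↔ ∃ i, e i = x := by
    intro x
    constructor
    · intro hx
      exact ⟨W.equivFin ⟨x, hx⟩, by simp [e]⟩
    · rintro ⟨i, rfl⟩
      exact (W.equivFin.symm i).2
  have ht : (EV (Fin W.card)).map e.sym2Map ⊆ EV V := by
    intro z hz
    obtain ⟨w, hw, rfl⟩ := mem_map.1 hz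
    induction w with
    | h a b => simpa [mem_EV] using hw
  rw [Pr_congr p (F := fun A => Q (nu (A ∩ (EV (Fin W.card)).map e.sym2Map))) fun A hA => by
    have : res A W = A ∩ (EV (Fin W.card)).map e.sym2Map := by
      ext z
      induction z with
      | h a b =>
        rw [mem_res, mem_inter, h1, h1]
        refine and_congr_right fun h => ⟨?_, fun h' => ?_⟩
        · rintro ⟨⟨i, rfl⟩, j, rfl⟩
          exact mem_map.2 ⟨s(i, j), by simpa [mem_EV] using mem_EV.1 (hA h), rfl⟩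
        · obtain ⟨w, -, hw⟩ := mem_map.1 h'
          obtain ⟨i, -, hi⟩ := Sym2.mem_map.1 (hw.symm ▸ Sym2.mem_mk_left a b : a ∈ e.sym2Map w)
          obtain ⟨j, -, hj⟩ := Sym2.mem_map.1 (hw.symm ▸ Sym2.mem_mk_right a b : b ∈ e.sym2Map w)
          exact ⟨⟨i, hi⟩, j, hj⟩
    rw [this]]
  unfold Pr
  rw [Ex_restrict p ht (fun A => if Q (nu A) then 1 else 0), Ex_map]
  simp only [nu_map]

theorem pm_bip (A0 : Finset V) (B : Finset (Sym2 V))
    (h : ∃ M : (bip A0 ⊔ gr B).Subgraph, M.IsPerfectMatching) :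
    Fintype.card V ≤ 2 * A0.card + 2 * nu (res B A0ᶜ) := by
  obtain ⟨M, hM⟩ := h
  choose σ hσ hσ2 using SimpleGraph.Subgraph.isPerfectMatching_iff.1 hM
  have hinv : ∀ v, σ (σ v) = v := fun v => (hσ2 _ _ (hσ v).symm).symm
  let U := A0ᶜ.filter fun v => σ v ∉ A0
  have h1 : A0ᶜ.card ≤ U.card + A0.card := by
    rw [← card_filter_add_card_filter_not (s := A0ᶜ) fun v => σ v ∉ A0]
    refine Nat.add_le_add_left (card_le_card_of_injOn σ (fun v hv => ?_)
      fun a _ b _ h => by rw [← hinv a, h, hinv]) _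
    simpa using (mem_filter.1 hv).2
  have h2 := card_le_two_mul_image (U.image fun v => (v, σ v))
  rw [card_image_of_injective _ (fun a b h => (Prod.ext_iff.1 h).1), image_image] at h2
  have h3 : (U.image fun v => s(v, σ v)) ∈ Mt (res B A0ᶜ) := by
    refine mem_Mt.2 ⟨fun e he => ?_, fun e he e' he' x hx hx' => ?_⟩
    · obtain ⟨v, hv, rfl⟩ := mem_image.1 he
      obtain ⟨h4, h5⟩ := mem_filter.1 hv
      refine mem_res.2 ⟨?_, h4, mem_compl.2 h5⟩
      rcases M.adj_sub (hσ v) with (h | h) | h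
      · exact absurd h.1 (mem_compl.1 h4)
      · exact absurd h.2 h5
      · exact (gr_adj.1 h).1
    · have key : ∀ v, x ∈ s(v, σ v) → s(v, σ v) = s(x, σ x) := by
        intro v hv
        rcases Sym2.mem_iff.1 hv with rfl | rfl
        · rfl
        · rw [hinv, Sym2.eq_swap]
      obtain ⟨v, -, rfl⟩ := mem_image.1 he
      obtain ⟨w, -, rfl⟩ := mem_image.1 he'
      rw [key v hx, key w hx']
  have h4 := le_nu h3
  have h5 := card_add_card_compl A0
  have h6 : (image ((fun p : V × V => s(p.1, p.2)) ∘ fun v => (v, σ v)) U).card =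
      (U.image fun v => s(v, σ v)).card := rfl
  omega

theorem tutte_comb (G : SimpleGraph V) (h : ¬ ∃ M : G.Subgraph, M.IsPerfectMatching) :
    ∃ (S : Finset V) (K : Finset (Finset V)), S.card < K.card ∧ (∀ C ∈ K, Odd C.card) ∧
      (∀ C ∈ K, ∀ C' ∈ K, ∀ x ∈ C, x ∈ C' → C = C') ∧ (∀ C ∈ K, ∀ x ∈ C, x ∉ S) ∧
      ∀ C ∈ K, ∀ x ∈ C, ∀ y, G.Adj x y → y ∈ C ∨ y ∈ S := by
  classical
  rw [SimpleGraph.tutte] at h
  push Not at h
  obtain ⟨u, hu⟩ := h
  let G' := ((⊤ : G.Subgraph).deleteVerts u).coe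
  let F : G'.ConnectedComponent → Finset V := fun c => (Subtype.val '' c.supp).toFinset
  have hF : ∀ c x, x ∈ F c ↔ ∃ hx : x ∈ ((⊤ : G.Subgraph).deleteVerts u).verts,
      G'.connectedComponentMk ⟨x, hx⟩ = c := by
    intro c x
    simp [F]
  have huniq : ∀ c c' x, x ∈ F c → x ∈ F c' → c = c' := by
    intro c c' x h1 h2
    obtain ⟨_, rfl⟩ := (hF _ _).1 h1
    obtain ⟨_, rfl⟩ := (hF _ _).1 h2
    rfl
  have hinj : Function.Injective F := by
    intro c c' h
    obtain ⟨x, rfl⟩ := c.exists_rep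
    have : x.1 ∈ F (G'.connectedComponentMk x) := (hF _ _).2 ⟨x.2, rfl⟩
    exact huniq _ _ _ this (h ▸ this)
  refine ⟨u.toFinset, G'.oddComponents.toFinset.image F, ?_, ?_, ?_, ?_, ?_⟩
  · rw [card_image_of_injective _ hinj, ← Set.ncard_eq_toFinset_card', ← Set.ncard_eq_toFinset_card']
    exact hu
  · intro C hC
    obtain ⟨c, hc, rfl⟩ := mem_image.1 hC
    rw [← Set.ncard_eq_toFinset_card', Set.ncard_image_of_injective _ Subtype.val_injective]
    exact (Set.mem_toFinset (s := G'.oddComponents)).1 hc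
  · intro C hC C' hC' x h1 h2
    obtain ⟨c, -, rfl⟩ := mem_image.1 hC
    obtain ⟨c', -, rfl⟩ := mem_image.1 hC'
    rw [huniq _ _ _ h1 h2]
  · intro C hC x hx
    obtain ⟨c, -, rfl⟩ := mem_image.1 hC
    obtain ⟨h1, -⟩ := (hF _ _).1 hx
    simpa using h1
  · intro C hC x hx y hxy
    obtain ⟨c, -, rfl⟩ := mem_image.1 hC
    obtain ⟨h1, rfl⟩ := (hF _ _).1 hx
    by_cases hy : y ∈ u
    · exact Or.inr (Set.mem_toFinset.2 hy)
    · refine Or.inl ((hF _ _).2 ⟨by simpa using hy, ?_⟩)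
      refine SimpleGraph.ConnectedComponent.connectedComponentMk_eq_of_adj ?_
      have h2 : x ∉ u := by simpa using h1
      simp [G', hy, h2, hxy.symm]

theorem card_le_of_hit {α β : Type*} {K : Finset α} {T : Finset β} (P : α → β → Prop)
    (h : ∀ C ∈ K, ∃ x ∈ T, P C x) (hu : ∀ C ∈ K, ∀ C' ∈ K, ∀ x, P C x → P C' x → C = C') :
    K.card ≤ T.card := by
  rcases K.eq_empty_or_nonempty with rfl | ⟨C, hC⟩
  · simp
  have : Nonempty β := ⟨(h C hC).choose⟩
  choose! f h1 h2 using h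
  exact card_le_card_of_injOn f h1 fun a ha b hb hab => hu a ha b hb _ (h2 a ha) (hab ▸ h2 b hb)

theorem card_mul_le_of_disj {K : Finset (Finset V)} {k : ℕ} (h : ∀ C ∈ K, k ≤ C.card)
    (hu : ∀ C ∈ K, ∀ C' ∈ K, ∀ x ∈ C, x ∈ C' → C = C') : K.card * k ≤ Fintype.card V := by
  refine (card_nsmul_le_sum K card k h).trans ?_
  have := card_biUnion (s := K) (t := id) fun a ha b hb hab =>
    disjoint_left.2 fun x h1 h2 => hab (hu a ha b hb x h1 h2)
  exact this.symm.le.trans (card_le_univ _)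

open Classical in
theorem red_det (H : SimpleGraph V) {A : Finset (Sym2 V)} (hA : A ⊆ EV V) {d L : ℕ}
    (hn : Even (Fintype.card V)) (hd0 : 0 < d) (hL : 4 * Fintype.card V ≤ L * d)
    (hLn : L ≤ Fintype.card V) (Sv : V → Finset V) (hS1 : ∀ v, ∀ y ∈ Sv v, H.Adj v y)
    (hS2 : ∀ v, (Sv v).card = d) (bad : Finset V) (hb : 4 * bad.card ≤ d)
    (hgood : ∀ v ∉ bad, Fintype.card V + L < 2 * d + 2 * nu (res A (Sv v)ᶜ))
    (hconn : ∀ S : Finset V, S.card = L → ∀ x y, Disjoint (Sv x \ S) (Sv y \ S) →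
      ∃ a ∈ Sv x \ S, ∃ b ∈ Sv y \ S, s(a, b) ∈ A) :
    ∃ M : (H ⊔ gr A).Subgraph, M.IsPerfectMatching := by
  by_contra hc
  obtain ⟨S, K, h1, h2, h3, h4, h5⟩ := tutte_comb _ hc
  have hne : ∀ C ∈ K, C.Nonempty := fun C hC => card_pos.1 (h2 C hC).pos
  have hsub : ∀ C ∈ K, ∀ x ∈ C, Sv x ⊆ C ∪ S := fun C hC x hx y hy =>
    mem_union.2 (h5 C hC x hx y (Or.inl (hS1 x y hy)))
  by_cases hS : 2 * S.card ≤ d
  · have e1 : K.card * (d - S.card) ≤ Fintype.card V := card_mul_le_of_disj (fun C hC => by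
      obtain ⟨x, hx⟩ := hne C hC
      have := (card_le_card (hsub C hC x hx)).trans (card_union_le _ _)
      rw [hS2] at this
      omega) h3
    have e2 : K.card ≤ L := by
      have : K.card * d ≤ L * d := by
        calc K.card * d ≤ K.card * (2 * (d - S.card)) := Nat.mul_le_mul_left _ (by omega)
          _ = 2 * (K.card * (d - S.card)) := by ring
          _ ≤ L * d := by omega
      exact Nat.le_of_mul_le_mul_right this hd0
    obtain ⟨C, hC⟩ : K.Nonempty := card_pos.1 (by omega)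
    obtain ⟨x, hx⟩ := hne C hC
    obtain ⟨y, hy1, hy2⟩ : ∃ y, y ∉ C ∧ y ∉ S := by
      by_contra hy
      push Not at hy
      have e3 : K.card ≤ 1 := card_le_one.2 fun a ha b hb => by
        have key : ∀ a ∈ K, a = C := by
          intro a ha
          obtain ⟨z, hz⟩ := hne a ha
          exact h3 a ha C hC z hz (by by_contra h; exact h4 a ha z hz (hy z h))
        rw [key a ha, key b hb]
      have e4 : S = ∅ := card_eq_zero.1 (by omega)
      have e5 : C = univ := eq_univ_of_forall fun z => by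
        by_contra h
        simpa [e4] using hy z h
      have := h2 C hC
      rw [e5, card_univ] at this
      exact Nat.not_odd_iff_even.2 hn this
    obtain ⟨S', e3, e4⟩ := exists_superset_card_eq (s := S) (n := L) (by omega) hLn
    have e5 : ∀ a ∈ Sv x \ S', a ∈ C := fun a ha =>
      (mem_union.1 (hsub C hC x hx (mem_sdiff.1 ha).1)).resolve_right
        fun h => (mem_sdiff.1 ha).2 (e3 h)
    have e6 : ∀ b ∈ Sv y \ S', b ∉ C := fun b hb h =>
      (h5 C hC b h y (Or.inl (hS1 y b (mem_sdiff.1 hb).1).symm)).elim hy1 hy2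
    obtain ⟨a, ha, b, hb, hab⟩ := hconn S' e4 x y (disjoint_left.2 fun a h h' => e6 a h' (e5 a h))
    exact (h5 C hC a (e5 a ha) b (Or.inr (gr_adj.2 ⟨hab, fun h => e6 b hb (h ▸ e5 a ha)⟩))).elim
      (e6 b hb) fun h => (mem_sdiff.1 hb).2 (e3 h)
  · have e1 : (K.filter fun C => ¬ C.card ≤ L).card * L ≤ Fintype.card V :=
      card_mul_le_of_disj (fun C hC => (not_le.1 (mem_filter.1 hC).2).le)
        fun C hC C' hC' => h3 C (mem_filter.1 hC).1 C' (mem_filter.1 hC').1
    have hL0 : 0 < L := by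
      obtain ⟨C, hC⟩ : K.Nonempty := card_pos.1 (by omega)
      have := (h2 C hC).pos.trans_le (card_le_univ C)
      exact Nat.pos_of_ne_zero fun h => by rw [h] at hL; omega
    have e2 : 4 * (K.filter fun C => ¬ C.card ≤ L).card ≤ d := by
      refine Nat.le_of_mul_le_mul_right (c := L) ?_ hL0
      rw [mul_assoc, mul_comm d]
      omega
    obtain ⟨C0, hC0, e3⟩ : ∃ C ∈ K.filter fun C : Finset V => C.card ≤ L, ∀ x ∈ bad, x ∉ C := by
      by_contra h
      push Not at h
      have := card_le_of_hit (fun C x => x ∈ C) h fun C hC C' hC' x =>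
        h3 C (mem_filter.1 hC).1 C' (mem_filter.1 hC').1 x
      have := card_filter_add_card_filter_not (s := K) fun C => C.card ≤ L
      omega
    obtain ⟨hC0, e4⟩ := mem_filter.1 hC0
    obtain ⟨v, hv⟩ := hne C0 hC0
    have e5 := hgood v fun h => e3 v h hv
    obtain ⟨M, hM, e6⟩ := exists_nu (res A (Sv v)ᶜ)
    obtain ⟨hM1, hM2⟩ := mem_Mt.1 hM
    have hM3 : M ⊆ EV V := hM1.trans ((filter_subset _ _).trans hA)
    have e7 : (K.erase C0).card ≤ (((Sv v)ᶜ \ cov M) ∪ (S \ Sv v)).card := by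
      refine card_le_of_hit (fun C y => y ∈ C ∨ (y ∈ S ∧ ∃ x ∈ C, s(x, y) ∈ M)) (fun C hC => ?_) ?_
      · obtain ⟨f1, f2⟩ := mem_erase.1 hC
        by_contra h
        push Not at h
        have f3 : cov (res M C) = C := by
          ext x
          rw [mem_cov]
          refine ⟨fun ⟨e, he, hx⟩ => (mem_filter.1 he).2 x hx, fun hx => ?_⟩
          have f4 : x ∉ Sv v := fun h' => (mem_union.1 (hsub C0 hC0 v hv h')).elim
            (fun h'' => f1 (h3 C f2 C0 hC0 x hx h'')) (h4 C f2 x hx)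
          have f5 : x ∈ cov M := by
            by_contra h'
            exact (h x (mem_union_left _ (mem_sdiff.2 ⟨mem_compl.2 f4, h'⟩))).1 hx
          obtain ⟨e, he, hxe⟩ := mem_cov.1 f5
          obtain ⟨y, rfl⟩ := Sym2.mem_iff_exists.1 hxe
          obtain ⟨f6, -, f7⟩ := mem_res.1 (hM1 he)
          refine ⟨_, mem_res.2 ⟨he, hx, ?_⟩, hxe⟩
          refine (h5 C f2 x hx y (Or.inr (gr_adj.2 ⟨f6, ?_⟩))).resolve_right fun h' =>
            (h y (mem_union_right _ (mem_sdiff.2 ⟨h', mem_compl.1 f7⟩))).2 h' x hx he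
          simpa using mem_EV.1 (hA f6)
        have f4 := card_cov (M := res M C) ((filter_subset _ _).trans hM3)
          (hM2.subset (filter_subset _ _))
        have f5 := h2 C f2
        rw [← f3, f4] at f5
        exact Nat.not_odd_iff_even.2 (even_two_mul _) f5
      · intro C hC C' hC' y f1 f2
        have g1 := mem_of_mem_erase hC
        have g2 := mem_of_mem_erase hC'
        rcases f1 with f1 | ⟨f1, x, hx, f3⟩ <;> rcases f2 with f2 | ⟨f2, x', hx', f4⟩
        · exact h3 C g1 C' g2 y f1 f2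
        · exact absurd f2 (h4 C g1 y f1)
        · exact absurd f1 (h4 C' g2 y f2)
        · have := Sym2.congr_left.1 (hM2 _ f3 _ f4 y (by simp) (by simp))
          exact h3 C g1 C' g2 x hx (this ▸ hx')
    have e8 := card_union_le ((Sv v)ᶜ \ cov M) (S \ Sv v)
    have e9 := card_sdiff_add_card_eq_card (s := cov M) (t := (Sv v)ᶜ) fun x hx => by
      obtain ⟨e, he, hxe⟩ := mem_cov.1 hx
      exact (mem_filter.1 (hM1 he)).2 x hxe
    have e10 := card_cov hM3 hM2
    have e11 := card_add_card_compl (Sv v)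
    have e12 := card_sdiff_add_card_inter S (Sv v)
    have e13 : (Sv v).card ≤ C0.card + (S ∩ Sv v).card :=
      le_trans (card_le_card fun x hx => mem_union.2 ((mem_union.1 (hsub C0 hC0 v hv hx)).imp_right
        fun h => mem_inter.2 ⟨h, hx⟩)) (card_union_le _ _)
    have e14 := card_erase_add_one hC0
    have e15 := hS2 v
    omega

theorem red_fin (H : SimpleGraph V) {d L : ℕ} (hd : ∀ v, d ≤ dg H.Adj v univ)
    (hn : Even (Fintype.card V)) (hd0 : 0 < d) (hL : 4 * Fintype.card V ≤ L * d)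
    (hLn : L ≤ Fintype.card V) {p : ℝ} (h0 : 0 ≤ p) (h1 : p ≤ 1) :
    Pr p (EV V) (fun A => ¬ ∃ M : (H ⊔ gr A).Subgraph, M.IsPerfectMatching) ≤
      Fintype.card V ^ (L + 2) * Real.exp (-(p * (d - L : ℕ) ^ 2 / 2)) + 4 / d * (Fintype.card V *
        Pr p (EV (Fin (Fintype.card V - d))) fun A => 2 * d + 2 * nu A ≤ Fintype.card V + L) := by
  classical
  have hS : ∀ v, ∃ S : Finset V, (∀ y ∈ S, H.Adj v y) ∧ S.card = d := by
    intro v
    obtain ⟨S, h2, h3⟩ := exists_subset_card_eq (hd v)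
    exact ⟨S, fun y hy => (mem_filter.1 (h2 hy)).2, h3⟩
  choose Sv hS1 hS2 using hS
  have hdr : (0 : ℝ) < d := by exact_mod_cast hd0
  let t : Finset V × V × V → Finset (Sym2 V) := fun q =>
    ((Sv q.2.1 \ q.1) ×ˢ (Sv q.2.2 \ q.1)).image fun r => s(r.1, r.2)
  let I : Finset (Finset V × V × V) := (powersetCard L univ ×ˢ univ).filter fun q =>
    Disjoint (Sv q.2.1 \ q.1) (Sv q.2.2 \ q.1)
  let bad : Finset (Sym2 V) → Finset V := fun A =>
    univ.filter fun v => 2 * d + 2 * nu (res A (Sv v)ᶜ) ≤ Fintype.card V + L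
  refine le_trans (Pr_le_Ex (f := fun A => ∑ q ∈ I, (0 : ℝ) ^ (A ∩ t q).card +
    4 / d * (bad A).card) h0 h1 (fun A _ => by positivity) fun A hA h => ?_) ?_
  · by_cases hb : 4 * (bad A).card ≤ d
    · refine le_add_of_le_of_nonneg ?_ (by positivity)
      by_contra hc
      refine h (red_det H hA hn hd0 hL hLn Sv hS1 hS2 (bad A) hb
        (fun v hv => by simpa [bad] using hv) fun S e1 x y e2 => ?_)
      by_contra e3
      refine hc (le_trans ?_ (single_le_sum (f := fun q => (0 : ℝ) ^ (A ∩ t q).card)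
        (fun q _ => by positivity) (a := (S, x, y)) (by simp [I, e1, e2])))
      have : A ∩ t (S, x, y) = ∅ := eq_empty_of_forall_notMem fun e he => by
        obtain ⟨r, hr, rfl⟩ := mem_image.1 (mem_inter.1 he).2
        exact e3 ⟨r.1, (mem_product.1 hr).1, r.2, (mem_product.1 hr).2, (mem_inter.1 he).1⟩
      simp [this]
    · refine le_add_of_nonneg_of_le (by positivity) ?_
      rw [div_mul_eq_mul_div, le_div_iff₀ hdr, one_mul]
      exact_mod_cast (not_le.1 hb).le
  · rw [Ex_add, Ex_mul, Ex_sum]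
    refine add_le_add ((sum_le_card_nsmul _ _ (Real.exp (-(p * (d - L : ℕ) ^ 2 / 2)))
      fun q hq => ?_).trans ?_) (mul_le_mul_of_nonneg_left (le_of_eq ?_) (by positivity))
    · obtain ⟨e1, e2⟩ := mem_filter.1 hq
      have e3 : q.1.card = L := (mem_powersetCard.1 (mem_product.1 e1).1).2
      rw [Ex_pow_inter _ _ fun e he => by
        obtain ⟨r, hr, rfl⟩ := mem_image.1 he
        refine mem_EV.2 fun h => disjoint_left.1 e2 (mem_product.1 hr).1 ?_
        rw [Sym2.mk_isDiag_iff.1 h]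
        exact (mem_product.1 hr).2]
      have e4 : ∀ x, d - L ≤ (Sv x \ q.1).card := fun x => by
        have := le_card_sdiff q.1 (Sv x)
        rwa [hS2, e3] at this
      have e5 : (d - L) ^ 2 ≤ 2 * (t q).card := by
        refine le_trans ?_ (card_le_two_mul_image _)
        rw [card_product, sq]
        exact Nat.mul_le_mul (e4 _) (e4 _)
      have e6 : ((d - L : ℕ) : ℝ) ^ 2 ≤ 2 * (t q).card := by exact_mod_cast e5
      calc (1 - p + p * 0) ^ (t q).card ≤ Real.exp (-p) ^ (t q).card :=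
            pow_le_pow_left₀ (by linarith) (by have := Real.add_one_le_exp (-p); linarith) _
        _ = Real.exp ((t q).card * -p) := (Real.exp_nat_mul _ _).symm
        _ ≤ _ := Real.exp_le_exp.2 (by nlinarith)
    · rw [nsmul_eq_mul]
      gcongr
      have : I.card ≤ Fintype.card V ^ (L + 2) := by
        refine (card_filter_le _ _).trans ?_
        rw [card_product, card_powersetCard, card_univ, card_univ, Fintype.card_prod, pow_add, sq]
        exact Nat.mul_le_mul_right _ (Nat.choose_le_pow _ _)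
      exact_mod_cast this
    · rw [Ex_congr p (g := fun A => ∑ v, if 2 * d + 2 * nu (res A (Sv v)ᶜ) ≤ Fintype.card V + L
        then 1 else 0) (fun A _ => by simp only [bad, card_filter]; push_cast; rfl), Ex_sum,
        ← card_univ, ← nsmul_eq_mul, ← sum_const]
      refine sum_congr rfl fun v _ => ?_
      have := nu_transfer (Sv v)ᶜ p fun m => 2 * d + 2 * m ≤ Fintype.card V + L
      rw [card_compl, hS2] at this
      rw [card_univ, ← this]
      unfold Pr
      congr
      funext A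
      congr

theorem sum_eq_Pr (n : ℕ) (p : ℝ) (Q : SimpleGraph (Fin n) → Prop) [DecidablePred Q]
    [Fintype (SimpleGraph (Fin n))] :
    ∑ G : SimpleGraph (Fin n), (if Q G then p ^ G.edgeSet.ncard *
      (1 - p) ^ (n.choose 2 - G.edgeSet.ncard) else 0) = Pr p (EV (Fin n)) fun A => Q (gr A) := by
  classical
  unfold Pr Ex
  simp only [mul_ite, mul_one, mul_zero]
  symm
  refine sum_bij (fun A _ => gr A) (fun A hA => mem_univ _) (fun A hA B hB h => ?_) (fun G hG => ?_)
    fun A hA => ?_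
  · have e1 := gr_edgeSet (mem_powerset.1 hA)
    have e2 := gr_edgeSet (mem_powerset.1 hB)
    exact coe_injective (by rw [← e1, ← e2, h])
  · have e1 : gr G.edgeFinset = G := by simp [gr]
    refine ⟨G.edgeFinset, mem_powerset.2 fun e he => mem_EV.2 ?_, e1⟩
    exact G.not_isDiag_of_mem_edgeSet (by simpa using he)
  · rw [gr_edgeSet (mem_powerset.1 hA), card_EV]
    simp

end Pool.Agent.H351Z.RG
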