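import Pool.Agent.H351Z.KLow
import Pool.Agent.H351Z.KRed

/-! The sharp threshold for perfect matchings in randomly perturbed graphs. -/

set_option autoImplicit false
set_option linter.unusedSectionVars false

namespace Pool.Agent.H351Z.RG

open Finset Filter Topology

theorem nu_LB {c M β : ℝ} (hc : 0 < c) (hM : ∀ y, 0 ≤ y → Phi c y ≤ M) (h : M < β) :
    ∃ θ K : ℝ, 0 < θ ∧ 0 ≤ K ∧ ∀ᶠ N : ℕ in atTop, ∀ p, c / N ≤ p → p ≤ 1 →
      Pr p (EV (Fin N)) (fun A => (2 * nu A : ℝ) ≤ (1 - β + θ) * N) ≤ K / N := by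
  obtain ⟨θ, hθ, hθe⟩ : ∃ θ : ℝ, 0 < θ ∧ β = M + 4 * θ := ⟨(β - M) / 4, by linarith, by ring⟩
  refine ⟨θ, c / θ ^ 2, hθ, by positivity, ?_⟩
  filter_upwards [good hc, ks_lower hc hM hθ] with N ⟨h1, h2, h3, _⟩ h5 p hp hp1
  have e1 := Pr_mono_p h2 hp hp1 (EV (Fin N)) (E := fun A => ¬ (2 * nu A : ℝ) ≤ (1 - β + θ) * N)
    fun A B hAB h' h'' => h' (le_trans (by gcongr; exact nu_mono hAB) h'')
  rw [Pr_not, Pr_not, sub_le_sub_iff_left] at e1
  refine e1.trans (le_trans (Pr_mono h2 h3 fun A _ hA => ?_)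
    ((nu_cheb N h2 h3 (t := θ * N) (by positivity)).trans (le_of_eq (by field_simp))))
  rw [le_abs]
  right
  rw [hθe] at hA
  linarith

theorem nu_UB {c β : ℝ} (hc : 0 < c) {k : ℕ}
    (h : β < ts c (2 * k + 2) + po (c * ts c (2 * k + 2)) - 1) :
    ∃ θ K : ℝ, 0 < θ ∧ 0 ≤ K ∧ ∀ᶠ N : ℕ in atTop, ∀ p, 0 ≤ p → p ≤ c / N →
      Pr p (EV (Fin N)) (fun A => (1 - β - θ) * N ≤ (2 * nu A : ℝ)) ≤ K / N := by
  obtain ⟨θ, hθ, hθe⟩ : ∃ θ : ℝ, 0 < θ ∧
      β = ts c (2 * k + 2) + po (c * ts c (2 * k + 2)) - 1 - 4 * θ :=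
    ⟨(ts c (2 * k + 2) + po (c * ts c (2 * k + 2)) - 1 - β) / 4, by linarith, by ring⟩
  refine ⟨θ, c / θ ^ 2, hθ, by positivity, ?_⟩
  filter_upwards [good hc, ks_upper hc k hθ] with N ⟨h1, h2, h3, _⟩ h5 p hp hp1
  refine (Pr_mono_p hp hp1 h3 (EV (Fin N))
    fun A B hAB h' => h'.trans (by gcongr; exact nu_mono hAB)).trans
    (le_trans (Pr_mono h2 h3 fun A _ hA => ?_)
    ((nu_cheb N h2 h3 (t := θ * N) (by positivity)).trans (le_of_eq (by field_simp))))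
  rw [le_abs]
  left
  rw [hθe] at hA
  linarith

theorem pm_one {α c C ε δ : ℝ} (h0 : 0 < α) (h1 : α < 1 / 2) (hC : 0 < C) (hc : c = (1 - α) * C)
    (hε : 0 < ε) (hδ : 0 < δ) {M : ℝ} (hM : ∀ y, 0 ≤ y → Phi ((1 + ε / 2) * c) y ≤ M)
    (hMβ : M < α / (1 - α)) : ∀ᶠ n : ℕ in atTop, Even n → ∀ H : SimpleGraph (Fin n),
      (∀ v, ⌈α * n⌉₊ ≤ dg H.Adj v univ) → 1 - δ ≤ Pr ((1 + ε) * C / n) (EV (Fin n))
        fun A => ∃ M : (H ⊔ gr A).Subgraph, M.IsPerfectMatching := by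
  have hα : 0 < 1 - α := by linarith
  have hc0 : 0 < c := by rw [hc]; positivity
  obtain ⟨θ, K, hθ, hK, h2⟩ := nu_LB (by positivity) hM hMβ
  obtain ⟨N0, hN0⟩ := eventually_atTop.1 h2
  set L := ⌈4 / α⌉₊
  have hL : 4 / α ≤ L := Nat.le_ceil _
  obtain ⟨b, hb, hbe⟩ : ∃ b : ℝ, 0 < b ∧ b = C * α ^ 2 / 8 := ⟨_, by positivity, rfl⟩
  filter_upwards [ev_ge 4, ev_ge (4 * N0), ev_ge ((1 + ε) * C), ev_ge L,
    ev_le L (η := α / 2) (by positivity), ev_le ((1 + ε) * C) (η := ε / 2 * c) (by positivity),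
    ev_le (L + 1 + θ) (η := θ * (1 - α)) (by positivity),
    ev_le ((L + 3).factorial / b ^ (L + 3) + 16 / α * K) hδ] with n e1 e2 e3 e4 e5 e6 e7 e8 hn H hH
  have hnr : (0 : ℝ) < n := by linarith
  set d := ⌈α * n⌉₊
  have hd1 : α * n ≤ d := Nat.le_ceil _
  have hd2 : (d : ℝ) < α * n + 1 := Nat.ceil_lt_add_one (by positivity)
  have hdn : d ≤ n := by
    have : (d : ℝ) ≤ n := by nlinarith
    exact_mod_cast this
  have hN : ((n - d : ℕ) : ℝ) = n - d := Nat.cast_sub hdn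
  have hN2 : (n : ℝ) / 4 ≤ (n - d : ℕ) := by rw [hN]; nlinarith
  have hp0 : 0 ≤ (1 + ε) * C / n := by positivity
  have hp1 : (1 + ε) * C / n ≤ 1 := by rwa [div_le_one hnr]
  have f1 := red_fin H hH (L := L) (by simpa using hn) (Nat.ceil_pos.2 (by positivity)) (by
    have : (4 * n : ℝ) ≤ L * d := by
      calc (4 * n : ℝ) = 4 / α * (α * n) := by field_simp
        _ ≤ _ := by gcongr
    rw [Fintype.card_fin]
    exact_mod_cast this) (by rw [Fintype.card_fin]; exact_mod_cast e4) hp0 hp1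
  rw [Pr_not, Fintype.card_fin] at f1
  have f2 := hN0 (n - d) (by
    have : (N0 : ℝ) ≤ (n - d : ℕ) := by linarith
    exact_mod_cast this) _ (by
      rw [div_le_div_iff₀ (by linarith) hnr, hN]
      have : (1 + ε) * C * (n - d) ≥ (1 + ε) * C * ((1 - α) * n - 1) :=
        mul_le_mul_of_nonneg_left (by linarith) (by positivity)
      rw [hc] at e6 ⊢
      linarith) hp1
  have f3 : Pr ((1 + ε) * C / n) (EV (Fin (n - d))) (fun A => 2 * d + 2 * nu A ≤ n + L) ≤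
      K / (n / 4) := by
    refine (Pr_mono hp0 hp1 fun A _ hA => ?_).trans (f2.trans (by gcongr))
    have g1 : (2 * d + 2 * nu A : ℝ) ≤ n + L := by exact_mod_cast hA
    have g2 : (1 - α / (1 - α)) * (1 - α) = 1 - 2 * α := by field_simp; ring
    have g3 : 0 ≤ α / (1 - α) := by positivity
    have g4 : α / (1 - α) ≤ 1 := by rw [div_le_one hα]; linarith
    have g5 : (1 - α / (1 - α) + θ) * ((1 - α) * n - 1) ≤ (1 - α / (1 - α) + θ) * (n - d) :=
      mul_le_mul_of_nonneg_left (by linarith) (by linarith)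
    have g6 : (1 - α / (1 - α) + θ) * ((1 - α) * n - 1) =
        (1 - 2 * α) * n + θ * (1 - α) * n - (1 - α / (1 - α) + θ) := by rw [← g2]; ring
    rw [hN]
    linarith
  have f4 : 4 / (d : ℝ) * (n * Pr ((1 + ε) * C / n) (EV (Fin (n - d)))
      fun A => 2 * d + 2 * nu A ≤ n + L) ≤ 16 / α * K / n := by
    calc _ ≤ 4 / (α * n) * (n * (K / (n / 4))) := by
          gcongr
          exact mul_nonneg hnr.le (Pr_nonneg hp0 hp1 _ _)
      _ = _ := by field_simp; ring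
  have f5 : (n : ℝ) ^ (L + 2) * Real.exp (-((1 + ε) * C / n * (d - L : ℕ) ^ 2 / 2)) ≤
      (L + 3).factorial / b ^ (L + 3) / n := by
    have g1 : α / 2 * n ≤ (d - L : ℕ) := by
      have : L ≤ d := by
        have : (L : ℝ) ≤ d := by nlinarith
        exact_mod_cast this
      rw [Nat.cast_sub this]
      linarith
    have g2 : b * n ≤ (1 + ε) * C / n * (d - L : ℕ) ^ 2 / 2 := by
      calc b * n = 1 * C / n * (α / 2 * n) ^ 2 / 2 := by rw [hbe]; field_simp; norm_num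
        _ ≤ _ := by gcongr; linarith
    have g3 := (Real.pow_div_factorial_le_exp (b * n) (by positivity) (L + 3)).trans
      (Real.exp_le_exp.2 g2)
    rw [Real.exp_neg, ← div_eq_mul_inv]
    calc _ ≤ (n : ℝ) ^ (L + 2) / ((b * n) ^ (L + 3) / (L + 3).factorial) := by gcongr
      _ = _ := by rw [mul_pow]; field_simp; ring
  rw [← div_le_iff₀ hnr, add_div] at e8
  linarith

theorem pm_zero {α c C ε δ : ℝ} (h0 : 0 < α) (h1 : α < 1 / 2) (hC : 0 < C) (hc : c = (1 - α) * C)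
    (hε : ε < 1) (hδ : 0 < δ) {k : ℕ} (hk : α / (1 - α) < ts ((1 - ε) * c) (2 * k + 2) +
      po ((1 - ε) * c * ts ((1 - ε) * c) (2 * k + 2)) - 1) :
    ∀ᶠ n : ℕ in atTop, ∃ H : SimpleGraph (Fin n), (∀ v, ⌈α * n⌉₊ ≤ dg H.Adj v univ) ∧
      Pr ((1 - ε) * C / n) (EV (Fin n))
        (fun A => ∃ M : (H ⊔ gr A).Subgraph, M.IsPerfectMatching) ≤ δ := by
  have hα : 0 < 1 - α := by linarith
  have hε' : 0 < 1 - ε := by linarith
  have hc0 : 0 < c := by rw [hc]; positivity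
  obtain ⟨θ, K, hθ, hK, h2⟩ := nu_UB (by positivity) hk
  obtain ⟨N0, hN0⟩ := eventually_atTop.1 h2
  filter_upwards [ev_ge 4, ev_ge (4 * N0), ev_ge ((1 - ε) * C), ev_le 8 hθ,
    ev_le 2 (η := 1 - 2 * α) (by linarith), ev_le (4 * K) hδ] with n e1 e2 e3 e4 e5 e6
  have hnr : (0 : ℝ) < n := by linarith
  set d := ⌈α * n⌉₊
  have hd1 : α * n ≤ d := Nat.le_ceil _
  have hd2 : (d : ℝ) < α * n + 1 := Nat.ceil_lt_add_one (by positivity)
  have hdn : 2 * d ≤ n := by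
    have : (2 * d : ℝ) ≤ n := by nlinarith
    exact_mod_cast this
  have hN : ((n - d : ℕ) : ℝ) = n - d := Nat.cast_sub (by omega)
  have hN2 : (n : ℝ) / 4 ≤ (n - d : ℕ) := by rw [hN]; nlinarith
  have hp0 : 0 ≤ (1 - ε) * C / n := by positivity
  have hp1 : (1 - ε) * C / n ≤ 1 := by rwa [div_le_one hnr]
  obtain ⟨A0, -, hA⟩ := exists_subset_card_eq (s := (univ : Finset (Fin n))) (n := d)
    (by simp; omega)
  refine ⟨bip A0, hA ▸ bip_dg A0 (by simpa [hA] using hdn), ?_⟩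
  have f1 := nu_transfer A0ᶜ ((1 - ε) * C / n) fun m => n ≤ 2 * d + 2 * m
  rw [card_compl, hA, Fintype.card_fin] at f1
  have f2 := hN0 (n - d) (by
    have : (N0 : ℝ) ≤ (n - d : ℕ) := by linarith
    exact_mod_cast this) _ hp0 (by
      rw [div_le_div_iff₀ hnr (by linarith), hN, hc]
      have : (1 - ε) * C * (n - d) ≤ (1 - ε) * C * ((1 - α) * n) := by gcongr; linarith
      linarith)
  refine (Pr_mono hp0 hp1 fun B _ hB => by simpa [hA] using pm_bip A0 B hB).trans (f1.le.trans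
    ((Pr_mono hp0 hp1 fun B _ hB => ?_).trans (f2.trans ?_)))
  · have g1 : (n : ℝ) ≤ 2 * d + 2 * nu B := by exact_mod_cast hB
    have g2 : (1 - α / (1 - α)) * (1 - α) = 1 - 2 * α := by field_simp; ring
    have g4 : α / (1 - α) ≤ 1 := by rw [div_le_one hα]; linarith
    have g5 : (1 - α / (1 - α)) * (n - d : ℕ) ≤ (1 - α / (1 - α)) * ((1 - α) * n) := by
      rw [hN]
      exact mul_le_mul_of_nonneg_left (by linarith) (by linarith)
    rw [← mul_assoc, g2] at g5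
    have g6 := mul_le_mul_of_nonneg_left hN2 hθ.le
    linarith
  · calc _ ≤ K / (n / 4) := by gcongr
      _ = 4 * K / n := by field_simp
      _ ≤ δ := by rwa [div_le_iff₀ hnr]

end Pool.Agent.H351Z.RG
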