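import Pool.Agent.H351Z.KUp

/-! The lower bound on the matching number. -/

set_option autoImplicit false
set_option linter.unusedSectionVars false

namespace Pool.Agent.H351Z.RG

open Finset Filter Topology

section det
variable {V : Type*} [Fintype V] [DecidableEq V] {z K : ℝ}

theorem R_mul_le (hz : 0 < z) {A : Finset (Sym2 V)} (hA : A ⊆ EV V) {v w : V} (hw : w ∈ nb A v) :
    R z A v * (z * R z (del A v) w) ≤ 1 := by
  have h1 := R_rec hz hA v
  have h2 := R_pos hz A v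
  have h3 : R z (del A v) w ≤ ∑ w ∈ nb A v, R z (del A v) w :=
    single_le_sum (f := fun w => R z (del A v) w) (fun w _ => (R_pos hz _ w).le) hw
  have h4 := mul_le_mul_of_nonneg_left h3 (mul_pos h2 hz).le
  nlinarith

theorem low_alpha (hz : 0 < z) (hK : 0 < K) {s δ : ℝ} (hs : 0 ≤ s) (hδ : 0 < δ)
    {f : Finset (Sym2 V) → V → ℝ} (hf : Un f) (hf1 : ∀ A u, f A u ≠ 1 → R z A u ≤ s)
    {A : Finset (Sym2 V)} (hA : A ⊆ EV V) (v : V) :
    1 - lift (lift f) A v - δ * (1 + K * (nb A v).card) -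
      (1 / z + s * ∑ w ∈ nb A v, ((nb A w).card : ℝ)) / δ ≤
      ∑ w ∈ nb A v, if K < z * R z (del A v) w then R z A v * (z * R z (del A v) w) else 0 := by
  have h0 := R_pos hz A v
  have h1 : 0 ≤ ∑ w ∈ nb A v, if K < z * R z (del A v) w then
      R z A v * (z * R z (del A v) w) else 0 := sum_nonneg fun w _ => by
    have := R_pos hz (del A v) w
    positivity
  have h2 : 0 ≤ δ * (1 + K * (nb A v).card) := by positivity
  have h3 : 0 ≤ (1 / z + s * ∑ w ∈ nb A v, ((nb A w).card : ℝ)) / δ := by positivity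
  have h4 := (hf.lift.lift A v).1
  by_cases h : ∀ w ∈ nb A v, lift f (del A v) w = 0
  · have : lift (lift f) A v = 1 := prod_eq_one fun w hw => by rw [h w hw, sub_zero]
    linarith
  push Not at h
  obtain ⟨w, hw, h5⟩ := h
  have hB := (del_subset A v).trans hA
  have h6 : ∑ u ∈ nb (del A v) w, R z (del (del A v) w) u ≤ s * ∑ w ∈ nb A v, ((nb A w).card : ℝ) := by
    refine (sum_le_card_nsmul _ _ s fun u hu => hf1 _ _ fun h' => h5
      (prod_eq_zero hu (by rw [h', sub_self]))).trans ?_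
    rw [nsmul_eq_mul, mul_comm]
    refine mul_le_mul_of_nonneg_left (le_trans ?_ (single_le_sum
      (f := fun w => ((nb A w).card : ℝ)) (fun _ _ => by positivity) hw)) hs
    rw [nb_del (mem_nb.1 hw).2.symm]
    exact_mod_cast card_erase_le
  have h7 : R z A v ≤ 1 / z + s * ∑ w ∈ nb A v, ((nb A w).card : ℝ) := by
    have e1 := R_mul_le hz hA hw
    have e2 := R_rec hz hB w
    have e3 : 0 ≤ ∑ u ∈ nb (del A v) w, R z (del (del A v) w) u :=
      sum_nonneg fun u _ => (R_pos hz _ u).le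
    calc R z A v = R z A v * (z * R z (del A v) w) *
          (1 / z + ∑ u ∈ nb (del A v) w, R z (del (del A v) w) u) := by
          have : z * R z (del A v) w * (1 / z + ∑ u ∈ nb (del A v) w, R z (del (del A v) w) u) = 1 := by
            refine Eq.trans ?_ e2
            field_simp
          rw [mul_assoc, this, mul_one]
      _ ≤ 1 * (1 / z + s * ∑ w ∈ nb A v, ((nb A w).card : ℝ)) :=
          mul_le_mul e1 (add_le_add le_rfl h6) (add_nonneg (by positivity) e3) zero_le_one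
      _ = _ := one_mul _
  have h8 : 1 - R z A v * (1 + K * (nb A v).card) ≤ ∑ w ∈ nb A v,
      if K < z * R z (del A v) w then R z A v * (z * R z (del A v) w) else 0 := by
    have e1 := R_rec hz hA v
    have e2 : ∑ w ∈ nb A v, (R z A v * (z * R z (del A v) w) - R z A v * K) ≤ ∑ w ∈ nb A v,
        if K < z * R z (del A v) w then R z A v * (z * R z (del A v) w) else 0 := by
      refine sum_le_sum fun w _ => ?_
      split_ifs with h'
      · nlinarith
      · nlinarith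
    rw [sum_sub_distrib, sum_const, nsmul_eq_mul, ← mul_sum, ← mul_sum] at e2
    linarith
  by_cases h9 : 1 ≤ δ * (1 + K * (nb A v).card)
  · linarith
  · have e1 : R z A v * (1 + K * (nb A v).card) ≤
        (1 / z + s * ∑ w ∈ nb A v, ((nb A w).card : ℝ)) / δ := by
      rw [le_div_iff₀ hδ]
      nlinarith
    linarith

theorem low_beta (hz : 0 < z) (hK : 0 < K) {f : Finset (Sym2 V) → V → ℝ} (hf : Un f)
    (hf2 : ∀ A u, f A u ≠ 0 → 1 ≤ K / 2 * R z A u) {A : Finset (Sym2 V)} (hA : A ⊆ EV V) (w : V) :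
    1 - one (f (del A w)) (nb A w) - K / z - K * tt (R z) A w ≤
      ∑ v ∈ nb A w, if K < z * R z (del A v) w then 0 else R z A v * (z * R z (del A v) w) := by
  have h1 : 0 ≤ ∑ v ∈ nb A w, if K < z * R z (del A v) w then 0 else
      R z A v * (z * R z (del A v) w) := sum_nonneg fun v _ => by
    have := R_pos hz (del A v) w
    have := R_pos hz A v
    positivity
  have h2 : 0 ≤ K / z := by positivity
  have h3 : 0 ≤ K * tt (R z) A w := mul_nonneg hK.le (tt_nonneg _ _ _)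
  have h4 := (one_bounds (hf (del A w)) (nb A w)).1
  by_cases h : one (f (del A w)) (nb A w) = 1
  · linarith
  by_cases h5 : 1 / 2 ≤ K / 2 * tt (R z) A w
  · linarith
  have h6 : ∀ a, ∃ u ∈ nb A w, u ≠ a ∧ 1 ≤ K / 2 * R z (del A w) u := by
    intro a
    by_contra hc
    push Not at hc
    exact h (one_eq_one a fun u hu hua => by
      by_contra h'
      exact absurd (hf2 _ _ h') (not_le.2 (hc u hu hua)))
  have h7 : ∀ v ∈ nb A w, ¬ K < z * R z (del A v) w := by
    intro v hv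
    obtain ⟨u, hu, huv, e1⟩ := h6 v
    have e2 := (le_abs_self _).trans (le_tt (R z) hu hv huv.symm)
    have e3 := R_mul_le hz ((del_subset A v).trans hA) (v := w) (w := u)
      (by rw [nb_del (mem_nb.1 hv).2]; exact mem_erase.2 ⟨huv, hu⟩)
    rw [del_comm A v w] at e3
    have e4 : 1 ≤ K * R z (del (del A w) v) u := by nlinarith
    have e5 := mul_pos hz (R_pos hz (del A v) w)
    nlinarith
  rw [sum_congr rfl (g := fun v => R z A w * (z * R z (del A w) v)) fun v hv => by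
    rw [if_neg (h7 v hv)]; linear_combination z * R_symm hz A v w, ← mul_sum, ← mul_sum]
  obtain ⟨u, hu, -, e1⟩ := h6 w
  have e2 := R_mul_le hz hA hu
  have e3 := R_rec hz hA w
  have e4 : R z A w ≤ K / z := by
    rw [le_div_iff₀ hz]
    have := mul_pos (R_pos hz A w) hz
    nlinarith
  linarith

theorem low_det (hz : 0 < z) (hK : 0 < K) {s δ : ℝ} (hs : 0 ≤ s) (hδ : 0 < δ)
    {f g : Finset (Sym2 V) → V → ℝ} (hf : Un f) (hf1 : ∀ A u, f A u ≠ 1 → R z A u ≤ s) (hg : Un g)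
    (hg2 : ∀ A u, g A u ≠ 0 → 1 ≤ K / 2 * R z A u) {A : Finset (Sym2 V)} (hA : A ⊆ EV V) :
    ∑ v, (1 - lift (lift f) A v - δ * (1 + K * (nb A v).card) -
      (1 / z + s * ((nb A v).card : ℝ) ^ 2) / δ +
      (1 - one (g (del A v)) (nb A v) - K / z - K * tt (R z) A v)) ≤ (2 * nu A : ℝ) := by
  have swap : ∀ F : V → V → ℝ, ∑ v, ∑ w ∈ nb A v, F v w = ∑ w, ∑ v ∈ nb A w, F v w := fun F =>
    sum_comm' fun v w => by simp only [mem_univ, true_and, and_true]; exact nb_symm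
  refine le_trans ?_ (sum_R hz hA)
  have h1 := sum_le_sum fun v (_ : v ∈ univ) => low_alpha hz hK hs hδ hf hf1 hA v
  have h2 := sum_le_sum fun v (_ : v ∈ univ) => low_beta hz hK hg hg2 hA v
  rw [← swap fun v w => if K < z * R z (del A v) w then 0 else R z A v * (z * R z (del A v) w)] at h2
  have h3 : ∑ v, (1 / z + s * ∑ w ∈ nb A v, ((nb A w).card : ℝ)) / δ =
      ∑ v, (1 / z + s * ((nb A v).card : ℝ) ^ 2) / δ := by
    rw [← sum_div, ← sum_div, sum_add_distrib, sum_add_distrib, ← mul_sum, ← mul_sum,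
      swap fun _ w => ((nb A w).card : ℝ)]
    simp only [sum_const, nsmul_eq_mul, sq]
  rw [sum_sub_distrib, h3, ← sum_sub_distrib] at h1
  rw [sum_add_distrib]
  refine (add_le_add h1 h2).trans (le_of_eq ?_)
  rw [← sum_add_distrib]
  refine sum_congr rfl fun v _ => ?_
  rw [← sum_add_distrib, sum_congr rfl (g := fun w => R z A v * (z * R z (del A v) w))
    fun w _ => by split_ifs <;> simp, ← mul_sum, ← mul_sum]
  linarith [R_rec hz hA v]

/-- a ramp function of the monomer probability -/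
noncomputable def ramp (z σ : ℝ) (A : Finset (Sym2 V)) (u : V) : ℝ :=
  min 1 (max 0 (R z A u / σ - 1))

theorem ramp_un (z σ : ℝ) : Un (ramp (V := V) z σ) := fun _ _ =>
  ⟨le_min zero_le_one (le_max_left _ _), min_le_left _ _⟩

theorem ramp_dd (hz : 0 < z) {σ : ℝ} (hσ : 0 < σ) {A : Finset (Sym2 V)} (hA : A ⊆ EV V) :
    dd (ramp z σ) A ≤ 2 / σ * Fintype.card V := by
  refine (sum_le_card_nsmul _ _ (2 / σ) fun x _ => ?_).trans
    (by rw [nsmul_eq_mul, card_univ, mul_comm])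
  refine le_trans ?_ (div_le_div_of_nonneg_right (R_stab' hz hA x) hσ.le)
  rw [sum_div]
  refine sum_le_sum fun u _ => ?_
  refine (abs_min_sub_min_le_max _ _ _ _).trans (max_le (by simp; positivity) ?_)
  refine (abs_max_sub_max_le_max _ _ _ _).trans (max_le (by simp; positivity) (le_of_eq ?_))
  rw [sub_sub_sub_cancel_right, ← sub_div, abs_div, abs_of_pos hσ]

end det

variable {c : ℝ}

theorem ramp_st (hc : 0 < c) {z σ : ℝ} (hz : 0 < z) (hσ : 0 < σ) :
    St c fun n => ramp (V := Fin n) z σ :=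
  ⟨2 / σ, (good hc).mono fun n h => Ex_le_const h.2.1 h.2.2.1 fun A hA => by
    simpa using ramp_dd hz hσ hA⟩

theorem R_st (hc : 0 < c) {z : ℝ} (hz : 0 < z) : St c fun n => R (V := Fin n) z :=
  ⟨2, (good hc).mono fun n h => Ex_le_const h.2.1 h.2.2.1 fun A hA =>
    (sum_le_card_nsmul _ _ 2 fun x _ => R_stab' hz hA x).trans (by simp [mul_comm])⟩

theorem low_step (hc : 0 < c) {M η z σ σ' : ℝ} (hM : ∀ y, 0 ≤ y → Phi c y ≤ M) (hη : 0 < η)
    (hz : 0 < z) (hσ' : 0 < σ') (hσ : σ' ≤ σ)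
    (h1 : (1 / z + 2 * σ' * (c ^ 2 + c)) * (1 + 2 / σ * c) ≤ η ^ 2) (h2 : 2 / σ / z ≤ η) :
    ∀ᶠ n : ℕ in atTop, (1 - M - (6 + c) * η) * n -
      c * (Ex (c / n) (EV (Fin n)) (fun A => ∑ u, ramp z σ' A u) -
        Ex (c / n) (EV (Fin n)) fun A => ∑ u, ramp z σ A u) ≤
      2 * Ex (c / n) (EV (Fin n)) fun A => nu A := by
  have hσ0 : 0 < σ := hσ'.trans_le hσ
  obtain ⟨K, hK, hKe⟩ : ∃ K : ℝ, 0 < K ∧ K = 2 / σ := ⟨_, by positivity, rfl⟩
  obtain ⟨δ, hδ, hδe⟩ : ∃ δ : ℝ, 0 < δ ∧ δ * (1 + K * c) = η :=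
    ⟨η / (1 + K * c), by positivity, by field_simp⟩
  rw [← hKe] at h1 h2
  filter_upwards [good hc, (ramp_st hc hz hσ').lln hc (fun n => ramp_un _ _) hη,
    ((ramp_st hc hz hσ').lift hc fun n => ramp_un _ _).lln hc (fun n => (ramp_un _ _).lift) hη,
    (ramp_st hc hz hσ0).two hc (fun n => ramp_un _ _) hη,
    (R_st hc hz).tt hc (η := η / K) (by positivity)] with n ⟨h3, h4, h5, _⟩ h6 h7 h8 h9
  have e1 := Ex_mono (s := EV (Fin n)) h4 h5 fun A hA => low_det hz hK (s := 2 * σ') (by positivity)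
    hδ (ramp_un z σ') (fun A u h => by
      have : R z A u / σ' - 1 < 1 := by
        by_contra h'
        exact h (min_eq_left (le_max_of_le_right (not_lt.1 h')))
      rw [sub_lt_iff_lt_add, div_lt_iff₀ hσ'] at this
      linarith) (ramp_un z σ) (fun A u h => by
      have : 0 < R z A u / σ - 1 := by
        by_contra h'
        exact h (by rw [ramp, max_eq_left (not_lt.1 h'), min_eq_right zero_le_one])
      rw [hKe, show 2 / σ / 2 * R z A u = R z A u / σ by ring]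
      linarith) (A := A) hA
  simp only [div_eq_inv_mul _ δ, sum_add_distrib, sum_sub_distrib, ← mul_sum, Ex_add, Ex_sub, Ex_mul,
    Ex_const, sum_const, card_univ, Fintype.card_fin, nsmul_eq_mul, mul_one] at e1
  have hcn : c / n * n = c := div_mul_cancel₀ _ h3.ne'
  have e2 : Ex (c / n) (EV (Fin n)) (fun A => ∑ v, ((nb A v).card : ℝ)) ≤ n * c := by
    rw [Ex_sum]
    refine (sum_le_card_nsmul _ _ _ fun v _ => Ex_deg h4 v).trans ?_
    simp [hcn]
  have e3 : Ex (c / n) (EV (Fin n)) (fun A => ∑ v, ((nb A v).card : ℝ) ^ 2) ≤ n * (c ^ 2 + c) := by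
    rw [Ex_sum]
    refine (sum_le_card_nsmul _ _ _ fun v _ => Ex_deg_sq h4 h5 v).trans ?_
    simp [hcn, mul_add]
  have e4 : δ * (n + K * Ex (c / n) (EV (Fin n)) fun A => ∑ v, ((nb A v).card : ℝ)) ≤ η * n := by
    calc _ ≤ δ * (n + K * (n * c)) := by gcongr
      _ = _ := by rw [← hδe]; ring
  have e5 : δ⁻¹ * (n * (1 / z) + 2 * σ' *
      Ex (c / n) (EV (Fin n)) fun A => ∑ v, ((nb A v).card : ℝ) ^ 2) ≤ η * n := by
    have : 1 / z + 2 * σ' * (c ^ 2 + c) ≤ δ * η := by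
      rw [sq η] at h1
      nth_rewrite 1 [← hδe] at h1
      exact le_of_mul_le_mul_right (by linarith) (show 0 < 1 + K * c by positivity)
    calc _ ≤ δ⁻¹ * (n * (1 / z) + 2 * σ' * (n * (c ^ 2 + c))) := by gcongr
      _ = δ⁻¹ * (1 / z + 2 * σ' * (c ^ 2 + c)) * n := by ring
      _ ≤ δ⁻¹ * (δ * η) * n := by gcongr
      _ = _ := by field_simp
  have e6 : K * Ex (c / n) (EV (Fin n)) (fun A => ∑ v, tt (R z) A v) ≤ η * n := by
    rwa [div_mul_eq_mul_div, le_div_iff₀' hK] at h9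
  have e7 := (abs_le.1 h8).2
  have e8 := mul_le_mul_of_nonneg_left h2 h3.le
  have e9 : Ex (c / n) (EV (Fin n)) (fun A => (n : ℝ)⁻¹ * ∑ v, lift (lift (ramp z σ')) A v +
      po (c / n * ∑ u, ramp z σ A u)) ≤ Ex (c / n) (EV (Fin n)) fun A => (M + 1) +
      |(∑ v, lift (lift (ramp z σ')) A v) / n - Real.exp (-(c / n * ∑ u, lift (ramp z σ') A u))| +
      c * |(∑ v, lift (ramp z σ') A v) / n - Real.exp (-(c / n * ∑ u, ramp z σ' A u))| +
      c / n * (∑ u, ramp z σ' A u - ∑ u, ramp z σ A u) := by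
    refine Ex_mono h4 h5 fun A _ => ?_
    have f0 : ∀ σ, 0 ≤ c / n * ∑ u, ramp z σ A u := fun σ =>
      mul_nonneg h4 (sum_nonneg fun u _ => (ramp_un z σ A u).1)
    have f1 := hM _ (f0 σ')
    have f2 := (le_abs_self _).trans (po_lip (f0 σ) (f0 σ'))
    have f3 : ∑ u, ramp z σ A u ≤ ∑ u, ramp z σ' A u := sum_le_sum fun u _ => by
      have := R_pos hz A u
      unfold ramp
      gcongr
    rw [← mul_sub, abs_mul, abs_of_nonneg h4, abs_of_nonpos (by linarith), neg_sub] at f2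
    have f4 := (le_abs_self _).trans (exp_lip (mul_nonneg h4
      (sum_nonneg fun u (_ : u ∈ univ) => ((ramp_un z σ').lift A u).1))
      (b := c * Real.exp (-(c / n * ∑ u, ramp z σ' A u))) (by positivity))
    rw [show c / n * ∑ u, lift (ramp z σ') A u - c * Real.exp (-(c / n * ∑ u, ramp z σ' A u)) =
      c * ((∑ v, lift (ramp z σ') A v) / n - Real.exp (-(c / n * ∑ u, ramp z σ' A u))) by ring,
      abs_mul, abs_of_pos hc] at f4
    have f5 := le_abs_self ((∑ v, lift (lift (ramp z σ')) A v) / n -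
      Real.exp (-(c / n * ∑ u, lift (ramp z σ') A u)))
    unfold Phi at f1
    rw [← div_eq_inv_mul]
    linarith
  simp only [Ex_add, Ex_sub, Ex_mul, Ex_const] at e9
  have e10 := mul_le_mul_of_nonneg_left (e9.trans (add_le_add (add_le_add (add_le_add le_rfl h7)
    (mul_le_mul_of_nonneg_left h6 hc.le)) le_rfl)) h3.le
  rw [mul_add, ← mul_assoc, mul_inv_cancel₀ h3.ne', one_mul, mul_add _ _ (c / n * _), ← mul_assoc,
    mul_comm _ (c / n), hcn] at e10
  linarith

theorem ks_lower (hc : 0 < c) {M : ℝ} (hM : ∀ y, 0 ≤ y → Phi c y ≤ M) {η : ℝ} (hη : 0 < η) :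
    ∀ᶠ n : ℕ in atTop, (1 - M - η) * n ≤ 2 * Ex (c / n) (EV (Fin n)) fun A => nu A := by
  obtain ⟨ε, hε, hεe⟩ : ∃ ε : ℝ, 0 < ε ∧ (7 + c) * ε = η :=
    ⟨η / (7 + c), by positivity, by field_simp⟩
  obtain ⟨m, hm⟩ := exists_nat_gt (c / ε)
  have hm0 : (0 : ℝ) < m := lt_trans (by positivity) hm
  have key : ∀ σ : ℝ, 0 < σ → ∃ σ', 0 < σ' ∧ σ' ≤ σ ∧
      2 * σ' * (c ^ 2 + c) * (1 + 2 / σ * c) ≤ ε ^ 2 / 2 := by
    intro σ hσ
    refine ⟨min σ (ε ^ 2 / 2 / (2 * (c ^ 2 + c) * (1 + 2 / σ * c))), by positivity, min_le_left _ _, ?_⟩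
    have := min_le_right σ (ε ^ 2 / 2 / (2 * (c ^ 2 + c) * (1 + 2 / σ * c)))
    rw [le_div_iff₀ (by positivity)] at this
    linarith
  choose! g hg using key
  have hσ : ∀ j, 0 < g^[j] 1 := by
    intro j
    induction j with
    | zero => exact one_pos
    | succ j ih => rw [Function.iterate_succ_apply']; exact (hg _ ih).1
  obtain ⟨z, hz, hz2⟩ : ∃ z : ℝ, 0 < z ∧ ∀ j ∈ range m,
      1 / z * (1 + 2 / g^[j] 1 * c) ≤ ε ^ 2 / 2 ∧ 2 / g^[j] 1 / z ≤ ε := by
    have : ∀ᶠ z : ℝ in atTop, 0 < z ∧ ∀ j ∈ range m,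
        1 / z * (1 + 2 / g^[j] 1 * c) ≤ ε ^ 2 / 2 ∧ 2 / g^[j] 1 / z ≤ ε := by
      refine (eventually_gt_atTop 0).and ((eventually_all_finset _).2 fun j _ => ?_)
      filter_upwards [eventually_gt_atTop 0, eventually_ge_atTop ((1 + 2 / g^[j] 1 * c) / (ε ^ 2 / 2)),
        eventually_ge_atTop (2 / g^[j] 1 / ε)] with z h1 h2 h3
      rw [div_le_iff₀' (by positivity)] at h2
      rw [div_le_iff₀' hε] at h3
      rw [one_div, ← div_eq_inv_mul, div_le_iff₀ h1, div_le_iff₀ h1]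
      exact ⟨h2, h3⟩
    exact this.exists
  have h1 := (eventually_all_finset (range m)).2 fun j hj => low_step hc hM hε hz (hσ (j + 1))
    (σ := g^[j] 1) (by rw [Function.iterate_succ_apply']; exact (hg _ (hσ j)).2.1) (by
      rw [Function.iterate_succ_apply', add_mul]
      linarith [(hg _ (hσ j)).2.2, (hz2 j hj).1]) (hz2 j hj).2
  filter_upwards [good hc, h1] with n ⟨h3, h4, h5, _⟩ h6
  have e1 := sum_le_sum h6
  rw [sum_sub_distrib, ← mul_sum (a := c), sum_range_sub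
    (fun j => Ex (c / n) (EV (Fin n)) fun A => ∑ u, ramp z (g^[j] 1) A u)] at e1
  simp only [sum_const, card_range, nsmul_eq_mul] at e1
  have e2 : Ex (c / n) (EV (Fin n)) (fun A => ∑ u, ramp z (g^[m] 1) A u) ≤ n :=
    Ex_le_const h4 h5 fun A _ => by
      simpa using sum_le_card_nsmul univ _ 1 fun v _ => (ramp_un z (g^[m] 1) A v).2
  have e3 : 0 ≤ Ex (c / n) (EV (Fin n)) (fun A => ∑ u, ramp z (g^[0] 1) A u) :=
    const_le_Ex h4 h5 fun A _ => sum_nonneg fun v _ => (ramp_un z _ A v).1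
  rw [div_lt_iff₀ hε] at hm
  refine le_of_mul_le_mul_left (le_trans ?_ e1) hm0
  rw [← hεe]
  nlinarith [mul_le_mul_of_nonneg_left (sub_le_sub e2 e3) hc.le, mul_pos h3 (sub_pos.2 hm)]

end Pool.Agent.H351Z.RG
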