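import Pool.Agent.H351Z.RRand

/-! Matchings and the monomer-dimer model on a finite edge set. -/

set_option autoImplicit false
set_option linter.unusedSectionVars false

namespace Pool.Agent.H351Z.RG

open Finset

variable {V : Type*} [Fintype V] [DecidableEq V]

/-- delete all edges at `v` -/
def del (A : Finset (Sym2 V)) (v : V) : Finset (Sym2 V) := A.filter fun e => v ∉ e

/-- neighbours of `v` -/
def nb (A : Finset (Sym2 V)) (v : V) : Finset V := univ.filter fun u => s(v, u) ∈ A ∧ u ≠ v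

theorem mem_del {A : Finset (Sym2 V)} {v : V} {e : Sym2 V} : e ∈ del A v ↔ e ∈ A ∧ v ∉ e :=
  mem_filter

theorem mem_nb {A : Finset (Sym2 V)} {v u : V} : u ∈ nb A v ↔ s(v, u) ∈ A ∧ u ≠ v := by simp [nb]

theorem nb_symm {A : Finset (Sym2 V)} {v u : V} : u ∈ nb A v ↔ v ∈ nb A u := by
  rw [mem_nb, mem_nb, Sym2.eq_swap, ne_comm]

theorem del_subset (A : Finset (Sym2 V)) (v : V) : del A v ⊆ A := filter_subset _ _

theorem del_comm (A : Finset (Sym2 V)) (u v : V) : del (del A u) v = del (del A v) u := by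
  ext e; simp only [mem_del]; tauto

theorem del_del (A : Finset (Sym2 V)) (v : V) : del (del A v) v = del A v := by
  ext e; simp only [mem_del]; tauto

theorem nb_del {A : Finset (Sym2 V)} {u v : V} (h : u ≠ v) : nb (del A u) v = (nb A v).erase u := by
  ext w
  simp only [mem_nb, mem_del, mem_erase, Sym2.mem_iff, not_or, h, not_false_eq_true, true_and]
  constructor
  · rintro ⟨⟨h1, h2⟩, h3⟩; exact ⟨Ne.symm h2, h1, h3⟩
  · rintro ⟨h1, h2, h3⟩; exact ⟨⟨h2, Ne.symm h1⟩, h3⟩

theorem del_eq_of_nb {A : Finset (Sym2 V)} (hA : A ⊆ EV V) {v : V} (h : nb A v = ∅) :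
    del A v = A := by
  refine filter_true_of_mem fun e he hv => ?_
  obtain ⟨u, rfl⟩ := Sym2.mem_iff_exists.1 hv
  have : u ∈ nb A v := mem_nb.2 ⟨he, fun h' => mem_EV.1 (hA he) (by simp [h'])⟩
  simp [h] at this

theorem card_del_lt {A : Finset (Sym2 V)} {v w : V} (h : w ∈ nb A v) :
    (del A v).card < A.card :=
  card_lt_card ⟨del_subset A v, fun h' => (mem_del.1 (h' (mem_nb.1 h).1)).2 (by simp)⟩

/-- matchings -/
def IsM (M : Finset (Sym2 V)) : Prop := ∀ e ∈ M, ∀ e' ∈ M, ∀ v, v ∈ e → v ∈ e' → e = e'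

open Classical in
noncomputable def Mt (A : Finset (Sym2 V)) : Finset (Finset (Sym2 V)) := A.powerset.filter IsM

theorem mem_Mt {A M : Finset (Sym2 V)} : M ∈ Mt A ↔ M ⊆ A ∧ IsM M := by simp [Mt]

theorem IsM.subset {M M' : Finset (Sym2 V)} (h : IsM M) (h' : M' ⊆ M) : IsM M' :=
  fun e he e' he' => h e (h' he) e' (h' he')

theorem empty_mem_Mt (A : Finset (Sym2 V)) : ∅ ∈ Mt A := mem_Mt.2 ⟨empty_subset _, by simp [IsM]⟩

/-- matching number -/
noncomputable def nu (A : Finset (Sym2 V)) : ℕ := (Mt A).sup card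

theorem le_nu {A M : Finset (Sym2 V)} (h : M ∈ Mt A) : M.card ≤ nu A := le_sup (f := card) h

theorem exists_nu (A : Finset (Sym2 V)) : ∃ M ∈ Mt A, nu A = M.card :=
  exists_mem_eq_sup _ ⟨∅, empty_mem_Mt A⟩ _

theorem nu_mono {A B : Finset (Sym2 V)} (h : A ⊆ B) : nu A ≤ nu B := by
  obtain ⟨M, h1, h2⟩ := exists_nu A
  rw [h2]
  exact le_nu (mem_Mt.2 ⟨(mem_Mt.1 h1).1.trans h, (mem_Mt.1 h1).2⟩)

theorem nu_insert (e : Sym2 V) (A : Finset (Sym2 V)) : nu (insert e A) ≤ nu A + 1 := by
  obtain ⟨M, h1, h2⟩ := exists_nu (insert e A)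
  have h3 : M.erase e ∈ Mt A := mem_Mt.2 ⟨fun x hx => by
    have := (mem_Mt.1 h1).1 (mem_of_mem_erase hx)
    simpa [ne_of_mem_erase hx] using this, (mem_Mt.1 h1).2.subset (erase_subset _ _)⟩
  have := le_nu h3
  have := pred_card_le_card_erase (s := M) (a := e)
  omega

/-- covered vertices -/
def cov (M : Finset (Sym2 V)) : Finset V := univ.filter fun v => ∃ e ∈ M, v ∈ e

theorem mem_cov {M : Finset (Sym2 V)} {v : V} : v ∈ cov M ↔ ∃ e ∈ M, v ∈ e := by simp [cov]

theorem dual_le {M : Finset (Sym2 V)} (hM : M ⊆ EV V) (h : IsM M) (y : V → ℝ) (t : ℝ)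
    (hy : ∀ a b, s(a, b) ∈ M → t ≤ y a + y b) : t * M.card ≤ ∑ v ∈ cov M, y v := by
  induction M using Finset.induction_on with
  | empty => simp [cov]
  | insert e M he ih =>
    induction e with
    | h a b =>
      have hab : a ≠ b := by simpa using mem_EV.1 (hM (mem_insert_self _ _))
      have h1 : ∀ x ∈ s(a, b), x ∉ cov M := by
        intro x hx hc
        obtain ⟨e, h2, h3⟩ := mem_cov.1 hc
        exact he (h _ (mem_insert_self _ _) e (mem_insert_of_mem h2) x hx h3 ▸ h2)
      have h2 : cov (insert s(a, b) M) = insert a (insert b (cov M)) := by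
        ext x; simp [mem_cov, or_assoc]
      rw [h2, sum_insert (by simp [hab, h1 a (by simp)]), sum_insert (h1 b (by simp)),
        card_insert_of_notMem he]
      have h3 := ih ((subset_insert _ _).trans hM) (h.subset (subset_insert _ _))
        fun a b h => hy a b (mem_insert_of_mem h)
      have h4 := hy a b (mem_insert_self _ _)
      push_cast
      linarith

theorem card_cov {M : Finset (Sym2 V)} (hM : M ⊆ EV V) (h : IsM M) :
    (cov M).card = 2 * M.card := by
  have h1 := dual_le hM h (fun _ => 1) 2 (fun _ _ _ => by norm_num)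
  have h2 := dual_le hM h (fun _ => -1) (-2) (fun _ _ _ => by norm_num)
  simp only [sum_const, nsmul_eq_mul] at h1 h2
  have : ((cov M).card : ℝ) = 2 * M.card := by linarith
  exact_mod_cast this

theorem nu_le_dual {A : Finset (Sym2 V)} (hA : A ⊆ EV V) (y : V → ℝ) (h0 : ∀ v, 0 ≤ y v)
    (hy : ∀ a, ∀ b ∈ nb A a, 2 ≤ y a + y b) : (2 * nu A : ℝ) ≤ ∑ v, y v := by
  obtain ⟨M, h1, h2⟩ := exists_nu A
  obtain ⟨h3, h4⟩ := mem_Mt.1 h1
  rw [h2]
  refine (dual_le (h3.trans hA) h4 y 2 fun a b h => hy a b (mem_nb.2 ⟨h3 h, ?_⟩)).trans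
    (sum_le_sum_of_subset_of_nonneg (subset_univ _) fun v _ _ => h0 v)
  have := mem_EV.1 (hA (h3 h))
  exact fun h' => this (by simp [h'])

/-- partition function -/
noncomputable def Z (z : ℝ) (A : Finset (Sym2 V)) : ℝ := ∑ M ∈ Mt A, z ^ M.card

variable {z : ℝ}

theorem Z_pos (hz : 0 < z) (A : Finset (Sym2 V)) : 0 < Z z A :=
  sum_pos (fun _ _ => by positivity) ⟨∅, empty_mem_Mt A⟩

theorem Z_del (z : ℝ) (A : Finset (Sym2 V)) (v : V) :
    Z z A - Z z (del A v) = ∑ M ∈ Mt A, if v ∈ cov M then z ^ M.card else 0 := by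
  have : Mt (del A v) = (Mt A).filter fun M => v ∉ cov M := by
    ext M
    simp only [mem_Mt, mem_filter, mem_cov, not_exists, not_and]
    constructor
    · rintro ⟨h1, h2⟩
      exact ⟨⟨h1.trans (del_subset _ _), h2⟩, fun e he => (mem_del.1 (h1 he)).2⟩
    · rintro ⟨⟨h1, h2⟩, h3⟩
      exact ⟨fun e he => mem_del.2 ⟨h1 he, h3 e he⟩, h2⟩
  unfold Z
  rw [this, sum_filter, ← sum_sub_distrib]
  exact sum_congr rfl fun M _ => by split_ifs <;> simp

theorem Z_rec (z : ℝ) {A : Finset (Sym2 V)} (hA : A ⊆ EV V) (v : V) :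
    Z z A = Z z (del A v) + z * ∑ w ∈ nb A v, Z z (del (del A v) w) := by
  rw [← sub_eq_iff_eq_add', Z_del]
  have h1 : ∀ M ∈ Mt A, (if v ∈ cov M then z ^ M.card else 0) =
      ∑ w ∈ nb A v, if s(v, w) ∈ M then z ^ M.card else 0 := by
    intro M hM
    obtain ⟨h2, h3⟩ := mem_Mt.1 hM
    split_ifs with h
    · obtain ⟨e, he, hv⟩ := mem_cov.1 h
      obtain ⟨u, rfl⟩ := Sym2.mem_iff_exists.1 hv
      have hu : u ∈ nb A v := mem_nb.2 ⟨h2 he, fun h' => mem_EV.1 (hA (h2 he)) (by simp [h'])⟩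
      rw [sum_eq_single_of_mem u hu, if_pos he]
      intro w _ hw
      refine if_neg fun h' => hw ?_
      exact Sym2.congr_right.1 (h3 _ h' _ he v (by simp) (by simp))
    · exact (sum_eq_zero fun w _ => if_neg fun h' => h (mem_cov.2 ⟨_, h', by simp⟩)).symm
  rw [sum_congr rfl h1, sum_comm, mul_sum]
  refine sum_congr rfl fun w hw => ?_
  rw [← sum_filter, Z, mul_sum]
  symm
  have h2 : ∀ M ∈ Mt (del (del A v) w), s(v, w) ∉ M := fun M hM h =>
    (mem_del.1 ((mem_Mt.1 hM).1 h)).2 (by simp)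
  refine sum_bij (fun M _ => insert s(v, w) M) (fun M hM => ?_) (fun M hM M' hM' h => ?_)
    (fun M hM => ?_) fun M hM => ?_
  · obtain ⟨h3, h4⟩ := mem_Mt.1 hM
    refine mem_filter.2 ⟨mem_Mt.2 ⟨insert_subset (mem_nb.1 hw).1
      (h3.trans ((del_subset _ _).trans (del_subset _ _))), ?_⟩, mem_insert_self _ _⟩
    have h5 : ∀ e ∈ M, ∀ x ∈ e, x ∉ s(v, w) := by
      intro e he x hx hx'
      have h6 := mem_del.1 (h3 he)
      rcases Sym2.mem_iff.1 hx' with rfl | rfl
      · exact (mem_del.1 h6.1).2 hx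
      · exact h6.2 hx
    intro e he e' he' x hx hx'
    rcases mem_insert.1 he with rfl | he <;> rcases mem_insert.1 he' with rfl | he'
    · rfl
    · exact absurd hx (h5 e' he' x hx')
    · exact absurd hx' (h5 e he x hx)
    · exact h4 e he e' he' x hx hx'
  · rw [← erase_insert (h2 M hM), ← erase_insert (h2 M' hM'), h]
  · obtain ⟨h3, h4⟩ := mem_filter.1 hM
    obtain ⟨h5, h6⟩ := mem_Mt.1 h3
    refine ⟨M.erase s(v, w), mem_Mt.2 ⟨fun e he => ?_, h6.subset (erase_subset _ _)⟩,
      insert_erase h4⟩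
    obtain ⟨h7, h8⟩ := mem_erase.1 he
    exact mem_del.2 ⟨mem_del.2 ⟨h5 h8, fun h => h7 (h6 e h8 _ h4 v h (by simp))⟩,
      fun h => h7 (h6 e h8 _ h4 w h (by simp))⟩
  · rw [card_insert_of_notMem (h2 M hM), pow_succ']

/-- probability that `v` is not covered -/
noncomputable def R (z : ℝ) (A : Finset (Sym2 V)) (v : V) : ℝ := Z z (del A v) / Z z A

theorem R_pos (hz : 0 < z) (A : Finset (Sym2 V)) (v : V) : 0 < R z A v :=
  div_pos (Z_pos hz _) (Z_pos hz _)

theorem R_rec (hz : 0 < z) {A : Finset (Sym2 V)} (hA : A ⊆ EV V) (v : V) :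
    R z A v * (1 + z * ∑ w ∈ nb A v, R z (del A v) w) = 1 := by
  have h1 := Z_pos hz A
  have h2 := Z_pos hz (del A v)
  unfold R
  rw [← sum_div, div_mul_eq_mul_div, div_eq_one_iff_eq h1.ne', Z_rec z hA v]
  field_simp

theorem R_le_one (hz : 0 < z) {A : Finset (Sym2 V)} (hA : A ⊆ EV V) (v : V) : R z A v ≤ 1 := by
  have h1 := R_rec hz hA v
  have h2 := R_pos hz A v
  have h3 : 0 ≤ z * ∑ w ∈ nb A v, R z (del A v) w :=
    mul_nonneg hz.le (sum_nonneg fun w _ => (R_pos hz _ w).le)
  nlinarith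

theorem R_symm (hz : 0 < z) (A : Finset (Sym2 V)) (v w : V) :
    R z A v * R z (del A v) w = R z A w * R z (del A w) v := by
  have h1 := Z_pos hz A
  have h2 := Z_pos hz (del A v)
  have h3 := Z_pos hz (del A w)
  unfold R
  rw [del_comm A w v]
  field_simp

theorem sum_R (hz : 0 < z) {A : Finset (Sym2 V)} (hA : A ⊆ EV V) :
    ∑ v, (1 - R z A v) ≤ 2 * nu A := by
  have h1 := Z_pos hz A
  have h2 : ∀ v, 1 - R z A v = (Z z A - Z z (del A v)) / Z z A := by
    intro v; unfold R; field_simp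
  simp only [h2, Z_del]
  rw [← sum_div, div_le_iff₀ h1, sum_comm, Z, mul_sum]
  refine sum_le_sum fun M hM => ?_
  rw [← sum_filter, sum_const, nsmul_eq_mul, filter_mem_eq_inter, univ_inter,
    card_cov ((mem_Mt.1 hM).1.trans hA) (mem_Mt.1 hM).2]
  have : (M.card : ℝ) ≤ nu A := by exact_mod_cast le_nu hM
  push_cast
  gcongr

theorem R_rec2 (hz : 0 < z) {A : Finset (Sym2 V)} (hA : A ⊆ EV V) {u v : V} (h : u ≠ v) :
    R z A u - R z (del A v) u = - ∑ w ∈ nb A v, z * R z A v * R z (del A v) w *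
      (R z (del A v) u - R z (del (del A v) w) u + if u = w then 1 else 0) := by
  have h1 := Z_pos hz A
  have h2 := Z_pos hz (del A v)
  have h3 := R_rec hz hA v
  have h4 : R z A u = R z A v * R z (del A v) u + ∑ w ∈ (nb A v).erase u,
      z * R z A v * R z (del A v) w * R z (del (del A v) w) u := by
    unfold R
    rw [Z_rec z ((del_subset A u).trans hA) v, nb_del h, add_div, mul_sum, sum_div, del_comm A u v]
    congr 1
    · field_simp
    · refine sum_congr rfl fun w _ => ?_
      have := Z_pos hz (del (del A v) w)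
      rw [del_comm (del A v) u w]
      field_simp
  have h5 : ∑ w ∈ (nb A v).erase u, z * R z A v * R z (del A v) w * R z (del (del A v) w) u =
      ∑ w ∈ nb A v, z * R z A v * R z (del A v) w *
        (R z (del (del A v) w) u - if u = w then 1 else 0) := by
    symm
    rw [← sum_erase (nb A v) (a := u)]
    · exact sum_congr rfl fun w hw => by rw [if_neg (ne_of_mem_erase hw).symm, sub_zero]
    · have := Z_pos hz (del (del A v) u)
      simp [R, del_del, this.ne']
  have h6 : R z (del A v) u = R z A v * R z (del A v) u +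
      ∑ w ∈ nb A v, z * R z A v * R z (del A v) w * R z (del A v) u := by
    rw [← sum_mul, ← mul_sum]
    linear_combination (-R z (del A v) u) * h3
  rw [h4, h5]
  nth_rewrite 2 [h6]
  rw [add_sub_add_left_eq_sub, ← sum_sub_distrib, ← sum_neg_distrib]
  exact sum_congr rfl fun w _ => by ring

theorem R_stab (hz : 0 < z) {A : Finset (Sym2 V)} (hA : A ⊆ EV V) (v : V) :
    ∑ u, |R z A u - R z (del A v) u + if u = v then 1 else 0| ≤ 1 := by
  induction h : A.card using Nat.strong_induction_on generalizing A v with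
  | _ m ih =>
    have h1 : R z (del A v) v = 1 := by
      have := Z_pos hz (del A v)
      simp [R, del_del, this.ne']
    have h2 := R_rec hz hA v
    have h3 := R_pos hz A v
    rw [← add_sum_erase _ _ (mem_univ v), h1, if_pos rfl, sub_add_cancel, abs_of_pos h3]
    have h4 : ∑ u ∈ univ.erase v, |R z A u - R z (del A v) u + if u = v then 1 else 0| ≤
        ∑ u, ∑ w ∈ nb A v, z * R z A v * R z (del A v) w *
          |R z (del A v) u - R z (del (del A v) w) u + if u = w then 1 else 0| := by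
      refine le_trans (sum_le_sum fun u hu => ?_) (sum_le_sum_of_subset_of_nonneg (subset_univ _)
        fun u _ _ => sum_nonneg fun w _ => by have := R_pos hz (del A v) w; positivity)
      rw [if_neg (ne_of_mem_erase hu), add_zero, R_rec2 hz hA (ne_of_mem_erase hu), abs_neg]
      refine (abs_sum_le_sum_abs _ _).trans (sum_le_sum fun w _ => ?_)
      have := R_pos hz (del A v) w
      rw [abs_mul, abs_of_pos (by positivity)]
    have h5 : ∑ u, ∑ w ∈ nb A v, z * R z A v * R z (del A v) w *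
          |R z (del A v) u - R z (del (del A v) w) u + if u = w then 1 else 0| ≤
        ∑ w ∈ nb A v, z * R z A v * R z (del A v) w := by
      rw [sum_comm]
      refine sum_le_sum fun w hw => ?_
      rw [← mul_sum]
      have := R_pos hz (del A v) w
      exact mul_le_of_le_one_right (by positivity)
        (ih _ (h ▸ card_del_lt hw) ((del_subset A v).trans hA) w rfl)
    rw [← mul_sum] at h5
    nlinarith

theorem R_stab' (hz : 0 < z) {A : Finset (Sym2 V)} (hA : A ⊆ EV V) (v : V) :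
    ∑ u, |R z A u - R z (del A v) u| ≤ 2 := by
  have h1 := R_stab hz hA v
  have h2 : ∑ u, |R z A u - R z (del A v) u| ≤
      ∑ u, (|R z A u - R z (del A v) u + if u = v then 1 else 0| + if u = v then 1 else 0) := by
    refine sum_le_sum fun u _ => ?_
    split_ifs
    · have := abs_add_le (R z A u - R z (del A v) u + 1) (-1)
      simpa using this
    · simp
  rw [sum_add_distrib, sum_ite_eq' univ v] at h2
  simp only [mem_univ, if_true] at h2
  linarith

end Pool.Agent.H351Z.RG
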