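import Pool.Agent.H351Z.RRand

/-! Asymptotics: choice of the parameters and of the threshold function. -/

set_option autoImplicit false
set_option linter.unusedSectionVars false

namespace Pool.Agent.H351Z.RG

open Finset Filter Topology

theorem half_pow_le (m : ℕ) {x : ℝ} (hx : 0 < x) (hm : x ≤ m) : (1 / 2 : ℝ) ^ m ≤ 1 / x := by
  rw [one_div, inv_pow, ← one_div]
  refine one_div_le_one_div_of_le hx (hm.trans ?_)
  exact_mod_cast Nat.lt_two_pow_self.le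

theorem ev_ge (x : ℝ) : ∀ᶠ n : ℕ in atTop, x ≤ n :=
  tendsto_natCast_atTop_atTop.eventually_ge_atTop x

theorem key {a C c δ : ℝ} (ha : 0 < a) (hC : 0 < C) (hc : 0 < c) (hδ : 0 < δ) :
    ∀ᶠ n : ℕ in atTop, ∀ d : ℕ, a * n ≤ d → ∀ p p' : ℝ, 0 ≤ p → p ≤ C / n →
      p + c / n ≤ p' → p' ≤ 1 → δ ≤ PL (n - d) (n - 2 * d) p →
      ∀ H : SimpleGraph (Fin n), (∀ v, d ≤ dg H.Adj v univ) →
        Pr p' (EV (Fin n)) (fun A => ¬ (H ⊔ gr A).IsHamiltonian) ≤ δ := by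
  obtain ⟨γ, hγ, hγe⟩ : ∃ γ : ℝ, 0 < γ ∧ 84 * γ = c * a ^ 2 :=
    ⟨c * a ^ 2 / 84, by positivity, by ring⟩
  obtain ⟨D, hD, hDe⟩ : ∃ D : ℝ, 0 < D ∧ D * γ ^ 2 = 20 :=
    ⟨20 / γ ^ 2, by positivity, by field_simp⟩
  set l0 := ⌈1 / γ⌉₊ with hl0
  have hl : 0 < l0 := Nat.ceil_pos.2 (by positivity)
  have hl' : 1 / γ ≤ l0 := Nat.le_ceil _
  obtain ⟨K, hK, hKe⟩ : ∃ K : ℝ, 0 ≤ K ∧ K = l0 * 2 ^ ((l0 + 1) ^ 2) * Real.exp (C + D) :=
    ⟨_, by positivity, rfl⟩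
  filter_upwards [ev_ge 3, ev_ge D, ev_ge (1 / γ), ev_ge (2 / a), ev_ge (4 * C / (δ * γ ^ 2) + 1),
    ev_ge ((1 + K / γ + 4 * C / γ ^ 3 + 1 / γ) / δ)] with n h3 hnD hnγ hna hnC hnM
  intro d hd p p' hp0 hpC hp' hp1 hPL H hH
  have hn : (0 : ℝ) < n := by linarith
  set k := ⌈γ * n⌉₊ with hk
  have hk1 : γ * n ≤ k := Nat.le_ceil _
  have hk0 : 0 < k := Nat.ceil_pos.2 (by positivity)
  have hkr : (0 : ℝ) < k := by exact_mod_cast hk0
  have hγn : 1 ≤ γ * n := by rwa [div_le_iff₀' hγ] at hnγ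
  have hk2 : (k : ℝ) ≤ 2 * (γ * n) := by
    have := Nat.ceil_lt_add_one (a := γ * n) (by positivity)
    linarith
  have hd2 : (2 : ℝ) ≤ d := by
    rw [div_le_iff₀' ha] at hna
    linarith
  have hcn : 0 < c / n := by positivity
  have hpn : p * n ≤ C := by rwa [le_div_iff₀ hn] at hpC
  have hN : ((n - d : ℕ) : ℝ) ≤ n := by exact_mod_cast Nat.sub_le n d
  have hpN : p * ((n - d : ℕ) : ℝ) ^ 2 ≤ C * n := by
    calc p * ((n - d : ℕ) : ℝ) ^ 2 ≤ p * n ^ 2 := by gcongr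
      _ = p * n * n := by ring
      _ ≤ C * n := by gcongr
  have hkk : (γ * n) ^ 2 ≤ (k : ℝ) ^ 2 := by gcongr
  have hconc := PL_conc (n - d) (n - 2 * d) k hk0 hp0 (by linarith) (δ := δ) (by
    have e1 : 4 * C / (δ * γ ^ 2) < n := by linarith
    rw [div_lt_iff₀ (by positivity)] at e1
    calc 4 * (p * ((n - d : ℕ) : ℝ) ^ 2) ≤ 4 * C * n := by linarith
      _ < n * (δ * γ ^ 2) * n := by gcongr
      _ = δ * (γ * n) ^ 2 := by ring
      _ ≤ δ * k ^ 2 := by gcongr) hPL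
  have hmain := main_fin H (by rw [Fintype.card_fin]; exact_mod_cast h3) (d := d) (k := k)
    (l0 := l0) (by exact_mod_cast hd2) hH hl hk0 (by
      rw [Fintype.card_fin]
      have : (n : ℝ) ≤ l0 * k := by
        calc (n : ℝ) = 1 / γ * (γ * n) := by field_simp
          _ ≤ l0 * k := by gcongr
      exact_mod_cast this) (p := p) (ρ := D / n) (q := c / n) (p' := p') hp0 (by positivity)
    (by rwa [div_le_one hn]) (by
      push_cast
      calc 21 * (k : ℝ) * (2 / d ^ 2) ≤ 21 * (2 * (γ * n)) * (2 / (a * n) ^ 2) := by gcongr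
        _ = 84 * γ / (a ^ 2 * n) := by field_simp; norm_num
        _ = c / n := by rw [hγe]; field_simp) hp' hp1
  rw [Fintype.card_fin] at hmain
  refine hmain.trans ?_
  have t1 : (16 : ℝ) ^ n * Real.exp (-(D / n * k ^ 2 / 4)) ≤ 1 / n := by
    have e1 : Real.exp (-(D / n * k ^ 2 / 4)) ≤ Real.exp (n * (-5)) := by
      refine Real.exp_le_exp.2 ?_
      have : 5 * (n : ℝ) ≤ D / n * k ^ 2 / 4 := by
        calc 5 * (n : ℝ) = D / n * (γ * n) ^ 2 / 4 := by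
              rw [mul_pow, show D / n * (γ ^ 2 * n ^ 2) = D * γ ^ 2 * n by field_simp, hDe]; ring
          _ ≤ _ := by gcongr
      linarith
    have e2 : Real.exp (-5) ≤ 1 / 32 := by
      have e3 : (2 : ℝ) ≤ Real.exp 1 := by have := Real.add_one_le_exp (1 : ℝ); linarith
      have e4 : (2 : ℝ) ^ 5 ≤ Real.exp 5 := by
        rw [show (5 : ℝ) = (5 : ℕ) * 1 by norm_num, Real.exp_nat_mul]
        gcongr
      rw [Real.exp_neg, one_div]
      exact inv_anti₀ (by norm_num) (by linarith)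
    rw [Real.exp_nat_mul] at e1
    calc (16 : ℝ) ^ n * Real.exp (-(D / n * k ^ 2 / 4)) ≤ 16 ^ n * (1 / 32) ^ n := by
          gcongr
          exact e1.trans (by gcongr)
      _ = (1 / 2) ^ n := by rw [← mul_pow]; norm_num
      _ ≤ _ := half_pow_le n hn le_rfl
  have t2 : l0 * 2 ^ ((l0 + 1) ^ 2) * Real.exp ((p + D / n) * n) / k ≤ K / γ / n := by
    rw [div_div, hKe]
    gcongr
    rw [add_mul, div_mul_cancel₀ _ hn.ne']
    linarith
  have t3 : n * (1 - PL (n - d) (n - 2 * d - k) p) / k ≤ 4 * C / γ ^ 3 / n := by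
    calc n * (1 - PL (n - d) (n - 2 * d - k) p) / k ≤ n * (4 * (C * n) / (γ * n) ^ 2) / k := by
          gcongr
          exact hconc.trans (by gcongr)
      _ ≤ n * (4 * (C * n) / (γ * n) ^ 2) / (γ * n) := by gcongr
      _ = _ := by field_simp
  have t4 : (27 / 32 : ℝ) ^ (7 * k) ≤ 1 / γ / n := by
    rw [pow_mul, div_div]
    exact le_trans (by gcongr; norm_num) (half_pow_le k (by positivity) hk1)
  rw [div_le_iff₀ hδ, ← div_le_iff₀' hn] at hnM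
  refine le_trans (add_le_add (add_le_add (add_le_add t1 t2) t3) t4) (le_trans (le_of_eq ?_) hnM)
  ring

theorem exists_bip (n d : ℕ) (h : 2 * d ≤ n) :
    ∃ H : SimpleGraph (Fin n), (∀ v, d ≤ dg H.Adj v univ) ∧ (2 ≤ n → 0 < d → ∀ p : ℝ, 0 ≤ p →
      p ≤ 1 → Pr p (EV (Fin n)) (fun B => (H ⊔ gr B).IsHamiltonian) ≤ PL (n - d) (n - 2 * d) p) := by
  obtain ⟨A, -, hA⟩ := exists_subset_card_eq (s := (univ : Finset (Fin n))) (n := d)
    (by simp; omega)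
  subst hA
  refine ⟨bip A, bip_dg A (by simpa using h), fun h2 h3 p h0 h1 => ?_⟩
  simpa using ham_le_PL (V := Fin n) (by simpa using h2) A (card_pos.1 h3) h0 h1

theorem upper {a : ℝ} (ha : 0 < a) :
    ∀ᶠ n : ℕ in atTop, ∀ d : ℕ, a * n ≤ d → 2 * d ≤ n →
      6 / a ^ 2 / n ≤ 1 ∧ 1 / 2 ≤ PL (n - d) (n - 2 * d) (6 / a ^ 2 / n) := by
  filter_upwards [ev_ge 5, ev_ge (6 / a ^ 2), ev_ge (2 / a)] with n h5 hC hna d hd h2d
  have hn : (0 : ℝ) < n := by linarith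
  have hn5 : 5 ≤ n := by exact_mod_cast h5
  have hd2 : (2 : ℝ) ≤ d := by
    rw [div_le_iff₀' ha] at hna
    linarith
  have hd2' : 2 ≤ d := by exact_mod_cast hd2
  have h1 : 6 / a ^ 2 / n ≤ 1 := by rwa [div_le_one hn]
  refine ⟨h1, ?_⟩
  obtain ⟨H, hH, hH2⟩ := exists_bip n d h2d
  refine le_trans ?_ (hH2 (by omega) (by omega) _ (by positivity) h1)
  have := boost_ham H (by simp; omega) hd2' hH h1 (3 * n) (by
    push_cast
    calc 3 * (n : ℝ) * (2 / d ^ 2) ≤ 3 * n * (2 / (a * n) ^ 2) := by gcongr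
      _ = _ := by field_simp; norm_num) ∅
  simp only [empty_union, Pr_not, Fintype.card_fin] at this
  have e1 : (1 / 2 : ℝ) ^ pot (H ⊔ gr ∅) ≤ 1 := pow_le_one₀ (by norm_num) (by norm_num)
  have e2 : (2 : ℝ) ^ n * (1 / 2 : ℝ) ^ pot (H ⊔ gr ∅) * (3 / 4) ^ (3 * n) ≤ 1 / 2 := by
    calc (2 : ℝ) ^ n * (1 / 2 : ℝ) ^ pot (H ⊔ gr ∅) * (3 / 4) ^ (3 * n)
        ≤ 2 ^ n * 1 * (3 / 4) ^ (3 * n) := by gcongr
      _ = (27 / 32) ^ n := by rw [mul_one, pow_mul, ← mul_pow]; norm_num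
      _ ≤ (27 / 32) ^ 5 := pow_le_pow_of_le_one (by norm_num) (by norm_num) hn5
      _ ≤ 1 / 2 := by norm_num
  linarith

theorem lower {b : ℝ} (hb : 0 < b) {n d : ℕ} (hn : 0 < n) (hd : 2 * d + b * n ≤ n) {p : ℝ}
    (h0 : 0 ≤ p) (h1 : p ≤ 1) (h : 1 / 2 ≤ PL (n - d) (n - 2 * d) p) : b / 2 / n ≤ p := by
  have hnr : (0 : ℝ) < n := by exact_mod_cast hn
  have hbn : 0 < b * n := by positivity
  have e0 : 2 * d < n := by
    have : (2 * d : ℝ) < n := by linarith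
    exact_mod_cast this
  have e1 : b * n ≤ ((n - 2 * d : ℕ) : ℝ) := by
    rw [Nat.cast_sub e0.le]; push_cast; linarith
  have hN : ((n - d : ℕ) : ℝ) ≤ n := by exact_mod_cast Nat.sub_le n d
  have e2 : 1 / 2 ≤ p * n ^ 2 / (b * n) :=
    h.trans ((PL_le _ _ (by omega) h0 h1).trans (by gcongr))
  rw [le_div_iff₀ hbn] at e2
  rw [div_le_iff₀ hnr]
  nlinarith

theorem tendsto_zero_of {f : ℕ → ℝ} (h0 : ∀ n, 0 ≤ f n)
    (h : ∀ δ : ℝ, 0 < δ → δ ≤ 1 / 2 → ∀ᶠ n in atTop, f n ≤ δ) : Tendsto f atTop (𝓝 0) := by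
  rw [Metric.tendsto_nhds]
  intro ε hε
  filter_upwards [h (min (ε / 2) (1 / 2)) (by positivity) (min_le_right _ _)] with n hn
  rw [Real.dist_eq, sub_zero, abs_of_nonneg (h0 n)]
  linarith [min_le_left (ε / 2) (1 / 2)]

theorem main_asym {α : ℝ} (h0 : 0 < α) (h1 : α < 1 / 2) {d : ℕ → ℕ}
    (hd : Tendsto (fun n => (d n : ℝ) / n) atTop (𝓝 α)) :
    ∃ ps : ℕ → ℝ, (∃ c C : ℝ, 0 < c ∧ ∀ᶠ n : ℕ in atTop, c / n ≤ ps n ∧ ps n ≤ C / n) ∧
      ∀ ε : ℝ, 0 < ε → ∀ p : ℕ → ℝ, (∀ n, 0 ≤ p n) → (∀ n, p n ≤ 1) →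
        ((∀ᶠ n in atTop, p n ≤ (1 - ε) * ps n) →
          Tendsto (fun n => PL (n - d n) (n - 2 * d n) (p n)) atTop (𝓝 0)) ∧
        ((∀ᶠ n in atTop, (1 + ε) * ps n ≤ p n) → ∀ H : ∀ n, SimpleGraph (Fin n),
          (∀ᶠ n in atTop, ∀ v, d n ≤ dg (H n).Adj v univ) →
          Tendsto (fun n => Pr (p n) (EV (Fin n)) fun A => ¬ (H n ⊔ gr A).IsHamiltonian)
            atTop (𝓝 0)) := by
  obtain ⟨a, ha, hae⟩ : ∃ a : ℝ, 0 < a ∧ a = α / 2 := ⟨_, by positivity, rfl⟩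
  obtain ⟨b, hb, hbe⟩ : ∃ b : ℝ, 0 < b ∧ b = 1 / 2 - α := ⟨_, by linarith, rfl⟩
  obtain ⟨C, hC, hCe⟩ : ∃ C : ℝ, 0 < C ∧ C = 6 / a ^ 2 := ⟨_, by positivity, rfl⟩
  let S : ℕ → Set ℝ := fun n => {p | 0 ≤ p ∧ p ≤ 1 ∧ 1 / 2 ≤ PL (n - d n) (n - 2 * d n) p}
  have hSb : ∀ n, BddBelow (S n) := fun n => ⟨0, fun p hp => hp.1⟩
  have hev : ∀ᶠ n : ℕ in atTop, 2 ≤ n ∧ 0 < d n ∧ a * n ≤ d n ∧ 2 * d n ≤ n ∧ (S n).Nonempty ∧
      C / n ≤ 1 ∧ b / 2 / n ≤ sInf (S n) ∧ sInf (S n) ≤ C / n := by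
    filter_upwards [hd.eventually (lt_mem_nhds (show a < α by linarith)),
      hd.eventually (gt_mem_nhds (show α < α + b / 2 by linarith)), upper ha,
      eventually_ge_atTop 2] with n e1 e2 e3 e4
    have hn : (0 : ℝ) < n := by exact_mod_cast (by omega : 0 < n)
    rw [lt_div_iff₀ hn] at e1
    rw [div_lt_iff₀ hn] at e2
    have e5 : 2 * d n + b * n ≤ n := by rw [hbe] at e2 ⊢; linarith
    have e6 : 2 * d n ≤ n := by
      have : (2 * d n : ℝ) ≤ n := by nlinarith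
      exact_mod_cast this
    have e7 : 0 < d n := by
      have : (0 : ℝ) < d n := lt_trans (by positivity) e1
      exact_mod_cast this
    obtain ⟨e8, e9⟩ := e3 (d n) e1.le e6
    rw [← hCe] at e8 e9
    have e10 : C / n ∈ S n := ⟨by positivity, e8, e9⟩
    exact ⟨e4, e7, e1.le, e6, ⟨_, e10⟩, e8,
      le_csInf ⟨_, e10⟩ fun p hp => lower hb (by omega) e5 hp.1 hp.2.1 hp.2.2,
      csInf_le (hSb n) e10⟩
  refine ⟨fun n => sInf (S n), ⟨b / 2, C, by positivity, hev.mono fun n h => h.2.2.2.2.2.2⟩,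
    fun ε hε p hp0 hp1 => ⟨fun hp => ?_, fun hp H hH => ?_⟩⟩
  · refine tendsto_zero_of (fun n => Pr_nonneg (hp0 n) (hp1 n) _ _) fun δ hδ hδ2 => ?_
    filter_upwards [hev, hp, key ha hC (c := ε * (b / 2) / 2) (by positivity) hδ] with n e1 e2 e3
    obtain ⟨f1, f2, f3, f4, f5, f6, f7, f8⟩ := e1
    by_contra hc
    have hn : (0 : ℝ) < n := by exact_mod_cast (by omega : 0 < n)
    have g0 : 0 < b / 2 / n := by positivity
    have g1 : ε * (b / 2) / 2 / n = ε / 2 * (b / 2 / n) := by ring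
    have g2 : p n + ε * (b / 2) / 2 / n < sInf (S n) := by rw [g1]; nlinarith
    have g3 : 0 ≤ ε * (b / 2) / 2 / n := by positivity
    obtain ⟨H, hH, hH2⟩ := exists_bip n (d n) f4
    have g4 := e3 (d n) f3 (p n) _ (hp0 n) (by linarith) le_rfl (by linarith) (not_le.1 hc).le H hH
    have g5 := hH2 f1 f2 (p n + ε * (b / 2) / 2 / n) (by linarith [hp0 n]) (by linarith)
    rw [Pr_not] at g4
    have g6 : p n + ε * (b / 2) / 2 / n ∈ S n :=
      ⟨by linarith [hp0 n], by linarith, by linarith⟩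
    linarith [csInf_le (hSb n) g6]
  · refine tendsto_zero_of (fun n => Pr_nonneg (hp0 n) (hp1 n) _ _) fun δ hδ hδ2 => ?_
    filter_upwards [hev, hp, hH, key ha (C := (1 + ε / 2) * C) (by positivity)
      (c := ε * (b / 2) / 2) (by positivity) hδ] with n e1 e2 e4 e3
    obtain ⟨f1, f2, f3, f4, f5, f6, f7, f8⟩ := e1
    have hn : (0 : ℝ) < n := by exact_mod_cast (by omega : 0 < n)
    have g0 : 0 < b / 2 / n := by positivity
    have g1 : ε * (b / 2) / 2 / n = ε / 2 * (b / 2 / n) := by ring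
    obtain ⟨q, hq, hq2⟩ := exists_lt_of_csInf_lt f5
      (show sInf (S n) < (1 + ε / 2) * sInf (S n) by nlinarith)
    refine e3 (d n) f3 q (p n) hq.1 ?_ (by rw [g1]; nlinarith) (hp1 n) (hδ2.trans hq.2.2) _ e4
    rw [mul_div_assoc]
    nlinarith

end Pool.Agent.H351Z.RG
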