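import Pool.Agent.H351Z.KAn
import Pool.Agent.H351Z.RAsym

/-! Asymptotic cavity lemmas and the upper bound on the matching number. -/

set_option autoImplicit false
set_option linter.unusedSectionVars false

namespace Pool.Agent.H351Z.RG

open Finset Filter Topology

theorem good {c : ℝ} (hc : 0 < c) : ∀ᶠ n : ℕ in atTop, (0 : ℝ) < n ∧ 0 ≤ c / n ∧ c / n ≤ 1 ∧
    1 ≤ Real.exp (2 * c) * (1 - c / n) ^ Fintype.card (Fin n) := by
  filter_upwards [ev_ge 1, ev_ge (2 * c)] with n h1 h2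
  have hn : (0 : ℝ) < n := by linarith
  have h3 : c / n ≤ 1 / 2 := by rw [div_le_iff₀ hn]; linarith
  have h4 : 0 ≤ c / n := by positivity
  refine ⟨hn, h4, by linarith, ?_⟩
  rw [Fintype.card_fin, show 2 * c = n * (2 * (c / n)) by field_simp, Real.exp_nat_mul, ← mul_pow]
  refine one_le_pow₀ ?_
  have := Real.add_one_le_exp (2 * (c / n))
  nlinarith

theorem ev_le (K : ℝ) {η : ℝ} (hη : 0 < η) : ∀ᶠ n : ℕ in atTop, K ≤ η * n := by
  filter_upwards [ev_ge (K / η)] with n h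
  rwa [div_le_iff₀' hη] at h

/-- stable families -/
def St (c : ℝ) (f : ∀ n, Finset (Sym2 (Fin n)) → Fin n → ℝ) : Prop :=
  ∃ K : ℝ, ∀ᶠ n : ℕ in atTop, Ex (c / n) (EV (Fin n)) (dd (f n)) ≤ K * n

variable {c : ℝ} {f : ∀ n, Finset (Sym2 (Fin n)) → Fin n → ℝ}

theorem St.lift (hc : 0 < c) (hu : ∀ n, Un (f n)) (hf : St c f) : St c fun n => lift (f n) := by
  obtain ⟨K, hK⟩ := hf
  refine ⟨1 + c + c * (Real.exp (2 * c) * K), ?_⟩
  filter_upwards [good hc, hK] with n ⟨h1, h2, h3, h4⟩ h5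
  refine (Ex_dd_lift h2 h3 h4 (hu n)).trans ?_
  rw [Fintype.card_fin, mul_comm, div_mul_cancel₀ _ h1.ne']
  refine mul_le_mul_of_nonneg_right (add_le_add le_rfl ?_) h1.le
  calc c / n * (Real.exp (2 * c) * Ex (c / n) (EV (Fin n)) (dd (f n)))
      ≤ c / n * (Real.exp (2 * c) * (K * n)) := by gcongr
    _ = _ := by field_simp

theorem St.lln (hc : 0 < c) (hu : ∀ n, Un (f n)) (hf : St c f) {η : ℝ} (hη : 0 < η) :
    ∀ᶠ n : ℕ in atTop, Ex (c / n) (EV (Fin n)) (fun A => |(∑ v, RG.lift (f n) A v) / n -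
      Real.exp (-(c / n * ∑ u, f n A u))|) ≤ η := by
  obtain ⟨K', hK'⟩ := hf.lift hc hu
  obtain ⟨K, hK⟩ := hf
  filter_upwards [good hc, hK, hK', ev_le (c ^ 2 + c + (2 * (c * K) + K'))
    (η := η ^ 2 / 4) (by positivity)] with n ⟨h1, h2, h3, _⟩ h5 h6 h7
  have e1 := RG.lln h2 h3 (by rw [Fintype.card_fin]; exact_mod_cast h1) (hu n)
  rw [Fintype.card_fin] at e1
  have e2 : n * (c / n) ^ 2 + c / n + (2 * (c / n * Ex (c / n) (EV (Fin n)) (dd (f n))) +
      Ex (c / n) (EV (Fin n)) (dd (RG.lift (f n))) / n) / n ≤ η ^ 2 / 4 := by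
    calc _ ≤ n * (c / n) ^ 2 + c / n + (2 * (c / n * (K * n)) + K' * n / n) / n := by gcongr
      _ = (c ^ 2 + c + (2 * (c * K) + K')) / n := by field_simp
      _ ≤ _ := by rwa [div_le_iff₀ h1]
  refine le_trans (Ex_mono (g := fun A => η / 2 + 2 / η * ((∑ v, RG.lift (f n) A v) / n -
      Real.exp (-(c / n * ∑ u, f n A u))) ^ 2) h2 h3 fun A _ => ?_) ?_
  · set x := (∑ v, RG.lift (f n) A v) / n - Real.exp (-(c / n * ∑ u, f n A u))
    rw [← sq_abs x, ← sub_le_iff_le_add', div_mul_eq_mul_div, le_div_iff₀ hη]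
    nlinarith [sq_nonneg (|x| - η / 2), abs_nonneg x]
  · rw [Ex_add, Ex_const, Ex_mul]
    calc _ ≤ η / 2 + 2 / η * (η ^ 2 / 4) := by gcongr; exact e1.trans e2
      _ = η := by field_simp; ring

theorem St.two (hc : 0 < c) (hu : ∀ n, Un (f n)) (hf : St c f) {η : ℝ} (hη : 0 < η) :
    ∀ᶠ n : ℕ in atTop, |Ex (c / n) (EV (Fin n)) (fun A => ∑ v, one (f n (del A v)) (nb A v)) -
      n * Ex (c / n) (EV (Fin n)) fun A => po (c / n * ∑ u, f n A u)| ≤ η * n := by
  obtain ⟨K, hK⟩ := hf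
  filter_upwards [good hc, hK, ev_le ((1 + c) * (c ^ 2 + 2 * c) + c * K) hη]
    with n ⟨h1, h2, h3, _⟩ h5 h7
  have e1 := two_mean h2 h3 (hu n)
  rw [Fintype.card_fin, Ex_sub, Ex_mul] at e1
  refine e1.trans (le_trans ?_ h7)
  calc _ ≤ n * ((1 + c / n * n) * (n * (c / n) ^ 2 + 2 * (c / n))) + c / n * (K * n) := by gcongr
    _ = _ := by field_simp

theorem St.tt (hc : 0 < c) (hf : St c f) {η : ℝ} (hη : 0 < η) :
    ∀ᶠ n : ℕ in atTop, Ex (c / n) (EV (Fin n)) (fun A => ∑ v, RG.tt (f n) A v) ≤ η * n := by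
  obtain ⟨K, hK⟩ := hf
  filter_upwards [good hc, hK, ev_le (c ^ 2 * (Real.exp (2 * c) * K)) hη]
    with n ⟨h1, h2, h3, h4⟩ h5 h7
  rw [Ex_sum]
  refine (sum_le_card_nsmul _ _ _ fun v _ => Ex_tt h2 h3 h4 (f n) v).trans (le_trans ?_ h7)
  rw [card_univ, Fintype.card_fin, nsmul_eq_mul]
  calc _ ≤ n * ((c / n) ^ 2 * (Real.exp (2 * c) * (K * n))) := by gcongr
    _ = _ := by field_simp

section det
variable {V : Type*} [Fintype V] [DecidableEq V]

def xs : ℕ → Finset (Sym2 V) → V → ℝ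
  | 0 => fun _ _ => 0
  | j + 1 => lift (xs j)

theorem xs_un (j : ℕ) : Un (xs (V := V) j) := by
  induction j with
  | zero => intro A u; simp [xs]
  | succ j ih => exact ih.lift

theorem xs_01 (j : ℕ) (A : Finset (Sym2 V)) (u : V) : xs j A u = 0 ∨ xs j A u = 1 := by
  induction j generalizing A u with
  | zero => exact Or.inl rfl
  | succ j ih =>
    by_cases h : ∃ w ∈ nb A u, xs j (del A u) w = 1
    · obtain ⟨w, h1, h2⟩ := h
      exact Or.inl (prod_eq_zero h1 (by rw [h2, sub_self]))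
    · refine Or.inr (prod_eq_one fun w hw => ?_)
      rw [(ih (del A u) w).resolve_right fun h' => h ⟨w, hw, h'⟩, sub_zero]

theorem lift_anti {f g : Finset (Sym2 V) → V → ℝ} (hg : Un g) (h : ∀ A u, f A u ≤ g A u)
    (A : Finset (Sym2 V)) (u : V) : lift g A u ≤ lift f A u :=
  prod_le_prod (fun w _ => sub_nonneg.2 (hg _ w).2) fun w _ => by linarith [h (del A u) w]

theorem xs_le (k : ℕ) : (∀ A (u : V), xs (2 * k) A u ≤ xs (2 * k + 1) A u) ∧
    ∀ A (u : V), xs (2 * k) A u ≤ xs (2 * k + 2) A u := by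
  induction k with
  | zero => exact ⟨fun A u => (xs_un 1 A u).1, fun A u => (xs_un 2 A u).1⟩
  | succ k ih =>
    exact ⟨lift_anti (xs_un _) (lift_anti (xs_un _) ih.1),
      lift_anti (xs_un _) (lift_anti (xs_un _) ih.2)⟩

theorem xs_stab (j : ℕ) {A : Finset (Sym2 V)} {v u w : V} (h : tt (xs j) A v < 1) (hu : u ∈ nb A v)
    (hw : w ∈ nb A v) (hwu : w ≠ u) : xs j (del A v) u = xs j (del (del A v) w) u := by
  have := (le_tt (xs j) hu hw hwu).trans_lt h
  rcases xs_01 j (del A v) u with h1 | h1 <;> rcases xs_01 j (del (del A v) w) u with h2 | h2 <;>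
    rw [h1, h2] at this ⊢ <;> norm_num at this

theorem up_key (k : ℕ) {A : Finset (Sym2 V)} {v w : V} (hw : w ∈ nb A v)
    (h : xs (2 * k + 2) A v = 1) (h1 : tt (xs (2 * k + 1)) A v < 1) (h2 : tt (xs (2 * k)) A w < 1) :
    xs (2 * k + 2) A w = 0 ∧ one (xs (2 * k + 2) (del A w)) (nb A w) = 0 := by
  have hv := nb_symm.1 hw
  have hvw : w ≠ v := (mem_nb.1 hw).2
  have e1 : ∀ u ∈ nb A v, xs (2 * k + 1) (del A v) u = 0 := by
    intro u hu
    refine (xs_01 _ _ _).resolve_right fun h' => ?_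
    have : xs (2 * k + 2) A v = 0 := prod_eq_zero hu (by rw [h', sub_self])
    linarith
  have e2 : xs (2 * k + 2) (del A w) v = 1 := by
    refine prod_eq_one fun u hu => ?_
    rw [nb_del hvw, mem_erase] at hu
    rw [del_comm A w v, ← xs_stab _ h1 hu.2 hw hu.1.symm, e1 u hu.2, sub_zero]
  obtain ⟨u, hu, e3⟩ := prod_eq_zero_iff.1 (e1 w hw)
  rw [nb_del hvw.symm, mem_erase] at hu
  rw [del_comm A v w, ← xs_stab _ h2 hu.2 hv hu.1.symm, sub_eq_zero] at e3
  have e4 : xs (2 * k + 1) (del A w) u = 1 :=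
    le_antisymm (xs_un _ _ _).2 (e3.le.trans ((xs_le k).1 _ _))
  have e5 : xs (2 * k + 2) (del A w) u = 1 :=
    le_antisymm (xs_un _ _ _).2 (e3.le.trans ((xs_le k).2 _ _))
  exact ⟨prod_eq_zero hu.2 (by rw [e4, sub_self]), one_eq_zero hu.2 hv hu.1 e5 e2⟩

theorem up_det (k : ℕ) {A : Finset (Sym2 V)} (hA : A ⊆ EV V) :
    (2 * nu A : ℝ) ≤ ∑ v, (1 - xs (2 * k + 2) A v + (1 - one (xs (2 * k + 2) (del A v)) (nb A v)) +
      2 * (tt (xs (2 * k)) A v + tt (xs (2 * k + 1)) A v)) := by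
  have e1 := fun v => (xs_un (2 * k + 2) A v).2
  have e2 := fun v => (one_bounds (xs_un (2 * k + 2) (del A v)) (nb A v)).2
  have e3 := tt_nonneg (xs (2 * k)) A
  have e4 := tt_nonneg (xs (2 * k + 1)) A
  refine nu_le_dual hA _ (fun v => by linarith [e1 v, e2 v, e3 v, e4 v]) fun v w hw => ?_
  have := e1 v; have := e2 v; have := e3 v; have := e4 v
  have := e1 w; have := e2 w; have := e3 w; have := e4 w
  by_contra hc
  rcases xs_01 (2 * k + 2) A v with h1 | h1
  · rcases xs_01 (2 * k + 2) A w with h2 | h2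
    · linarith
    · have := up_key k (nb_symm.1 hw) h2 (by linarith) (by linarith)
      linarith [this.1, this.2]
  · have := up_key k hw h1 (by linarith) (by linarith)
    linarith [this.1, this.2]

end det

theorem xs_st (hc : 0 < c) (j : ℕ) : St c fun n => xs (V := Fin n) j := by
  induction j with
  | zero => exact ⟨0, Eventually.of_forall fun n => by
      rw [Ex_congr _ (g := fun _ => 0) fun A _ => by simp [dd, xs], Ex_const]; simp⟩
  | succ j ih => exact ih.lift hc fun n => xs_un j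

theorem xs_cv (hc : 0 < c) (j : ℕ) {η : ℝ} (hη : 0 < η) : ∀ᶠ n : ℕ in atTop,
    Ex (c / n) (EV (Fin n)) (fun A => |(∑ v, xs j A v) / n - ts c j|) ≤ η := by
  induction j generalizing η with
  | zero => exact Eventually.of_forall fun n => by simp [xs, ts, Ex_const, hη.le]
  | succ j ih =>
    filter_upwards [good hc, (xs_st hc j).lln hc (fun n => xs_un j) (η := η / 2) (by positivity),
      ih (η := η / 2 / c) (by positivity)] with n ⟨h1, h2, h3, _⟩ h5 h6
    rw [le_div_iff₀' hc, ← Ex_mul] at h6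
    refine le_trans (Ex_mono h2 h3 fun A _ => ?_)
      ((Ex_add _ _ _ _).le.trans ((add_le_add h5 h6).trans (by linarith)))
    refine (abs_sub_le _ _ _).trans (add_le_add le_rfl ?_)
    refine (exp_lip (mul_nonneg h2 (sum_nonneg fun u _ => (xs_un j A u).1))
      (mul_nonneg hc.le (ts_nonneg c j))).trans (le_of_eq ?_)
    rw [← abs_of_pos hc, ← abs_mul, abs_of_pos hc]
    congr 1
    ring

theorem ks_upper (hc : 0 < c) (k : ℕ) {η : ℝ} (hη : 0 < η) : ∀ᶠ n : ℕ in atTop,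
    2 * Ex (c / n) (EV (Fin n)) (fun A => nu A) ≤
      (2 - ts c (2 * k + 2) - po (c * ts c (2 * k + 2)) + η) * n := by
  obtain ⟨ε, hε, hεe⟩ : ∃ ε : ℝ, 0 < ε ∧ (6 + c) * ε = η :=
    ⟨η / (6 + c), by positivity, by field_simp⟩
  filter_upwards [good hc, xs_cv hc (2 * k + 2) hε, (xs_st hc (2 * k)).tt hc hε,
    (xs_st hc (2 * k + 1)).tt hc hε, (xs_st hc (2 * k + 2)).two hc (fun n => xs_un _) hε]
    with n ⟨h1, h2, h3, _⟩ h5 h6 h7 h8
  have e1 := Ex_mono (s := EV (Fin n)) h2 h3 fun A hA => up_det k (A := A) hA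
  simp only [sum_add_distrib, sum_sub_distrib, ← mul_sum, Ex_add, Ex_sub, Ex_mul, Ex_const,
    sum_const, card_univ, Fintype.card_fin, nsmul_eq_mul, mul_one] at e1
  have e2 : n * ts c (2 * k + 2) - n * ε ≤
      Ex (c / n) (EV (Fin n)) fun A => ∑ v, xs (2 * k + 2) A v := by
    have := Ex_mono (s := EV (Fin n)) (f := fun A => n * ts c (2 * k + 2) -
      n * |(∑ v, xs (2 * k + 2) A v) / n - ts c (2 * k + 2)|)
      (g := fun A => ∑ v, xs (2 * k + 2) A v) h2 h3 fun A _ => by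
        have := neg_abs_le ((∑ v, xs (2 * k + 2) A v) / n - ts c (2 * k + 2))
        rw [le_sub_iff_add_le, le_div_iff₀ h1] at this
        linarith
    rw [Ex_sub, Ex_const, Ex_mul] at this
    nlinarith
  have e3 : po (c * ts c (2 * k + 2)) - c * ε ≤
      Ex (c / n) (EV (Fin n)) fun A => po (c / n * ∑ v, xs (2 * k + 2) A v) := by
    have := Ex_mono (s := EV (Fin n)) (f := fun A => po (c * ts c (2 * k + 2)) -
      c * |(∑ v, xs (2 * k + 2) A v) / n - ts c (2 * k + 2)|)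
      (g := fun A => po (c / n * ∑ v, xs (2 * k + 2) A v)) h2 h3 fun A _ => by
        have := po_lip (mul_nonneg hc.le (ts_nonneg c (2 * k + 2)))
          (mul_nonneg h2 (sum_nonneg fun u (_ : u ∈ univ) => (xs_un (2 * k + 2) A u).1))
        rw [show c * ts c (2 * k + 2) - c / n * ∑ v, xs (2 * k + 2) A v =
          -(c * ((∑ v, xs (2 * k + 2) A v) / n - ts c (2 * k + 2))) by ring, abs_neg, abs_mul,
          abs_of_pos hc] at this
        linarith [(abs_le.1 this).2]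
    rw [Ex_sub, Ex_const, Ex_mul] at this
    nlinarith
  have e4 := mul_le_mul_of_nonneg_left e3 h1.le
  have e5 := (abs_le.1 h8).1
  rw [← hεe]
  linarith

end Pool.Agent.H351Z.RG
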