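import Mathlib

/-!
A partial order in which compatible elements have a least upper bound and every two-colouring has a
maximal ideal with a monochromatic tail.
-/

set_option autoImplicit false

namespace Pool.Agent.H351Z.Ladder

inductive P : Type
  | root : P
  | mark : P → Bool → P
  | lad : (ℕ → P) → ℕ → P

open P

def down : P → Set P
  | root => {root}
  | mark u b => {x | x = mark u b ∨ x ∈ down u}
  | lad q j => {x | (∃ i ≤ j, x = lad q i) ∨
      ((∀ i, ∃ b, mark (q i) b ∈ down (q (i + 1))) ∧ ∃ i < j, x ∈ down (q i))}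

def le (x z : P) : Prop := x ∈ down z

def Good (q : ℕ → P) : Prop := ∀ i, ∃ b, le (mark (q i) b) (q (i + 1))

theorem le_root {x : P} : le x root ↔ x = root := Iff.rfl

theorem le_mark {x u : P} {b : Bool} : le x (mark u b) ↔ x = mark u b ∨ le x u := Iff.rfl

theorem le_lad {x : P} {q : ℕ → P} {j : ℕ} :
    le x (lad q j) ↔ (∃ i ≤ j, x = lad q i) ∨ (Good q ∧ ∃ i < j, le x (q i)) := Iff.rfl

theorem le_rfl' (x : P) : le x x := by
  cases x with
  | root => exact le_root.2 rfl
  | mark u b => exact le_mark.2 (Or.inl rfl)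
  | lad q j => exact le_lad.2 (Or.inl ⟨j, le_rfl, rfl⟩)

theorem le_trans' {x y z : P} (h1 : le x y) (h2 : le y z) : le x z := by
  induction z with
  | root => rw [le_root.1 h2] at h1; exact h1
  | mark u b ih =>
    rcases le_mark.1 h2 with rfl | h
    · exact h1
    · exact le_mark.2 (Or.inr (ih h))
  | lad q j ih =>
    rcases le_lad.1 h2 with ⟨i, hi, rfl⟩ | ⟨hg, i, hi, h⟩
    · rcases le_lad.1 h1 with ⟨i', hi', rfl⟩ | ⟨hg, i', hi', h⟩
      · exact le_lad.2 (Or.inl ⟨i', by omega, rfl⟩)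
      · exact le_lad.2 (Or.inr ⟨hg, i', by omega, h⟩)
    · exact le_lad.2 (Or.inr ⟨hg, i, hi, ih i h⟩)

theorem le_mark_self (u : P) (b : Bool) : le u (mark u b) := le_mark.2 (Or.inr (le_rfl' u))

theorem lad_le_lad (q : ℕ → P) {i j : ℕ} (h : i ≤ j) : le (lad q i) (lad q j) :=
  le_lad.2 (Or.inl ⟨i, h, rfl⟩)

theorem Good.le_lad {q : ℕ → P} (hg : Good q) {i j : ℕ} (h : i < j) : le (q i) (lad q j) :=
  Ladder.le_lad.2 (Or.inr ⟨hg, i, h, le_rfl' _⟩)

theorem Good.mono {q : ℕ → P} (hg : Good q) {i j : ℕ} (h : i ≤ j) : le (q i) (q j) := by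
  induction h with
  | refl => exact le_rfl' _
  | step _ ih =>
    obtain ⟨b, hb⟩ := hg _
    exact le_trans' ih (le_trans' (le_mark_self _ b) hb)

def ht : P → ℕ
  | root => 0
  | mark u _ => ht u + 1
  | lad q j => j + ∑ i ∈ Finset.range j, ht (q i)

theorem ht_lad_lt (q : ℕ → P) {i j : ℕ} (h : i < j) : ht (lad q i) < ht (lad q j) := by
  have : ∑ k ∈ Finset.range i, ht (q k) ≤ ∑ k ∈ Finset.range j, ht (q k) :=
    Finset.sum_le_sum_of_subset (Finset.range_mono h.le)
  simp only [ht]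
  omega

theorem ht_lt_lad (q : ℕ → P) {i j : ℕ} (h : i < j) : ht (q i) < ht (lad q j) := by
  have : ht (q i) ≤ ∑ k ∈ Finset.range j, ht (q k) :=
    Finset.single_le_sum (f := fun k => ht (q k)) (fun _ _ => Nat.zero_le _)
      (Finset.mem_range.2 h)
  simp only [ht]
  omega

theorem ht_le_or {x z : P} (h : le x z) : x = z ∨ ht x < ht z := by
  induction z with
  | root => exact Or.inl h
  | mark u b ih =>
    rcases le_mark.1 h with h | h
    · exact Or.inl h
    · right
      rcases ih h with rfl | h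
      · simp [ht]
      · simp only [ht]; omega
  | lad q j ih =>
    rcases le_lad.1 h with ⟨i, hi, rfl⟩ | ⟨-, i, hi, h⟩
    · rcases hi.eq_or_lt with rfl | hi
      · exact Or.inl rfl
      · exact Or.inr (ht_lad_lt q hi)
    · right
      have := ht_lt_lad q hi
      rcases ih i h with rfl | h
      · exact this
      · omega

theorem ht_le {x z : P} (h : le x z) : ht x ≤ ht z := by
  rcases ht_le_or h with rfl | h
  · exact le_rfl
  · exact h.le

noncomputable def rk : P → Ordinal.{0}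
  | root => 0
  | mark u _ => rk u
  | lad q _ => ⨆ i, (rk (q i) + 1)

theorem rk_lt_lad (q : ℕ → P) (i j : ℕ) : rk (q i) < rk (lad q j) :=
  lt_of_lt_of_le (lt_add_one _) (Ordinal.le_iSup (fun i => rk (q i) + 1) i)

theorem rk_lad (q : ℕ → P) (i j : ℕ) : rk (lad q i) = rk (lad q j) := rfl

theorem rk_le {x z : P} (h : le x z) : rk x ≤ rk z := by
  induction z with
  | root => rw [le_root.1 h]
  | mark u b ih =>
    rcases le_mark.1 h with rfl | h
    · exact le_rfl
    · exact ih h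
  | lad q j ih =>
    rcases le_lad.1 h with ⟨i, -, rfl⟩ | ⟨-, i, -, h⟩
    · exact le_rfl
    · exact (ih i h).trans (rk_lt_lad q i j).le

theorem not_lad_le (q : ℕ → P) (i k : ℕ) : ¬ le (lad q i) (q k) :=
  fun h => absurd (rk_le h) (not_le.2 (rk_lt_lad q k i))

/-- the shape of incomparable compatible pairs -/
theorem shape {x y w : P} (hx : le x w) (hy : le y w) (h1 : ¬ le x y) (h2 : ¬ le y x) :
    ∃ r i k, Good r ∧ ((x = lad r i ∧ le y (r k)) ∨ (y = lad r i ∧ le x (r k))) := by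
  induction w with
  | root => rw [le_root.1 hy] at h1; exact absurd hx h1
  | mark u b ih =>
    rcases le_mark.1 hx with rfl | hx'
    · exact absurd hy h2
    · rcases le_mark.1 hy with rfl | hy'
      · exact absurd hx h1
      · exact ih hx' hy'
  | lad q j ih =>
    rcases le_lad.1 hx with ⟨i, -, rfl⟩ | ⟨hg, i, -, hx'⟩
    · rcases le_lad.1 hy with ⟨i', -, rfl⟩ | ⟨hg, i', -, hy'⟩
      · rcases le_total i i' with h | h
        · exact absurd (lad_le_lad q h) h1
        · exact absurd (lad_le_lad q h) h2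
      · exact ⟨q, i, i', hg, Or.inl ⟨rfl, hy'⟩⟩
    · rcases le_lad.1 hy with ⟨i', -, rfl⟩ | ⟨-, i', -, hy'⟩
      · exact ⟨q, i', i, hg, Or.inr ⟨rfl, hx'⟩⟩
      · exact ih (max i i') (le_trans' hx' (hg.mono (le_max_left _ _)))
          (le_trans' hy' (hg.mono (le_max_right _ _)))

theorem between {r : ℕ → P} {i k : ℕ} {y w : P} (hy : le y (r k)) (h1 : le (lad r i) w)
    (h2 : le y w) : ∃ m, i ≤ m ∧ le (lad r m) w ∧ le y (lad r m) := by
  induction w with
  | root => exact absurd (le_root.1 h1) (by simp)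
  | mark u b ih =>
    rcases le_mark.1 h1 with h | h1'
    · exact absurd h (by simp)
    · rcases le_mark.1 h2 with rfl | h2'
      · exact absurd (le_trans' h1 hy) (not_lad_le r i k)
      · obtain ⟨m, h3, h4, h5⟩ := ih h1' h2'
        exact ⟨m, h3, le_mark.2 (Or.inr h4), h5⟩
  | lad q j ih =>
    rcases le_lad.1 h1 with ⟨i', hi', h⟩ | ⟨hg, i', hi', h1'⟩
    · obtain ⟨rfl, rfl⟩ := lad.inj h
      exact ⟨j, hi', le_rfl' _, h2⟩
    · rcases le_lad.1 h2 with ⟨i'', -, rfl⟩ | ⟨-, i'', hi'', h2'⟩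
      · exfalso
        have a1 := rk_le hy
        have a2 := rk_le h1'
        have a3 := rk_lt_lad r k i
        have a4 := rk_lt_lad q i' i''
        exact lt_irrefl _ (a3.trans_le (a2.trans (a4.le.trans a1)))
      · obtain ⟨m, h3, h4, h5⟩ := ih (max i' i'') (le_trans' h1' (hg.mono (le_max_left _ _)))
          (le_trans' h2' (hg.mono (le_max_right _ _)))
        exact ⟨m, h3, le_trans' h4 (hg.le_lad (by omega)), h5⟩

theorem exists_lub {x y w : P} (hx : le x w) (hy : le y w) :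
    ∃ j, le x j ∧ le y j ∧ ∀ w', le x w' → le y w' → le j w' := by
  classical
  by_cases h1 : le x y
  · exact ⟨y, h1, le_rfl' y, fun _ _ h => h⟩
  by_cases h2 : le y x
  · exact ⟨x, le_rfl' x, h2, fun _ h _ => h⟩
  have key : ∀ (r : ℕ → P) (i k : ℕ) (y : P), Good r → le y (r k) →
      ∃ j, le (lad r i) j ∧ le y j ∧ ∀ w', le (lad r i) w' → le y w' → le j w' := by
    intro r i k y hg hy
    have hex : ∃ m, i ≤ m ∧ le y (lad r m) :=
      ⟨max i (k + 1), le_max_left _ _, le_trans' hy (hg.le_lad (by omega))⟩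
    refine ⟨lad r (Nat.find hex), lad_le_lad r (Nat.find_spec hex).1, (Nat.find_spec hex).2, ?_⟩
    intro w' h3 h4
    obtain ⟨m, h5, h6, h7⟩ := between hy h3 h4
    exact le_trans' (lad_le_lad r (Nat.find_min' hex ⟨h5, h7⟩)) h6
  obtain ⟨r, i, k, hg, ⟨rfl, h⟩ | ⟨rfl, h⟩⟩ := shape hx hy h1 h2
  · exact key r i k y hg h
  · obtain ⟨j, h3, h4, h5⟩ := key r i k x hg h
    exact ⟨j, h4, h3, fun w' a b => h5 w' b a⟩

def IsLad (y : P) : Prop := ∃ q j, y = lad q j

def Compat (x y : P) : Prop := ∃ w, le x w ∧ le y w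

/-- strictly increasing sequences -/
def Chain (x : ℕ → P) : Prop := ∀ n, le (x n) (x (n + 1)) ∧ x n ≠ x (n + 1)

theorem Chain.mono {x : ℕ → P} (h : Chain x) {i j : ℕ} (hij : i ≤ j) : le (x i) (x j) := by
  induction hij with
  | refl => exact le_rfl' _
  | step _ ih => exact le_trans' ih (h _).1

theorem Chain.le_ht {x : ℕ → P} (h : Chain x) (n : ℕ) : n ≤ ht (x n) := by
  induction n with
  | zero => exact Nat.zero_le _
  | succ n ih =>
    rcases ht_le_or (h n).1 with h1 | h1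
    · exact absurd h1 (h n).2
    · omega

theorem maximal {x : ℕ → P} (hx : Chain x) {a : P} (ha : le a (x 0))
    (hl : ∀ n y, le a y → le y (x n) → y ≠ a → IsLad y) (w : P)
    (hw : ∀ n, Compat w (x n)) : ∃ n, le w (x n) := by
  induction hrk : rk w using WellFoundedLT.induction generalizing w with
  | ind o ih =>
  subst hrk
  by_contra hc
  push Not at hc
  have hsh : ∀ n, ht w < n → ∃ r i k, Good r ∧
      ((w = lad r i ∧ le (x n) (r k)) ∨ (x n = lad r i ∧ le w (r k))) := by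
    intro n hn
    obtain ⟨v, h1, h2⟩ := hw n
    refine shape h1 h2 (hc n) fun h => ?_
    have := ht_le h
    have := hx.le_ht n
    omega
  by_cases hf : ∀ N, ∃ n, N ≤ n ∧ ∃ r i k, Good r ∧ w = lad r i ∧ le (x n) (r k)
  · obtain ⟨n0, -, r, i, k, hg, rfl, hk⟩ := hf 0
    obtain ⟨b, hb⟩ := hg k
    have h1 : le a (r k) := le_trans' ha (le_trans' (hx.mono (Nat.zero_le _)) hk)
    obtain ⟨n, hn⟩ := ih (rk (r (k + 1))) (rk_lt_lad r (k + 1) i) (r (k + 1)) (fun n => by
      obtain ⟨n', hn', r', i', k', -, he, hk'⟩ := hf n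
      obtain ⟨rfl, -⟩ := lad.inj he
      exact ⟨r (max (k + 1) k'), hg.mono (le_max_left _ _),
        le_trans' (hx.mono hn') (le_trans' hk' (hg.mono (le_max_right _ _)))⟩) rfl
    obtain ⟨q, j, he⟩ := hl n (mark (r k) b) (le_trans' h1 (le_mark_self _ _)) (le_trans' hb hn)
      (by
        intro he
        have h2 := ht_le h1
        rw [← he] at h2
        simp only [ht] at h2
        omega)
    exact absurd he (by simp)
  · push Not at hf
    obtain ⟨N, hN⟩ := hf
    have hsh' : ∀ n, N ≤ n → ht w < n → ∃ r i k, Good r ∧ x n = lad r i ∧ le w (r k) := by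
      intro n h1 h2
      obtain ⟨r, i, k, hg, ⟨h3, h4⟩ | ⟨h3, h4⟩⟩ := hsh n h2
      · exact absurd h4 (hN n h1 r i k hg h3)
      · exact ⟨r, i, k, hg, h3, h4⟩
    obtain ⟨r, i, k, hg, he, hk⟩ := hsh' (N + ht w + 1) (by omega) (by omega)
    obtain ⟨r', i', k', hg', he', hk'⟩ := hsh' (N + ht w + 1 + ht (lad r k) + 1) (by omega)
      (by omega)
    have h1 : le (lad r i) (lad r' i') := by
      rw [← he, ← he']
      exact hx.mono (by omega)
    have h2 := hx.le_ht (N + ht w + 1 + ht (lad r k) + 1)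
    rcases le_lad.1 h1 with ⟨i'', -, h3⟩ | ⟨-, l, hl', h3⟩
    · obtain ⟨rfl, -⟩ := lad.inj h3
      have h4 : k < i' := by
        by_contra h5
        have := ht_le (lad_le_lad r (not_lt.1 h5))
        rw [he'] at h2
        omega
      refine hc _ (he' ▸ le_trans' hk (hg.le_lad h4))
    · obtain ⟨b, hb⟩ := hg' l
      have hM1 : le (mark (r' l) b) (r' (max (l + 1) k')) :=
        le_trans' hb (hg'.mono (le_max_left _ _))
      obtain ⟨m, -, h5, h6⟩ := between hk
        (le_trans' h3 (le_trans' (le_mark_self _ b) hM1))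
        (le_trans' hk' (hg'.mono (le_max_right (l + 1) k')))
      have hno : ∀ k'', ¬ le (mark (r' l) b) (r k'') := fun k'' h =>
        not_lad_le r i k'' (le_trans' h3 (le_trans' (le_mark_self _ b) h))
      have h7 : ¬ le (lad r m) (mark (r' l) b) := by
        intro h
        rcases le_mark.1 h with h | h
        · exact absurd h (by simp)
        · exact hc _ (he' ▸ le_trans' h6 (le_trans' h (hg'.le_lad hl')))
      have h8 : ¬ le (mark (r' l) b) (lad r m) := by
        intro h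
        rcases le_lad.1 h with ⟨_, -, h⟩ | ⟨-, k'', -, h⟩
        · exact absurd h (by simp)
        · exact hno k'' h
      obtain ⟨r'', i'', k'', -, ⟨h9, h10⟩ | ⟨h9, -⟩⟩ := shape h5 hM1 h7 h8
      · obtain ⟨rfl, -⟩ := lad.inj h9
        exact hno k'' h10
      · exact absurd h9 (by simp)

theorem lad_chain (q : ℕ → P) : Chain fun n => lad q (n + 1) :=
  fun n => ⟨lad_le_lad q (by omega), by simp⟩

theorem lad_interval {q : ℕ → P} {n : ℕ} {y : P} (h1 : le (lad q 1) y) (h2 : le y (lad q n)) :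
    ∃ i, y = lad q (i + 1) := by
  rcases le_lad.1 h2 with ⟨i, -, rfl⟩ | ⟨-, i, -, h⟩
  · cases i with
    | zero =>
      have := ht_le h1
      have := ht_lad_lt q Nat.zero_lt_one
      omega
    | succ i => exact ⟨i, rfl⟩
  · exact absurd (le_trans' h1 h) (not_lad_le q 1 i)

def State (c : P → Prop) (a z : P) : Prop :=
  le a z ∧ ∀ y, le a y → le y z → ((c y ↔ c a) ∧ (y ≠ a → IsLad y))

theorem state_self (c : P → Prop) (a : P) : State c a a := by
  refine ⟨le_rfl' a, fun y h1 h2 => ?_⟩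
  have : y = a := by
    rcases ht_le_or h2 with h | h
    · exact h
    · have := ht_le h1
      omega
  subst this
  exact ⟨Iff.rfl, fun h => absurd rfl h⟩

theorem ramsey (c : P → Prop) : ∃ a x, Chain x ∧ ∀ n, State c a (x n) := by
  by_cases hA : ∃ a, ∀ z, State c a z → ∃ z', State c a z' ∧ le z z' ∧ z ≠ z'
  · obtain ⟨a, ha⟩ := hA
    choose f hf1 hf2 hf3 using ha
    let x : ℕ → {z // State c a z} := fun n =>
      Nat.rec ⟨a, state_self c a⟩ (fun _ p => ⟨f p.1 p.2, hf1 p.1 p.2⟩) n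
    exact ⟨a, fun n => (x n).1, fun n => ⟨hf2 _ (x n).2, hf3 _ (x n).2⟩, fun n => (x n).2⟩
  · push Not at hA
    choose D hD1 hD2 using hA
    let a : ℕ → P := fun n => Nat.rec root (fun _ p => mark (D p) false) n
    have ha : ∀ n, a (n + 1) = mark (D (a n)) false := fun n => rfl
    have hmono : ∀ i j, i ≤ j → le (a i) (a j) := by
      intro i j hij
      induction hij with
      | refl => exact le_rfl' _
      | step _ ih => exact le_trans' ih (le_trans' (hD1 _).1 (le_mark_self _ _))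
    have hcol : ∃ p : Prop, ∃ φ : ℕ → ℕ, StrictMono φ ∧ ∀ n, (c (a (φ n)) ↔ p) := by
      by_cases hfr : ∃ᶠ n in Filter.atTop, c (a n)
      · obtain ⟨φ, h1, h2⟩ := Filter.extraction_of_frequently_atTop hfr
        exact ⟨True, φ, h1, fun n => by simpa using h2 n⟩
      · rw [Filter.not_frequently] at hfr
        obtain ⟨φ, h1, h2⟩ := Filter.extraction_of_eventually_atTop hfr
        exact ⟨False, φ, h1, fun n => by simpa using h2 n⟩
    obtain ⟨p, φ, hφ, hp⟩ := hcol
    let q : ℕ → P := fun n => D (a (φ n))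
    have hq : ∀ i j, i < j → le (mark (q i) false) (a (φ j)) := fun i j hij =>
      ha (φ i) ▸ hmono _ _ (hφ hij)
    have hg : Good q := fun i => ⟨false, le_trans' (hq i (i + 1) (by omega)) (hD1 _).1⟩
    have hc : ∀ n, ¬ (c (lad q (n + 1)) ↔ p) := by
      intro n hn
      have h1 : le (q n) (lad q (n + 1)) := hg.le_lad (by omega)
      have h2 : State c (a (φ n)) (lad q (n + 1)) := by
        refine ⟨le_trans' (hD1 _).1 h1, fun y h3 h4 => ?_⟩
        rcases le_lad.1 h4 with ⟨i, hi, rfl⟩ | ⟨-, i, hi, h4'⟩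
        · have : i = n + 1 := by
            rcases le_lad.1 h3 with ⟨i', -, h5⟩ | ⟨-, k, hk, h5⟩
            · exact absurd (h5 ▸ (hD1 (a (φ n))).1) (not_lad_le q i' n)
            · by_contra h6
              have h7 := ht_le (le_trans' (hq k n (by omega)) h5)
              simp only [ht] at h7
              omega
          subst this
          exact ⟨hn.trans (hp n).symm, fun _ => ⟨q, _, rfl⟩⟩
        · exact (hD1 _).2 y h3 (le_trans' h4' (hg.mono (by omega)))
      have h3 := hD2 _ _ h2 h1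
      exact not_lad_le q (n + 1) n (h3 ▸ le_rfl' _)
    refine ⟨lad q 1, fun n => lad q (n + 1), lad_chain q, fun n => ⟨lad_le_lad q (by omega), ?_⟩⟩
    intro y h1 h2
    obtain ⟨i, rfl⟩ := lad_interval h1 h2
    refine ⟨?_, fun _ => ⟨q, _, rfl⟩⟩
    have h3 := hc i
    have h4 := hc 0
    simp only [zero_add] at h4
    tauto

/-- points: maximal ideals -/
structure IsPt (I : Set P) : Prop where
  nonempty : I.Nonempty
  lower : ∀ x y, le x y → y ∈ I → x ∈ I
  directed : ∀ x ∈ I, ∀ y ∈ I, ∃ w ∈ I, le x w ∧ le y w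
  max : ∀ w, (∀ y ∈ I, Compat w y) → w ∈ I

theorem isPt_chain {x : ℕ → P} (hx : Chain x) {a : P} (ha : le a (x 0))
    (hl : ∀ n y, le a y → le y (x n) → y ≠ a → IsLad y) : IsPt {y | ∃ n, le y (x n)} where
  nonempty := ⟨x 0, 0, le_rfl' _⟩
  lower := fun _ _ h ⟨n, hn⟩ => ⟨n, le_trans' h hn⟩
  directed := fun _ ⟨n, hn⟩ _ ⟨m, hm⟩ => ⟨x (max n m), ⟨_, le_rfl' _⟩,
    le_trans' hn (hx.mono (le_max_left _ _)), le_trans' hm (hx.mono (le_max_right _ _))⟩
  max := fun w hw => maximal hx ha hl w fun n => hw _ ⟨n, le_rfl' _⟩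

theorem exists_pt (p : P) : ∃ I, IsPt I ∧ p ∈ I := by
  let q : ℕ → P := fun n => Nat.rec p (fun _ u => mark u false) n
  have hg : Good q := fun i => ⟨false, le_rfl' _⟩
  refine ⟨_, isPt_chain (lad_chain q) (le_rfl' _) fun n y h1 h2 _ => ?_, 0,
    hg.le_lad Nat.zero_lt_one⟩
  obtain ⟨i, rfl⟩ := lad_interval h1 h2
  exact ⟨q, _, rfl⟩

theorem not_compat (p : P) : ¬ Compat (mark p false) (mark p true) := by
  rintro ⟨w, h1, h2⟩
  have key : ∀ b b', b ≠ b' → ¬ le (mark p b) (mark p b') := by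
    intro b b' hb h
    rcases le_mark.1 h with h | h
    · exact hb (mark.inj h).2
    · have := ht_le h
      simp only [ht] at this
      omega
  obtain ⟨r, i, k, -, ⟨h, -⟩ | ⟨h, -⟩⟩ := shape h1 h2 (key _ _ (by simp)) (key _ _ (by simp))
  · exact absurd h (by simp)
  · exact absurd h (by simp)

def X : Type := {I : Set P // IsPt I}

def U (p : P) : Set X := {I | p ∈ I.1}

def Bs : Set (Set X) := {W | W = ∅ ∨ ∃ p, W = U p}

theorem inter_lub {x y j : P} (h1 : le x j) (h2 : le y j)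
    (h3 : ∀ w', le x w' → le y w' → le j w') : U x ∩ U y = U j := by
  ext I
  constructor
  · rintro ⟨hx, hy⟩
    obtain ⟨w, hw, h4, h5⟩ := I.2.directed x hx y hy
    exact I.2.lower _ _ (h3 w h4 h5) hw
  · intro hj
    exact ⟨I.2.lower _ _ h1 hj, I.2.lower _ _ h2 hj⟩

theorem inter_mem : ∀ V ∈ Bs, ∀ W ∈ Bs, V ∩ W ∈ Bs := by
  rintro V (rfl | ⟨x, rfl⟩) W hW
  · exact Or.inl (Set.empty_inter _)
  · rcases hW with rfl | ⟨y, rfl⟩
    · exact Or.inl (Set.inter_empty _)
    · by_cases h : Compat x y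
      · obtain ⟨w, h1, h2⟩ := h
        obtain ⟨j, h3, h4, h5⟩ := exists_lub h1 h2
        exact Or.inr ⟨j, inter_lub h3 h4 h5⟩
      · left
        ext I
        simp only [Set.mem_inter_iff, Set.mem_empty_iff_false, iff_false]
        rintro ⟨hx, hy⟩
        obtain ⟨w, -, h1, h2⟩ := I.2.directed x hx y hy
        exact h ⟨w, h1, h2⟩

instance : TopologicalSpace X := TopologicalSpace.generateFrom Bs

theorem isBasis : TopologicalSpace.IsTopologicalBasis Bs where
  exists_subset_inter := fun V hV W hW _ hx => ⟨V ∩ W, inter_mem V hV W hW, hx, subset_rfl⟩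
  sUnion_eq := by
    rw [Set.eq_univ_iff_forall]
    intro I
    obtain ⟨p, hp⟩ := I.2.nonempty
    exact ⟨U p, Or.inr ⟨p, rfl⟩, hp⟩
  eq_generateFrom := rfl

theorem t1 : T1Space X := by
  rw [t1Space_iff_exists_open]
  intro I J hne
  by_contra hc
  push Not at hc
  have h1 : I.1 ⊆ J.1 := fun p hp => hc (U p) (isBasis.isOpen (Or.inr ⟨p, rfl⟩)) hp
  refine hne (Subtype.ext (Set.Subset.antisymm h1 fun w hw => I.2.max w fun y hy => ?_))
  obtain ⟨v, -, h2, h3⟩ := J.2.directed w hw y (h1 hy)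
  exact ⟨v, h2, h3⟩

theorem crowded (I : X) : ¬ IsOpen ({I} : Set X) := by
  intro h
  obtain ⟨W, hW, hI, hsub⟩ := isBasis.exists_subset_of_mem_open (Set.mem_singleton I) h
  rcases hW with rfl | ⟨p, rfl⟩
  · exact hI
  · have key : ∀ b, mark p b ∈ I.1 := by
      intro b
      obtain ⟨J, hJ, hp⟩ := exists_pt (mark p b)
      have : (⟨J, hJ⟩ : X) = I := hsub (hJ.lower _ _ (le_mark_self p b) hp)
      rw [← this]
      exact hp
    obtain ⟨w, -, h1, h2⟩ := I.2.directed _ (key false) _ (key true)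
    exact not_compat p ⟨w, h1, h2⟩

theorem not_resolvable (B0 B1 : Set (Set X)) (hU : B0 ∪ B1 = Bs) (hd : B0 ∩ B1 = ∅)
    (h0 : TopologicalSpace.IsTopologicalBasis B0) (h1 : TopologicalSpace.IsTopologicalBasis B1) :
    False := by
  obtain ⟨a, x, hx, hs⟩ := ramsey fun p => U p ∈ B0
  let I : X := ⟨_, isPt_chain hx (hs 0).1 fun n y h1 h2 => ((hs n).2 y h1 h2).2⟩
  have haI : I ∈ U a := ⟨0, (hs 0).1⟩
  have hopen : IsOpen (U a) := isBasis.isOpen (Or.inr ⟨a, rfl⟩)
  have key : ∀ W ∈ Bs, I ∈ W → W ⊆ U a → (W ∈ B0 ↔ U a ∈ B0) := by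
    rintro W (rfl | ⟨z, rfl⟩) hI hsub
    · exact absurd hI (Set.notMem_empty _)
    · obtain ⟨w, -, h2, h3⟩ := I.2.directed z hI a haI
      obtain ⟨j, h4, h5, h6⟩ := exists_lub h2 h3
      have h7 : U z = U j := by
        rw [← inter_lub h4 h5 h6, Set.inter_eq_left.2 hsub]
      have h8 : I ∈ U j := h7 ▸ hI
      obtain ⟨n, hn⟩ := h8
      rw [h7]
      exact ((hs n).2 j h5 hn).1
  obtain ⟨W0, hW0, hI0, hs0⟩ := h0.exists_subset_of_mem_open haI hopen
  obtain ⟨W1, hW1, hI1, hs1⟩ := h1.exists_subset_of_mem_open haI hopen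
  have h2 := (key W0 (hU ▸ Or.inl hW0) hI0 hs0).1 hW0
  have h3 := (key W1 (hU ▸ Or.inr hW1) hI1 hs1).2 h2
  have h4 : W1 ∈ B0 ∩ B1 := ⟨h3, hW1⟩
  rw [hd] at h4
  exact h4

end Pool.Agent.H351Z.Ladder
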