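import Pool.Agent.H351Z.RPath

/-! From cut inequalities to a large linear forest. -/

set_option autoImplicit false
set_option linter.unusedSectionVars false

namespace Pool.Agent.H351Z.RG

open Finset

variable {V : Type*} [Fintype V] [DecidableEq V] {r : V → V → Prop}

theorem arcs_uncross (hs : ∀ x y, r x y → r y x) (A B : Finset V) :
    arcs r (A ∩ B) (A ∪ B) ≤ arcs r A B := by
  classical
  have h1 : arcs r (A ∩ B) (A ∪ B) + arcs r (A ∪ B) (A ∩ B) ≤ arcs r A B + arcs r B A := by
    have key : ∀ X Y : Finset V, arcs r X Y =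
        ∑ p : V × V, if p.1 ∈ X ∧ p.2 ∈ Y ∧ r p.1 p.2 then 1 else 0 := by
      intro X Y
      unfold arcs
      rw [← card_filter]
      congr 1
      ext p
      simp [and_assoc]
    simp only [key, ← sum_add_distrib]
    refine sum_le_sum fun p _ => ?_
    by_cases a : p.1 ∈ A <;> by_cases b : p.1 ∈ B <;> by_cases c : p.2 ∈ A <;>
      by_cases d : p.2 ∈ B <;> by_cases e : r p.1 p.2 <;> simp [a, b, c, d, e]
  rw [arcs_comm hs (A ∪ B), arcs_comm hs B] at h1
  omega

/-- Hall's theorem for the capacitated double cover -/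
theorem exists_digraph (δ : ℕ)
    (h : ∀ X Y : Finset V, 2 * X.card ≤ δ + arcs r X Yᶜ + 2 * Y.card) :
    ∃ D : Finset (V × V), (∀ p ∈ D, r p.1 p.2) ∧ (∀ x, (D.filter fun p => p.1 = x).card ≤ 2) ∧
      (∀ x, (D.filter fun p => p.2 = x).card ≤ 2) ∧ 2 * Fintype.card V ≤ D.card + δ := by
  classical
  let E : Finset (V × V) := univ.filter fun p => r p.1 p.2
  let t : (V × Fin 2) ⊕ (V × V) → Finset (Fin δ ⊕ (V × V) ⊕ (V × Fin 2)) := fun i =>
    match i with
    | Sum.inl u => (univ.image Sum.inl) ∪ ((E.filter fun p => p.1 = u.1).image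
        fun p => Sum.inr (Sum.inl p))
    | Sum.inr a => insert (Sum.inr (Sum.inl a))
        (univ.image fun j : Fin 2 => Sum.inr (Sum.inr (a.2, j)))
  have hall : ∀ Z : Finset ((V × Fin 2) ⊕ (V × V)), Z.card ≤ (Z.biUnion t).card := by
    intro Z
    let Z1 := Z.toLeft
    let Z2 := Z.toRight
    have hZ : Z1.card + Z2.card = Z.card := card_toLeft_add_card_toRight
    let X := Z1.image Prod.fst
    let Y := Z2.image Prod.snd
    have hX : Z1.card ≤ 2 * X.card := by
      refine card_le_fibers _ Prod.fst _ 2 (fun p hp => mem_image_of_mem _ hp) fun x _ => ?_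
      refine le_trans (card_le_card_of_injOn Prod.snd (t := univ) (by simp) ?_) (by simp)
      intro p hp q hq hpq
      simp only [coe_filter, Set.mem_ofPred_eq] at hp hq
      exact Prod.ext (hp.2.trans hq.2.symm) hpq
    rcases Z1.eq_empty_or_nonempty with h0 | ⟨u, hu⟩
    · rw [h0, card_empty, zero_add] at hZ
      rw [← hZ]
      refine card_le_card_of_injOn (fun a => Sum.inr (Sum.inl a)) (fun a ha => ?_)
        (fun a _ b _ hab => by simpa using hab)
      rw [mem_coe, mem_biUnion]
      exact ⟨Sum.inr a, mem_toRight.1 ha, mem_insert_self _ _⟩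
    · let A := (X ×ˢ Yᶜ).filter fun p => r p.1 p.2
      let N : Finset (Fin δ ⊕ (V × V) ⊕ (V × Fin 2)) :=
        univ.disjSum ((A ∪ Z2).disjSum (Y ×ˢ univ))
      have hN : N ⊆ Z.biUnion t := by
        intro z hz
        rw [mem_biUnion]
        rcases z with z | z | z
        · exact ⟨Sum.inl u, mem_toLeft.1 hu, mem_union_left _ (by simp)⟩
        · simp only [N, inr_mem_disjSum, inl_mem_disjSum, mem_union] at hz
          rcases hz with hz | hz
          · simp only [A, mem_filter, mem_product, X, mem_image] at hz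
            obtain ⟨⟨⟨v, hv, hv'⟩, -⟩, hz⟩ := hz
            exact ⟨Sum.inl v, mem_toLeft.1 hv, mem_union_right _
              (mem_image.2 ⟨z, by simp [E, hz, hv'], rfl⟩)⟩
          · exact ⟨Sum.inr z, mem_toRight.1 hz, mem_insert_self _ _⟩
        · simp only [N, inr_mem_disjSum, mem_product, mem_univ, and_true, Y, mem_image] at hz
          obtain ⟨a, ha, ha'⟩ := hz
          exact ⟨Sum.inr a, mem_toRight.1 ha, mem_insert_of_mem
            (mem_image.2 ⟨z.2, mem_univ _, by rw [ha']⟩)⟩
      have hdis : Disjoint A Z2 := by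
        rw [disjoint_left]
        intro p hp hp'
        simp only [A, mem_filter, mem_product, mem_compl] at hp
        exact hp.1.2 (mem_image_of_mem _ hp')
      have hNc : N.card = δ + (arcs r X Yᶜ + Z2.card + Y.card * 2) := by
        simp only [N, card_disjSum, card_union_of_disjoint hdis, card_product, card_univ,
          Fintype.card_fin]
        congr
      have := card_le_card hN
      have := h X Y
      omega
  obtain ⟨f, hf, hft⟩ := (all_card_le_biUnion_card_iff_exists_injective t).1 hall
  let D : Finset (V × V) := univ.filter fun a => ∃ u, f (Sum.inl u) = Sum.inr (Sum.inl a)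
  have hD : ∀ a u, f (Sum.inl u) = Sum.inr (Sum.inl a) → r a.1 a.2 ∧ a.1 = u.1 := by
    intro a u hu
    have := hft (Sum.inl u)
    rw [hu] at this
    simpa [t, E] using this
  refine ⟨D, fun p hp => ?_, fun x => ?_, fun x => ?_, ?_⟩
  · obtain ⟨u, hu⟩ := (mem_filter.1 hp).2
    exact (hD p u hu).1
  · have : (D.filter fun p => p.1 = x).image (fun a => Sum.inr (Sum.inl a)) ⊆
        (univ : Finset (Fin 2)).image fun j => f (Sum.inl (x, j)) := by
      intro z hz
      obtain ⟨a, ha, rfl⟩ := mem_image.1 hz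
      rw [mem_filter] at ha
      obtain ⟨u, hu⟩ := (mem_filter.1 ha.1).2
      refine mem_image.2 ⟨u.2, mem_univ _, ?_⟩
      rw [← hu, ← ha.2, (hD a u hu).2]
    have h2 := card_le_card this
    rw [card_image_of_injective _ (fun a b hab => by simpa using hab)] at h2
    exact h2.trans (card_image_le.trans (by simp))
  · have : (D.filter fun p => p.2 = x).image (fun a => f (Sum.inr a)) ⊆
        (univ : Finset (Fin 2)).image fun j => Sum.inr (Sum.inr (x, j)) := by
      intro z hz
      obtain ⟨a, ha, rfl⟩ := mem_image.1 hz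
      rw [mem_filter] at ha
      obtain ⟨u, hu⟩ := (mem_filter.1 ha.1).2
      have h3 := hft (Sum.inr a)
      simp only [t, mem_insert] at h3
      rcases h3 with h3 | h3
      · exact absurd (hf (hu.trans h3.symm)) (by simp)
      · rw [← ha.2]; exact h3
    have h2 := card_le_card this
    rw [card_image_of_injective _ (fun a b hab => by simpa using hf hab)] at h2
    exact h2.trans (card_image_le.trans (by simp))
  · have : (univ : Finset (V × Fin 2)).image (fun u => f (Sum.inl u)) ⊆
        (univ : Finset (Fin δ)).disjSum (D.disjSum ∅) := by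
      intro z hz
      obtain ⟨u, -, rfl⟩ := mem_image.1 hz
      have h3 := hft (Sum.inl u)
      simp only [t, mem_union, mem_image] at h3
      rcases h3 with ⟨a, -, h3⟩ | ⟨a, -, h3⟩
      · rw [← h3]; simp
      · rw [← h3]
        simp only [inr_mem_disjSum, inl_mem_disjSum, D, mem_filter, mem_univ, true_and]
        exact ⟨u, h3.symm⟩
    have h2 := card_le_card this
    rw [card_image_of_injective _ (fun a b hab => by simpa using hf hab)] at h2
    simp only [card_univ, Fintype.card_prod, Fintype.card_fin, card_disjSum, card_empty] at h2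
    omega

/-- splitting the neighbours of a vertex into groups of size two -/
theorem exists_slot (N : Finset V) (hN : N.card ≤ 4) : ∃ c : V → Fin 2,
    (∀ i, (N.filter fun y => c y = i).card ≤ 2) ∧ (N.card ≤ 2 → ∀ y, c y = 0) := by
  by_cases h : N.card ≤ 2
  · exact ⟨fun _ => 0, fun i => (card_filter_le _ _).trans h, fun _ _ => rfl⟩
  · obtain ⟨T, hT, hTc⟩ := exists_subset_card_eq (s := N) (n := 2) (by omega)
    refine ⟨fun y => if y ∈ T then 0 else 1, fun i => ?_, fun h' => absurd h' h⟩
    fin_cases i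
    · refine le_trans (card_le_card fun y hy => ?_) hTc.le
      by_contra hc
      simp [hc] at hy
    · refine le_trans (card_le_card (t := N \ T) fun y hy => ?_) ?_
      · rw [mem_filter] at hy
        refine mem_sdiff.2 ⟨hy.1, fun hc => ?_⟩
        simp [hc] at hy
      · rw [card_sdiff_of_subset hT]; omega

/-- rounding a digraph with in- and out-degrees at most two to a linear forest -/
theorem rounding (hs : ∀ x y, r x y → r y x) (l0 k : ℕ) (hl : 0 < l0)
    (hk : Fintype.card V ≤ l0 * k)
    (hc : ∀ U : Finset V, U.Nonempty → U.card ≤ l0 → arcs r U U + 2 ≤ 2 * U.card)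
    (D : Finset (V × V)) (hD : ∀ p ∈ D, r p.1 p.2)
    (h1 : ∀ x, (D.filter fun p => p.1 = x).card ≤ 2)
    (h2 : ∀ x, (D.filter fun p => p.2 = x).card ≤ 2) :
    ∃ L : List V, L.Nodup ∧ D.card ≤ 2 * cnt r L + 4 * k := by
  classical
  let full : V → V → Prop := fun u v => (u, v) ∈ D ∧ (v, u) ∈ D
  let half : V → V → Prop := fun u v => ((u, v) ∈ D ∨ (v, u) ∈ D) ∧ ¬ full u v
  have hfs : ∀ x y, full x y → full y x := fun x y h => ⟨h.2, h.1⟩
  have hhs : ∀ x y, half x y → half y x := fun x y h => ⟨h.1.symm, fun h' => h.2 (hfs _ _ h')⟩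
  have hhr : ∀ x y, half x y → r x y := fun x y h =>
    h.1.elim (fun h => hD _ h) fun h => hs _ _ (hD _ h)
  have hdeg : ∀ x, 2 * dg full x univ + dg half x univ =
      (D.filter fun p => p.1 = x).card + (D.filter fun p => p.2 = x).card := by
    intro x
    have e1 : (D.filter fun p => p.1 = x).card = ∑ y, if (x, y) ∈ D then 1 else 0 := by
      rw [← card_filter]
      refine card_bij (fun p _ => p.2) (fun p hp => ?_) (fun p hp q hq h => ?_) fun y hy => ?_
      · rw [mem_filter] at hp
        simp [← hp.2, hp.1]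
      · exact Prod.ext ((mem_filter.1 hp).2.trans (mem_filter.1 hq).2.symm) h
      · exact ⟨(x, y), by simpa using hy, rfl⟩
    have e2 : (D.filter fun p => p.2 = x).card = ∑ y, if (y, x) ∈ D then 1 else 0 := by
      rw [← card_filter]
      refine card_bij (fun p _ => p.1) (fun p hp => ?_) (fun p hp q hq h => ?_) fun y hy => ?_
      · rw [mem_filter] at hp
        simp [← hp.2, hp.1]
      · exact Prod.ext h ((mem_filter.1 hp).2.trans (mem_filter.1 hq).2.symm)
      · exact ⟨(y, x), by simpa using hy, rfl⟩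
    rw [e1, e2]
    unfold dg
    simp only [card_filter, mul_sum, ← sum_add_distrib]
    refine sum_congr rfl fun y _ => ?_
    by_cases a : (x, y) ∈ D <;> by_cases b : (y, x) ∈ D <;> simp [full, half, a, b]
  have hsum : 2 * arcs full univ univ + arcs half univ univ = 2 * D.card := by
    rw [arcs_eq_sum, arcs_eq_sum, mul_sum, ← sum_add_distrib, sum_congr rfl fun x _ => hdeg x,
      sum_add_distrib, ← card_eq_sum_card_fiberwise (f := Prod.fst) (by simp),
      ← card_eq_sum_card_fiberwise (f := Prod.snd) (by simp)]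
    ring
  have hslot : ∀ x, ∃ c : V → Fin 2, (∀ i, ((univ.filter (half x)).filter fun y => c y = i).card
      ≤ 2) ∧ (dg half x univ ≤ 2 → ∀ y, c y = 0) := by
    intro x
    have := hdeg x
    have := h1 x
    have := h2 x
    have h3 : (univ.filter (half x)).card = dg half x univ := by unfold dg; congr
    obtain ⟨c, hc1, hc2⟩ := exists_slot (univ.filter (half x)) (by omega)
    exact ⟨c, hc1, fun h => hc2 (by omega)⟩
  choose c hc1 hc2 using hslot
  let r2 : V × Fin 2 → V × Fin 2 → Prop := fun a b =>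
    half a.1 b.1 ∧ c a.1 b.1 = a.2 ∧ c b.1 a.1 = b.2
  have hr2s : ∀ a b, r2 a b → r2 b a := fun a b h => ⟨hhs _ _ h.1, h.2.2, h.2.1⟩
  have hinj : ∀ p q : (V × Fin 2) × (V × Fin 2), r2 p.1 p.2 → r2 q.1 q.2 → p.1.1 = q.1.1 →
      p.2.1 = q.2.1 → p = q := by
    intro p q hp hq e1 e2
    refine Prod.ext (Prod.ext e1 ?_) (Prod.ext e2 ?_)
    · rw [← hp.2.1, ← hq.2.1, e1, e2]
    · rw [← hp.2.2, ← hq.2.2, e1, e2]
  obtain ⟨L2, hL1, -, hL3⟩ := path_cover hr2s l0 univ
    (fun a _ => by
      refine le_trans ?_ (hc1 a.1 a.2)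
      unfold dg
      refine card_le_card_of_injOn Prod.fst (fun b hb => ?_) fun b hb b' hb' hbb => ?_
      · simp only [coe_filter, mem_univ, true_and, Set.mem_ofPred_eq, mem_filter] at hb ⊢
        exact ⟨hb.1, hb.2.1⟩
      · simp only [coe_filter, mem_univ, true_and, Set.mem_ofPred_eq] at hb hb'
        exact (Prod.ext_iff.1 (hinj (a, b) (a, b') hb hb' rfl hbb)).2)
    (fun U _ hU hUc => by
      have e1 : (U.image Prod.fst).card ≤ U.card := card_image_le
      have e2 := hc (U.image Prod.fst) (hU.image _) (e1.trans hUc)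
      have e3 : arcs r2 U U ≤ arcs r (U.image Prod.fst) (U.image Prod.fst) := by
        unfold arcs
        refine card_le_card_of_injOn (fun p => (p.1.1, p.2.1)) (fun p hp => ?_)
          fun p hp q hq hpq => ?_
        · simp only [coe_filter, mem_product, Set.mem_ofPred_eq] at hp ⊢
          exact ⟨⟨mem_image_of_mem _ hp.1.1, mem_image_of_mem _ hp.1.2⟩, hhr _ _ hp.2.1⟩
        · simp only [coe_filter, mem_product, Set.mem_ofPred_eq, Prod.mk.injEq] at hp hq hpq
          exact hinj p q hp.2 hq.2 hpq.1 hpq.2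
      omega)
  have hh2 : arcs half univ univ ≤ arcs r2 univ univ := by
    unfold arcs
    refine card_le_card_of_injOn (fun p => ((p.1, c p.1 p.2), (p.2, c p.2 p.1))) (fun p hp => ?_)
      fun p _ q _ hpq => ?_
    · simp only [coe_filter, mem_product, mem_univ, true_and, Set.mem_ofPred_eq] at hp ⊢
      exact ⟨hp, rfl, rfl⟩
    · simp only [Prod.mk.injEq] at hpq
      exact Prod.ext hpq.1.1 hpq.2.1
  have hL4 : arcs r2 univ univ ≤ 2 * cnt r2 L2 + 4 * k := by
    simp only [card_univ, Fintype.card_prod, Fintype.card_fin] at hL3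
    refine Nat.le_of_mul_le_mul_right (c := l0) ?_ hl
    nlinarith
  obtain ⟨M, hM1, hM2, hM3⟩ := exists_matching hr2s L2 hL1
  let rF : V → V → Prop := fun u v => full u v ∨ ∃ p ∈ M, p.1.1 = u ∧ p.2.1 = v
  have hFs : ∀ x y, rF x y → rF y x := by
    rintro x y (h | ⟨p, hp, e1, e2⟩)
    · exact Or.inl (hfs _ _ h)
    · exact Or.inr ⟨_, (hM1 p hp).2.2, e2, e1⟩
  have hFr : ∀ x y, rF x y → r x y := by
    rintro x y (h | ⟨p, hp, rfl, rfl⟩)
    · exact hD _ h.1
    · exact hhr _ _ (hM1 p hp).1.1
  obtain ⟨L, hL5, -, hL6⟩ := path_cover hFs l0 univ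
    (fun x _ => by
      let Mx := M.filter fun p => p.1.1 = x
      have e1 : dg rF x univ ≤ dg full x univ + Mx.card := by
        unfold dg
        refine le_trans (card_le_card (t := univ.filter (full x) ∪ Mx.image fun p => p.2.1)
          fun y hy => ?_) ((card_union_le _ _).trans (add_le_add (by convert le_rfl) card_image_le))
        simp only [mem_filter, mem_univ, true_and] at hy
        rcases hy with h | ⟨p, hp, e1, e2⟩
        · exact mem_union_left _ (by simpa using h)
        · exact mem_union_right _ (mem_image.2 ⟨p, mem_filter.2 ⟨hp, e1⟩, e2⟩)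
      have hi : Set.InjOn (fun p : (V × Fin 2) × (V × Fin 2) => p.1.2) Mx := by
        intro p hp q hq hpq
        simp only [Mx, coe_filter, Set.mem_ofPred_eq] at hp hq
        exact hM2 p hp.1 q hq.1 (Prod.ext (hp.2.trans hq.2.symm) hpq)
      have e2 : Mx.card ≤ 2 :=
        (card_le_card_of_injOn (t := univ) _ (by simp) hi).trans (by simp)
      have e3 : dg half x univ ≤ 2 → Mx.card ≤ 1 := by
        intro h
        refine (card_le_card_of_injOn (t := {0}) _ (fun p hp => ?_) hi).trans (by simp)
        simp only [Mx, coe_filter, Set.mem_ofPred_eq] at hp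
        simp only [coe_singleton, Set.mem_singleton_iff]
        rw [← (hM1 p hp.1).1.2.1, hp.2]
        exact hc2 x h _
      have e4 : dg half x univ = 0 → Mx.card = 0 := by
        intro h
        rw [card_eq_zero, eq_empty_iff_forall_notMem]
        intro p hp
        rw [mem_filter] at hp
        unfold dg at h
        simp only [card_eq_zero, filter_eq_empty_iff, mem_univ, true_imp_iff] at h
        exact h (x := p.2.1) (hp.2 ▸ (hM1 p hp.1).1.1)
      have := hdeg x
      have := h1 x
      have := h2 x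
      omega)
    (fun U _ hU hUc => by
      have := hc U hU hUc
      have : arcs rF U U ≤ arcs r U U := arcs_mono subset_rfl subset_rfl fun x _ y _ => hFr x y
      omega)
  have hL7 : arcs rF univ univ ≤ 2 * cnt rF L + 2 * k := by
    rw [card_univ] at hL6
    refine Nat.le_of_mul_le_mul_right (c := l0) ?_ hl
    nlinarith
  have hF : arcs full univ univ + M.card ≤ arcs rF univ univ := by
    have e1 : (M.image fun p => (p.1.1, p.2.1)).card = M.card := by
      refine card_image_of_injOn fun p hp q hq hpq => ?_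
      simp only [Prod.mk.injEq] at hpq
      exact hinj p q (hM1 p hp).1 (hM1 q hq).1 hpq.1 hpq.2
    unfold arcs
    rw [← e1, ← card_union_of_disjoint]
    · refine card_le_card fun p hp => ?_
      simp only [mem_union, mem_filter, mem_product, mem_univ, true_and, mem_image] at hp ⊢
      rcases hp with hp | ⟨q, hq, rfl⟩
      · exact Or.inl hp
      · exact Or.inr ⟨q, hq, rfl, rfl⟩
    · rw [disjoint_left]
      intro p hp hp'
      obtain ⟨q, hq, rfl⟩ := mem_image.1 hp'
      simp only [mem_filter] at hp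
      exact (hM1 q hq).1.1.2 hp.2
  have hc' : cnt rF L ≤ cnt r L := cnt_mono fun x _ y _ => hFr x y
  exact ⟨L, hL5, by omega⟩

/-- the deterministic core -/
theorem core {h g : V → V → Prop} (hs : ∀ x y, r x y → r y x) (hgs : ∀ x y, g x y → g y x)
    (hgr : ∀ x y, g x y → r x y) (l0 k d : ℕ) (hl : 0 < l0)
    (hk : Fintype.card V ≤ l0 * k)
    (hE : ∀ T S : Finset V, k * k ≤ arcs h T S → 2 * Fintype.card V ≤ arcs r T S)
    (Sv : V → Finset V) (hS1 : ∀ v, ∀ y ∈ Sv v, h v y) (hS2 : ∀ v, (Sv v).card = d)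
    (bad : Finset V) (hbad : bad.card ≤ k)
    (hgood : ∀ v ∉ bad, ∃ L : List V, L.Nodup ∧ (∀ x, x ∈ L ↔ x ∉ Sv v) ∧
      Fintype.card V ≤ cnt g L + 2 * d + k)
    (Z : Finset V) (hZ : Z.card ≤ k)
    (hc : ∀ U : Finset V, U.Nonempty → U.card ≤ l0 → Disjoint U Z →
      arcs r U U + 2 ≤ 2 * U.card) :
    ∃ L : List V, L.Nodup ∧ Fintype.card V ≤ cnt r L + 7 * k := by
  classical
  have hdisj : ∀ T S : Finset V, Disjoint T S →
      2 * T.card ≤ 6 * k + arcs r T Sᶜ + 2 * S.card := by
    intro T S hTS
    by_cases c1 : T.card ≤ 2 * k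
    · omega
    by_cases c2 : k * k ≤ arcs h T Sᶜ
    · have := hE T Sᶜ c2
      have := card_le_univ T
      omega
    have c3 : ∃ v ∈ T \ bad, dg h v Sᶜ < k := by
      by_contra hcon
      push Not at hcon
      have e1 : (T \ bad).card * k ≤ arcs h (T \ bad) Sᶜ := by
        rw [arcs_eq_sum, ← smul_eq_mul]
        exact card_nsmul_le_sum _ _ _ hcon
      have e2 : arcs h (T \ bad) Sᶜ ≤ arcs h T Sᶜ :=
        arcs_mono sdiff_subset subset_rfl fun _ _ _ _ h => h
      have e3 := le_card_sdiff bad T
      have e4 : k * k ≤ (T \ bad).card * k := Nat.mul_le_mul_right k (by omega)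
      omega
    obtain ⟨v, hv, hvk⟩ := c3
    obtain ⟨L, hL1, hL2, hL3⟩ := hgood v (mem_sdiff.1 hv).2
    have e1 := cut_ineq hgs L hL1 T S
    have e2 : arcs g T Sᶜ ≤ arcs r T Sᶜ := arcs_mono subset_rfl subset_rfl fun x _ y _ => hgr x y
    have hX : L.toFinset = (Sv v)ᶜ := by ext x; simp [hL2]
    have e3 : L.length + d = Fintype.card V := by
      rw [← List.toFinset_card_of_nodup hL1, hX, ← hS2 v, card_compl_add_card]
    have e4 : (Sv v \ S).card ≤ dg h v Sᶜ := by
      unfold dg
      refine card_le_card fun y hy => ?_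
      rw [mem_sdiff] at hy
      simp [hy.2, hS1 v y hy.1]
    have e5 : (Sv v \ S).card + (Sv v ∩ S).card = d := by
      rw [card_sdiff_add_card_inter, hS2]
    have e6 : (S ∩ L.toFinset).card + (Sv v ∩ S).card = S.card := by
      rw [hX, ← sdiff_eq_inter_compl, inter_comm, card_sdiff_add_card_inter]
    have e7 : T.card ≤ (T ∩ L.toFinset).card + (Sv v \ S).card := by
      refine le_trans (card_le_card fun x hx => ?_) (card_union_le _ _)
      by_cases hx' : x ∈ Sv v
      · exact mem_union_right _ (mem_sdiff.2 ⟨hx', disjoint_left.1 hTS hx⟩)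
      · exact mem_union_left _ (mem_inter.2 ⟨hx, by simp [hX, hx']⟩)
    omega
  obtain ⟨D, hD1, hD2, hD3, hD4⟩ := exists_digraph (r := r) (6 * k) (by
    intro X Y
    have e1 := hdisj (X ∩ Yᶜ) (X ∪ Yᶜ)ᶜ (by
      rw [disjoint_left]
      intro x hx hx'
      exact mem_compl.1 hx' (mem_union_left _ (mem_inter.1 hx).1))
    rw [compl_compl] at e1
    have e2 := arcs_uncross hs X Yᶜ
    have e3 := card_union_add_card_inter X Yᶜ
    have e4 := card_compl_add_card (X ∪ Yᶜ)
    have e5 := card_compl_add_card Y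
    omega)
  let r0 : V → V → Prop := fun x y => r x y ∧ x ∉ Z ∧ y ∉ Z
  let D0 := D.filter fun p => p.1 ∉ Z ∧ p.2 ∉ Z
  obtain ⟨L, hL1, hL2⟩ := rounding (r := r0) (fun x y h => ⟨hs _ _ h.1, h.2.2, h.2.1⟩) l0 k hl hk
    (fun U hU hUc => by
      have e1 : arcs r0 U U ≤ arcs r (U \ Z) (U \ Z) := by
        unfold arcs
        refine card_le_card fun p hp => ?_
        simp only [mem_filter, mem_product, mem_sdiff] at hp ⊢
        exact ⟨⟨⟨hp.1.1, hp.2.2.1⟩, hp.1.2, hp.2.2.2⟩, hp.2.1⟩
      have e2 : (U \ Z).card ≤ U.card := card_le_card sdiff_subset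
      rcases (U \ Z).eq_empty_or_nonempty with h0 | h0
      · rw [h0] at e1
        have : arcs r (∅ : Finset V) ∅ = 0 := by simp [arcs]
        have := card_pos.2 hU
        omega
      · have := hc (U \ Z) h0 (e2.trans hUc) sdiff_disjoint
        omega)
    D0 (fun p hp => ⟨hD1 p (mem_filter.1 hp).1, (mem_filter.1 hp).2⟩)
    (fun x => (card_le_card (filter_subset_filter _ (filter_subset _ _))).trans (hD2 x))
    (fun x => (card_le_card (filter_subset_filter _ (filter_subset _ _))).trans (hD3 x))
  have e1 : D.card ≤ D0.card + (D.filter fun p => p.1 ∈ Z).card +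
      (D.filter fun p => p.2 ∈ Z).card := by
    refine le_trans (card_le_card fun p hp => ?_)
      ((card_union_le _ _).trans (Nat.add_le_add_right (card_union_le _ _) _))
    simp only [D0, mem_union, mem_filter]
    by_cases a : p.1 ∈ Z <;> by_cases b : p.2 ∈ Z <;> simp [a, b, hp]
  have e2 : (D.filter fun p => p.1 ∈ Z).card ≤ 2 * Z.card :=
    card_le_fibers _ Prod.fst _ 2 (fun p hp => (mem_filter.1 hp).2) fun x _ =>
      (card_le_card (filter_subset_filter _ (filter_subset _ _))).trans (hD2 x)
  have e3 : (D.filter fun p => p.2 ∈ Z).card ≤ 2 * Z.card :=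
    card_le_fibers _ Prod.snd _ 2 (fun p hp => (mem_filter.1 hp).2) fun x _ =>
      (card_le_card (filter_subset_filter _ (filter_subset _ _))).trans (hD3 x)
  have e4 : cnt r0 L ≤ cnt r L := cnt_mono fun x _ y _ h => h.1
  exact ⟨L, hL1, by omega⟩

end Pool.Agent.H351Z.RG
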