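import Pool.Agent.H351Z.RPath

/-! Largest linear forests, Hamilton cycles and boosters. -/

set_option autoImplicit false
set_option linter.unusedSectionVars false

namespace Pool.Agent.H351Z.RG

open Finset

variable {V : Type*} [DecidableEq V] {r r' : V → V → Prop}

def LF (r : V → V → Prop) (W : Finset V) (k : ℕ) : Prop :=
  ∃ L : List V, L.Nodup ∧ (∀ x ∈ L, x ∈ W) ∧ k ≤ cnt r L

open Classical in
noncomputable def ell (r : V → V → Prop) (W : Finset V) : ℕ := Nat.findGreatest (LF r W) W.card

theorem length_le_card {L : List V} {W : Finset V} (h1 : L.Nodup) (h2 : ∀ x ∈ L, x ∈ W) :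
    L.length ≤ W.card := by
  rw [← List.toFinset_card_of_nodup h1]
  exact card_le_card fun x hx => h2 x (List.mem_toFinset.1 hx)

theorem LF_ell (r : V → V → Prop) (W : Finset V) : LF r W (ell r W) := by
  classical
  exact Nat.findGreatest_spec (P := LF r W) (Nat.zero_le _) ⟨[], by simp, by simp, by simp⟩

theorem LF_iff {W : Finset V} {k : ℕ} : LF r W k ↔ k ≤ ell r W := by
  classical
  constructor
  · intro h
    obtain ⟨L, h1, h2, h3⟩ := id h
    exact Nat.le_findGreatest (h3.trans ((cnt_le_length L).trans (length_le_card h1 h2))) h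
  · intro h
    obtain ⟨L, h1, h2, h3⟩ := LF_ell r W
    exact ⟨L, h1, h2, h.trans h3⟩

theorem cnt_le_ell {W : Finset V} {L : List V} (h1 : L.Nodup) (h2 : ∀ x ∈ L, x ∈ W) :
    cnt r L ≤ ell r W := LF_iff.1 ⟨L, h1, h2, le_rfl⟩

theorem LF.spanning {W : Finset V} {k : ℕ} (h : LF r W k) :
    ∃ L : List V, L.Nodup ∧ (∀ x, x ∈ L ↔ x ∈ W) ∧ k ≤ cnt r L := by
  obtain ⟨L, h1, h2, h3⟩ := h
  refine ⟨L ++ (W \ L.toFinset).toList, List.nodup_append.2 ⟨h1, nodup_toList _, ?_⟩, fun x => ?_,
    h3.trans (le_trans (Nat.le_add_right _ _) (cnt_append_ge _ _))⟩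
  · rintro a ha b hb rfl
    simp [ha] at hb
  · simp only [List.mem_append, mem_toList, mem_sdiff, List.mem_toFinset]
    constructor
    · rintro (h | h)
      · exact h2 x h
      · exact h.1
    · intro h
      by_cases hx : x ∈ L
      · exact Or.inl hx
      · exact Or.inr ⟨h, hx⟩

theorem ell_mono {W : Finset V} (h : ∀ x ∈ W, ∀ y ∈ W, r x y → r' x y) : ell r W ≤ ell r' W := by
  obtain ⟨L, h1, h2, h3⟩ := LF_ell r W
  exact h3.trans ((cnt_mono fun x hx y hy => h x (h2 x hx) y (h2 y hy)).trans (cnt_le_ell h1 h2))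

theorem ell_edge {W : Finset V} (e : Sym2 V) (h : ∀ x y, r' x y → r x y ∨ s(x, y) = e) :
    ell r' W ≤ ell r W + 1 := by
  obtain ⟨L, h1, h2, h3⟩ := LF_ell r' W
  exact h3.trans ((cnt_edge h1 e h).trans (Nat.add_le_add_right (cnt_le_ell h1 h2) 1))

theorem ell_lt {W : Finset V} (hW : W.Nonempty) : ell r W < W.card := by
  obtain ⟨L, h1, h2, h3⟩ := LF_ell r W
  have := card_pos.2 hW
  cases L with
  | nil => simp at h3; omega
  | cons a t =>
    have h4 := cnt_lt (r := r) a t
    have h5 := length_le_card h1 h2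
    simp only [List.length_cons] at h5
    omega

variable [Fintype V]

theorem length_eq_card {L : List V} (h1 : L.Nodup) (h2 : ∀ x, x ∈ L) :
    L.length = Fintype.card V := by
  rw [← List.toFinset_card_of_nodup h1, ← card_univ]
  congr 1
  ext x
  simp [h2]

theorem ham_of_list (G : SimpleGraph V) (hn : 3 ≤ Fintype.card V) {L : List V} (h1 : L.Nodup)
    (h2 : ∀ x, x ∈ L) (h3 : L.IsChain G.Adj) {a b : V} (ha : L.head? = some a)
    (hb : L.getLast? = some b) (hab : G.Adj b a) : G.IsHamiltonian := by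
  intro _
  have hne : L ≠ [] := by rintro rfl; simp at ha
  have e1 : L.head hne = a := by
    rw [List.head?_eq_some_head hne] at ha; exact Option.some.inj ha
  have e2 : L.getLast hne = b := by
    rw [List.getLast?_eq_some_getLast hne] at hb; exact Option.some.inj hb
  subst e1 e2
  have hl := length_eq_card h1 h2
  refine ⟨_, SimpleGraph.Walk.cons hab (SimpleGraph.Walk.ofSupport L hne h3), ?_⟩
  rw [SimpleGraph.Walk.isHamiltonianCycle_iff_isCycle_and_length_eq,
    SimpleGraph.Walk.isCycle_iff_isPath_tail_and_le_length]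
  simp only [SimpleGraph.Walk.length_cons, SimpleGraph.Walk.length_ofSupport]
  refine ⟨⟨?_, by omega⟩, by omega⟩
  simp only [SimpleGraph.Walk.getVert_cons_succ, SimpleGraph.Walk.tail_cons,
    SimpleGraph.Walk.isPath_copy]
  rw [SimpleGraph.Walk.isPath_def, SimpleGraph.Walk.support_ofSupport]
  exact h1

theorem list_of_ham {G : SimpleGraph V} (hn : 2 ≤ Fintype.card V) (h : G.IsHamiltonian) (v : V) :
    ∃ t : List V, t.Nodup ∧ (∀ x, x ∈ t) ∧ (v :: t).IsChain G.Adj ∧
      (v :: t).getLast (by simp) = v := by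
  have : Nontrivial V := Fintype.one_lt_card_iff_nontrivial.1 hn
  obtain ⟨p, hp⟩ := h.exists_isHamiltonianCycle v
  rw [SimpleGraph.Walk.isHamiltonianCycle_iff_isCycle_and_support_count_tail_eq_one] at hp
  refine ⟨p.support.tail, hp.1.support_nodup, fun x => ?_, ?_, ?_⟩
  · exact List.count_pos_iff.1 (by rw [hp.2 x]; norm_num)
  · rw [p.cons_tail_support]
    exact p.isChain_adj_support
  · have := p.getLast_support
    convert this using 1
    congr 1
    exact p.cons_tail_support

open Classical in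
/-- potential: the number of vertices if Hamiltonian, else the size of a largest linear forest -/
noncomputable def pot (G : SimpleGraph V) : ℕ :=
  if G.IsHamiltonian then Fintype.card V else ell G.Adj univ

theorem ell_le_pot (G : SimpleGraph V) : ell G.Adj univ ≤ pot G := by
  unfold pot
  split_ifs
  · obtain ⟨L, h1, h2, h3⟩ := LF_ell G.Adj univ
    exact h3.trans ((cnt_le_length L).trans (length_le_card h1 h2))
  · exact le_rfl

theorem pot_mono {G G' : SimpleGraph V} (h : G ≤ G') : pot G ≤ pot G' := by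
  by_cases hG : G.IsHamiltonian
  · simp [pot, hG, hG.mono h]
  · refine le_trans ?_ (ell_le_pot G')
    simp only [pot, hG, if_false]
    exact ell_mono fun _ _ _ _ h' => h h'

theorem pot_lt_iff {G : SimpleGraph V} (hn : 1 ≤ Fintype.card V) :
    pot G < Fintype.card V ↔ ¬ G.IsHamiltonian := by
  unfold pot
  split_ifs with h
  · simp [h]
  · simp only [h, not_false_iff, iff_true]
    rw [← card_univ]
    exact ell_lt (card_pos.1 hn)

def Opt (G : SimpleGraph V) (a b : V) : Prop :=
  ∃ L : List V, L.Nodup ∧ (∀ x, x ∈ L) ∧ ell G.Adj univ ≤ cnt G.Adj L ∧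
    L.head? = some a ∧ L.getLast? = some b

theorem Opt.symm {G : SimpleGraph V} {a b : V} (h : Opt G a b) : Opt G b a := by
  obtain ⟨L, h1, h2, h3, h4, h5⟩ := h
  exact ⟨L.reverse, List.nodup_reverse.2 h1, by simpa using h2,
    by rwa [cnt_reverse fun _ _ h => h.symm], by simpa using h5, by simpa using h4⟩

theorem exists_opt (G : SimpleGraph V) (hn : 1 ≤ Fintype.card V) : ∃ a b, Opt G a b := by
  obtain ⟨L, h1, h2, h3⟩ := (LF_ell G.Adj univ).spanning
  have h4 : ∀ x, x ∈ L := by simpa using h2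
  have hne : L ≠ [] := by
    rintro rfl
    have := length_eq_card h1 h4
    simp at this
    omega
  exact ⟨_, _, L, h1, h4, h3, List.head?_eq_some_head hne, List.getLast?_eq_some_getLast hne⟩

theorem Opt.ne {G : SimpleGraph V} (hn : 2 ≤ Fintype.card V) {a b : V} (h : Opt G a b) : a ≠ b := by
  obtain ⟨L, h1, h2, -, h4, h5⟩ := h
  have hl := length_eq_card h1 h2
  rintro rfl
  match L, h1, h4, h5, hl with
  | [], _, h4, _, _ => simp at h4
  | [x], _, _, _, hl => simp at hl; omega
  | x :: y :: t, h1, h4, h5, _ =>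
    simp only [List.head?_cons, Option.some.injEq] at h4
    subst h4
    rw [List.getLast?_cons_cons] at h5
    exact (List.nodup_cons.1 h1).1 (List.mem_of_getLast? h5)

theorem cnt_concat_le (hs : ∀ x y, r x y → r y x) (l : List V) (y : V) :
    cnt r (l ++ [y]) ≤ cnt r l + 1 := by
  rw [← cnt_reverse hs, ← cnt_reverse hs l, List.reverse_append]
  exact cnt_cons_le _ _

open Classical in
theorem Opt.rotate {G : SimpleGraph V} {a b : V} (h : Opt G a b) :
    dg G.Adj a univ ≤ (univ.filter fun x => Opt G x b).card := by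
  obtain ⟨L, h1, h2, h3, h4, h5⟩ := h
  have hs : ∀ x y, G.Adj x y → G.Adj y x := fun _ _ h => h.symm
  have key : ∀ y, G.Adj a y → ∃ x, Opt G x b ∧ ∃ l₁ l₂, L = l₁ ++ x :: y :: l₂ := by
    intro y hy
    obtain ⟨l₁, l₂, rfl⟩ := List.append_of_mem (h2 y)
    cases l₁ with
    | nil =>
      simp only [List.nil_append, List.head?_cons, Option.some.injEq] at h4
      exact absurd h4.symm hy.ne
    | cons a' l₁ =>
      simp only [List.cons_append, List.head?_cons, Option.some.injEq] at h4
      subst h4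
      have hperm : ((a' :: l₁).reverse ++ y :: l₂).Perm (a' :: l₁ ++ y :: l₂) :=
        (List.reverse_perm _).append_right _
      obtain ⟨l', x, hx⟩ : ∃ l' x, a' :: l₁ = l' ++ [x] :=
        ((a' :: l₁).eq_nil_or_concat').resolve_left (by simp)
      refine ⟨x, ⟨(a' :: l₁).reverse ++ y :: l₂, hperm.nodup_iff.2 h1,
        fun z => hperm.mem_iff.2 (h2 z), h3.trans ?_, by rw [hx]; simp, ?_⟩, l', l₂, ?_⟩
      · rw [cnt_split, cnt_split (a' :: l₁).reverse, ← List.reverse_cons, cnt_reverse hs,
          cnt_pos hy.symm]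
        have := cnt_concat_le hs (a' :: l₁) y
        omega
      · rw [List.getLast?_append_cons] at h5 ⊢
        exact h5
      · rw [hx]; simp
  choose! φ hφ1 hφ2 using key
  unfold dg
  refine card_le_card_of_injOn φ (fun y hy => ?_) fun y hy y' hy' hyy => ?_
  · simp only [coe_filter, mem_univ, true_and, Set.mem_ofPred_eq] at hy ⊢
    exact hφ1 y hy
  · simp only [coe_filter, mem_univ, true_and, Set.mem_ofPred_eq] at hy hy'
    obtain ⟨l₁, l₂, e1⟩ := hφ2 y hy
    obtain ⟨l₁', l₂', e2⟩ := hφ2 y' hy'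
    rw [← hyy, e1] at e2
    rw [e1] at h1
    have h6 := List.nodup_append.1 h1
    have h7 := (List.append_cons_inj_of_notMem (fun h => h6.2.2 _ h _ (by simp) rfl)
      (List.nodup_cons.1 h6.2.1).1).1 e2
    exact (List.cons.inj h7.2.2).1

theorem Opt.boost {G G' : SimpleGraph V} (hn : 3 ≤ Fintype.card V) {a b : V} (h : Opt G a b)
    (hG : ¬ G.IsHamiltonian) (hle : G ≤ G') (hab : G'.Adj b a) : pot G < pot G' := by
  obtain ⟨L, h1, h2, h3, h4, h5⟩ := h
  by_cases hc : L.IsChain G.Adj
  · have := ham_of_list G' hn h1 h2 (hc.imp fun _ _ h => hle h) h4 h5 hab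
    have h6 := (pot_lt_iff (by omega)).2 hG
    simpa [pot, this] using h6
  · obtain ⟨l₁, x, y, l₂, rfl, hxy⟩ := exists_gap hc
    have hperm : ((y :: l₂) ++ (l₁ ++ [x])).Perm (l₁ ++ x :: y :: l₂) := by
      have : l₁ ++ x :: y :: l₂ = (l₁ ++ [x]) ++ (y :: l₂) := by simp
      rw [this]
      exact List.perm_append_comm
    have h6 := cnt_le_ell (r := G'.Adj) (W := univ) (hperm.nodup_iff.2 h1) (by simp)
    refine lt_of_lt_of_le ?_ (h6.trans (ell_le_pot G'))
    simp only [pot, hG, if_false]
    refine lt_of_le_of_lt h3 ?_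
    obtain ⟨t, ht⟩ : ∃ t, l₁ ++ [x] = a :: t := by
      cases l₁ with
      | nil => simp at h4; exact ⟨[], by simp [h4]⟩
      | cons c l₁ => simp at h4; exact ⟨l₁ ++ [x], by simp [h4]⟩
    obtain ⟨t', ht'⟩ : ∃ t', y :: l₂ = t' ++ [b] := by
      rw [List.getLast?_append_cons, List.getLast?_cons_cons] at h5
      exact List.getLast?_eq_some_iff.1 h5
    have e1 : cnt G.Adj (l₁ ++ [x]) ≤ cnt G'.Adj (l₁ ++ [x]) := cnt_mono fun _ _ _ _ h => hle h
    have e2 : cnt G.Adj (y :: l₂) ≤ cnt G'.Adj (y :: l₂) := cnt_mono fun _ _ _ _ h => hle h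
    rw [cnt_split, cnt_neg hxy]
    rw [ht] at e1 ⊢
    rw [ht'] at e2 ⊢
    rw [List.append_assoc, List.singleton_append, cnt_split t' b (a :: t), cnt_pos hab]
    omega

theorem boosters {G : SimpleGraph V} (hn : 3 ≤ Fintype.card V) {d : ℕ}
    (hd : ∀ v, d ≤ dg G.Adj v univ) (hG : ¬ G.IsHamiltonian) :
    ∃ t : Finset (Sym2 V), d * d ≤ 2 * t.card ∧ ∀ e ∈ t, ¬ e.IsDiag ∧
      ∀ G', G ≤ G' → e ∈ G'.edgeSet → pot G < pot G' := by
  classical
  let P : Finset (V × V) := univ.filter fun p => Opt G p.1 p.2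
  obtain ⟨a, b, hab⟩ := exists_opt G (by omega)
  have h1 : d * d ≤ P.card := by
    have e1 : (univ.filter fun x => Opt G x b).card * d ≤ ∑ x ∈ univ.filter fun x => Opt G x b,
        (P.filter fun p => p.2 = x).card := by
      rw [← smul_eq_mul]
      refine card_nsmul_le_sum _ _ _ fun x hx => ?_
      refine ((hd b).trans (mem_filter.1 hx).2.symm.rotate).trans ?_
      refine card_le_card_of_injOn (fun z => (z, x)) (fun z hz => ?_) fun z _ z' _ h => ?_
      · simpa [P] using hz
      · exact (Prod.mk.inj h).1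
    have e2 := (hd a).trans hab.rotate
    have e3 : ∑ x ∈ univ.filter fun x => Opt G x b, (P.filter fun p => p.2 = x).card ≤ P.card := by
      rw [card_eq_sum_card_fiberwise (s := P) (f := Prod.snd) (t := univ) (by simp)]
      exact sum_le_sum_of_subset (filter_subset _ _)
    calc d * d ≤ (univ.filter fun x => Opt G x b).card * d := Nat.mul_le_mul_right _ (by convert e2)
      _ ≤ _ := e1.trans e3
  refine ⟨P.image fun p => s(p.1, p.2), h1.trans ?_, fun e he => ?_⟩
  · refine card_le_fibers P (fun p => s(p.1, p.2)) _ 2 (fun p hp => mem_image_of_mem _ hp)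
      fun e he => ?_
    obtain ⟨p, -, rfl⟩ := mem_image.1 he
    refine le_trans (card_le_card (t := {p, p.swap}) fun q hq => ?_) card_le_two
    have := (mem_filter.1 hq).2
    simp only [Sym2.eq_iff] at this
    simp only [mem_insert, mem_singleton, Prod.ext_iff, Prod.fst_swap, Prod.snd_swap]
    exact this
  · obtain ⟨p, hp, rfl⟩ := mem_image.1 he
    have hp' : Opt G p.1 p.2 := (mem_filter.1 hp).2
    exact ⟨by simpa using hp'.ne (by omega), fun G' hle he' =>
      hp'.boost hn hG hle ((SimpleGraph.mem_edgeSet G').1 he').symm⟩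

/-- a Hamilton cycle in which every edge outside `g` meets `A` yields a linear forest off `A` -/
theorem LF_of_ham {G : SimpleGraph V} {g : V → V → Prop} (hn : 2 ≤ Fintype.card V) (A : Finset V)
    (hA : A.Nonempty) (h : ∀ x y, G.Adj x y → x ∈ A ∨ y ∈ A ∨ g x y) (hG : G.IsHamiltonian) :
    LF g Aᶜ (Fintype.card V - 2 * A.card) := by
  classical
  obtain ⟨v, hv⟩ := hA
  obtain ⟨t, h1, h2, h3, h4⟩ := list_of_ham hn hG v
  have e1 := cnt_filter (fun x => x ∈ A) h v t
  rw [h4, if_pos hv, cnt_of_chain h3, length_eq_card h1 h2,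
    List.filter_cons_of_neg (by simp [hv]), List.countP_cons_of_pos (by simp [hv])] at e1
  have e2 : (t.countP fun x => decide (x ∈ A)) ≤ A.card := by
    rw [List.countP_eq_length_filter]
    exact length_le_card (h1.filter _) fun x hx => by simpa using (List.mem_filter.1 hx).2
  refine ⟨_, h1.filter (fun x => ¬ x ∈ A), fun x hx => by simpa using (List.mem_filter.1 hx).2, ?_⟩
  have e3 : (t.countP fun x => @decide (x ∈ A) (Classical.propDecidable _)) =
      t.countP fun x => decide (x ∈ A) := by congr; funext x; congr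
  have e4 : (t.filter fun x => @decide (¬ x ∈ A) (@instDecidableNot _ (Classical.propDecidable _))) =
      t.filter fun x => decide (¬ x ∈ A) := by congr; funext x; congr
  rw [e3, e4] at e1
  omega

end Pool.Agent.H351Z.RG
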