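import Mathlib

/-! Counting adjacent consecutive pairs in lists; graphs of maximum degree two. -/

set_option autoImplicit false
set_option linter.unusedSectionVars false

namespace Pool.Agent.H351Z.RG

open Finset

variable {V : Type*}

open Classical in
/-- number of consecutive related pairs of a list -/
noncomputable def cnt (r : V → V → Prop) : List V → ℕ
  | a :: b :: t => (if r a b then 1 else 0) + cnt r (b :: t)
  | _ => 0

variable {r r' : V → V → Prop}

@[simp] theorem cnt_nil : cnt r [] = 0 := by simp [cnt]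

@[simp] theorem cnt_single (a : V) : cnt r [a] = 0 := by simp [cnt]

open Classical in
theorem cnt_cons_cons (a b : V) (t : List V) :
    cnt r (a :: b :: t) = (if r a b then 1 else 0) + cnt r (b :: t) := by simp [cnt]

theorem cnt_pos {a b : V} (h : r a b) (t : List V) :
    cnt r (a :: b :: t) = 1 + cnt r (b :: t) := by rw [cnt_cons_cons, if_pos h]

theorem cnt_neg {a b : V} (h : ¬ r a b) (t : List V) :
    cnt r (a :: b :: t) = cnt r (b :: t) := by rw [cnt_cons_cons, if_neg h, zero_add]

theorem cnt_cons_ge (a : V) (l : List V) : cnt r l ≤ cnt r (a :: l) := by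
  cases l with
  | nil => simp
  | cons b t => rw [cnt_cons_cons]; omega

theorem cnt_cons_le (a : V) (l : List V) : cnt r (a :: l) ≤ cnt r l + 1 := by
  cases l with
  | nil => simp
  | cons b t => rw [cnt_cons_cons]; split_ifs <;> omega

theorem cnt_split (l₁ : List V) (c : V) (l₂ : List V) :
    cnt r (l₁ ++ c :: l₂) = cnt r (l₁ ++ [c]) + cnt r (c :: l₂) := by
  induction l₁ with
  | nil => simp
  | cons a t ih =>
    cases t with
    | nil => simp [cnt_cons_cons]
    | cons b t =>
      simp only [List.cons_append, cnt_cons_cons] at ih ⊢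
      omega

theorem cnt_append_ge (l₁ l₂ : List V) : cnt r l₁ + cnt r l₂ ≤ cnt r (l₁ ++ l₂) := by
  induction l₁ with
  | nil => simp
  | cons a t ih =>
    cases t with
    | nil => simpa using cnt_cons_ge a l₂
    | cons b t =>
      simp only [List.cons_append, cnt_cons_cons] at ih ⊢
      omega

theorem cnt_mono {l : List V} (h : ∀ x ∈ l, ∀ y ∈ l, r x y → r' x y) : cnt r l ≤ cnt r' l := by
  induction l with
  | nil => simp
  | cons a t ih =>
    cases t with
    | nil => simp
    | cons b t =>
      have h1 := ih fun x hx y hy => h x (List.mem_cons_of_mem _ hx) y (List.mem_cons_of_mem _ hy)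
      by_cases hab : r a b
      · rw [cnt_pos hab, cnt_pos (h a (by simp) b (by simp) hab)]; omega
      · rw [cnt_neg hab]; exact h1.trans (cnt_cons_ge _ _)

theorem cnt_reverse (hs : ∀ x y, r x y → r y x) (l : List V) : cnt r l.reverse = cnt r l := by
  induction l with
  | nil => simp
  | cons a t ih =>
    cases t with
    | nil => simp
    | cons b t =>
      rw [List.reverse_cons, List.reverse_cons, List.append_assoc, List.singleton_append,
        cnt_split, ← List.reverse_cons, ih, cnt_cons_cons, cnt_cons_cons a b]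
      by_cases hab : r a b
      · rw [if_pos hab, if_pos (hs _ _ hab), cnt_single]; omega
      · rw [if_neg hab, if_neg (fun h => hab (hs _ _ h)), cnt_single]; omega

theorem cnt_lt (a : V) (l : List V) : cnt r (a :: l) ≤ l.length := by
  induction l generalizing a with
  | nil => simp
  | cons b t ih =>
    have := ih b
    have := cnt_cons_le (r := r) a (b :: t)
    simp only [List.length_cons]
    omega

theorem cnt_le_length (l : List V) : cnt r l ≤ l.length := by
  cases l with
  | nil => simp
  | cons a t => exact (cnt_lt a t).trans (by simp)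

theorem cnt_of_chain {a : V} {l : List V} (h : (a :: l).IsChain r) : cnt r (a :: l) = l.length := by
  induction l generalizing a with
  | nil => simp
  | cons b t ih =>
    rw [List.isChain_cons_cons] at h
    rw [cnt_pos h.1, ih h.2, List.length_cons, add_comm]

theorem exists_gap {l : List V} (h : ¬ l.IsChain r) :
    ∃ l₁ b c l₂, l = l₁ ++ b :: c :: l₂ ∧ ¬ r b c := by
  induction l with
  | nil => exact absurd List.isChain_nil h
  | cons a t ih =>
    cases t with
    | nil => exact absurd (List.isChain_singleton a) h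
    | cons b t =>
      by_cases hab : r a b
      · obtain ⟨l₁, x, y, l₂, h1, h2⟩ := ih fun h' => h (List.isChain_cons_cons.2 ⟨hab, h'⟩)
        exact ⟨a :: l₁, x, y, l₂, by rw [h1]; rfl, h2⟩
      · exact ⟨[], a, b, t, rfl, hab⟩

theorem cnt_map {W : Type*} (e : W → V) (l : List W) :
    cnt r (l.map e) = cnt (fun x y => r (e x) (e y)) l := by
  induction l with
  | nil => simp
  | cons a t ih =>
    cases t with
    | nil => simp
    | cons b t =>
      simp only [List.map_cons, cnt_cons_cons] at ih ⊢
      rw [ih]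

theorem cnt_edge {l : List V} (hl : l.Nodup) (e : Sym2 V)
    (h : ∀ x y, r' x y → r x y ∨ s(x, y) = e) : cnt r' l ≤ cnt r l + 1 := by
  induction l with
  | nil => simp
  | cons a t ih =>
    cases t with
    | nil => simp
    | cons b t =>
      have h1 := ih (List.nodup_cons.1 hl).2
      by_cases hab : r' a b
      · rcases h a b hab with h2 | h2
        · rw [cnt_pos hab, cnt_pos h2]; omega
        · have h3 : cnt r' (b :: t) ≤ cnt r (b :: t) := by
            refine cnt_mono fun x hx y hy hxy => (h x y hxy).resolve_right fun h4 => ?_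
            have h5 : a ∈ s(x, y) := by rw [h4, ← h2]; simp
            rcases Sym2.mem_iff.1 h5 with rfl | rfl
            · exact (List.nodup_cons.1 hl).1 hx
            · exact (List.nodup_cons.1 hl).1 hy
          have := cnt_cons_ge (r := r) a (b :: t)
          rw [cnt_pos hab]
          omega
      · have := cnt_cons_ge (r := r) a (b :: t)
        rw [cnt_neg hab]
        omega

open Classical in
theorem cnt_filter (P : V → Prop) (h : ∀ x y, r x y → P x ∨ P y ∨ r' x y) (a : V) (l : List V) :
    cnt r (a :: l) + (if P a then 1 else 0) + (if P ((a :: l).getLast (by simp)) then 1 else 0) ≤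
      cnt r' ((a :: l).filter fun x => ¬ P x) + 2 * (a :: l).countP fun x => P x := by
  induction l generalizing a with
  | nil => by_cases ha : P a <;> simp [ha]
  | cons b t ih =>
    have h1 := ih b
    rw [List.getLast_cons (by simp)]
    have h2 := cnt_cons_le (r := r) a (b :: t)
    by_cases ha : P a
    · rw [List.filter_cons_of_neg (by simp [ha]), List.countP_cons_of_pos (by simp [ha]),
        if_pos ha]
      omega
    · rw [List.filter_cons_of_pos (by simp [ha]), List.countP_cons_of_neg (by simp [ha]),
        if_neg ha]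
      by_cases hb : P b
      · rw [if_pos hb] at h1
        have := cnt_cons_ge (r := r') a ((b :: t).filter fun x => ¬ P x)
        omega
      · rw [if_neg hb] at h1
        rw [List.filter_cons_of_pos (by simp [hb])] at h1 ⊢
        by_cases hab : r a b
        · have h3 : r' a b := ((h a b hab).resolve_left ha).resolve_left hb
          rw [cnt_pos hab, cnt_pos h3]
          omega
        · have := cnt_cons_ge (r := r') a (b :: t.filter fun x => ¬ P x)
          rw [cnt_neg hab]
          omega

open Classical in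
/-- number of related pairs from `X` to `Y` -/
noncomputable def arcs (r : V → V → Prop) (X Y : Finset V) : ℕ :=
  ((X ×ˢ Y).filter fun p => r p.1 p.2).card

open Classical in
/-- number of elements of `Y` related to `x` -/
noncomputable def dg (r : V → V → Prop) (x : V) (Y : Finset V) : ℕ := (Y.filter (r x)).card

theorem arcs_eq_sum (X Y : Finset V) : arcs r X Y = ∑ x ∈ X, dg r x Y := by
  classical
  unfold arcs dg
  simp only [card_filter]
  rw [sum_product]

theorem arcs_comm (hs : ∀ x y, r x y → r y x) (X Y : Finset V) : arcs r X Y = arcs r Y X := by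
  classical
  unfold arcs
  simp only [card_filter]
  rw [sum_product, sum_product, sum_comm]
  refine sum_congr rfl fun x _ => sum_congr rfl fun y _ => ?_
  have : r y x ↔ r x y := ⟨hs _ _, hs _ _⟩
  simp [this]

theorem arcs_mono {X Y X' Y' : Finset V} (hX : X ⊆ X') (hY : Y ⊆ Y')
    (h : ∀ x ∈ X, ∀ y ∈ Y, r x y → r' x y) : arcs r X Y ≤ arcs r' X' Y' := by
  classical
  refine card_le_card fun p hp => ?_
  simp only [mem_filter, mem_product] at hp ⊢
  exact ⟨⟨hX hp.1.1, hY hp.1.2⟩, h _ hp.1.1 _ hp.1.2 hp.2⟩

theorem dg_mono {x : V} {Y Y' : Finset V} (hY : Y ⊆ Y') (h : ∀ y ∈ Y, r x y → r' x y) :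
    dg r x Y ≤ dg r' x Y' := by
  classical
  refine card_le_card fun p hp => ?_
  simp only [mem_filter] at hp ⊢
  exact ⟨hY hp.1, h _ hp.1 hp.2⟩

variable [DecidableEq V]

theorem dg_union_le (x : V) (Y Z : Finset V) : dg r x (Y ∪ Z) ≤ dg r x Y + dg r x Z := by
  classical
  unfold dg
  rw [filter_union]
  exact card_union_le _ _

/-- a graph of maximum degree two without short cycles is almost a linear forest -/
theorem path_cover (hs : ∀ x y, r x y → r y x) (l0 : ℕ) (W : Finset V)
    (hd : ∀ v ∈ W, dg r v W ≤ 2)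
    (hc : ∀ U ⊆ W, U.Nonempty → U.card ≤ l0 → arcs r U U + 2 ≤ 2 * U.card) :
    ∃ L : List V, L.Nodup ∧ (∀ x ∈ L, x ∈ W) ∧
      arcs r W W * l0 ≤ 2 * cnt r L * l0 + 2 * W.card := by
  classical
  induction W using Finset.strongInduction with
  | H W ih =>
  rcases W.eq_empty_or_nonempty with rfl | ⟨w, hw⟩
  · exact ⟨[], List.nodup_nil, by simp, by simp [arcs]⟩
  let Q : ℕ → Prop := fun k => ∃ P : List V, P.Nodup ∧ (∀ x ∈ P, x ∈ W) ∧ P.IsChain r ∧ P.length = k
  have hQ : ∀ P : List V, P.Nodup → (∀ x ∈ P, x ∈ W) → P.length ≤ W.card := by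
    intro P h1 h2
    rw [← List.toFinset_card_of_nodup h1]
    exact card_le_card fun x hx => h2 x (List.mem_toFinset.1 hx)
  have hQ1 : Q 1 := ⟨[w], by simp, by simpa using hw, by simp, rfl⟩
  obtain ⟨P, hP1, hP2, hP3, hP4⟩ : Q (Nat.findGreatest Q W.card) :=
    Nat.findGreatest_spec (card_pos.2 ⟨w, hw⟩) hQ1
  have hmax : ∀ P' : List V, P'.Nodup → (∀ x ∈ P', x ∈ W) → P'.IsChain r →
      P'.length ≤ P.length := by
    intro P' h1 h2 h3
    rw [hP4]
    exact Nat.le_findGreatest (hQ P' h1 h2) ⟨P', h1, h2, h3, rfl⟩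
  have hP0 : 1 ≤ P.length := hmax [w] (by simp) (by simpa using hw) (by simp)
  set U := P.toFinset with hU
  have hUW : U ⊆ W := fun x hx => hP2 x (List.mem_toFinset.1 hx)
  have hUc : U.card = P.length := List.toFinset_card_of_nodup hP1
  have hcross : ∀ x ∈ U, ∀ y ∈ W \ U, ¬ r x y := by
    intro x hx y hy hxy
    rw [mem_sdiff, hU, List.mem_toFinset] at hy
    obtain ⟨l₁, l₂, rfl⟩ := List.append_of_mem (List.mem_toFinset.1 hx)
    rcases l₁.eq_nil_or_concat' with rfl | ⟨l₁, a, rfl⟩
    · have := hmax (y :: x :: l₂) (List.nodup_cons.2 ⟨hy.2, hP1⟩)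
        (by
          intro z hz
          rcases List.mem_cons.1 hz with rfl | hz
          · exact hy.1
          · exact hP2 z hz)
        (List.isChain_cons_cons.2 ⟨hs _ _ hxy, hP3⟩)
      simp at this
    · cases l₂ with
      | nil =>
        have := hmax (l₁ ++ [a] ++ x :: [y])
          (by
            have h1 : l₁ ++ [a] ++ x :: [y] = (l₁ ++ [a] ++ [x]) ++ [y] := by simp
            rw [h1, List.nodup_append]
            refine ⟨hP1, by simp, fun u hu v hv => ?_⟩
            rw [List.mem_singleton.1 hv]
            rintro rfl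
            exact hy.2 hu)
          (by
            intro z hz
            have h1 : l₁ ++ [a] ++ x :: [y] = (l₁ ++ [a] ++ [x]) ++ [y] := by simp
            rw [h1] at hz
            rcases List.mem_append.1 hz with hz | hz
            · exact hP2 z hz
            · rw [List.mem_singleton.1 hz]; exact hy.1)
          (List.isChain_append_cons_cons.2 ⟨hP3, hxy, by simp⟩)
        simp at this
      | cons b l₂ =>
        have h1 : l₁ ++ [a] ++ x :: b :: l₂ = l₁ ++ a :: x :: b :: l₂ := by simp
        rw [h1] at hP1 hP2 hP3 hy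
        have h2 := List.isChain_append_cons_cons.1 hP3
        have h3 := (List.isChain_cons_cons.1 h2.2.2).1
        have hab : a ≠ b := by
          rintro rfl
          have := (List.nodup_append.1 hP1).2.1
          simp at this
        have hay : a ≠ y := by rintro rfl; exact hy.2 (by simp)
        have hby : b ≠ y := by rintro rfl; exact hy.2 (by simp)
        have h4 : ({a, b, y} : Finset V) ⊆ W.filter (r x) := by
          intro z hz
          simp only [mem_insert, mem_singleton] at hz
          rcases hz with rfl | rfl | rfl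
          · exact mem_filter.2 ⟨hP2 _ (by simp), hs _ _ h2.2.1⟩
          · exact mem_filter.2 ⟨hP2 _ (by simp), h3⟩
          · exact mem_filter.2 ⟨hy.1, hxy⟩
        have h5 := card_le_card h4
        rw [card_eq_three.2 ⟨a, b, y, hab, hay, hby, rfl⟩] at h5
        have h6 := hd x (hP2 x (by simp))
        unfold dg at h6
        convert absurd (h5.trans (by convert h6)) (by norm_num : ¬ 3 ≤ 2)
  have hne : U.Nonempty := card_pos.1 (by omega)
  obtain ⟨L, hL1, hL2, hL3⟩ := ih (W \ U) (sdiff_ssubset hUW hne)
    (fun v hv => (dg_mono sdiff_subset fun _ _ h => h).trans (hd v (mem_sdiff.1 hv).1))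
    (fun U' hU' => hc U' (hU'.trans sdiff_subset))
  have harcs : arcs r W W ≤ arcs r U U + arcs r (W \ U) (W \ U) := by
    unfold arcs
    refine le_trans (card_le_card fun p hp => ?_) (card_union_le _ _)
    simp only [mem_filter, mem_product, mem_union, mem_sdiff] at hp ⊢
    by_cases h1 : p.1 ∈ U <;> by_cases h2 : p.2 ∈ U
    · exact Or.inl ⟨⟨h1, h2⟩, hp.2⟩
    · exact absurd hp.2 (hcross _ h1 _ (mem_sdiff.2 ⟨hp.1.2, h2⟩))
    · exact absurd (hs _ _ hp.2) (hcross _ h2 _ (mem_sdiff.2 ⟨hp.1.1, h1⟩))
    · exact Or.inr ⟨⟨⟨hp.1.1, h1⟩, hp.1.2, h2⟩, hp.2⟩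
  have hcP : cnt r P + 1 = U.card := by
    rw [hUc]
    cases P with
    | nil => simp at hP0
    | cons a t => rw [cnt_of_chain hP3]; rfl
  have hUU : arcs r U U * l0 ≤ 2 * cnt r P * l0 + 2 * U.card := by
    by_cases h : U.card ≤ l0
    · have h1 := hc U hUW hne h
      have h2 : arcs r U U ≤ 2 * cnt r P := by omega
      exact le_add_right (Nat.mul_le_mul_right _ h2)
    · have h1 : arcs r U U ≤ 2 * U.card := by
        rw [arcs_eq_sum, mul_comm, ← smul_eq_mul]
        exact sum_le_card_nsmul _ _ _ fun x hx =>
          (dg_mono hUW fun _ _ h => h).trans (hd x (hUW hx))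
      have h2 := Nat.mul_le_mul_right l0 h1
      rw [← hcP] at h2 h ⊢
      nlinarith
  refine ⟨P ++ L, List.nodup_append.2 ⟨hP1, hL1, fun u hu v hv huv => ?_⟩, fun x hx => ?_, ?_⟩
  · exact (mem_sdiff.1 (hL2 v hv)).2 (huv ▸ List.mem_toFinset.2 hu)
  · rcases List.mem_append.1 hx with hx | hx
    · exact hP2 x hx
    · exact (mem_sdiff.1 (hL2 x hx)).1
  · have h1 := Nat.mul_le_mul_right l0 harcs
    have h2 := Nat.mul_le_mul_right l0 (cnt_append_ge (r := r) P L)
    have h3 := card_sdiff_add_card_eq_card hUW
    nlinarith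

/-- a matching among the consecutive pairs -/
theorem exists_matching (hs : ∀ x y, r x y → r y x) (L : List V) (hL : L.Nodup) :
    ∃ M : Finset (V × V), (∀ p ∈ M, r p.1 p.2 ∧ p.1 ∈ L ∧ (p.2, p.1) ∈ M) ∧
      (∀ p ∈ M, ∀ q ∈ M, p.1 = q.1 → p = q) ∧ cnt r L ≤ M.card := by
  induction L using List.twoStepInduction with
  | nil => exact ⟨∅, by simp, by simp, by simp⟩
  | singleton a => exact ⟨∅, by simp, by simp, by simp⟩
  | cons_cons a b t ih1 ih2 =>
    have hn := List.nodup_cons.1 hL
    have hn2 := List.nodup_cons.1 hn.2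
    by_cases hab : r a b
    · obtain ⟨M, h1, h2, h3⟩ := ih1 hn2.2
      have ha : a ∉ t := fun h => hn.1 (List.mem_cons_of_mem _ h)
      have hne : a ≠ b := fun h => hn.1 (by simp [h])
      have hM : ∀ p ∈ M, p.1 ≠ a ∧ p.1 ≠ b := fun p hp =>
        ⟨fun h => ha (h ▸ (h1 p hp).2.1), fun h => hn2.1 (h ▸ (h1 p hp).2.1)⟩
      refine ⟨insert (a, b) (insert (b, a) M), ?_, ?_, ?_⟩
      · intro p hp
        simp only [mem_insert] at hp ⊢
        rcases hp with rfl | rfl | hp
        · exact ⟨hab, by simp, by simp⟩
        · exact ⟨hs _ _ hab, by simp, by simp⟩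
        · exact ⟨(h1 p hp).1, by simp [(h1 p hp).2.1], Or.inr (Or.inr (h1 p hp).2.2)⟩
      · intro p hp q hq hpq
        simp only [mem_insert] at hp hq
        rcases hp with rfl | rfl | hp <;> rcases hq with rfl | rfl | hq
        · rfl
        · exact absurd hpq hne
        · exact absurd hpq.symm (hM q hq).1
        · exact absurd hpq.symm hne
        · rfl
        · exact absurd hpq.symm (hM q hq).2
        · exact absurd hpq (hM p hp).1
        · exact absurd hpq (hM p hp).2
        · exact h2 p hp q hq hpq
      · rw [card_insert_of_notMem, card_insert_of_notMem, cnt_pos hab]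
        · have := cnt_cons_le (r := r) b t
          omega
        · exact fun h => (hM _ h).2 rfl
        · simp only [mem_insert, Prod.mk.injEq, not_or]
          exact ⟨fun h => hne h.1, fun h => (hM _ h).1 rfl⟩
    · obtain ⟨M, h1, h2, h3⟩ := ih2 b hn.2
      exact ⟨M, fun p hp => ⟨(h1 p hp).1, List.mem_cons_of_mem _ (h1 p hp).2.1, (h1 p hp).2.2⟩,
        h2, by rw [cnt_neg hab]; exact h3⟩

/-- the consecutive pairs as a graph of maximum degree two -/
theorem exists_two (hs : ∀ x y, r x y → r y x) (a : V) (l : List V) (hL : (a :: l).Nodup) :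
    ∃ Q : Finset (V × V), (∀ p ∈ Q, r p.1 p.2 ∧ p.1 ∈ a :: l ∧ (p.2, p.1) ∈ Q) ∧
      (∀ x, (Q.filter fun p => p.1 = x).card ≤ 2) ∧ (Q.filter fun p => p.1 = a).card ≤ 1 ∧
      2 * cnt r (a :: l) ≤ Q.card := by
  induction l generalizing a with
  | nil => exact ⟨∅, by simp, by simp, by simp, by simp⟩
  | cons b t ih =>
    have hn := List.nodup_cons.1 hL
    obtain ⟨Q, h1, h2, h3, h4⟩ := ih b hn.2
    have hQa : ∀ p ∈ Q, p.1 ≠ a := fun p hp h => hn.1 (h ▸ (h1 p hp).2.1)
    have hQ0 : (Q.filter fun p => p.1 = a) = ∅ := filter_eq_empty_iff.2 fun p hp => hQa p hp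
    by_cases hab : r a b
    · have hne : a ≠ b := fun h => hn.1 (by simp [h])
      refine ⟨insert (a, b) (insert (b, a) Q), ?_, ?_, ?_, ?_⟩
      · intro p hp
        simp only [mem_insert] at hp ⊢
        rcases hp with rfl | rfl | hp
        · exact ⟨hab, by simp, by simp⟩
        · exact ⟨hs _ _ hab, by simp, by simp⟩
        · exact ⟨(h1 p hp).1, List.mem_cons_of_mem _ (h1 p hp).2.1, Or.inr (Or.inr (h1 p hp).2.2)⟩
      · intro x
        rw [filter_insert, filter_insert]
        by_cases hx : a = x
        · subst hx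
          rw [if_pos rfl, if_neg hne.symm, hQ0]
          simp
        · rw [if_neg hx]
          by_cases hx' : b = x
          · subst hx'
            rw [if_pos rfl]
            exact (card_insert_le _ _).trans (by omega)
          · rw [if_neg hx']
            exact h2 x
      · rw [filter_insert, filter_insert, if_pos rfl, if_neg hne.symm, hQ0]
        simp
      · rw [card_insert_of_notMem, card_insert_of_notMem, cnt_pos hab]
        · omega
        · exact fun h => hQa _ (h1 _ h).2.2 rfl
        · simp only [mem_insert, Prod.mk.injEq, not_or]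
          exact ⟨fun h => hne h.1, fun h => hQa _ h rfl⟩
    · refine ⟨Q, fun p hp => ⟨(h1 p hp).1, List.mem_cons_of_mem _ (h1 p hp).2.1, (h1 p hp).2.2⟩,
        h2, by rw [hQ0]; simp, by rw [cnt_neg hab]; exact h4⟩

theorem card_le_fibers {α β : Type*} [DecidableEq β] (Q : Finset α) (f : α → β) (X : Finset β)
    (k : ℕ) (h1 : ∀ p ∈ Q, f p ∈ X) (h2 : ∀ x ∈ X, (Q.filter fun p => f p = x).card ≤ k) :
    Q.card ≤ k * X.card := by
  rw [card_eq_sum_card_fiberwise h1, mul_comm, ← smul_eq_mul]
  exact sum_le_card_nsmul _ _ _ h2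

/-- the cut inequality given by a linear forest -/
theorem cut_ineq [Fintype V] (hs : ∀ x y, r x y → r y x) (L : List V) (hL : L.Nodup)
    (T S : Finset V) :
    2 * (T ∩ L.toFinset).card + 2 * cnt r L ≤
      arcs r T Sᶜ + 2 * (S ∩ L.toFinset).card + 2 * L.length := by
  classical
  cases L with
  | nil => simp
  | cons a l =>
  obtain ⟨Q, h1, h2, -, h4⟩ := exists_two hs a l hL
  set X := (a :: l).toFinset with hX
  have hXc : X.card = (a :: l).length := List.toFinset_card_of_nodup hL
  have e1 : Q.card ≤ (Q.filter fun p => p.1 ∉ T).card + (Q.filter fun p => p.2 ∈ S).card +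
      arcs r T Sᶜ := by
    unfold arcs
    refine le_trans (card_le_card fun p hp => ?_)
      ((card_union_le _ _).trans (Nat.add_le_add_right (card_union_le _ _) _))
    simp only [mem_union, mem_filter, mem_product, mem_compl]
    by_cases ht : p.1 ∈ T <;> by_cases hs' : p.2 ∈ S <;> simp [ht, hs', hp, (h1 p hp).1]
  have e2 : (Q.filter fun p => p.1 ∉ T).card ≤ 2 * (X \ T).card := by
    refine card_le_fibers _ (fun p => p.1) _ 2 (fun p hp => ?_) fun x _ => ?_
    · rw [mem_filter] at hp
      exact mem_sdiff.2 ⟨List.mem_toFinset.2 (h1 p hp.1).2.1, hp.2⟩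
    · exact (card_le_card (filter_subset_filter _ (filter_subset _ _))).trans (h2 x)
  have e3 : (Q.filter fun p => p.2 ∈ S).card ≤ 2 * (S ∩ X).card := by
    refine card_le_fibers _ (fun p => p.2) _ 2 (fun p hp => ?_) fun x _ => ?_
    · rw [mem_filter] at hp
      exact mem_inter.2 ⟨hp.2, List.mem_toFinset.2 (h1 _ (h1 p hp.1).2.2).2.1⟩
    · refine le_trans ?_ (h2 x)
      refine card_le_card_of_injOn Prod.swap (fun p hp => ?_) (Prod.swap_injective.injOn)
      simp only [coe_filter, mem_filter, Set.mem_ofPred_eq] at hp ⊢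
      exact ⟨(h1 p hp.1.1).2.2, hp.2⟩
  have e4 : (X \ T).card + (T ∩ X).card = X.card := by
    rw [inter_comm]; exact card_sdiff_add_card_inter X T
  omega

end Pool.Agent.H351Z.RG
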