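import Mathlib

/-! Expectations over random subsets of a finite set. -/

set_option autoImplicit false
set_option linter.unusedSectionVars false

namespace Pool.Agent.H351Z.RG

open Finset

variable {ι : Type*} [DecidableEq ι]

/-- expectation of `f` at the `p`-random subset of `s` -/
def Ex (p : ℝ) (s : Finset ι) (f : Finset ι → ℝ) : ℝ :=
  ∑ A ∈ s.powerset, p ^ A.card * (1 - p) ^ (s.card - A.card) * f A

theorem Ex_empty (p : ℝ) (f : Finset ι → ℝ) : Ex p ∅ f = f ∅ := by simp [Ex]

theorem Ex_insert (p : ℝ) {s : Finset ι} {a : ι} (ha : a ∉ s) (f : Finset ι → ℝ) :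
    Ex p (insert a s) f = p * Ex p s (fun A => f (insert a A)) + (1 - p) * Ex p s f := by
  unfold Ex
  rw [sum_powerset_insert ha, add_comm, mul_sum, mul_sum, card_insert_of_notMem ha]
  congr 1
  · refine sum_congr rfl fun A hA => ?_
    have hA' : A ⊆ s := mem_powerset.1 hA
    rw [card_insert_of_notMem (fun h => ha (hA' h)), Nat.add_sub_add_right]
    ring
  · refine sum_congr rfl fun A hA => ?_
    have hA' : A.card ≤ s.card := card_le_card (mem_powerset.1 hA)
    rw [Nat.sub_add_comm hA']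
    ring

theorem Ex_const (p : ℝ) (s : Finset ι) (c : ℝ) : Ex p s (fun _ => c) = c := by
  induction s using Finset.induction_on with
  | empty => exact Ex_empty _ _
  | insert a s ha ih => rw [Ex_insert p ha, ih]; ring

theorem Ex_add (p : ℝ) (s : Finset ι) (f g : Finset ι → ℝ) :
    Ex p s (fun A => f A + g A) = Ex p s f + Ex p s g := by
  simp only [Ex, mul_add, sum_add_distrib]

theorem Ex_mul (p : ℝ) (s : Finset ι) (c : ℝ) (f : Finset ι → ℝ) :
    Ex p s (fun A => c * f A) = c * Ex p s f := by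
  simp only [Ex, mul_sum]
  exact sum_congr rfl fun A _ => by ring

theorem Ex_sub (p : ℝ) (s : Finset ι) (f g : Finset ι → ℝ) :
    Ex p s (fun A => f A - g A) = Ex p s f - Ex p s g := by
  simp only [Ex, mul_sub, sum_sub_distrib]

theorem Ex_sum {κ : Type*} (p : ℝ) (s : Finset ι) (t : Finset κ) (f : κ → Finset ι → ℝ) :
    Ex p s (fun A => ∑ k ∈ t, f k A) = ∑ k ∈ t, Ex p s (f k) := by
  simp only [Ex, mul_sum]
  exact sum_comm

theorem Ex_congr (p : ℝ) {s : Finset ι} {f g : Finset ι → ℝ} (h : ∀ A ⊆ s, f A = g A) :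
    Ex p s f = Ex p s g :=
  sum_congr rfl fun A hA => by rw [h A (mem_powerset.1 hA)]

theorem Ex_mono {p : ℝ} (h0 : 0 ≤ p) (h1 : p ≤ 1) {s : Finset ι} {f g : Finset ι → ℝ}
    (h : ∀ A ⊆ s, f A ≤ g A) : Ex p s f ≤ Ex p s g :=
  sum_le_sum fun A hA => mul_le_mul_of_nonneg_left (h A (mem_powerset.1 hA))
    (mul_nonneg (pow_nonneg h0 _) (pow_nonneg (sub_nonneg.2 h1) _))

theorem Ex_le_const {p : ℝ} (h0 : 0 ≤ p) (h1 : p ≤ 1) {s : Finset ι} {f : Finset ι → ℝ} {c : ℝ}
    (h : ∀ A ⊆ s, f A ≤ c) : Ex p s f ≤ c :=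
  (Ex_mono h0 h1 h).trans (Ex_const p s c).le

theorem const_le_Ex {p : ℝ} (h0 : 0 ≤ p) (h1 : p ≤ 1) {s : Finset ι} {f : Finset ι → ℝ} {c : ℝ}
    (h : ∀ A ⊆ s, c ≤ f A) : c ≤ Ex p s f :=
  (Ex_const p s c).ge.trans (Ex_mono h0 h1 h)

theorem Ex_union (p q : ℝ) (s : Finset ι) (f : Finset ι → ℝ) :
    Ex p s (fun A => Ex q s (fun B => f (A ∪ B))) = Ex (p + q - p * q) s f := by
  induction s using Finset.induction_on generalizing f with
  | empty => simp [Ex_empty]
  | insert a s ha ih =>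
    simp only [Ex_insert _ ha, insert_union, union_insert, insert_eq_of_mem (mem_insert_self _ _),
      Ex_add, Ex_mul]
    rw [ih f, ih (fun A => f (insert a A))]
    ring

theorem Ex_mono_p {p q : ℝ} (h0 : 0 ≤ p) (hpq : p ≤ q) (h1 : q ≤ 1) (s : Finset ι)
    {f : Finset ι → ℝ} (hf : ∀ A B, A ⊆ B → f A ≤ f B) : Ex p s f ≤ Ex q s f := by
  induction s using Finset.induction_on generalizing f with
  | empty => simp [Ex_empty]
  | insert a s ha ih =>
    rw [Ex_insert _ ha, Ex_insert _ ha]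
    have h2 := ih hf
    have h3 := ih (f := fun A => f (insert a A)) fun A B h => hf _ _ (insert_subset_insert a h)
    have h4 : Ex p s f ≤ Ex p s (fun A => f (insert a A)) :=
      Ex_mono h0 (hpq.trans h1) fun A _ => hf _ _ (subset_insert a A)
    have h5 := mul_le_mul_of_nonneg_left h2 (sub_nonneg.2 h1)
    have h6 := mul_le_mul_of_nonneg_left h3 (h0.trans hpq)
    nlinarith

theorem Ex_anti_p {p q : ℝ} (h0 : 0 ≤ p) (hpq : p ≤ q) (h1 : q ≤ 1) (s : Finset ι)
    {f : Finset ι → ℝ} (hf : ∀ A B, A ⊆ B → f B ≤ f A) : Ex q s f ≤ Ex p s f := by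
  have := Ex_mono_p h0 hpq h1 s (f := fun A => (-1) * f A) fun A B h => by
    have := hf A B h
    linarith
  rw [Ex_mul, Ex_mul] at this
  linarith

theorem Ex_restrict (p : ℝ) {s t : Finset ι} (h : t ⊆ s) (f : Finset ι → ℝ) :
    Ex p s (fun A => f (A ∩ t)) = Ex p t f := by
  have key : ∀ u : Finset ι, Disjoint u t → Ex p (u ∪ t) (fun A => f (A ∩ t)) = Ex p t f := by
    intro u
    induction u using Finset.induction_on with
    | empty =>
      intro _
      rw [empty_union]
      exact Ex_congr p fun A hA => by rw [inter_eq_left.2 hA]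
    | insert a u ha ih =>
      intro hd
      rw [disjoint_insert_left] at hd
      rw [insert_union, Ex_insert p (by simp [ha, hd.1])]
      simp only [insert_inter_of_notMem hd.1]
      rw [ih hd.2]
      ring
  have := key (s \ t) sdiff_disjoint
  rwa [sdiff_union_of_subset h] at this

theorem Ex_map {κ : Type*} [DecidableEq κ] (p : ℝ) (e : κ ↪ ι) (t : Finset κ)
    (f : Finset ι → ℝ) : Ex p (t.map e) f = Ex p t (fun A => f (A.map e)) := by
  induction t using Finset.induction_on generalizing f with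
  | empty => simp [Ex_empty]
  | insert a t ha ih =>
    rw [map_insert, Ex_insert p (by simpa using ha), Ex_insert p ha, ih, ih]
    simp only [map_insert]

theorem Ex_pow_card (p c : ℝ) (t : Finset ι) :
    Ex p t (fun A => c ^ A.card) = (1 - p + p * c) ^ t.card := by
  induction t using Finset.induction_on with
  | empty => simp [Ex_empty]
  | insert a t ha ih =>
    rw [Ex_insert p ha, ih, card_insert_of_notMem ha,
      Ex_congr p (g := fun A => c * c ^ A.card) (fun A hA => by
        rw [card_insert_of_notMem (fun h => ha (hA h))]; ring), Ex_mul, ih]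
    ring

theorem Ex_pow_inter (p c : ℝ) {s t : Finset ι} (h : t ⊆ s) :
    Ex p s (fun A => c ^ (A ∩ t).card) = (1 - p + p * c) ^ t.card := by
  rw [Ex_restrict p h (fun A => c ^ A.card), Ex_pow_card]

theorem Ex_card (p : ℝ) (s : Finset ι) : Ex p s (fun A => (A.card : ℝ)) = p * s.card := by
  induction s using Finset.induction_on with
  | empty => simp [Ex_empty]
  | insert a t ha ih =>
    rw [Ex_insert p ha, ih, card_insert_of_notMem ha,
      Ex_congr p (g := fun A => (A.card : ℝ) + 1) (fun A hA => by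
        rw [card_insert_of_notMem (fun h => ha (hA h))]; push_cast; ring), Ex_add, ih, Ex_const]
    push_cast
    ring

theorem Ex_subset (p : ℝ) {s t : Finset ι} (h : t ⊆ s) :
    Ex p s (fun A => if t ⊆ A then 1 else 0) = p ^ t.card := by
  have h1 : Ex p s (fun A => if t ⊆ A then 1 else 0) =
      Ex p s (fun A => (fun B => if t ⊆ B then (1 : ℝ) else 0) (A ∩ t)) :=
    Ex_congr p fun A _ => by simp [subset_inter_iff]
  rw [h1, Ex_restrict p h (fun B => if t ⊆ B then (1 : ℝ) else 0)]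
  unfold Ex
  rw [sum_eq_single t]
  · simp
  · intro A hA hne
    have : ¬ t ⊆ A := fun h' => hne (Subset.antisymm (mem_powerset.1 hA) h')
    simp [this]
  · simp

theorem Ex_var {p : ℝ} (h0 : 0 ≤ p) (h1 : p ≤ 1) (s : Finset ι) {f : Finset ι → ℝ}
    (hf : ∀ a A, |f (insert a A) - f A| ≤ 1) :
    Ex p s (fun A => f A ^ 2) ≤ Ex p s f ^ 2 + p * s.card := by
  induction s using Finset.induction_on generalizing f with
  | empty => simp [Ex_empty]
  | insert a s ha ih =>
    rw [Ex_insert _ ha, Ex_insert _ ha, card_insert_of_notMem ha]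
    have h2 := ih hf
    have h3 := ih (f := fun A => f (insert a A)) fun b A => by
      rw [insert_comm]; exact hf _ _
    have h4 : Ex p s (fun A => f (insert a A)) - Ex p s f ≤ 1 := by
      rw [← Ex_sub]
      exact Ex_le_const h0 h1 fun A _ => (abs_le.1 (hf a A)).2
    have h5 : -1 ≤ Ex p s (fun A => f (insert a A)) - Ex p s f := by
      rw [← Ex_sub]
      exact const_le_Ex h0 h1 fun A _ => (abs_le.1 (hf a A)).1
    set x := Ex p s (fun A => f (insert a A))
    set y := Ex p s f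
    have h6 : (x - y) ^ 2 ≤ 1 := by nlinarith
    have h7 := mul_le_mul_of_nonneg_left h2 (sub_nonneg.2 h1)
    have h8 := mul_le_mul_of_nonneg_left h3 h0
    have h9 : p * (1 - p) * (x - y) ^ 2 ≤ p := by
      have : 0 ≤ p * (1 - p) := mul_nonneg h0 (sub_nonneg.2 h1)
      nlinarith
    push_cast
    nlinarith

open Classical in
/-- probability of an event -/
noncomputable def Pr (p : ℝ) (s : Finset ι) (E : Finset ι → Prop) : ℝ :=
  Ex p s (fun A => if E A then 1 else 0)

theorem Pr_nonneg {p : ℝ} (h0 : 0 ≤ p) (h1 : p ≤ 1) (s : Finset ι) (E : Finset ι → Prop) :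
    0 ≤ Pr p s E := const_le_Ex h0 h1 fun A _ => by split_ifs <;> norm_num

theorem Pr_le_one {p : ℝ} (h0 : 0 ≤ p) (h1 : p ≤ 1) (s : Finset ι) (E : Finset ι → Prop) :
    Pr p s E ≤ 1 := Ex_le_const h0 h1 fun A _ => by split_ifs <;> norm_num

theorem Pr_not (p : ℝ) (s : Finset ι) (E : Finset ι → Prop) :
    Pr p s (fun A => ¬ E A) = 1 - Pr p s E := by
  unfold Pr
  rw [← Ex_const p s 1, ← Ex_sub]
  simp only [Ex_const]
  exact Ex_congr p fun A _ => by by_cases h : E A <;> simp [h]

theorem Pr_mono {p : ℝ} (h0 : 0 ≤ p) (h1 : p ≤ 1) {s : Finset ι} {E F : Finset ι → Prop}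
    (h : ∀ A ⊆ s, E A → F A) : Pr p s E ≤ Pr p s F :=
  Ex_mono h0 h1 fun A hA => by
    by_cases h' : E A
    · simp [h', h A hA h']
    · simp only [h', if_false]; split_ifs <;> norm_num

theorem Pr_mono_p {p q : ℝ} (h0 : 0 ≤ p) (hpq : p ≤ q) (h1 : q ≤ 1) (s : Finset ι)
    {E : Finset ι → Prop} (hE : ∀ A B, A ⊆ B → E A → E B) : Pr p s E ≤ Pr q s E :=
  Ex_mono_p h0 hpq h1 s fun A B h => by
    by_cases h' : E A
    · simp [h', hE A B h h']
    · simp only [h', if_false]; split_ifs <;> norm_num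

theorem Pr_le_Ex {p : ℝ} (h0 : 0 ≤ p) (h1 : p ≤ 1) {s : Finset ι} {E : Finset ι → Prop}
    {f : Finset ι → ℝ} (hf : ∀ A ⊆ s, 0 ≤ f A) (h : ∀ A ⊆ s, E A → 1 ≤ f A) :
    Pr p s E ≤ Ex p s f :=
  Ex_mono h0 h1 fun A hA => by
    by_cases h' : E A
    · simp [h', h A hA h']
    · simp [h', hf A hA]

/-- concentration -/
theorem Pr_conc {p : ℝ} (h0 : 0 ≤ p) (h1 : p ≤ 1) (s : Finset ι) {f : Finset ι → ℝ}
    (hf : ∀ a A, |f (insert a A) - f A| ≤ 1) (m t δ : ℝ) (ht : 0 < t)
    (hδ : 4 * (p * s.card) < δ * t ^ 2) (hm : δ ≤ Pr p s (fun A => m ≤ f A)) :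
    Pr p s (fun A => f A ≤ m - t) ≤ 4 * (p * s.card) / t ^ 2 := by
  have hv := Ex_var h0 h1 s hf
  set μ := Ex p s f with hμ
  have h2 : Ex p s (fun A => 4 / t ^ 2 * (f A - μ) ^ 2) ≤ 4 * (p * s.card) / t ^ 2 := by
    rw [Ex_mul]
    have : Ex p s (fun A => (f A - μ) ^ 2) = Ex p s (fun A => f A ^ 2) - μ ^ 2 := by
      rw [Ex_congr p (g := fun A => (f A ^ 2 + (-2 * μ) * f A) + μ ^ 2) (fun A _ => by ring),
        Ex_add, Ex_add, Ex_mul, Ex_const]
      ring
    rw [this, div_mul_eq_mul_div]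
    gcongr
    linarith
  have ht2 : 0 < t ^ 2 := by positivity
  have key : ∀ x : ℝ, t / 2 ≤ |x| → 1 ≤ 4 / t ^ 2 * x ^ 2 := by
    intro x hx
    rw [div_mul_eq_mul_div, le_div_iff₀ ht2, ← sq_abs x]
    nlinarith
  by_cases hc : m - t / 2 ≤ μ
  · refine le_trans (Pr_le_Ex h0 h1 (fun A _ => by positivity) fun A _ hA => key _ ?_) h2
    rw [le_abs]
    right
    linarith
  · exfalso
    have h3 : Pr p s (fun A => m ≤ f A) ≤ 4 * (p * s.card) / t ^ 2 := by
      refine le_trans (Pr_le_Ex h0 h1 (fun A _ => by positivity) fun A _ hA => key _ ?_) h2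
      rw [le_abs]
      left
      linarith
    rw [le_div_iff₀ ht2] at h3
    nlinarith

/-- sprinkling with boosters -/
theorem booster {s : Finset ι} (F : Finset ι → ℕ) (hF : ∀ A B, A ⊆ B → F A ≤ F B) (M : ℕ)
    {q0 q : ℝ} (h0 : 0 ≤ q0) (h1 : q ≤ 1) (R : ℕ) (hR : R * q0 ≤ q) (hq0 : q0 ≤ 1)
    (hb : ∀ A, F A < M → ∃ t ⊆ s, 1 ≤ q0 * t.card ∧ ∀ e ∈ t, F A < F (insert e A))
    (A0 : Finset ι) :
    Pr q s (fun B => F (A0 ∪ B) < M) ≤ 2 ^ M * (1 / 2) ^ F A0 * (3 / 4) ^ R := by
  classical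
  let ψ : Finset ι → ℝ := fun A => if F A < M then (1 / 2) ^ F A else 0
  have hψ0 : ∀ A, 0 ≤ ψ A := fun A => by
    simp only [ψ]; split_ifs <;> positivity
  have hψ : ∀ A B, A ⊆ B → ψ B ≤ ψ A := by
    intro A B h
    have := hF A B h
    simp only [ψ]
    split_ifs with a b b
    · exact pow_le_pow_of_le_one (by norm_num) (by norm_num) this
    · omega
    · positivity
    · exact le_rfl
  have step : ∀ A, Ex q0 s (fun B => ψ (A ∪ B)) ≤ 3 / 4 * ψ A := by
    intro A
    by_cases hA : F A < M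
    · obtain ⟨t, hts, ht1, ht⟩ := hb A hA
      have h2 : Ex q0 s (fun B => ψ (A ∪ B)) ≤
          Ex q0 s (fun B => ψ A / 2 + ψ A / 2 * (0 : ℝ) ^ (B ∩ t).card) := by
        refine Ex_mono h0 hq0 fun B _ => ?_
        rcases (B ∩ t).eq_empty_or_nonempty with h | ⟨e, he⟩
        · rw [h, card_empty, pow_zero]
          have := hψ A (A ∪ B) subset_union_left
          linarith
        · rw [zero_pow (card_pos.2 ⟨e, he⟩).ne', mul_zero, add_zero]
          have h3 := hψ (insert e A) (A ∪ B) (by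
            rw [insert_subset_iff]
            exact ⟨mem_union_right _ (mem_inter.1 he).1, subset_union_left⟩)
          refine h3.trans ?_
          have h4 := ht e (mem_inter.1 he).2
          simp only [ψ, if_pos hA]
          split_ifs
          · calc (1 / 2 : ℝ) ^ F (insert e A) ≤ (1 / 2) ^ (F A + 1) :=
                pow_le_pow_of_le_one (by norm_num) (by norm_num) h4
              _ = _ := by ring
          · positivity
      rw [Ex_add, Ex_const, Ex_mul, Ex_pow_inter q0 0 hts] at h2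
      have h3 : (1 - q0 + q0 * 0) ^ t.card ≤ 1 / 2 := by
        have h4 : (1 - q0) ^ t.card * (1 + q0) ^ t.card ≤ 1 := by
          rw [← mul_pow]
          exact pow_le_one₀ (by nlinarith) (by nlinarith)
        have h5 : 1 + t.card * q0 ≤ (1 + q0) ^ t.card := one_add_mul_le_pow (by linarith) _
        have h6 : 0 ≤ (1 - q0) ^ t.card := pow_nonneg (by linarith) _
        rw [mul_zero, add_zero]
        nlinarith
      have := hψ0 A
      nlinarith
    · have : ψ A = 0 := by simp [ψ, hA]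
      rw [this, mul_zero]
      exact Ex_le_const h0 hq0 fun B _ => this ▸ hψ A (A ∪ B) subset_union_left
  have iter : ∀ (k : ℕ) (A : Finset ι),
      Ex (1 - (1 - q0) ^ k) s (fun B => ψ (A ∪ B)) ≤ (3 / 4) ^ k * ψ A := by
    intro k
    induction k with
    | zero =>
      intro A
      simp only [pow_zero, sub_self, one_mul]
      exact Ex_le_const le_rfl zero_le_one fun B _ => hψ _ _ subset_union_left
    | succ k ih =>
      intro A
      have h2 : 1 - (1 - q0) ^ (k + 1) =
          (1 - (1 - q0) ^ k) + q0 - (1 - (1 - q0) ^ k) * q0 := by ring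
      have h3 : (1 - q0) ^ k ≤ 1 := pow_le_one₀ (by linarith) (by linarith)
      have h4 : 0 ≤ (1 - q0) ^ k := pow_nonneg (by linarith) _
      rw [h2, ← Ex_union]
      calc _ ≤ Ex (1 - (1 - q0) ^ k) s (fun B => 3 / 4 * ψ (A ∪ B)) := by
            refine Ex_mono (by linarith) (by linarith) fun B _ => ?_
            simp only [← union_assoc]
            exact step _
        _ ≤ 3 / 4 * ((3 / 4) ^ k * ψ A) := by
            rw [Ex_mul]
            exact mul_le_mul_of_nonneg_left (ih A) (by norm_num)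
        _ = _ := by ring
  have h3 : (1 - q0) ^ R ≤ 1 := pow_le_one₀ (by linarith) (by linarith)
  have h5 : 1 - (1 - q0) ^ R ≤ q := by
    have := one_add_mul_le_pow (a := -q0) (by linarith) R
    rw [← sub_eq_add_neg] at this
    linarith
  have h6 : Ex q s (fun B => ψ (A0 ∪ B)) ≤ (3 / 4) ^ R * ψ A0 :=
    (Ex_anti_p (by linarith) h5 h1 s fun A B h => hψ _ _ (union_subset_union_right h)).trans
      (iter R A0)
  have hq : 0 ≤ q := le_trans (by positivity) hR
  have h7 : Pr q s (fun B => F (A0 ∪ B) < M) ≤ Ex q s (fun B => 2 ^ M * ψ (A0 ∪ B)) := by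
    refine Pr_le_Ex hq h1 (fun B _ => mul_nonneg (by positivity) (hψ0 _)) fun B _ hB => ?_
    simp only [ψ, if_pos hB]
    rw [one_div, inv_pow, ← div_eq_mul_inv, le_div_iff₀ (by positivity), one_mul]
    exact pow_le_pow_right₀ (by norm_num) hB.le
  rw [Ex_mul] at h7
  have h8 : ψ A0 ≤ (1 / 2) ^ F A0 := by
    simp only [ψ]; split_ifs
    · exact le_rfl
    · positivity
  calc _ ≤ 2 ^ M * ((3 / 4) ^ R * ψ A0) :=
        h7.trans (mul_le_mul_of_nonneg_left h6 (by positivity))
    _ ≤ 2 ^ M * ((3 / 4) ^ R * (1 / 2) ^ F A0) := by gcongr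
    _ = _ := by ring

end Pool.Agent.H351Z.RG
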