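import Pool.Agent.H351Z.RProb
import Pool.Agent.H351Z.RCore
import Pool.Agent.H351Z.RHam

/-! The random part of the argument, with explicit parameters. -/

set_option autoImplicit false
set_option linter.unusedSectionVars false

namespace Pool.Agent.H351Z.RG

open Finset

variable {V : Type*} [Fintype V] [DecidableEq V]

variable (V) in
def EV : Finset (Sym2 V) := univ.filter fun e => ¬ e.IsDiag

def gr (A : Finset (Sym2 V)) : SimpleGraph V := SimpleGraph.fromEdgeSet (A : Set (Sym2 V))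

theorem gr_adj {A : Finset (Sym2 V)} {x y : V} : (gr A).Adj x y ↔ s(x, y) ∈ A ∧ x ≠ y := by
  simp [gr]

theorem gr_mono {A B : Finset (Sym2 V)} (h : A ⊆ B) : gr A ≤ gr B :=
  fun _ _ h' => gr_adj.2 ⟨h (gr_adj.1 h').1, (gr_adj.1 h').2⟩

theorem mem_EV {e : Sym2 V} : e ∈ EV V ↔ ¬ e.IsDiag := by simp [EV]

theorem card_EV : (EV V).card = (Fintype.card V).choose 2 := by
  rw [← Sym2.card_subtype_not_diag, Fintype.card_subtype]
  rfl

theorem card_EV_le : (EV V).card ≤ Fintype.card V ^ 2 := by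
  rw [card_EV]; exact Nat.choose_le_pow _ _

omit [Fintype V] in
theorem card_le_two_mul_image (P : Finset (V × V)) :
    P.card ≤ 2 * (P.image fun p => s(p.1, p.2)).card := by
  refine card_le_fibers P (fun p => s(p.1, p.2)) _ 2 (fun p hp => mem_image_of_mem _ hp)
    fun e he => ?_
  obtain ⟨p, -, rfl⟩ := mem_image.1 he
  refine le_trans (card_le_card (t := {p, p.swap}) fun q hq => ?_) card_le_two
  have := (mem_filter.1 hq).2
  simp only [Sym2.eq_iff] at this
  simp only [mem_insert, mem_singleton, Prod.ext_iff, Prod.fst_swap, Prod.snd_swap]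
  exact this

theorem Pr_congr {ι : Type*} [DecidableEq ι] (p : ℝ) {s : Finset ι} {E F : Finset ι → Prop}
    (h : ∀ A ⊆ s, E A ↔ F A) : Pr p s E = Pr p s F :=
  Ex_congr p fun A hA => by
    by_cases hE : E A
    · rw [if_pos hE, if_pos ((h A hA).1 hE)]
    · rw [if_neg hE, if_neg fun hF => hE ((h A hA).2 hF)]

theorem transfer {U : Type*} [Fintype U] [DecidableEq U] (e : U ↪ V) (p : ℝ) (k : ℕ) :
    Pr p (EV V) (fun A => LF (gr A).Adj (univ.map e) k) =
      Pr p (EV U) (fun A => LF (gr A).Adj univ k) := by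
  classical
  have ht : (EV U).map e.sym2Map ⊆ EV V := by
    intro z hz
    obtain ⟨w, hw, rfl⟩ := mem_map.1 hz
    induction w with
    | h a b => simpa [mem_EV] using hw
  have h1 : Pr p (EV V) (fun A => LF (gr A).Adj (univ.map e) k) =
      Pr p (EV V) (fun A => LF (gr (A ∩ (EV U).map e.sym2Map)).Adj (univ.map e) k) := by
    refine Pr_congr p fun A _ => ?_
    rw [LF_iff, LF_iff]
    have e1 : ell (gr A).Adj (univ.map e) ≤
        ell (gr (A ∩ (EV U).map e.sym2Map)).Adj (univ.map e) := by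
      refine ell_mono fun x hx y hy h => ?_
      obtain ⟨a, -, rfl⟩ := mem_map.1 hx
      obtain ⟨b, -, rfl⟩ := mem_map.1 hy
      rw [gr_adj] at h ⊢
      refine ⟨mem_inter.2 ⟨h.1, mem_map.2 ⟨s(a, b), ?_, rfl⟩⟩, h.2⟩
      simpa [mem_EV] using h.2
    have e2 : ell (gr (A ∩ (EV U).map e.sym2Map)).Adj (univ.map e) ≤
        ell (gr A).Adj (univ.map e) := ell_mono fun x _ y _ h => gr_mono inter_subset_left h
    rw [le_antisymm e1 e2]
  rw [h1]
  unfold Pr
  rw [Ex_restrict p ht (fun A => if LF (gr A).Adj (univ.map e) k then 1 else 0), Ex_map]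
  refine Ex_congr p fun A _ => ?_
  have hadj : (fun x y => (gr (A.map e.sym2Map)).Adj (e x) (e y)) = (gr A).Adj := by
    funext x y
    rw [gr_adj, gr_adj]
    have : s(e x, e y) = e.sym2Map s(x, y) := rfl
    rw [this, mem_map' e.sym2Map]
    simp
  have : LF (gr (A.map e.sym2Map)).Adj (univ.map e) k ↔ LF (gr A).Adj univ k := by
    constructor
    · rintro ⟨L, h1, h2, h3⟩
      obtain ⟨L', rfl⟩ : ∃ L' : List U, L = L'.map e := by
        clear h1 h3
        induction L with
        | nil => exact ⟨[], rfl⟩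
        | cons a t ih =>
          obtain ⟨t', rfl⟩ := ih fun x hx => h2 x (List.mem_cons_of_mem _ hx)
          obtain ⟨a', -, rfl⟩ := mem_map.1 (h2 a (by simp))
          exact ⟨a' :: t', rfl⟩
      rw [cnt_map, hadj] at h3
      exact ⟨L', h1.of_map _, by simp, h3⟩
    · rintro ⟨L, h1, -, h3⟩
      refine ⟨L.map e, h1.map e.injective, fun x hx => ?_, by rwa [cnt_map, hadj]⟩
      obtain ⟨a, -, rfl⟩ := List.mem_map.1 hx
      simp
  simp [this]

/-- probability of a linear forest with `k` edges in the random graph on `N` vertices -/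
noncomputable def PL (N k : ℕ) (p : ℝ) : ℝ := Pr p (EV (Fin N)) fun A => LF (gr A).Adj univ k

theorem transfer' (W : Finset V) (p : ℝ) (k : ℕ) :
    Pr p (EV V) (fun A => LF (gr A).Adj W k) = PL W.card k p := by
  let e : Fin W.card ↪ V := (W.equivFin.symm.toEmbedding).trans (Function.Embedding.subtype _)
  have : univ.map e = W := by
    ext x
    simp only [mem_map, mem_univ, true_and]
    constructor
    · rintro ⟨i, rfl⟩
      exact (W.equivFin.symm i).2
    · intro hx
      exact ⟨W.equivFin ⟨x, hx⟩, by simp [e]⟩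
  rw [PL, ← transfer e, this]

theorem expander (H : SimpleGraph V) {ρ : ℝ} (h0 : 0 ≤ ρ) (h1 : ρ ≤ 1) (k : ℕ) :
    Pr ρ (EV V) (fun R => ¬ ∀ T S : Finset V, k * k ≤ arcs H.Adj T S →
      2 * Fintype.card V ≤ arcs (H ⊓ gr R).Adj T S) ≤
      16 ^ Fintype.card V * Real.exp (-(ρ * k ^ 2 / 4)) := by
  classical
  let t : Finset V × Finset V → Finset (Sym2 V) := fun p =>
    ((p.1 ×ˢ p.2).filter fun q => H.Adj q.1 q.2).image fun q => s(q.1, q.2)
  let I : Finset (Finset V × Finset V) := univ.filter fun p => k * k ≤ arcs H.Adj p.1 p.2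
  have ht : ∀ p, t p ⊆ EV V := by
    intro p z hz
    obtain ⟨q, hq, rfl⟩ := mem_image.1 hz
    simpa [mem_EV] using (mem_filter.1 hq).2.ne
  refine le_trans (Pr_le_Ex (f := fun R => ∑ p ∈ I, 4 ^ Fintype.card V *
    (1 / 2 : ℝ) ^ (R ∩ t p).card) h0 h1 (fun R _ => by positivity) fun R _ hR => ?_) ?_
  · push Not at hR
    obtain ⟨T, S, h2, h3⟩ := hR
    refine le_trans ?_ (single_le_sum (f := fun p => 4 ^ Fintype.card V *
      (1 / 2 : ℝ) ^ (R ∩ t p).card) (fun p _ => by positivity) (a := (T, S)) (by simpa [I]))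
    have h4 : (R ∩ t (T, S)).card ≤ arcs (H ⊓ gr R).Adj T S := by
      unfold arcs
      refine le_trans (card_le_card fun z hz => ?_) (card_image_le (f := fun q => s(q.1, q.2)))
      obtain ⟨q, hq, rfl⟩ := mem_image.1 (mem_inter.1 hz).2
      refine mem_image.2 ⟨q, ?_, rfl⟩
      simp only [mem_filter, SimpleGraph.inf_adj, gr_adj] at hq ⊢
      exact ⟨hq.1, hq.2, (mem_inter.1 hz).1, hq.2.ne⟩
    rw [one_div, inv_pow, ← div_eq_mul_inv, le_div_iff₀ (by positivity), one_mul,
      show (4 : ℝ) = 2 ^ 2 by norm_num, ← pow_mul]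
    exact pow_le_pow_right₀ (by norm_num) (by omega)
  · rw [Ex_sum]
    have h2 : ∀ p ∈ I, Ex ρ (EV V) (fun R => 4 ^ Fintype.card V * (1 / 2 : ℝ) ^ (R ∩ t p).card) ≤
        4 ^ Fintype.card V * Real.exp (-(ρ * k ^ 2 / 4)) := by
      intro p hp
      rw [Ex_mul, Ex_pow_inter _ _ (ht p)]
      refine mul_le_mul_of_nonneg_left ?_ (by positivity)
      have h3 : k * k ≤ 2 * (t p).card := by
        refine (mem_filter.1 hp).2.trans ?_
        unfold arcs
        convert card_le_two_mul_image _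
      have h4 : (k : ℝ) ^ 2 ≤ 2 * (t p).card := by rw [sq]; exact_mod_cast h3
      calc (1 - ρ + ρ * (1 / 2)) ^ (t p).card ≤ Real.exp (-(ρ / 2)) ^ (t p).card :=
            pow_le_pow_left₀ (by linarith) (by have := Real.add_one_le_exp (-(ρ / 2)); linarith) _
        _ = Real.exp ((t p).card * -(ρ / 2)) := (Real.exp_nat_mul _ _).symm
        _ ≤ _ := Real.exp_le_exp.2 (by nlinarith)
    refine (sum_le_card_nsmul _ _ _ h2).trans ?_
    have h3 : (I.card : ℝ) ≤ 4 ^ Fintype.card V := by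
      have : I.card ≤ 4 ^ Fintype.card V := by
        refine (card_le_univ I).trans ?_
        rw [Fintype.card_prod, Fintype.card_finset, ← mul_pow]
        norm_num
      exact_mod_cast this
    rw [nsmul_eq_mul, show (16 : ℝ) = 4 * 4 by norm_num, mul_pow, mul_assoc]
    exact mul_le_mul_of_nonneg_right h3 (by positivity)

open Classical in
/-- vertices in small dense sets -/
noncomputable def Zs (l0 : ℕ) (B : Finset (Sym2 V)) : Finset V :=
  (univ.filter fun U : Finset V => U.Nonempty ∧ U.card ≤ l0 ∧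
    2 * U.card < arcs (gr B).Adj U U + 2).biUnion id

theorem Zs_spec {l0 : ℕ} {B : Finset (Sym2 V)} {U : Finset V} (h1 : U.Nonempty) (h2 : U.card ≤ l0)
    (h3 : Disjoint U (Zs l0 B)) : arcs (gr B).Adj U U + 2 ≤ 2 * U.card := by
  by_contra hc
  obtain ⟨x, hx⟩ := id h1
  refine disjoint_left.1 h3 hx ?_
  unfold Zs
  rw [mem_biUnion]
  exact ⟨U, by simp only [mem_filter, mem_univ, true_and]; exact ⟨h1, h2, by omega⟩, hx⟩

theorem Ex_Zs (l0 : ℕ) {ρ : ℝ} (h0 : 0 ≤ ρ) (h1 : ρ ≤ 1) :
    Ex ρ (EV V) (fun B => ((Zs l0 B).card : ℝ)) ≤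
      l0 * 2 ^ ((l0 + 1) ^ 2) * Real.exp (ρ * Fintype.card V) := by
  classical
  let I : Finset (Finset V) := univ.filter fun U => U.card ≤ l0
  let J : Finset V → Finset (Finset (Sym2 V)) := fun U => powersetCard U.card (U.sym2 ∩ EV V)
  refine le_trans (Ex_mono (g := fun B => ∑ U ∈ I, (l0 : ℝ) * ∑ t ∈ J U,
    if t ⊆ B then 1 else 0) h0 h1 fun B _ => ?_) ?_
  · unfold Zs
    refine le_trans (Nat.cast_le.2 card_biUnion_le) ?_
    push_cast
    refine le_trans (sum_le_sum (g := fun U => (l0 : ℝ) * ∑ t ∈ J U, if t ⊆ B then 1 else 0)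
      fun U hU => ?_) (sum_le_sum_of_subset_of_nonneg (fun U hU => ?_) fun U _ _ => by positivity)
    · simp only [mem_filter, mem_univ, true_and] at hU
      have e1 : arcs (gr B).Adj U U ≤ 2 * (U.sym2 ∩ EV V ∩ B).card := by
        unfold arcs
        refine (card_le_two_mul_image _).trans (Nat.mul_le_mul_left 2 (card_le_card fun z hz => ?_))
        obtain ⟨q, hq, rfl⟩ := mem_image.1 hz
        simp only [mem_filter, mem_product, gr_adj] at hq
        simp [mem_EV, hq.1.1, hq.1.2, hq.2.1, hq.2.2]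
      obtain ⟨t, ht1, ht2⟩ := exists_subset_card_eq (s := U.sym2 ∩ EV V ∩ B) (n := U.card)
        (by omega)
      have e2 : (1 : ℝ) ≤ ∑ t ∈ J U, if t ⊆ B then 1 else 0 := by
        refine le_trans ?_ (single_le_sum (f := fun t => if t ⊆ B then (1 : ℝ) else 0)
          (fun t _ => by positivity) (a := t)
          (mem_powersetCard.2 ⟨ht1.trans inter_subset_left, ht2⟩))
        simp [ht1.trans inter_subset_right]
      have e3 : (U.card : ℝ) ≤ l0 := by exact_mod_cast hU.2.1
      simp only [id]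
      nlinarith [Nat.cast_nonneg (α := ℝ) l0]
    · simp only [I, mem_filter, mem_univ, true_and] at hU ⊢
      exact hU.2.1
  · rw [Ex_sum]
    have h2 : ∀ U ∈ I, Ex ρ (EV V) (fun B => (l0 : ℝ) * ∑ t ∈ J U, if t ⊆ B then 1 else 0) ≤
        l0 * 2 ^ ((l0 + 1) ^ 2) * ρ ^ U.card := by
      intro U hU
      rw [Ex_mul, Ex_sum, mul_assoc]
      refine mul_le_mul_of_nonneg_left ?_ (by positivity)
      rw [sum_congr rfl (g := fun _ => ρ ^ U.card) fun t ht => by
        rw [Ex_subset ρ ((mem_powersetCard.1 ht).1.trans inter_subset_right),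
          (mem_powersetCard.1 ht).2], sum_const, nsmul_eq_mul]
      refine mul_le_mul_of_nonneg_right ?_ (by positivity)
      have e1 : (J U).card ≤ 2 ^ ((l0 + 1) ^ 2) := by
        rw [card_powersetCard]
        refine (Nat.choose_le_two_pow _ _).trans (Nat.pow_le_pow_right (by norm_num) ?_)
        refine (card_le_card inter_subset_left).trans ?_
        rw [card_sym2]
        refine (Nat.choose_le_pow _ _).trans (Nat.pow_le_pow_left ?_ 2)
        have := (mem_filter.1 hU).2
        omega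
      exact_mod_cast e1
    refine (sum_le_sum h2).trans ?_
    rw [← mul_sum]
    refine mul_le_mul_of_nonneg_left ?_ (by positivity)
    have e1 : ∑ U ∈ I, ρ ^ U.card ≤ ∑ U ∈ (univ : Finset V).powerset, ρ ^ U.card :=
      sum_le_sum_of_subset_of_nonneg (fun U _ => by simp) fun U _ _ => by positivity
    have e2 := prod_add_one (s := (univ : Finset V)) (f := fun _ => ρ)
    simp only [prod_const, card_univ] at e2
    refine e1.trans (e2.ge.trans ?_)
    rw [mul_comm, Real.exp_nat_mul]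
    exact pow_le_pow_left₀ (by linarith) (Real.add_one_le_exp ρ) _

theorem near_ham (H : SimpleGraph V) {d k l0 : ℕ} (hd : ∀ v, d ≤ dg H.Adj v univ)
    (hl : 0 < l0) (hk0 : 0 < k) (hk : Fintype.card V ≤ l0 * k) {p ρ : ℝ} (hp0 : 0 ≤ p)
    (hp1 : p ≤ 1) (h0 : 0 ≤ ρ) (h1 : ρ ≤ 1) :
    Pr p (EV V) (fun A => ell (H ⊔ gr A).Adj univ + 7 * k < Fintype.card V) ≤
      16 ^ Fintype.card V * Real.exp (-(ρ * k ^ 2 / 4)) +
      l0 * 2 ^ ((l0 + 1) ^ 2) * Real.exp ((p + ρ) * Fintype.card V) / k +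
      Fintype.card V * (1 - PL (Fintype.card V - d) (Fintype.card V - 2 * d - k) p) / k := by
  classical
  have hS : ∀ v, ∃ S : Finset V, (∀ y ∈ S, H.Adj v y) ∧ S.card = d := by
    intro v
    obtain ⟨S, h2, h3⟩ := exists_subset_card_eq (hd v)
    exact ⟨S, fun y hy => (mem_filter.1 (h2 hy)).2, h3⟩
  choose Sv hS1 hS2 using hS
  set n := Fintype.card V with hn
  have hkr : (0 : ℝ) < k := by exact_mod_cast hk0
  let E1 : Finset (Sym2 V) → Prop := fun R => ¬ ∀ T S : Finset V, k * k ≤ arcs H.Adj T S →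
      2 * n ≤ arcs (H ⊓ gr R).Adj T S
  let bad : Finset (Sym2 V) → Finset V := fun A =>
    univ.filter fun v => ¬ LF (gr A).Adj (Sv v)ᶜ (n - 2 * d - k)
  have hf : ∀ A, Ex ρ (EV V) (fun R => (if E1 R then 1 else 0) +
      (1 / k : ℝ) * (Zs l0 (A ∪ R)).card) = Pr ρ (EV V) E1 +
      (1 / k : ℝ) * Ex ρ (EV V) (fun R => (Zs l0 (A ∪ R)).card) := by
    intro A
    rw [Ex_add, Ex_mul]
    congr
    funext R
    congr
  refine le_trans (Pr_le_Ex (f := fun A => Ex ρ (EV V) (fun R => (if E1 R then 1 else 0) +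
      (1 / k : ℝ) * (Zs l0 (A ∪ R)).card) + (1 / k : ℝ) * (bad A).card) hp0 hp1
      (fun A _ => add_nonneg (const_le_Ex h0 h1 fun R _ => by positivity) (by positivity))
      fun A _ hA => ?_) ?_
  · have hone : ∀ m : ℕ, k < m → (1 : ℝ) ≤ (1 / k : ℝ) * m := by
      intro m hm
      rw [one_div, ← div_eq_inv_mul, le_div_iff₀ hkr, one_mul]
      exact_mod_cast hm.le
    by_cases hb : (bad A).card ≤ k
    · refine le_add_of_le_of_nonneg (const_le_Ex h0 h1 fun R _ => ?_) (by positivity)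
      by_cases hE : E1 R
      · rw [if_pos hE]
        exact le_add_of_nonneg_right (by positivity)
      · rw [if_neg hE, zero_add]
        refine hone _ ?_
        by_contra hZ
        simp only [E1, not_not] at hE
        obtain ⟨L, hL1, hL2⟩ := core (r := ((H ⊓ gr R) ⊔ gr A).Adj) (h := H.Adj) (g := (gr A).Adj)
          (fun _ _ h => h.symm) (fun _ _ h => h.symm) (fun _ _ h => Or.inr h) l0 k d hl hk
          (fun T S h => (hE T S h).trans
            (arcs_mono subset_rfl subset_rfl fun _ _ _ _ h => Or.inl h))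
          Sv hS1 hS2 (bad A) hb
          (fun v hv => by
            simp only [bad, mem_filter, mem_univ, true_and, not_not] at hv
            obtain ⟨L, h2, h3, h4⟩ := hv.spanning
            exact ⟨L, h2, by simpa using h3, by omega⟩)
          (Zs l0 (A ∪ R)) (not_lt.1 hZ)
          (fun U h2 h3 h4 => le_trans (Nat.add_le_add_right
            (arcs_mono subset_rfl subset_rfl fun x _ y _ h => h.elim
              (fun h => gr_mono subset_union_right h.2) fun h => gr_mono subset_union_left h) 2)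
            (Zs_spec h2 h3 h4))
        have e1 : cnt ((H ⊓ gr R) ⊔ gr A).Adj L ≤ cnt (H ⊔ gr A).Adj L :=
          cnt_mono fun x _ y _ h => h.elim (fun h => Or.inl h.1) Or.inr
        have e2 := cnt_le_ell (r := (H ⊔ gr A).Adj) (W := univ) hL1 (by simp)
        omega
    · exact le_add_of_nonneg_of_le (const_le_Ex h0 h1 fun R _ => by positivity)
        (hone _ (not_le.1 hb))
  · simp only [hf]
    rw [Ex_add, Ex_add, Ex_const, Ex_mul, Ex_mul,
      Ex_union p ρ (EV V) (fun B => ((Zs l0 B).card : ℝ))]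
    have e0 : 0 ≤ p * ρ := mul_nonneg hp0 h0
    have e1 := Ex_Zs (V := V) l0 (ρ := p + ρ - p * ρ) (by nlinarith) (by nlinarith)
    have e2 : Real.exp ((p + ρ - p * ρ) * n) ≤ Real.exp ((p + ρ) * n) :=
      Real.exp_le_exp.2 (mul_le_mul_of_nonneg_right (by linarith) (by positivity))
    have e3 : Ex p (EV V) (fun A => ((bad A).card : ℝ)) =
        n * (1 - PL (n - d) (n - 2 * d - k) p) := by
      have : ∀ v, Pr p (EV V) (fun A => ¬ LF (gr A).Adj (Sv v)ᶜ (n - 2 * d - k)) =
          1 - PL (n - d) (n - 2 * d - k) p := by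
        intro v
        rw [Pr_not, transfer', card_compl, hS2]
      rw [Ex_congr p (g := fun A => ∑ v, if ¬ LF (gr A).Adj (Sv v)ᶜ (n - 2 * d - k) then 1 else 0)
        (fun A _ => by simp only [bad, card_filter]; push_cast; rfl), Ex_sum]
      rw [sum_congr rfl (g := fun _ => 1 - PL (n - d) (n - 2 * d - k) p) fun v _ => by
        rw [← this v]; unfold Pr; congr; funext A; congr]
      simp only [sum_const, card_univ, nsmul_eq_mul, hn]
    rw [e3]
    refine add_le_add (add_le_add (expander H h0 h1 k) ?_) (le_of_eq (by ring))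
    rw [one_div, ← div_eq_inv_mul]
    gcongr
    exact e1.trans (mul_le_mul_of_nonneg_left e2 (by positivity))

theorem boost_ham (H : SimpleGraph V) (hn : 3 ≤ Fintype.card V) {d : ℕ} (hd2 : 2 ≤ d)
    (hd : ∀ v, d ≤ dg H.Adj v univ) {q : ℝ} (h1 : q ≤ 1) (R : ℕ) (hR : R * (2 / d ^ 2 : ℝ) ≤ q)
    (A : Finset (Sym2 V)) :
    Pr q (EV V) (fun B => ¬ (H ⊔ gr (A ∪ B)).IsHamiltonian) ≤
      2 ^ Fintype.card V * (1 / 2) ^ pot (H ⊔ gr A) * (3 / 4) ^ R := by
  have hdr : (2 : ℝ) ≤ d := by exact_mod_cast hd2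
  rw [Pr_congr q (F := fun B => pot (H ⊔ gr (A ∪ B)) < Fintype.card V)
    fun B _ => (pot_lt_iff (by omega)).symm]
  refine booster (fun A => pot (H ⊔ gr A)) (fun A B h => pot_mono (sup_le_sup_left (gr_mono h) _))
    _ (by positivity) h1 R hR (by rw [div_le_one (by positivity)]; nlinarith) (fun A hA => ?_) A
  obtain ⟨t, h2, h3⟩ := boosters (G := H ⊔ gr A) hn
    (fun v => (hd v).trans (dg_mono subset_rfl fun _ _ h => Or.inl h))
    ((pot_lt_iff (by omega)).1 hA)
  refine ⟨t, fun e he => mem_EV.2 (h3 e he).1, ?_, fun e he => (h3 e he).2 _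
    (sup_le_sup_left (gr_mono (subset_insert _ _)) _) ?_⟩
  · rw [div_mul_eq_mul_div, le_div_iff₀ (by positivity), one_mul, sq]
    exact_mod_cast h2
  · have := (h3 e he).1
    induction e with
    | h a b => exact Or.inr (gr_adj.2 ⟨mem_insert_self _ _, by simpa using this⟩)

theorem main_fin (H : SimpleGraph V) (hn : 3 ≤ Fintype.card V) {d k l0 : ℕ} (hd2 : 2 ≤ d)
    (hd : ∀ v, d ≤ dg H.Adj v univ)
    (hl : 0 < l0) (hk0 : 0 < k) (hk : Fintype.card V ≤ l0 * k) {p ρ q p' : ℝ} (hp0 : 0 ≤ p)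
    (h0 : 0 ≤ ρ) (h1 : ρ ≤ 1) (hq : (21 * k : ℕ) * (2 / d ^ 2 : ℝ) ≤ q) (hp' : p + q ≤ p')
    (hp1 : p' ≤ 1) :
    Pr p' (EV V) (fun A => ¬ (H ⊔ gr A).IsHamiltonian) ≤
      16 ^ Fintype.card V * Real.exp (-(ρ * k ^ 2 / 4)) +
      l0 * 2 ^ ((l0 + 1) ^ 2) * Real.exp ((p + ρ) * Fintype.card V) / k +
      Fintype.card V * (1 - PL (Fintype.card V - d) (Fintype.card V - 2 * d - k) p) / k +
      (27 / 32) ^ (7 * k) := by
  classical
  have hq0 : 0 ≤ q := le_trans (by positivity) hq
  have e0 : 0 ≤ p * q := mul_nonneg hp0 hq0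
  have e1 : Pr p' (EV V) (fun A => ¬ (H ⊔ gr A).IsHamiltonian) ≤
      Pr (p + q - p * q) (EV V) (fun A => ¬ (H ⊔ gr A).IsHamiltonian) := by
    rw [Pr_not, Pr_not]
    have := Pr_mono_p (p := p + q - p * q) (q := p') (by nlinarith) (by linarith) hp1 (EV V)
      (E := fun A => (H ⊔ gr A).IsHamiltonian)
      fun A B h h' => h'.mono (sup_le_sup_left (gr_mono h) _)
    linarith
  refine e1.trans (le_trans ?_ (add_le_add_left
    (near_ham H hd hl hk0 hk hp0 (by linarith) h0 h1) _))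
  unfold Pr
  rw [← Ex_union, ← Ex_const p (EV V) ((27 / 32 : ℝ) ^ (7 * k)), ← Ex_add]
  refine Ex_mono hp0 (by linarith) fun A _ => ?_
  change Pr q (EV V) (fun B => ¬ (H ⊔ gr (A ∪ B)).IsHamiltonian) ≤ _
  split_ifs with h
  · exact le_add_of_le_of_nonneg (Pr_le_one hq0 (by linarith) _ _) (by positivity)
  · rw [zero_add]
    refine (boost_ham H hn hd2 hd (by linarith) (21 * k) hq A).trans ?_
    have e2 := ell_le_pot (H ⊔ gr A)
    have e3 : (2 : ℝ) ^ Fintype.card V * (1 / 2) ^ pot (H ⊔ gr A) ≤ 2 ^ (7 * k) := by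
      rw [one_div, inv_pow, ← div_eq_mul_inv, div_le_iff₀ (by positivity), ← pow_add]
      exact pow_le_pow_right₀ (by norm_num) (by omega)
    refine (mul_le_mul_of_nonneg_right e3 (by positivity)).trans (le_of_eq ?_)
    rw [show 21 * k = 3 * (7 * k) by ring, pow_mul (3 / 4 : ℝ) 3 (7 * k), ← mul_pow]
    norm_num

/-- the complete bipartite graph between `A` and its complement -/
def bip (A : Finset V) : SimpleGraph V where
  Adj x y := (x ∈ A ∧ y ∉ A) ∨ (x ∉ A ∧ y ∈ A)
  symm := ⟨fun _ _ h => h.elim (fun h => Or.inr ⟨h.2, h.1⟩) fun h => Or.inl ⟨h.2, h.1⟩⟩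
  loopless := ⟨fun _ h => h.elim (fun h => h.2 h.1) fun h => h.1 h.2⟩

theorem bip_dg (A : Finset V) (h : 2 * A.card ≤ Fintype.card V) (v : V) :
    A.card ≤ dg (bip A).Adj v univ := by
  classical
  unfold dg
  by_cases hv : v ∈ A
  · refine le_trans ?_ (card_le_card (s := Aᶜ) fun y hy => ?_)
    · rw [card_compl]; omega
    · simp only [mem_filter, mem_univ, true_and]
      exact Or.inl ⟨hv, mem_compl.1 hy⟩
  · refine card_le_card fun y hy => ?_
    simp only [mem_filter, mem_univ, true_and]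
    exact Or.inr ⟨hv, hy⟩

theorem ham_le_PL (hn : 2 ≤ Fintype.card V) (A : Finset V) (hA : A.Nonempty) {p : ℝ}
    (h0 : 0 ≤ p) (h1 : p ≤ 1) :
    Pr p (EV V) (fun B => (bip A ⊔ gr B).IsHamiltonian) ≤
      PL (Fintype.card V - A.card) (Fintype.card V - 2 * A.card) p := by
  rw [← card_compl, ← transfer']
  refine Pr_mono h0 h1 fun B _ h => LF_of_ham hn A hA (fun x y hxy => ?_) h
  rcases hxy with (h | h) | h
  · exact Or.inl h.1
  · exact Or.inr (Or.inl h.2)
  · exact Or.inr (Or.inr h)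

theorem ell_lip (e : Sym2 V) (A : Finset (Sym2 V)) :
    ell (gr (insert e A)).Adj univ ≤ ell (gr A).Adj univ + 1 := by
  refine ell_edge e fun x y h => ?_
  rw [gr_adj, mem_insert] at h
  exact h.1.elim Or.inr fun h' => Or.inl (gr_adj.2 ⟨h', h.2⟩)

theorem ell_le_card (A : Finset (Sym2 V)) : ell (gr A).Adj univ ≤ A.card := by
  induction A using Finset.induction_on with
  | empty =>
    obtain ⟨L, -, -, h⟩ := LF_ell (gr (∅ : Finset (Sym2 V))).Adj univ
    refine h.trans ?_
    induction L with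
    | nil => simp
    | cons a t ih =>
      clear h ih
      induction t generalizing a with
      | nil => simp
      | cons b t ih => rw [cnt_neg (by simp [gr_adj])]; exact ih b
  | insert a s ha ih => rw [card_insert_of_notMem ha]; exact (ell_lip a s).trans (by omega)

theorem PL_le (N m : ℕ) (hm : 0 < m) {p : ℝ} (h0 : 0 ≤ p) (h1 : p ≤ 1) :
    PL N m p ≤ p * N ^ 2 / m := by
  have hmr : (0 : ℝ) < m := by exact_mod_cast hm
  refine le_trans (Pr_le_Ex (f := fun A => (1 / m : ℝ) * A.card) h0 h1 (fun A _ => by positivity)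
    fun A _ hA => ?_) ?_
  · rw [one_div, ← div_eq_inv_mul, le_div_iff₀ hmr, one_mul]
    exact_mod_cast (LF_iff.1 hA).trans (ell_le_card A)
  · rw [Ex_mul, Ex_card, one_div, ← div_eq_inv_mul]
    gcongr
    have := card_EV_le (V := Fin N)
    rw [Fintype.card_fin] at this
    exact_mod_cast this

theorem PL_mono (N m : ℕ) {p q : ℝ} (h0 : 0 ≤ p) (hpq : p ≤ q) (h1 : q ≤ 1) :
    PL N m p ≤ PL N m q :=
  Pr_mono_p h0 hpq h1 _ fun _ _ h h' =>
    LF_iff.2 ((LF_iff.1 h').trans (ell_mono fun _ _ _ _ h'' => gr_mono h h''))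

theorem PL_conc (N m k : ℕ) (hk : 0 < k) {p δ : ℝ} (h0 : 0 ≤ p) (h1 : p ≤ 1)
    (hδ : 4 * (p * N ^ 2) < δ * k ^ 2) (hm : δ ≤ PL N m p) :
    1 - PL N (m - k) p ≤ 4 * (p * N ^ 2) / k ^ 2 := by
  have hkr : (0 : ℝ) < k := by exact_mod_cast hk
  have e0 : ((EV (Fin N)).card : ℝ) ≤ N ^ 2 := by
    have := card_EV_le (V := Fin N)
    rw [Fintype.card_fin] at this
    exact_mod_cast this
  have e1 := Pr_conc h0 h1 (EV (Fin N)) (f := fun A => (ell (gr A).Adj univ : ℝ))
    (fun a A => by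
      have h2 : (ell (gr (insert a A)).Adj univ : ℝ) ≤ ell (gr A).Adj univ + 1 := by
        exact_mod_cast ell_lip a A
      have h3 : (ell (gr A).Adj univ : ℝ) ≤ ell (gr (insert a A)).Adj univ := by
        exact_mod_cast ell_mono fun _ _ _ _ h => gr_mono (subset_insert a A) h
      rw [abs_le]
      constructor <;> linarith) m k δ hkr
    (lt_of_le_of_lt (by gcongr) hδ)
    (hm.trans (Pr_mono h0 h1 fun A _ h => by exact_mod_cast LF_iff.1 h))
  unfold PL
  rw [← Pr_not]
  refine le_trans (Pr_mono h0 h1 fun A _ h => ?_) (e1.trans (by gcongr))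
  rw [LF_iff] at h
  have : ell (gr A).Adj univ + k ≤ m := by omega
  rw [le_sub_iff_add_le]
  exact_mod_cast this

end Pool.Agent.H351Z.RG
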