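import Pool.Agent.H113Z.Dist.Defs

/-! Asymptotics of the piecewise affine vector field. -/

set_option autoImplicit false

namespace Pool.Agent.H113Z.Dist
open Filter Topology Set

namespace Zas

theorem ramp_cd : ContDiff ℝ 1 ramp := by
  unfold ramp
  exact contDiff_id.mul (Real.smoothTransition.contDiff.comp
    ((contDiff_id.add contDiff_const).div_const 2))

theorem ramp_abs (u : ℝ) : |ramp u| ≤ |u| := by
  unfold ramp
  rw [abs_mul, abs_of_nonneg (Real.smoothTransition.nonneg _)]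
  exact mul_le_of_le_one_right (abs_nonneg _) (Real.smoothTransition.le_one _)

theorem ramp_der : ∃ M : ℝ, 0 ≤ M ∧ ∀ u, |deriv ramp u| ≤ M := by
  have hc : Continuous (deriv ramp) := ramp_cd.continuous_deriv le_rfl
  obtain ⟨M, hM⟩ := (isCompact_Icc (a := (-1 : ℝ)) (b := 1)).exists_bound_of_continuousOn
    hc.continuousOn
  refine ⟨max M 1, le_trans zero_le_one (le_max_right _ _), fun u => ?_⟩
  rcases lt_or_ge u (-1) with h | h
  · have : ramp =ᶠ[𝓝 u] fun _ => 0 := by
      filter_upwards [Iio_mem_nhds h] with v hv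
      unfold ramp
      rw [Real.smoothTransition.zero_of_nonpos (by simp only [mem_Iio] at hv; linarith), mul_zero]
    rw [this.deriv_eq]
    simp
  rcases lt_or_ge 1 u with h' | h'
  · have : ramp =ᶠ[𝓝 u] fun v => v := by
      filter_upwards [Ioi_mem_nhds h'] with v hv
      unfold ramp
      rw [Real.smoothTransition.one_of_one_le (by simp only [mem_Ioi] at hv; linarith), mul_one]
    rw [this.deriv_eq]
    simp
  · exact le_trans (by simpa using hM u ⟨h, h'⟩) (le_max_left _ _)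

theorem four_pow (e : ℕ) : (4 : ℝ) ^ e = (2 ^ e) ^ 2 := by
  rw [← pow_mul, mul_comm, pow_mul]; norm_num

theorem kap_bd (e n : ℕ) (hn : (3 : ℝ) ≤ n) :
    0 ≤ kap e n ∧ kap e n ≤ 3 / ((2 ^ e) ^ 2 * ((n : ℝ) - 1) * n * (n + 1)) := by
  have ht : (0 : ℝ) < 2 ^ e := by positivity
  have h1 : (0 : ℝ) < (n : ℝ) - 1 := by linarith
  have h0 : (0 : ℝ) < n := by linarith
  unfold kap
  rw [four_pow]
  split_ifs
  · refine ⟨by positivity, ?_⟩
    apply div_le_div_of_nonneg_right (by norm_num) (by positivity)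
  · refine ⟨by positivity, ?_⟩
    apply div_le_div_of_nonneg_left (by norm_num) (by positivity)
    apply mul_le_mul_of_nonneg_left (by linarith) (by positivity)

theorem Fz_der (e n : ℕ) (hn : (3 : ℝ) ≤ n) (y : ℝ) :
    HasDerivAt (Fz e n) (-1 / ((2 ^ e) ^ 2 * (n : ℝ) * ((n : ℝ) - 1)) +
      kap e n * deriv ramp ((y - 2 ^ e * n) / (2 ^ e * wd n))) y := by
  have ht : (0 : ℝ) < 2 ^ e := by positivity
  have h0 : (0 : ℝ) < n := by linarith
  have hw : 0 < wd n := by unfold wd; positivity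
  have hL : (0 : ℝ) < 2 ^ e * wd n := by positivity
  have h1 : HasDerivAt (lin e n) (-1 / ((2 ^ e) ^ 2 * (n : ℝ) * ((n : ℝ) - 1))) y := by
    unfold lin
    rw [four_pow]
    exact ((hasDerivAt_id' y).const_sub _).div_const _
  have h2 : HasDerivAt (fun y : ℝ => (y - 2 ^ e * n) / (2 ^ e * wd n)) (1 / (2 ^ e * wd n)) y :=
    ((hasDerivAt_id' y).sub_const _).div_const _
  have h3 : HasDerivAt ramp (deriv ramp ((y - 2 ^ e * n) / (2 ^ e * wd n)))
      ((y - 2 ^ e * n) / (2 ^ e * wd n)) :=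
    ((ramp_cd.differentiable one_ne_zero) _).hasDerivAt
  have h4 := (h3.comp y h2).const_mul (kap e n * (2 ^ e * wd n))
  have h5 := h1.add h4
  have e1 : kap e n * deriv ramp ((y - 2 ^ e * n) / (2 ^ e * wd n)) =
      kap e n * (2 ^ e * wd n) * (deriv ramp ((y - 2 ^ e * n) / (2 ^ e * wd n)) *
        (1 / (2 ^ e * wd n))) := by
    field_simp
  rw [e1]
  exact h5

theorem alg1 (t N x k r : ℝ) (ht : 0 < t) (hN : 3 ≤ N) (hx : |x| ≤ 11 / 16) (hk0 : 0 ≤ k)
    (hk : k ≤ 3 / (t ^ 2 * (N - 1) * N * (N + 1))) (hr : |r| ≤ |t * x|) :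
    |t * (N + x) * ((t * (2 * N - 1) - t * (N + x)) / (t ^ 2 * N * (N - 1)) + k * r) - 1|
      ≤ 8 / N ^ 2 := by
  have h1 : 0 < N - 1 := by linarith
  have h0 : 0 < N := by linarith
  obtain ⟨hx1, hx2⟩ := abs_le.1 hx
  have e1 : t * (N + x) * ((t * (2 * N - 1) - t * (N + x)) / (t ^ 2 * N * (N - 1)) + k * r) - 1
      = -(x * (1 + x)) / (N * (N - 1)) + t * (N + x) * k * r := by
    field_simp
    ring
  rw [e1]
  have b1 : |-(x * (1 + x)) / (N * (N - 1))| ≤ 2 / (N * (N - 1)) := by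
    rw [abs_div, abs_of_pos (show 0 < N * (N - 1) by positivity)]
    apply div_le_div_of_nonneg_right _ (by positivity)
    rw [abs_le]
    constructor <;> nlinarith
  have b2 : |t * (N + x) * k * r| ≤ 3 / (N * (N - 1)) := by
    rw [abs_mul, abs_of_nonneg (show 0 ≤ t * (N + x) * k by
      have : 0 < N + x := by linarith
      positivity)]
    have hr' : |r| ≤ t := by
      refine hr.trans ?_
      rw [abs_mul, abs_of_pos ht]
      nlinarith [abs_nonneg x]
    calc t * (N + x) * k * |r| ≤ t * (N + 1) * (3 / (t ^ 2 * (N - 1) * N * (N + 1))) * t := by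
          have : 0 < N + x := by linarith
          apply mul_le_mul _ hr' (abs_nonneg _) (by positivity)
          apply mul_le_mul _ hk hk0 (by positivity)
          apply mul_le_mul_of_nonneg_left (by linarith) ht.le
      _ = 3 / (N * (N - 1)) := by
          have : 0 < N + 1 := by linarith
          field_simp
  have b3 : 2 / (N * (N - 1)) + 3 / (N * (N - 1)) ≤ 8 / N ^ 2 := by
    rw [← add_div, div_le_div_iff₀ (by positivity) (by positivity)]
    nlinarith
  exact (abs_add_le _ _).trans (by linarith)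

theorem alg2 (t N x k r M : ℝ) (ht : 0 < t) (hN : 3 ≤ N) (hx : |x| ≤ 11 / 16) (hk0 : 0 ≤ k)
    (hk : k ≤ 3 / (t ^ 2 * (N - 1) * N * (N + 1))) (hM : 0 ≤ M) (hr : |r| ≤ M) :
    |(t * (N + x)) ^ 2 * (-1 / (t ^ 2 * N * (N - 1)) + k * r) - (-1)| ≤ (5 + 6 * M) / N := by
  have h1 : 0 < N - 1 := by linarith
  have h0 : 0 < N := by linarith
  obtain ⟨hx1, hx2⟩ := abs_le.1 hx
  have e1 : (t * (N + x)) ^ 2 * (-1 / (t ^ 2 * N * (N - 1)) + k * r) - (-1)
      = -(2 * N * x + x ^ 2 + N) / (N * (N - 1)) + (t * (N + x)) ^ 2 * k * r := by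
    field_simp
    ring
  rw [e1]
  have b1 : |-(2 * N * x + x ^ 2 + N) / (N * (N - 1))| ≤ 5 / N := by
    rw [abs_div, abs_of_pos (show 0 < N * (N - 1) by positivity), div_le_div_iff₀ (by positivity) h0]
    have : |-(2 * N * x + x ^ 2 + N)| ≤ 3 * N := by
      rw [abs_le]
      constructor <;> nlinarith
    nlinarith
  have b2 : |(t * (N + x)) ^ 2 * k * r| ≤ 6 * M / N := by
    rw [abs_mul, abs_of_nonneg (show 0 ≤ (t * (N + x)) ^ 2 * k by positivity)]
    have hp : 0 < N + x := by linarith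
    have hp1 : 0 < N + 1 := by linarith
    calc (t * (N + x)) ^ 2 * k * |r|
        ≤ (t * (N + 1)) ^ 2 * (3 / (t ^ 2 * (N - 1) * N * (N + 1))) * M := by
          apply mul_le_mul _ hr (abs_nonneg _) (by positivity)
          apply mul_le_mul _ hk hk0 (by positivity)
          apply pow_le_pow_left₀ (by positivity)
          apply mul_le_mul_of_nonneg_left (by linarith) ht.le
      _ = 3 * (N + 1) / (N - 1) * M / N := by
          field_simp
      _ ≤ 6 * M / N := by
          apply div_le_div_of_nonneg_right _ h0.le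
          apply mul_le_mul_of_nonneg_right _ hM
          rw [div_le_iff₀ h1]
          linarith
  have : (5 + 6 * M) / N = 5 / N + 6 * M / N := by ring
  rw [this]
  exact (abs_add_le _ _).trans (by linarith)

theorem key (hC : Cover) (z : ℝ → ℝ) (hz : ZLoc z) : ∃ C : ℝ, ∀ y : ℝ, 24 ≤ y →
    ContinuousAt z y ∧ |y * z y - 1| ≤ 32 / Real.log y ^ 2 ∧
      |y ^ 2 * deriv z y - (-1)| ≤ C / Real.log y := by
  obtain ⟨M, hM0, hM⟩ := ramp_der
  refine ⟨2 * (5 + 6 * M), fun y hy => ?_⟩
  obtain ⟨e, n, he, hen, hn2, hyn⟩ := hC y hy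
  have ht : (0 : ℝ) < 2 ^ e := by positivity
  have hN : (3 : ℝ) ≤ n := by exact_mod_cast he.trans hen
  have h0 : (0 : ℝ) < n := by linarith
  have hloc : z =ᶠ[𝓝 y] Fz e n := by
    have hc : Continuous fun v : ℝ => |v - 2 ^ e * n| := by fun_prop
    have : ∀ᶠ v : ℝ in 𝓝 y, |v - 2 ^ e * n| < 3 / 4 * 2 ^ e :=
      hc.continuousAt.eventually_lt continuousAt_const (by linarith)
    filter_upwards [this] with v hv using hz e n he hen hn2 v hv
  have hd := Fz_der e n hN y
  obtain ⟨hk0, hk⟩ := kap_bd e n hN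
  obtain ⟨x, hx⟩ : ∃ x : ℝ, y = 2 ^ e * (n + x) := ⟨y / 2 ^ e - n, by field_simp; ring⟩
  have hx' : y - 2 ^ e * n = 2 ^ e * x := by rw [hx]; ring
  have hxa : |x| ≤ 11 / 16 := by
    rw [hx', abs_mul, abs_of_pos ht] at hyn
    nlinarith
  have hlp : 0 < Real.log y := Real.log_pos (by linarith)
  have hl : Real.log y ≤ 2 * n := by
    rw [Real.log_le_iff_le_exp (by linarith), two_mul, Real.exp_add]
    have a1 : (2 : ℝ) ^ e ≤ Real.exp n := by
      calc (2 : ℝ) ^ e ≤ 2 ^ n := pow_le_pow_right₀ (by norm_num) hen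
        _ ≤ (Real.exp 1) ^ n := by
          apply pow_le_pow_left₀ (by norm_num)
          linarith [Real.add_one_le_exp (1 : ℝ)]
        _ = Real.exp n := by rw [← Real.exp_nat_mul, mul_one]
    have a2 : (n : ℝ) + x ≤ Real.exp n := by
      linarith [Real.add_one_le_exp (n : ℝ), (abs_le.1 hxa).2]
    rw [hx]
    apply mul_le_mul a1 a2 (by linarith [(abs_le.1 hxa).1]) (Real.exp_pos _).le
  refine ⟨hd.continuousAt.congr hloc.symm, ?_, ?_⟩
  · rw [hloc.eq_of_nhds]
    have hw : 0 < wd n := by unfold wd; positivity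
    have hL : (0 : ℝ) < 2 ^ e * wd n := by positivity
    have hr : |(2 ^ e * wd n) * ramp ((y - 2 ^ e * n) / (2 ^ e * wd n))| ≤ |2 ^ e * x| := by
      rw [abs_mul, abs_of_pos hL, ← hx']
      refine (mul_le_mul_of_nonneg_left (ramp_abs _) hL.le).trans ?_
      rw [abs_div, abs_of_pos hL, mul_div_cancel₀ _ hL.ne']
    have := alg1 (2 ^ e) n x (kap e n) _ ht hN hxa hk0 hk hr
    rw [← hx] at this
    have e2 : Fz e n y = (2 ^ e * (2 * (n : ℝ) - 1) - y) / ((2 ^ e) ^ 2 * n * (n - 1)) +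
        kap e n * ((2 ^ e * wd n) * ramp ((y - 2 ^ e * n) / (2 ^ e * wd n))) := by
      unfold Fz lin
      rw [four_pow]; ring
    rw [e2]
    refine this.trans ?_
    rw [div_le_div_iff₀ (by positivity) (by positivity)]
    nlinarith
  · rw [hloc.deriv_eq, hd.deriv]
    have := alg2 (2 ^ e) n x (kap e n) _ M ht hN hxa hk0 hk hM0
      (hM ((y - 2 ^ e * n) / (2 ^ e * wd n)))
    rw [← hx] at this
    refine this.trans ?_
    rw [div_le_div_iff₀ h0 hlp]
    nlinarith

end Zas

theorem zasym (hC : Cover) (z : ℝ → ℝ) (hz : ZLoc z) : Z7 z := by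
  obtain ⟨C, hK⟩ := Zas.key hC z hz
  refine ⟨?_, ?_, 24, ?_⟩
  · rw [tendsto_iff_norm_sub_tendsto_zero]
    have h : Tendsto (fun y : ℝ => 32 / Real.log y ^ 2) atTop (𝓝 0) :=
      tendsto_const_nhds.div_atTop
        ((tendsto_pow_atTop two_ne_zero).comp Real.tendsto_log_atTop)
    refine squeeze_zero' (Eventually.of_forall fun _ => norm_nonneg _) ?_ h
    filter_upwards [eventually_ge_atTop (24 : ℝ)] with y hy using (hK y hy).2.1
  · rw [tendsto_iff_norm_sub_tendsto_zero]
    have h : Tendsto (fun y : ℝ => C / Real.log y) atTop (𝓝 0) :=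
      tendsto_const_nhds.div_atTop Real.tendsto_log_atTop
    refine squeeze_zero' (Eventually.of_forall fun _ => norm_nonneg _) ?_ h
    filter_upwards [eventually_ge_atTop (24 : ℝ)] with y hy using (hK y hy).2.2
  · have hi := (integrableOn_inv_div_log_sq_Ioi (show (1 : ℝ) < 24 by norm_num)).const_mul 32
    have hc : ContinuousOn (fun y => z y - 1 / y) (Ioi 24) := by
      intro y hy
      have hy' : (24 : ℝ) < y := hy
      refine ContinuousAt.continuousWithinAt ?_
      exact (hK y hy'.le).1.sub (continuousAt_const.div continuousAt_id (by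
        show y ≠ 0
        linarith))
    refine MeasureTheory.Integrable.mono' hi (hc.aestronglyMeasurable measurableSet_Ioi) ?_
    rw [MeasureTheory.ae_restrict_iff' measurableSet_Ioi]
    refine Eventually.of_forall fun y hy => ?_
    have hy' : (24 : ℝ) < y := hy
    have hy0 : 0 < y := by linarith
    have h := (hK y hy'.le).2.1
    have e1 : z y - 1 / y = y⁻¹ * (y * z y - 1) := by field_simp
    rw [e1, Real.norm_eq_abs, abs_mul, abs_of_pos (inv_pos.2 hy0)]
    calc y⁻¹ * |y * z y - 1| ≤ y⁻¹ * (32 / Real.log y ^ 2) :=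
          mul_le_mul_of_nonneg_left h (inv_pos.2 hy0).le
      _ = 32 * (y⁻¹ / Real.log y ^ 2) := by ring

end Pool.Agent.H113Z.Dist
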